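import Mathlib

/-!
SMITH for Jacobians (MP_950c68_ag), block E: classes of ideals of a Dedekind domain, written
additively, with a total function `cls : Ideal R → Additive (ClassGroup R)` (value `0` at `⊥`), and
the action of ring isomorphisms.
-/

set_option autoImplicit false

open nonZeroDivisors

namespace Pool.Agent.SmJ

variable {R : Type} [CommRing R] [IsDedekindDomain R]

open scoped Classical in
/-- The class of a nonzero ideal (`0` for the zero ideal). -/
noncomputable def cls (I : Ideal R) : Additive (ClassGroup R) :=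
  if h : I = ⊥ then 0 else
    Additive.ofMul (ClassGroup.mk0 ⟨I, mem_nonZeroDivisors_of_ne_zero h⟩)

theorem cls_of_ne {I : Ideal R} (h : I ≠ ⊥) :
    cls I = Additive.ofMul (ClassGroup.mk0 ⟨I, mem_nonZeroDivisors_of_ne_zero h⟩) := dif_neg h

@[simp] theorem cls_bot : cls (⊥ : Ideal R) = 0 := dif_pos rfl

@[simp] theorem cls_top : cls (⊤ : Ideal R) = 0 := by
  have h : (⊤ : Ideal R) ≠ ⊥ := by simp
  rw [cls_of_ne h]
  have h1 : (⟨⊤, mem_nonZeroDivisors_of_ne_zero h⟩ : (Ideal R)⁰) = 1 :=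
    Subtype.ext Ideal.one_eq_top.symm
  rw [h1, map_one, ofMul_one]

theorem cls_mul {I I' : Ideal R} (h : I ≠ ⊥) (h' : I' ≠ ⊥) : cls (I * I') = cls I + cls I' := by
  rw [cls_of_ne h, cls_of_ne h', cls_of_ne (mul_ne_zero h h'), ← ofMul_mul, ← map_mul]
  rfl

theorem cls_pow {I : Ideal R} (h : I ≠ ⊥) (n : ℕ) : cls (I ^ n) = n • cls I := by
  induction n with
  | zero => rw [pow_zero, zero_smul, Ideal.one_eq_top, cls_top]
  | succ n ih => rw [pow_succ, cls_mul (pow_ne_zero n h) h, ih, succ_nsmul]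

theorem cls_prod {ι : Type*} (s : Finset ι) {I : ι → Ideal R} (h : ∀ i ∈ s, I i ≠ ⊥) :
    cls (∏ i ∈ s, I i) = ∑ i ∈ s, cls (I i) := by
  classical
  induction s using Finset.induction_on with
  | empty => simp
  | insert i s hi ih =>
    rw [Finset.prod_insert hi, Finset.sum_insert hi,
      cls_mul (h i (Finset.mem_insert_self _ _)) (Finset.prod_ne_zero_iff.mpr fun j hj =>
        h j (Finset.mem_insert_of_mem hj)), ih fun j hj => h j (Finset.mem_insert_of_mem hj)]

theorem cls_multiset (s : Multiset (Ideal R)) (h : ∀ I ∈ s, I ≠ ⊥) :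
    cls s.prod = (s.map cls).sum := by
  induction s using Multiset.induction_on with
  | empty => simp
  | cons I s ih =>
    rw [Multiset.prod_cons, Multiset.map_cons, Multiset.sum_cons,
      cls_mul (h I (Multiset.mem_cons_self _ _)) (Multiset.prod_ne_zero fun h0 =>
        h _ (Multiset.mem_cons_of_mem h0) rfl), ih fun J hJ => h J (Multiset.mem_cons_of_mem hJ)]

@[simp] theorem cls_span (z : R) : cls (Ideal.span {z}) = 0 := by
  by_cases h : z = 0
  · rw [h, Ideal.span_singleton_eq_bot.mpr rfl, cls_bot]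
  · have h' : Ideal.span {z} ≠ ⊥ := by rwa [Ne, Ideal.span_singleton_eq_bot]
    rw [cls_of_ne h']
    have := (ClassGroup.mk0_eq_one_iff (mem_nonZeroDivisors_of_ne_zero h')).mpr ⟨⟨z, rfl⟩⟩
    rw [this]
    rfl

theorem cls_eq_zero_iff {I : Ideal R} (h : I ≠ ⊥) : cls I = 0 ↔ ∃ z, I = Ideal.span {z} := by
  constructor
  · intro h0
    rw [cls_of_ne h] at h0
    obtain ⟨z, hz⟩ := (ClassGroup.mk0_eq_one_iff (mem_nonZeroDivisors_of_ne_zero h)).mp
      (Additive.ofMul.injective h0)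
    exact ⟨z, hz⟩
  · rintro ⟨z, rfl⟩
    exact cls_span z

theorem cls_eq_iff {I I' : Ideal R} (h : I ≠ ⊥) (h' : I' ≠ ⊥) :
    cls I = cls I' ↔ ∃ x y : R, x ≠ 0 ∧ y ≠ 0 ∧ Ideal.span {x} * I = Ideal.span {y} * I' := by
  rw [cls_of_ne h, cls_of_ne h', Additive.ofMul.injective.eq_iff, ClassGroup.mk0_eq_mk0_iff]
  constructor
  · rintro ⟨x, y, hx, hy, e⟩
    exact ⟨x, y, hx, hy, e⟩
  · rintro ⟨x, y, hx, hy, e⟩
    exact ⟨x, y, hx, hy, e⟩

theorem exists_cls (Q : Additive (ClassGroup R)) : ∃ I : Ideal R, I ≠ ⊥ ∧ cls I = Q := by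
  obtain ⟨I, hI⟩ := ClassGroup.mk0_surjective Q.toMul
  have h : (I : Ideal R) ≠ ⊥ := nonZeroDivisors.ne_zero I.2
  refine ⟨I, h, ?_⟩
  rw [cls_of_ne h]
  exact congrArg Additive.ofMul hI

/-- Every class is represented by an ideal, also its opposite: `I * I'` is principal. -/
theorem exists_cls_neg (I : Ideal R) (h : I ≠ ⊥) : ∃ I' : Ideal R, I' ≠ ⊥ ∧ ∃ z : R, z ≠ 0 ∧
    I * I' = Ideal.span {z} := by
  obtain ⟨z, hz, hz0⟩ := Submodule.exists_mem_ne_zero_of_ne_bot h
  obtain ⟨I', hI'⟩ := Ideal.dvd_span_singleton.mpr hz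
  refine ⟨I', ?_, z, hz0, hI'.symm⟩
  rintro rfl
  rw [Ideal.mul_bot, Ideal.span_singleton_eq_bot] at hI'
  exact hz0 hI'

theorem cls_induction {p : Additive (ClassGroup R) → Prop} (h0 : p 0)
    (h1 : ∀ P : Ideal R, P.IsPrime → P ≠ ⊥ → p (cls P)) (h2 : ∀ x y, p x → p y → p (x + y))
    (Q : Additive (ClassGroup R)) : p Q := by
  obtain ⟨I, hI, rfl⟩ := exists_cls Q
  revert hI
  refine UniqueFactorizationMonoid.induction_on_prime I ?_ ?_ ?_
  · intro h
    exact absurd rfl h
  · intro I hI _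
    rw [isUnit_iff_eq_one.mp hI, Ideal.one_eq_top, cls_top]
    exact h0
  · intro I P hI hP ih _
    rw [cls_mul hP.ne_zero hI]
    exact h2 _ _ (h1 P (Ideal.isPrime_of_prime hP) hP.ne_zero) (ih hI)

section map

variable {S : Type} [CommRing S] [IsDedekindDomain S]

omit [IsDedekindDomain R] [IsDedekindDomain S] in
theorem map_ne_bot (σ : R ≃+* S) {I : Ideal R} (h : I ≠ ⊥) :
    I.map (σ : R →+* S) ≠ ⊥ := by
  intro h0
  exact h ((Ideal.map_eq_bot_iff_of_injective σ.injective).mp h0)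

omit [IsDedekindDomain R] [IsDedekindDomain S] in
theorem map_span_mul (σ : R ≃+* S) (x : R) (I : Ideal R) :
    (Ideal.span {x} * I).map (σ : R →+* S) = Ideal.span {σ x} * I.map (σ : R →+* S) := by
  rw [Ideal.map_mul, Ideal.map_span, Set.image_singleton]
  rfl

theorem cls_map_congr (σ : R ≃+* S) {I I' : Ideal R} (h : I ≠ ⊥) (h' : I' ≠ ⊥)
    (e : cls I = cls I') : cls (I.map (σ : R →+* S)) = cls (I'.map (σ : R →+* S)) := by
  obtain ⟨x, y, hx, hy, e⟩ := (cls_eq_iff h h').mp e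
  refine (cls_eq_iff (map_ne_bot σ h) (map_ne_bot σ h')).mpr
    ⟨σ x, σ y, fun h0 => hx ((map_eq_zero_iff σ σ.injective).mp h0),
      fun h0 => hy ((map_eq_zero_iff σ σ.injective).mp h0), ?_⟩
  rw [← map_span_mul, ← map_span_mul, e]

/-- The action of a ring isomorphism on the class group. -/
noncomputable def jMap (σ : R ≃+* S) : Additive (ClassGroup R) →+ Additive (ClassGroup S) where
  toFun Q := cls (((exists_cls Q).choose).map (σ : R →+* S))
  map_zero' := by
    have h := (exists_cls (0 : Additive (ClassGroup R))).choose_spec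
    have h1 := cls_map_congr σ h.1 (I' := ⊤) (by simp) (by rw [h.2, cls_top])
    rw [h1, Ideal.map_top, cls_top]
  map_add' Q Q' := by
    have h := (exists_cls Q).choose_spec
    have h' := (exists_cls Q').choose_spec
    have h2 := (exists_cls (Q + Q')).choose_spec
    have h1 := cls_map_congr σ h2.1 (mul_ne_zero h.1 h'.1) (by
      rw [h2.2, cls_mul h.1 h'.1, h.2, h'.2])
    rw [h1, Ideal.map_mul, cls_mul (map_ne_bot σ h.1) (map_ne_bot σ h'.1)]

theorem jMap_cls (σ : R ≃+* S) (I : Ideal R) :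
    jMap σ (cls I) = cls (I.map (σ : R →+* S)) := by
  by_cases h : I = ⊥
  · rw [h, cls_bot, map_zero, Ideal.map_bot, cls_bot]
  · have h' := (exists_cls (cls I)).choose_spec
    exact cls_map_congr σ h'.1 h h'.2

theorem jMap_jMap {T : Type} [CommRing T] [IsDedekindDomain T] (σ : R ≃+* S) (τ : S ≃+* T)
    (Q : Additive (ClassGroup R)) : jMap τ (jMap σ Q) = jMap (σ.trans τ) Q := by
  obtain ⟨I, -, rfl⟩ := exists_cls Q
  rw [jMap_cls, jMap_cls, jMap_cls, Ideal.map_map]
  rfl

theorem jMap_refl (Q : Additive (ClassGroup R)) : jMap (RingEquiv.refl R) Q = Q := by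
  obtain ⟨I, -, rfl⟩ := exists_cls Q
  rw [jMap_cls]
  congr 1
  exact Ideal.map_id I

end map

end Pool.Agent.SmJ
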