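import Mathlib
import Pool.Agent.Lib.SmJ.E.Cls

/-!
SMITH for Jacobians (MP_950c68_ag), block E: definitions.

`Om` a field, `f : Om[X]`; `Hyp f`: `f` monic, separable, of odd degree, and `2 ≠ 0` in `Om`.
`Co f = Om[x, y] / (y ^ 2 - f)` is Mathlib's `QuadraticAlgebra Om[X] f 0`: the element `⟨p, q⟩` is
`p(x) + q(x) y`; `norm`, `star` are Mathlib's (`star ⟨p, q⟩ = ⟨p, -q⟩`,
`norm ⟨p, q⟩ = p ^ 2 - f * q ^ 2`). `JJ f` = the class group of `Co f`, additively (= the Jacobian of
the curve when `Om` is separably closed). `Pnt f` = affine points, `P.ev : Co f →+* Om` evaluation,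
`P.idl` its kernel, `P.cl : JJ f` its class. `coMap σ h` = coefficientwise action on `Co f` of an
automorphism `σ` of `Om` with `f.map σ = f`, `act σ h` the action on `JJ f`.
The split case: `ff a = ∏ (X - a i)` for `a : Fin (2 * g + 1) → Om` injective; `br a i` the branch
points, `ee a i` their classes.
-/

set_option autoImplicit false

open Polynomial

namespace Pool.Agent.SmJ

variable {Om : Type} [Field Om]

/-- The standing hypotheses. -/
class Hyp (f : Om[X]) : Prop where
  monic : f.Monic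
  odd : Odd f.natDegree
  sep : f.Separable
  two : (2 : Om) ≠ 0

/-- The coordinate ring. -/
abbrev Co (f : Om[X]) : Type := QuadraticAlgebra Om[X] f 0

section norm

variable {f : Om[X]}

theorem norm_eq (z : Co f) : z.norm = z.re ^ 2 - f * z.im ^ 2 := by
  rw [QuadraticAlgebra.norm_def]
  ring

theorem natDegree_norm_of_im_eq_zero (z : Co f) (h : z.im = 0) :
    z.norm.natDegree = 2 * z.re.natDegree := by
  rw [norm_eq, h]
  simp

variable [Hyp f]

theorem f_ne_zero (f : Om[X]) [Hyp f] : f ≠ 0 := (Hyp.monic (f := f)).ne_zero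

theorem natDegree_norm (z : Co f) (h1 : z.im ≠ 0) :
    z.norm.natDegree = max (2 * z.re.natDegree) (2 * z.im.natDegree + f.natDegree) := by
  obtain ⟨g, hg⟩ := Hyp.odd (f := f)
  rw [norm_eq]
  have e2 : (f * z.im ^ 2).natDegree = 2 * z.im.natDegree + f.natDegree := by
    rw [natDegree_mul (f_ne_zero f) (pow_ne_zero 2 h1), natDegree_pow]
    ring
  have e1 : (z.re ^ 2).natDegree = 2 * z.re.natDegree := natDegree_pow _ _
  rcases lt_trichotomy (z.re ^ 2).natDegree (f * z.im ^ 2).natDegree with h | h | h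
  · rw [natDegree_sub_eq_right_of_natDegree_lt h]
    omega
  · omega
  · rw [natDegree_sub_eq_left_of_natDegree_lt h]
    omega

theorem norm_ne_zero {z : Co f} (hz : z ≠ 0) : z.norm ≠ 0 := by
  obtain ⟨g, hg⟩ := Hyp.odd (f := f)
  intro h
  by_cases h1 : z.im = 0
  · have h0 : z.re ≠ 0 := fun h0 => hz (QuadraticAlgebra.ext h0 h1)
    rw [norm_eq, h1] at h
    simp [h0] at h
  · have h2 := natDegree_norm z h1
    rw [h, natDegree_zero] at h2
    omega

instance (f : Om[X]) [Hyp f] : IsDomain (Co f) := by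
  have : NoZeroDivisors (Co f) := by
    refine ⟨fun {z w} h => ?_⟩
    by_contra hc
    push Not at hc
    have h1 := mul_ne_zero (norm_ne_zero hc.1) (norm_ne_zero hc.2)
    apply h1
    rw [← map_mul, h, QuadraticAlgebra.norm_zero]
  exact NoZeroDivisors.to_isDomain _

end norm

/-- The affine points of the curve. -/
@[ext]
structure Pnt (f : Om[X]) where
  x : Om
  y : Om
  on : y ^ 2 = f.eval x

namespace Pnt

variable {f : Om[X]} (P : Pnt f)

/-- The opposite point. -/
def neg : Pnt f := ⟨P.x, -P.y, by rw [neg_sq]; exact P.on⟩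

/-- Evaluation at `P`. -/
noncomputable def ev : Co f →+* Om where
  toFun z := z.re.eval P.x + z.im.eval P.x * P.y
  map_one' := by simp [QuadraticAlgebra.re_one, QuadraticAlgebra.im_one]
  map_zero' := by simp
  map_add' z w := by
    simp only [QuadraticAlgebra.re_add, QuadraticAlgebra.im_add, eval_add]
    ring
  map_mul' z w := by
    simp only [QuadraticAlgebra.re_mul, QuadraticAlgebra.im_mul, eval_add, eval_mul, eval_zero,
      ← P.on]
    ring

theorem ev_apply (z : Co f) : P.ev z = z.re.eval P.x + z.im.eval P.x * P.y := rfl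

/-- The maximal ideal of `P`. -/
noncomputable def idl : Ideal (Co f) := RingHom.ker P.ev

theorem mem_idl {z : Co f} : z ∈ P.idl ↔ z.re.eval P.x + z.im.eval P.x * P.y = 0 := Iff.rfl

/-- The class of `P`. -/
noncomputable def cl [IsDedekindDomain (Co f)] : Additive (ClassGroup (Co f)) := cls P.idl

end Pnt

/-- The Jacobian. -/
abbrev JJ (f : Om[X]) [IsDomain (Co f)] : Type := Additive (ClassGroup (Co f))

section action

variable {f : Om[X]}

/-- The coefficientwise action of an automorphism fixing `f`. -/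
noncomputable def coMap (σ : Om ≃+* Om) (h : f.map (σ : Om →+* Om) = f) : Co f ≃+* Co f where
  toFun z := ⟨z.re.map (σ : Om →+* Om), z.im.map (σ : Om →+* Om)⟩
  invFun z := ⟨z.re.map (σ.symm : Om →+* Om), z.im.map (σ.symm : Om →+* Om)⟩
  left_inv z := by
    ext1 <;> simp [Polynomial.map_map]
  right_inv z := by
    ext1 <;> simp [Polynomial.map_map]
  map_mul' z w := by
    ext1
    · simp only [QuadraticAlgebra.re_mul, Polynomial.map_add, Polynomial.map_mul, h]
    · simp only [QuadraticAlgebra.im_mul, Polynomial.map_add, Polynomial.map_mul,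
        Polynomial.map_zero]
  map_add' z w := by
    ext1 <;> simp

@[simp] theorem coMap_re (σ : Om ≃+* Om) (h : f.map (σ : Om →+* Om) = f) (z : Co f) :
    (coMap σ h z).re = z.re.map (σ : Om →+* Om) := rfl

@[simp] theorem coMap_im (σ : Om ≃+* Om) (h : f.map (σ : Om →+* Om) = f) (z : Co f) :
    (coMap σ h z).im = z.im.map (σ : Om →+* Om) := rfl

theorem coMap_norm (σ : Om ≃+* Om) (h : f.map (σ : Om →+* Om) = f) (z : Co f) :
    (coMap σ h z).norm = z.norm.map (σ : Om →+* Om) := by
  rw [norm_eq, norm_eq, Polynomial.map_sub, Polynomial.map_mul, Polynomial.map_pow,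
    Polynomial.map_pow, h, coMap_re, coMap_im]

/-- The action on points. -/
def Pnt.map (σ : Om ≃+* Om) (h : f.map (σ : Om →+* Om) = f) (P : Pnt f) : Pnt f :=
  ⟨σ P.x, σ P.y, by
    have h1 := congrArg (σ : Om →+* Om) P.on
    rw [map_pow, ← eval_map_apply, h] at h1
    exact h1⟩

/-- The action on the Jacobian. -/
noncomputable def act [IsDedekindDomain (Co f)] (σ : Om ≃+* Om)
    (h : f.map (σ : Om →+* Om) = f) : JJ f →+ JJ f := jMap (coMap σ h)

theorem act_cls [IsDedekindDomain (Co f)] (σ : Om ≃+* Om) (h : f.map (σ : Om →+* Om) = f)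
    (I : Ideal (Co f)) : act σ h (cls I) = cls (I.map (coMap σ h : Co f →+* Co f)) :=
  jMap_cls _ _

theorem Pnt.map_idl (σ : Om ≃+* Om) (h : f.map (σ : Om →+* Om) = f) (P : Pnt f) :
    P.idl.map (coMap σ h : Co f →+* Co f) = (P.map σ h).idl := by
  ext z
  rw [Ideal.mem_map_iff_of_surjective (coMap σ h : Co f →+* Co f) (coMap σ h).surjective]
  constructor
  · rintro ⟨w, hw, rfl⟩
    rw [mem_idl] at hw ⊢
    have h1 := congrArg (σ : Om →+* Om) hw
    rw [map_add, map_mul, ← eval_map_apply, ← eval_map_apply, map_zero] at h1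
    exact h1
  · intro hz
    refine ⟨(coMap σ h).symm z, ?_, RingEquiv.apply_symm_apply _ _⟩
    rw [mem_idl] at hz ⊢
    apply (σ : Om ≃+* Om).injective
    have e : z = coMap σ h ((coMap σ h).symm z) := (RingEquiv.apply_symm_apply _ _).symm
    rw [e] at hz
    rw [map_add, map_mul, map_zero]
    have h2 : ∀ p : Om[X], σ (p.eval P.x) = (p.map (σ : Om →+* Om)).eval (σ P.x) := by
      intro p
      exact (eval_map_apply (σ : Om →+* Om) P.x).symm
    rw [h2, h2]
    exact hz

theorem act_cl [IsDedekindDomain (Co f)] (σ : Om ≃+* Om) (h : f.map (σ : Om →+* Om) = f)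
    (P : Pnt f) : act σ h P.cl = (P.map σ h).cl := by
  rw [Pnt.cl, act_cls, Pnt.map_idl]
  rfl

end action

section split

variable {g : ℕ}

/-- `f = ∏ (X - a i)`. -/
noncomputable def ff (a : Fin (2 * g + 1) → Om) : Om[X] := ∏ i, (X - C (a i))

theorem ff_monic (a : Fin (2 * g + 1) → Om) : (ff a).Monic :=
  monic_prod_of_monic _ _ fun i _ => monic_X_sub_C (a i)

theorem ff_ne_zero (a : Fin (2 * g + 1) → Om) : ff a ≠ 0 := (ff_monic a).ne_zero

theorem natDegree_ff (a : Fin (2 * g + 1) → Om) : (ff a).natDegree = 2 * g + 1 := by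
  rw [ff, natDegree_prod_of_monic _ _ fun i _ => monic_X_sub_C (a i)]
  simp

theorem ff_eval (a : Fin (2 * g + 1) → Om) (x : Om) : (ff a).eval x = ∏ i, (x - a i) := by
  rw [ff, eval_prod]
  simp

theorem ff_eval_br (a : Fin (2 * g + 1) → Om) (i : Fin (2 * g + 1)) : (ff a).eval (a i) = 0 := by
  rw [ff_eval]
  exact Finset.prod_eq_zero (Finset.mem_univ i) (sub_self _)

/-- The standing hypotheses in the split case. -/
class HypA (a : Fin (2 * g + 1) → Om) : Prop where
  inj : Function.Injective a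
  two : (2 : Om) ≠ 0

instance (a : Fin (2 * g + 1) → Om) [HypA a] : Hyp (ff a) where
  monic := ff_monic a
  odd := ⟨g, natDegree_ff a⟩
  sep := separable_prod_X_sub_C_iff.mpr HypA.inj
  two := HypA.two a

/-- The branch points. -/
def br (a : Fin (2 * g + 1) → Om) (i : Fin (2 * g + 1)) : Pnt (ff a) :=
  ⟨a i, 0, by rw [ff_eval_br]; exact zero_pow two_ne_zero⟩

/-- The classes of the branch points. -/
noncomputable def ee (a : Fin (2 * g + 1) → Om) [IsDedekindDomain (Co (ff a))]
    (i : Fin (2 * g + 1)) : JJ (ff a) := (br a i).cl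

theorem map_ff {a : Fin (2 * g + 1) → Om} (σ : Om ≃+* Om) (h : ∀ i, σ (a i) = a i) :
    (ff a).map (σ : Om →+* Om) = ff a := by
  rw [ff, Polynomial.map_prod]
  refine Finset.prod_congr rfl fun i _ => ?_
  rw [Polynomial.map_sub, map_X, map_C]
  congr 2
  exact h i

theorem act_ee {a : Fin (2 * g + 1) → Om} [IsDedekindDomain (Co (ff a))] (σ : Om ≃+* Om)
    (h : ∀ i, σ (a i) = a i) (i : Fin (2 * g + 1)) :
    act σ (map_ff σ h) (ee a i) = ee a i := by
  rw [ee, act_cl]
  congr 1
  exact Pnt.ext (h i) (map_zero σ)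

end split

end Pool.Agent.SmJ
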