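import Mathlib
import Pool.Agent.Lib.SmJ.E.Defs

/-!
SMITH for Jacobians (MP_950c68_ag), block E: the coordinate ring is a Dedekind domain, its units are
the constants.
-/

set_option autoImplicit false

open Polynomial

namespace Pool.Agent.SmJ

variable {Om : Type} [Field Om]

/-- `f` as an element of the rational function field. -/
noncomputable abbrev Fa (f : Om[X]) : RatFunc Om := algebraMap Om[X] (RatFunc Om) f

/-- The function field of the curve. -/
abbrev LL (f : Om[X]) : Type := QuadraticAlgebra (RatFunc Om) (Fa f) 0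

theorem Ded_parity (f : Om[X]) [Hyp f] {p q : Om[X]} (h : p ^ 2 = f * q ^ 2) : q = 0 := by
  obtain ⟨g, hg⟩ := Hyp.odd (f := f)
  by_contra hq
  have h1 := congrArg natDegree h
  rw [natDegree_mul (f_ne_zero f) (pow_ne_zero 2 hq), natDegree_pow, natDegree_pow] at h1
  omega

instance instFactLL (f : Om[X]) [Hyp f] : Fact (∀ r : RatFunc Om, r ^ 2 ≠ Fa f + 0 * r) := by
  refine ⟨fun r hr => ?_⟩
  rw [zero_mul, add_zero] at hr
  obtain ⟨p, q, hq, rfl⟩ := IsFractionRing.div_surjective (A := Om[X]) r
  have hq0 : q ≠ 0 := nonZeroDivisors.ne_zero hq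
  have hq1 : algebraMap Om[X] (RatFunc Om) q ≠ 0 := by
    intro h0
    exact hq0 ((map_eq_zero_iff _ (IsFractionRing.injective Om[X] (RatFunc Om))).mp h0)
  have h : p ^ 2 = f * q ^ 2 := by
    apply IsFractionRing.injective Om[X] (RatFunc Om)
    rw [div_pow, div_eq_iff (pow_ne_zero 2 hq1)] at hr
    rw [map_pow, map_mul, map_pow, hr]
  exact hq0 (Ded_parity f h)

/-- The inclusion of the coordinate ring in the function field. -/
noncomputable def toLL (f : Om[X]) : Co f →+* LL f where
  toFun z := ⟨algebraMap Om[X] (RatFunc Om) z.re, algebraMap Om[X] (RatFunc Om) z.im⟩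
  map_one' := by
    ext1
    · simp [QuadraticAlgebra.re_one]
    · simp [QuadraticAlgebra.im_one]
  map_zero' := by ext1 <;> simp
  map_add' z w := by ext1 <;> simp
  map_mul' z w := by ext1 <;> simp [mul_comm, mul_left_comm]

theorem toLL_injective (f : Om[X]) : Function.Injective (toLL f) := by
  intro z w h
  have h1 := congrArg QuadraticAlgebra.re h
  have h2 := congrArg QuadraticAlgebra.im h
  exact QuadraticAlgebra.ext (IsFractionRing.injective Om[X] (RatFunc Om) h1)
    (IsFractionRing.injective Om[X] (RatFunc Om) h2)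

/-- Conjugation as an algebra homomorphism. -/
noncomputable def starLL (f : Om[X]) : LL f →ₐ[Om[X]] LL f where
  toFun z := star z
  map_one' := star_one _
  map_mul' z w := by rw [star_mul, mul_comm]
  map_zero' := star_zero _
  map_add' z w := star_add _ _
  commutes' p := by
    ext1
    · rw [QuadraticAlgebra.re_star, zero_mul, add_zero]
    · rw [QuadraticAlgebra.im_star]
      change -(0 : RatFunc Om) = 0
      exact neg_zero

theorem isIntegral_mem (f : Om[X]) [Hyp f] {x : LL f}
    (hx : IsIntegral Om[X] x) : ∃ z : Co f, toLL f z = x := by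
  have hs : IsIntegral Om[X] (star x) := hx.map (starLL f)
  have hinj : Function.Injective (algebraMap (RatFunc Om) (LL f)) :=
    QuadraticAlgebra.algebraMap_injective
  have h2 : (2 : RatFunc Om) ≠ 0 := by
    have h3 : (2 : Om) ≠ 0 := Hyp.two f
    have h4 : (2 : RatFunc Om) = algebraMap Om (RatFunc Om) 2 := (map_ofNat _ 2).symm
    rw [h4]
    intro h0
    exact h3 ((map_eq_zero_iff _ (algebraMap Om (RatFunc Om)).injective).mp h0)
  have key : ∀ r : RatFunc Om, IsIntegral Om[X] (algebraMap (RatFunc Om) (LL f) r) →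
      ∃ p : Om[X], algebraMap Om[X] (RatFunc Om) p = r := by
    intro r hr
    rw [isIntegral_algebraMap_iff hinj] at hr
    exact IsIntegrallyClosed.isIntegral_iff.mp hr
  obtain ⟨p, hp⟩ : ∃ p : Om[X], algebraMap Om[X] (RatFunc Om) p = x.re := by
    obtain ⟨p, hp⟩ := key (QuadraticAlgebra.trace x) (by
      rw [QuadraticAlgebra.algebraMap_trace_eq_add_star]
      exact hx.add hs)
    rw [QuadraticAlgebra.trace_def, zero_mul, add_zero] at hp
    refine ⟨C (2⁻¹) * p, ?_⟩
    rw [map_mul, hp]
    have h5 : algebraMap Om[X] (RatFunc Om) (C (2⁻¹)) * 2 = 1 := by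
      have h6 : (2 : RatFunc Om) = algebraMap Om[X] (RatFunc Om) (C 2) := by
        rw [C_ofNat, map_ofNat]
      rw [h6, ← map_mul, ← C_mul, inv_mul_cancel₀ (Hyp.two f), map_one, map_one]
    rw [← mul_assoc, h5, one_mul]
  obtain ⟨n, hn⟩ := key (QuadraticAlgebra.norm x) (by
    rw [QuadraticAlgebra.algebraMap_norm_eq_mul_star]
    exact hx.mul hs)
  rw [QuadraticAlgebra.norm_def, ← hp, zero_mul, zero_mul, add_zero] at hn
  set r : RatFunc Om := x.im with hr
  have hd0 : r.denom ≠ 0 := r.denom_ne_zero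
  have hd1 : algebraMap Om[X] (RatFunc Om) r.denom ≠ 0 := by
    intro h0
    exact hd0 ((map_eq_zero_iff _ (IsFractionRing.injective Om[X] (RatFunc Om))).mp h0)
  have hnd : algebraMap Om[X] (RatFunc Om) r.num = r * algebraMap Om[X] (RatFunc Om) r.denom := by
    conv_rhs => rw [← RatFunc.num_div_denom r, RatFunc.num_div_denom]
    rw [← div_eq_iff hd1]
    exact RatFunc.num_div_denom r
  have h1 : f * r.num ^ 2 = (p ^ 2 - n) * r.denom ^ 2 := by
    apply IsFractionRing.injective Om[X] (RatFunc Om)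
    rw [map_mul, map_mul, map_pow, map_pow, map_sub, map_pow, hn, hnd]
    ring
  have hcop : IsCoprime r.num r.denom := r.isCoprime_num_denom
  have h3 : r.denom ^ 2 ∣ f := by
    have h4 : r.denom ^ 2 ∣ f * r.num ^ 2 := ⟨p ^ 2 - n, by rw [h1, mul_comm]⟩
    exact (hcop.symm.pow (m := 2) (n := 2)).dvd_of_dvd_mul_right h4
  have h5 : IsUnit r.denom := (Hyp.sep (f := f)).squarefree r.denom (by rwa [← sq])
  have h6 : r.denom = 1 := r.monic_denom.eq_one_of_isUnit h5
  refine ⟨⟨p, r.num⟩, ?_⟩
  refine QuadraticAlgebra.ext hp ?_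
  change algebraMap Om[X] (RatFunc Om) r.num = r
  rw [hnd, h6, map_one, mul_one]

instance instDed (f : Om[X]) [Hyp f] : IsDedekindDomain (Co f) := by
  let _ : Algebra (Co f) (LL f) := (toLL f).toAlgebra
  have t1 : IsScalarTower Om[X] (Co f) (LL f) := by
    refine IsScalarTower.of_algebraMap_eq fun p => ?_
    exact QuadraticAlgebra.ext rfl (map_zero (algebraMap Om[X] (RatFunc Om))).symm
  have : Module.Finite Om[X] (Co f) := inferInstance
  have hint : Algebra.IsIntegral Om[X] (Co f) := Algebra.IsIntegral.of_finite _ _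
  have : IsIntegralClosure (Co f) Om[X] (LL f) := by
    refine ⟨toLL_injective f, fun {x} => ⟨fun h => isIntegral_mem f h, ?_⟩⟩
    rintro ⟨z, rfl⟩
    exact (Algebra.IsIntegral.isIntegral (R := Om[X]) z).algebraMap
  have : FiniteDimensional (RatFunc Om) (LL f) := inferInstance
  have : IsFractionRing (Co f) (LL f) :=
    IsIntegralClosure.isFractionRing_of_finite_extension Om[X] (RatFunc Om) (LL f) (Co f)
  have h1 : IsNoetherianRing (Co f) :=
    isNoetherian_of_tower Om[X] (isNoetherian_of_isNoetherianRing_of_finite Om[X] (Co f))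
  exact { h1, Ring.DimensionLEOne.of_isIntegral Om[X] (Co f),
    (isIntegrallyClosed_iff (LL f)).mpr fun {x} hx =>
      ⟨IsIntegralClosure.mk' (Co f) x (isIntegral_trans (R := Om[X]) _ hx),
        IsIntegralClosure.algebraMap_mk' _ _ _⟩ with : IsDedekindDomain (Co f) }

theorem isUnit_iff (f : Om[X]) [Hyp f] (z : Co f) :
    IsUnit z ↔ ∃ c : Om, c ≠ 0 ∧ z = ⟨C c, 0⟩ := by
  obtain ⟨g, hg⟩ := Hyp.odd (f := f)
  rw [QuadraticAlgebra.isUnit_iff_norm_isUnit]
  constructor
  · intro h
    have h0 : z.norm.natDegree = 0 := natDegree_eq_zero_of_isUnit h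
    have h1 : z.im = 0 := by
      by_contra h1
      have h3 := natDegree_norm z h1
      omega
    have h3 := natDegree_norm_of_im_eq_zero z h1
    have h4 : z.re.natDegree = 0 := by omega
    rw [natDegree_eq_zero] at h4
    obtain ⟨c, hc⟩ := h4
    refine ⟨c, ?_, QuadraticAlgebra.ext hc.symm h1⟩
    rintro rfl
    rw [norm_eq, h1, ← hc] at h
    simp at h
  · rintro ⟨c, hc, rfl⟩
    rw [norm_eq]
    simp [hc]

end Pool.Agent.SmJ
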