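import Mathlib
import Pool.Agent.Lib.SmJ.E.Ded

/-!
SMITH for Jacobians (MP_950c68_ag), block E: the hyperelliptic involution acts on the class group of
the coordinate ring as `-1`.
-/

set_option autoImplicit false

open Polynomial

namespace Pool.Agent.SmJ

variable {Om : Type} [Field Om] {f : Om[X]}

/-- The conjugation `p + q y ↦ p - q y`. -/
noncomputable def starCo (f : Om[X]) : Co f ≃+* Co f where
  toFun z := ⟨z.re, -z.im⟩
  invFun z := ⟨z.re, -z.im⟩
  left_inv z := by ext1 <;> simp
  right_inv z := by ext1 <;> simp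
  map_mul' z w := by
    ext1
    · simp
    · simp only [QuadraticAlgebra.im_mul]
      ring
  map_add' z w := by
    ext1
    · simp
    · simp only [QuadraticAlgebra.im_add]
      ring

@[simp] theorem starCo_re (z : Co f) : (starCo f z).re = z.re := rfl

@[simp] theorem starCo_im (z : Co f) : (starCo f z).im = -z.im := rfl

theorem starCo_starCo (z : Co f) : starCo f (starCo f z) = z := by
  ext1 <;> simp

variable [Hyp f]

private theorem star_comap {P : Ideal (Co f)} (hP : P.IsPrime) (h0 : P ≠ ⊥) :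
    ∃ p : Om[X], Irreducible p ∧ ∀ q : Om[X], (⟨q, 0⟩ : Co f) ∈ P ↔ p ∣ q := by
  set P' := P.comap (algebraMap Om[X] (Co f)) with hP'
  have hpr : P'.IsPrime := Ideal.IsPrime.comap _
  obtain ⟨z, hz, hz0⟩ := Submodule.exists_mem_ne_zero_of_ne_bot h0
  have hn : z.norm ∈ P' := by
    rw [hP', Ideal.mem_comap, QuadraticAlgebra.algebraMap_norm_eq_mul_star]
    exact P.mul_mem_right _ hz
  have hne : P' ≠ ⊥ := by
    intro h
    rw [h, Ideal.mem_bot] at hn
    exact norm_ne_zero hz0 hn
  obtain ⟨p, hp⟩ := (IsPrincipalIdealRing.principal P').principal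
  have hp' : P' = Ideal.span {p} := hp
  have hp0 : p ≠ 0 := by
    rintro rfl
    exact hne (by rw [hp', Ideal.span_singleton_eq_bot.2 rfl])
  refine ⟨p, ?_, fun q => ?_⟩
  · have h1 : (Ideal.span {p}).IsPrime := hp' ▸ hpr
    exact ((Ideal.span_singleton_prime hp0).1 h1).irreducible
  · rw [← Ideal.mem_span_singleton, ← hp', hP', Ideal.mem_comap]
    rfl

private theorem star_prime {P : Ideal (Co f)} (hP : P.IsPrime) (h0 : P ≠ ⊥) :
    ∃ z : Co f, P * P.map (starCo f : Co f →+* Co f) = Ideal.span {z} := by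
  obtain ⟨p, hp, hc⟩ := star_comap hP h0
  have hpP : (⟨p, 0⟩ : Co f) ∈ P := (hc p).2 dvd_rfl
  by_cases hV : ∃ V : Om[X], (⟨-V, 1⟩ : Co f) ∈ P
  · obtain ⟨V, hV⟩ := hV
    have hP1 : P = Ideal.span {(⟨p, 0⟩ : Co f), ⟨-V, 1⟩} := by
      refine le_antisymm (fun z hz => ?_) ?_
      · have h1 : (⟨z.re + z.im * V, 0⟩ : Co f) ∈ P := by
          have h2 : (⟨z.re + z.im * V, 0⟩ : Co f) = z - ⟨z.im, 0⟩ * ⟨-V, 1⟩ := by
            ext1
            · simp
            · simp
          rw [h2]
          exact P.sub_mem hz (P.mul_mem_left _ hV)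
        obtain ⟨c, hc1⟩ := (hc _).1 h1
        rw [Ideal.mem_span_pair]
        refine ⟨⟨c, 0⟩, ⟨z.im, 0⟩, ?_⟩
        ext1
        · simp only [QuadraticAlgebra.re_add, QuadraticAlgebra.re_mul]
          linear_combination -hc1
        · simp
      · rw [Ideal.span_le]
        rintro x hx
        rcases hx with rfl | hx
        · exact hpP
        · rw [Set.mem_singleton_iff] at hx
          rw [hx]
          exact hV
    have hW : p ∣ V ^ 2 - f := by
      rw [← hc]
      have h2 : (⟨V ^ 2 - f, 0⟩ : Co f) = ⟨-V, 1⟩ * ⟨-V, -1⟩ := by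
        ext1
        · simp only [QuadraticAlgebra.re_mul]
          ring
        · simp
      rw [h2]
      exact P.mul_mem_right _ hV
    obtain ⟨W, hW⟩ := hW
    refine ⟨⟨p, 0⟩, ?_⟩
    have hb1 : (starCo f : Co f →+* Co f) ⟨p, 0⟩ = ⟨p, 0⟩ := by
      change starCo f ⟨p, 0⟩ = _
      ext1 <;> simp
    have hb2 : (starCo f : Co f →+* Co f) ⟨-V, 1⟩ = ⟨-V, -1⟩ := rfl
    have hm1 : ∀ z ∈ P, starCo f z ∈ P.map (starCo f : Co f →+* Co f) := fun z hz =>
      Ideal.mem_map_of_mem (starCo f : Co f →+* Co f) hz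
    have hm2 : (⟨p, 0⟩ : Co f) ∈ P.map (starCo f : Co f →+* Co f) := hb1 ▸ hm1 _ hpP
    have hm3 : (⟨-V, -1⟩ : Co f) ∈ P.map (starCo f : Co f →+* Co f) := hb2 ▸ hm1 _ hV
    refine le_antisymm ?_ ?_
    · rw [hP1, Ideal.map_span, Set.image_pair, hb1, hb2, Ideal.span_pair_mul_span_pair,
        Ideal.span_le]
      intro x hx
      rw [SetLike.mem_coe, Ideal.mem_span_singleton]
      simp only [Set.mem_insert_iff, Set.mem_singleton_iff] at hx
      rcases hx with rfl | rfl | rfl | rfl
      · exact Dvd.intro _ rfl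
      · exact Dvd.intro _ rfl
      · exact Dvd.intro_left _ rfl
      · refine ⟨⟨W, 0⟩, ?_⟩
        ext1
        · simp only [QuadraticAlgebra.re_mul]
          linear_combination hW
        · simp
    · rw [Ideal.span_singleton_le_iff_mem]
      -- elements `p * q` with `q = p`, `2 V`, `W`
      have e1 : (⟨p * p, 0⟩ : Co f) ∈ P * P.map (starCo f : Co f →+* Co f) := by
        have h2 : (⟨p * p, 0⟩ : Co f) = ⟨p, 0⟩ * ⟨p, 0⟩ := by ext1 <;> simp
        rw [h2]
        exact Ideal.mul_mem_mul hpP hm2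
      have e2 : (⟨p * V, 0⟩ : Co f) ∈ P * P.map (starCo f : Co f →+* Co f) := by
        have h2 : (⟨p * V, 0⟩ : Co f) = ⟨C (-(2⁻¹ : Om)), 0⟩ *
            (⟨p, 0⟩ * ⟨-V, -1⟩ + ⟨-V, 1⟩ * ⟨p, 0⟩) := by
          have h3 : (C (2⁻¹ : Om) : Om[X]) * 2 = 1 := by
            have h4 : (2 : Om[X]) = C 2 := by rw [C_ofNat]
            rw [h4, ← C_mul, inv_mul_cancel₀ (Hyp.two f), C_1]
          ext1
          · simp only [QuadraticAlgebra.re_mul, QuadraticAlgebra.re_add, QuadraticAlgebra.im_add,
              QuadraticAlgebra.im_mul, C_neg]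
            linear_combination -(p * V) * h3
          · simp
        rw [h2]
        exact Ideal.mul_mem_left _ _ (Ideal.add_mem _ (Ideal.mul_mem_mul hpP hm3)
          (Ideal.mul_mem_mul hV hm2))
      have e3 : (⟨p * W, 0⟩ : Co f) ∈ P * P.map (starCo f : Co f →+* Co f) := by
        have h2 : (⟨p * W, 0⟩ : Co f) = ⟨-V, 1⟩ * ⟨-V, -1⟩ := by
          ext1
          · simp only [QuadraticAlgebra.re_mul]
            linear_combination -hW
          · simp
        rw [h2]
        exact Ideal.mul_mem_mul hV hm3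
      have hcomb : ∀ q : Om[X], IsCoprime p q → (⟨p * q, 0⟩ : Co f) ∈
          P * P.map (starCo f : Co f →+* Co f) → (⟨p, 0⟩ : Co f) ∈
          P * P.map (starCo f : Co f →+* Co f) := by
        rintro q ⟨a, b, hab⟩ hq
        have h2 : (⟨p, 0⟩ : Co f) = ⟨a, 0⟩ * ⟨p * p, 0⟩ + ⟨b, 0⟩ * ⟨p * q, 0⟩ := by
          ext1
          · simp only [QuadraticAlgebra.re_mul, QuadraticAlgebra.re_add]
            linear_combination -p * hab
          · simp
        rw [h2]
        exact Ideal.add_mem _ (Ideal.mul_mem_left _ _ e1) (Ideal.mul_mem_left _ _ hq)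
      by_cases hpV : p ∣ V
      · refine hcomb W ?_ e3
        refine hp.coprime_iff_not_dvd.2 fun hpW => ?_
        have h1 : p * p ∣ f := by
          have h2 : f = V ^ 2 - p * W := by linear_combination -hW
          rw [h2]
          refine dvd_sub ?_ (mul_dvd_mul_left p hpW)
          rw [sq]
          exact mul_dvd_mul hpV hpV
        exact hp.not_isUnit ((Hyp.sep (f := f)).squarefree p h1)
      · exact hcomb V (hp.coprime_iff_not_dvd.2 hpV) e2
  · push Not at hV
    have hP1 : P = Ideal.span {(⟨p, 0⟩ : Co f)} := by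
      refine le_antisymm (fun z hz => ?_) ?_
      · have h1 : p ∣ z.im := by
          by_contra hb
          obtain ⟨c, b', hbc⟩ := hp.coprime_iff_not_dvd.2 hb
          refine hV (-(b' * z.re)) ?_
          have h2 : (⟨-(-(b' * z.re)), 1⟩ : Co f) = ⟨b', 0⟩ * z + ⟨0, c⟩ * ⟨p, 0⟩ := by
            ext1
            · simp
            · simp only [QuadraticAlgebra.im_mul, QuadraticAlgebra.im_add]
              linear_combination -hbc
          rw [h2]
          exact P.add_mem (P.mul_mem_left _ hz) (P.mul_mem_left _ hpP)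
        obtain ⟨b, hb⟩ := h1
        have h3 : (⟨z.re, 0⟩ : Co f) ∈ P := by
          have h4 : (⟨z.re, 0⟩ : Co f) = z - ⟨0, b⟩ * ⟨p, 0⟩ := by
            ext1
            · simp
            · simp only [QuadraticAlgebra.im_mul, QuadraticAlgebra.im_sub]
              linear_combination -hb
          rw [h4]
          exact P.sub_mem hz (P.mul_mem_left _ hpP)
        obtain ⟨a, ha⟩ := (hc _).1 h3
        rw [Ideal.mem_span_singleton]
        refine ⟨⟨a, b⟩, ?_⟩
        ext1
        · simp only [QuadraticAlgebra.re_mul]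
          linear_combination ha
        · simp only [QuadraticAlgebra.im_mul]
          linear_combination hb
      · rw [Ideal.span_singleton_le_iff_mem]
        exact hpP
    refine ⟨⟨p, 0⟩ * starCo f ⟨p, 0⟩, ?_⟩
    rw [hP1, Ideal.map_span, Set.image_singleton, Ideal.span_singleton_mul_span_singleton]
    rfl

/-- The involution acts as `-1` on the Jacobian. -/
theorem jMap_star (Q : JJ f) : jMap (starCo f) Q = -Q := by
  refine cls_induction (p := fun Q => jMap (starCo f) Q = -Q) ?_ ?_ ?_ Q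
  · rw [map_zero, neg_zero]
  · intro P hP h0
    obtain ⟨z, hz⟩ := star_prime hP h0
    rw [jMap_cls, eq_neg_iff_add_eq_zero, ← cls_mul (map_ne_bot _ h0) h0, mul_comm, hz, cls_span]
  · intro x y hx hy
    rw [map_add, hx, hy, neg_add]

end Pool.Agent.SmJ
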