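import Mathlib
import Pool.Agent.Lib.SmJ.E.Star
import Pool.Agent.Lib.SmJ.Sys
import Pool.Agent.Lib.SmD.Defs

/-!
SMITH for Jacobians (MP_950c68_ag), block E: the quadratic twist. For `δ ^ 2 = D`, `δ ≠ 0`, the
curves `y ^ 2 = ∏ (x - a i)` and `y ^ 2 = ∏ (x - D a i)` are isomorphic over `Om` by
`(x, y) ↦ (D x, δ ^ (2 g + 1) y)`: `twCo` on the coordinate rings, `twIso` on the Jacobians. An
automorphism `σ` which fixes the `a i` and `D` acts on the second Jacobian as `± σ` on the first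
one, the sign is `-` iff `σ δ = -δ` (`twJ_act_pos`, `twJ_act_neg`, `twJ_act`).
-/

set_option autoImplicit false

open Polynomial

namespace Pool.Agent.SmJ

variable {Om : Type} [Field Om] {g : ℕ}

theorem HypA.mul {a : Fin (2 * g + 1) → Om} [h : HypA a] {D : Om} (hD : D ≠ 0) :
    HypA fun i => D * a i :=
  ⟨fun _ _ hij => HypA.inj (mul_left_cancel₀ hD hij), h.two⟩

theorem ff_comp (a : Fin (2 * g + 1) → Om) {D : Om} (hD : D ≠ 0) :
    C (D ^ (2 * g + 1)) * (ff a).comp (C D⁻¹ * X) = ff (fun i => D * a i) := by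
  rw [ff, ff, Polynomial.prod_comp]
  have h1 : (C (D ^ (2 * g + 1)) : Om[X]) = ∏ _i : Fin (2 * g + 1), C D := by
    rw [Finset.prod_const, Finset.card_univ, Fintype.card_fin, C_pow]
  rw [h1, ← Finset.prod_mul_distrib]
  refine Finset.prod_congr rfl fun i _ => ?_
  rw [sub_comp, X_comp, C_comp, mul_sub, ← mul_assoc, ← C_mul, mul_inv_cancel₀ hD, C_1, one_mul,
    C_mul]

private theorem tw_comp_comp (p : Om[X]) {c d : Om} (h : c * d = 1) :
    (p.comp (C c * X)).comp (C d * X) = p := by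
  rw [comp_assoc, mul_comp, C_comp, X_comp, ← mul_assoc, ← C_mul, h, C_1, one_mul, comp_X]

private theorem tw_pow {D δ : Om} (h : δ ^ 2 = D) :
    δ ^ (2 * g + 1) * δ ^ (2 * g + 1) = D ^ (2 * g + 1) := by
  rw [← h]
  ring

/-- The isomorphism of the coordinate rings. -/
noncomputable def twCo (a : Fin (2 * g + 1) → Om) {D δ : Om} (h : δ ^ 2 = D) (hδ : δ ≠ 0) :
    Co (ff a) ≃+* Co (ff fun i => D * a i) where
  toFun z := ⟨z.re.comp (C D⁻¹ * X), C (δ ^ (2 * g + 1))⁻¹ * z.im.comp (C D⁻¹ * X)⟩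
  invFun z := ⟨z.re.comp (C D * X), C (δ ^ (2 * g + 1)) * z.im.comp (C D * X)⟩
  left_inv z := by
    have hD : D ≠ 0 := h ▸ pow_ne_zero 2 hδ
    ext1
    · exact tw_comp_comp _ (inv_mul_cancel₀ hD)
    · change C (δ ^ (2 * g + 1)) * (C (δ ^ (2 * g + 1))⁻¹ * z.im.comp (C D⁻¹ * X)).comp (C D * X) =
        z.im
      rw [mul_comp, C_comp, tw_comp_comp _ (inv_mul_cancel₀ hD), ← mul_assoc, ← C_mul,
        mul_inv_cancel₀ (pow_ne_zero _ hδ), C_1, one_mul]
  right_inv z := by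
    have hD : D ≠ 0 := h ▸ pow_ne_zero 2 hδ
    ext1
    · exact tw_comp_comp _ (mul_inv_cancel₀ hD)
    · change C (δ ^ (2 * g + 1))⁻¹ * (C (δ ^ (2 * g + 1)) * z.im.comp (C D * X)).comp
        (C D⁻¹ * X) = z.im
      rw [mul_comp, C_comp, tw_comp_comp _ (mul_inv_cancel₀ hD), ← mul_assoc, ← C_mul,
        inv_mul_cancel₀ (pow_ne_zero _ hδ), C_1, one_mul]
  map_mul' z w := by
    have hD : D ≠ 0 := h ▸ pow_ne_zero 2 hδ
    have h1 := ff_comp a hD
    have h2 : (C (δ ^ (2 * g + 1))⁻¹ : Om[X]) * C (δ ^ (2 * g + 1))⁻¹ * C (D ^ (2 * g + 1)) = 1 := by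
      rw [← C_mul, ← C_mul, ← tw_pow (g := g) h]
      have h3 : δ ^ (2 * g + 1) ≠ 0 := pow_ne_zero _ hδ
      rw [← C_1]
      congr 1
      field_simp
    ext1
    · simp only [QuadraticAlgebra.re_mul, add_comp, mul_comp, ← h1]
      linear_combination -((ff a).comp (C D⁻¹ * X) * z.im.comp (C D⁻¹ * X) *
        w.im.comp (C D⁻¹ * X)) * h2
    · simp only [QuadraticAlgebra.im_mul, add_comp, mul_comp, zero_comp]
      ring
  map_add' z w := by
    ext1
    · simp only [QuadraticAlgebra.re_add, add_comp]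
    · simp only [QuadraticAlgebra.im_add, add_comp]
      ring

theorem twCo_re (a : Fin (2 * g + 1) → Om) {D δ : Om} (h : δ ^ 2 = D) (hδ : δ ≠ 0)
    (z : Co (ff a)) : (twCo a h hδ z).re = z.re.comp (C D⁻¹ * X) := rfl

theorem twCo_im (a : Fin (2 * g + 1) → Om) {D δ : Om} (h : δ ^ 2 = D) (hδ : δ ≠ 0)
    (z : Co (ff a)) :
    (twCo a h hδ z).im = C (δ ^ (2 * g + 1))⁻¹ * z.im.comp (C D⁻¹ * X) := rfl

private theorem tw_map_comp (σ : Om ≃+* Om) {D : Om} (hσ : σ D = D) (p : Om[X]) :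
    (p.comp (C D⁻¹ * X)).map (σ : Om →+* Om) = (p.map (σ : Om →+* Om)).comp (C D⁻¹ * X) := by
  have h1 : (σ : Om →+* Om) D⁻¹ = D⁻¹ := by
    rw [map_inv₀]
    congr 1
  rw [Polynomial.map_comp, Polynomial.map_mul, map_X, map_C, h1]

/-- Galois action on the coordinate rings, `σ δ = δ`. -/
theorem twCo_coMap_pos {a : Fin (2 * g + 1) → Om} (σ : Om ≃+* Om) (ha : ∀ i, σ (a i) = a i)
    {D δ : Om} (h : δ ^ 2 = D) (hδ : δ ≠ 0) (hσ : σ δ = δ)
    (hb : (ff fun i => D * a i).map (σ : Om →+* Om) = ff fun i => D * a i) (z : Co (ff a)) :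
    coMap σ hb (twCo a h hδ z) = twCo a h hδ (coMap σ (map_ff σ ha) z) := by
  have hD : σ D = D := by rw [← h, map_pow, hσ]
  have h1 : (σ : Om →+* Om) (δ ^ (2 * g + 1))⁻¹ = (δ ^ (2 * g + 1))⁻¹ := by
    rw [map_inv₀, map_pow]
    congr 2
  ext1
  · rw [coMap_re, twCo_re, twCo_re, coMap_re, tw_map_comp σ hD]
  · rw [coMap_im, twCo_im, twCo_im, coMap_im, Polynomial.map_mul, map_C, h1, tw_map_comp σ hD]

/-- Galois action on the coordinate rings, `σ δ = -δ`. -/
theorem twCo_coMap_neg {a : Fin (2 * g + 1) → Om} (σ : Om ≃+* Om) (ha : ∀ i, σ (a i) = a i)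
    {D δ : Om} (h : δ ^ 2 = D) (hδ : δ ≠ 0) (hσ : σ δ = -δ)
    (hb : (ff fun i => D * a i).map (σ : Om →+* Om) = ff fun i => D * a i) (z : Co (ff a)) :
    coMap σ hb (twCo a h hδ z) = twCo a h hδ (starCo (ff a) (coMap σ (map_ff σ ha) z)) := by
  have hD : σ D = D := by rw [← h, map_pow, hσ, neg_sq]
  have h1 : (σ : Om →+* Om) (δ ^ (2 * g + 1))⁻¹ = -(δ ^ (2 * g + 1))⁻¹ := by
    have h2 : (σ : Om →+* Om) δ = -δ := hσ
    rw [map_inv₀, map_pow, h2, Odd.neg_pow ⟨g, rfl⟩, inv_neg]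
  ext1
  · rw [coMap_re, twCo_re, twCo_re, starCo_re, coMap_re, tw_map_comp σ hD]
  · rw [coMap_im, twCo_im, twCo_im, starCo_im, coMap_im, Polynomial.map_mul, map_C, h1,
      tw_map_comp σ hD, C_neg, neg_comp]
    ring

variable (a : Fin (2 * g + 1) → Om) [HypA a]

/-- The isomorphism of the Jacobians of the curve and of its quadratic twist. -/
noncomputable def twIso {D δ : Om} [HypA fun i => D * a i] (h : δ ^ 2 = D) (hδ : δ ≠ 0) :
    JJ (ff a) ≃+ JJ (ff fun i => D * a i) where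
  toFun := jMap (twCo a h hδ)
  invFun := jMap (twCo a h hδ).symm
  left_inv Q := by
    rw [jMap_jMap, RingEquiv.self_trans_symm, jMap_refl]
  right_inv Q := by
    rw [jMap_jMap, RingEquiv.symm_trans_self, jMap_refl]
  map_add' := map_add _

theorem twJ_apply {D δ : Om} [HypA fun i => D * a i] (h : δ ^ 2 = D) (hδ : δ ≠ 0)
    (Q : JJ (ff a)) : twIso a h hδ Q = jMap (twCo a h hδ) Q := rfl

theorem twJ_cls {D δ : Om} [HypA fun i => D * a i] (h : δ ^ 2 = D) (hδ : δ ≠ 0)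
    (I : Ideal (Co (ff a))) :
    twIso a h hδ (cls I) = cls (I.map (twCo a h hδ : Co (ff a) →+* Co (ff fun i => D * a i))) :=
  jMap_cls _ _

/-- The image of a point. -/
theorem twJ_cl {D δ : Om} [HypA fun i => D * a i] (h : δ ^ 2 = D) (hδ : δ ≠ 0)
    (P : Pnt (ff a)) (P' : Pnt (ff fun i => D * a i)) (hx : P'.x = D * P.x)
    (hy : P'.y = δ ^ (2 * g + 1) * P.y) : twIso a h hδ P.cl = P'.cl := by
  have hD : D ≠ 0 := h ▸ pow_ne_zero 2 hδ
  have h3 : δ ^ (2 * g + 1) ≠ 0 := pow_ne_zero _ hδ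
  have key : ∀ w : Co (ff a), P'.ev (twCo a h hδ w) = P.ev w := by
    intro w
    have h4 : D⁻¹ * (D * P.x) = P.x := by rw [← mul_assoc, inv_mul_cancel₀ hD, one_mul]
    simp only [Pnt.ev_apply, twCo_re, twCo_im, hx, hy, eval_comp, eval_mul, eval_C, eval_X, h4]
    field_simp
  rw [Pnt.cl, twJ_cls, Pnt.cl]
  congr 1
  ext z
  rw [Ideal.mem_map_iff_of_surjective (twCo a h hδ : Co (ff a) →+* Co (ff fun i => D * a i))
    (twCo a h hδ).surjective]
  constructor
  · rintro ⟨w, hw, rfl⟩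
    change P'.ev (twCo a h hδ w) = 0
    rw [key]
    exact hw
  · intro hz
    refine ⟨(twCo a h hδ).symm z, ?_, RingEquiv.apply_symm_apply _ _⟩
    change P.ev ((twCo a h hδ).symm z) = 0
    rw [← key, RingEquiv.apply_symm_apply]
    exact hz

/-- The branch points correspond. -/
theorem twJ_ee {D δ : Om} [HypA fun i => D * a i] (h : δ ^ 2 = D) (hδ : δ ≠ 0)
    (i : Fin (2 * g + 1)) : twIso a h hδ (ee a i) = ee (fun i => D * a i) i := by
  refine twJ_cl a h hδ _ _ rfl ?_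
  change (0 : Om) = δ ^ (2 * g + 1) * 0
  rw [mul_zero]

theorem twJ_act_pos (σ : Om ≃+* Om) (ha : ∀ i, σ (a i) = a i) {D δ : Om}
    [HypA fun i => D * a i] (h : δ ^ 2 = D) (hδ : δ ≠ 0) (hσ : σ δ = δ)
    (hb : (ff fun i => D * a i).map (σ : Om →+* Om) = ff fun i => D * a i) (Q : JJ (ff a)) :
    act σ hb (twIso a h hδ Q) = twIso a h hδ (act σ (map_ff σ ha) Q) := by
  rw [twJ_apply, twJ_apply, act, act, jMap_jMap, jMap_jMap]
  congr 1
  congr 1
  ext1 z
  exact twCo_coMap_pos σ ha h hδ hσ hb z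

theorem twJ_act_neg (σ : Om ≃+* Om) (ha : ∀ i, σ (a i) = a i) {D δ : Om}
    [HypA fun i => D * a i] (h : δ ^ 2 = D) (hδ : δ ≠ 0) (hσ : σ δ = -δ)
    (hb : (ff fun i => D * a i).map (σ : Om →+* Om) = ff fun i => D * a i) (Q : JJ (ff a)) :
    act σ hb (twIso a h hδ Q) = -twIso a h hδ (act σ (map_ff σ ha) Q) := by
  have h1 : act σ hb (twIso a h hδ Q) =
      twIso a h hδ (jMap (starCo (ff a)) (act σ (map_ff σ ha) Q)) := by
    rw [twJ_apply, twJ_apply, act, act, jMap_jMap, jMap_jMap, jMap_jMap]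
    congr 1
    congr 1
    ext1 z
    exact twCo_coMap_neg σ ha h hδ hσ hb z
  rw [h1, jMap_star, map_neg]

section overK

variable {K : Type} [Field K] [Algebra K Om]

open Pool.Agent.Lib.SmD in
/-- The Galois action on the Jacobian of the quadratic twist by `D`, `D ∈ K`. -/
theorem twJ_act {a : Fin (2 * g + 1) → Om} [HypA a] (s : Om ≃ₐ[K] Om)
    (ha : ∀ i, s.toRingEquiv (a i) = a i) {D : K} {δ : Om} [HypA fun i => algebraMap K Om D * a i]
    (h : δ ^ 2 = algebraMap K Om D) (hδ : δ ≠ 0)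
    (hb : (ff fun i => algebraMap K Om D * a i).map (s.toRingEquiv : Om →+* Om) =
      ff fun i => algebraMap K Om D * a i) (Q : JJ (ff a)) :
    act s.toRingEquiv hb (twIso a h hδ Q) =
      sgn (chi K D s) • twIso a h hδ (act s.toRingEquiv (map_ff s.toRingEquiv ha) Q) := by
  have h2 : s δ ^ 2 = δ ^ 2 := by
    rw [← map_pow, h, s.commutes]
  rcases sq_eq_sq_iff_eq_or_eq_neg.1 h2 with h3 | h3
  · have h4 : chi K D s = 0 := by
      rw [chi, if_pos]
      intro r hr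
      rw [← h] at hr
      rcases sq_eq_sq_iff_eq_or_eq_neg.1 hr with rfl | rfl
      · exact h3
      · rw [map_neg, h3]
    rw [h4, sgn, if_pos rfl, one_zsmul]
    exact twJ_act_pos a s.toRingEquiv ha h hδ h3 hb Q
  · have h4 : chi K D s = 1 := by
      rw [chi, if_neg]
      intro hc
      have h5 := hc δ h
      rw [h3] at h5
      have h6 : (2 : Om) * δ = 0 := by linear_combination -h5
      rcases mul_eq_zero.1 h6 with h7 | h7
      · exact HypA.two a h7
      · exact hδ h7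
    rw [h4, sgn, if_neg one_ne_zero, neg_one_zsmul]
    exact twJ_act_neg a s.toRingEquiv ha h hδ h3 hb Q

end overK

end Pool.Agent.SmJ
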