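import Pool.Agent.Lib.SmJ.E.FinInt
import Pool.Agent.Lib.SmJ.E.Tw
import Pool.Agent.Lib.SmD.LocDvr

/-!
SMITH for Jacobians (MP_950c68_ag), block E3 at an arbitrary place: no integrality of the roots, the
roots may be permuted by the decomposition group.
-/

set_option autoImplicit false

open Polynomial IsLocalRing

namespace Pool.Agent.SmJ

open SmJE Pool.Agent.Lib.SmD

section rho

variable {Om : Type} [Field Om] {w : ValuationSubring Om}

/-- the constant `ρ` of a separable polynomial -/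
theorem exists_rho {f : (w : Type)[X]} (hsep : (f.map (algebraMap w Om)).Separable) :
    ∃ ρ : w, ρ ≠ 0 ∧ ∀ x : w, f.eval x ∣ ρ ∨ f.derivative.eval x ∣ ρ := by
  obtain ⟨u, v, huv⟩ := hsep
  have huv0 : u ≠ 0 ∨ v ≠ 0 := by
    by_contra hc
    push Not at hc
    rw [hc.1, hc.2, zero_mul, zero_mul, add_zero] at huv
    exact zero_ne_one huv
  obtain ⟨c, u0, v0, hc, hu0, hv0, -⟩ := exists_scale w u v huv0
  have e1 : (u0 * f + v0 * derivative f).map (algebraMap w Om) = C c := by
    rw [Polynomial.map_add, Polynomial.map_mul, Polynomial.map_mul, hu0, hv0,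
      ← Polynomial.derivative_map]
    linear_combination (C c) * huv
  set P := u0 * f + v0 * derivative f with hP
  have e2 : algebraMap w Om (P.coeff 0) = c := by
    have e := congrArg (fun q => q.coeff 0) e1
    simp only [coeff_map, coeff_C_zero] at e
    exact e
  have e3 : P = C (P.coeff 0) := by
    apply Polynomial.map_injective _ (inj_w w)
    rw [e1, Polynomial.map_C, e2]
  refine ⟨P.coeff 0, fun h0 => hc (by rw [← e2, h0, map_zero]), fun x => ?_⟩
  have e4 : u0.eval x * f.eval x + v0.eval x * (derivative f).eval x = P.coeff 0 := by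
    have e := congrArg (Polynomial.eval x) e3
    rw [eval_C] at e
    rw [← e, hP]
    simp
  rcases ValuationRing.dvd_total (f.eval x) ((derivative f).eval x) with h | h
  · left
    rw [← e4]
    exact dvd_add (Dvd.intro_left _ rfl) (h.mul_left _)
  · right
    rw [← e4]
    exact dvd_add (h.mul_left _) (Dvd.intro_left _ rfl)

end rho

section small

variable {K Om : Type} [Field K] [Field Om] [Algebra K Om] {w : ValuationSubring Om} {π : K}

/-- a nonzero algebraic element is not smaller than all powers of the uniformizer -/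
theorem exists_pow_le_alg [Algebra.IsAlgebraic K Om] (hL : LocHyp K w π) {x : Om} (hx : x ≠ 0) :
    ∃ N : ℕ, w.valuation (algebraMap K Om π) ^ N ≤ w.valuation x := by
  have hpi := hL.pi_pos
  have hvx : w.valuation x ≠ 0 := (w.valuation.ne_zero_iff).mpr hx
  by_cases h1 : 1 ≤ w.valuation x
  · exact ⟨0, by rwa [pow_zero]⟩
  rw [not_le] at h1
  set y := x⁻¹ with hy
  have hyx : w.valuation y = (w.valuation x)⁻¹ := map_inv₀ _ _
  have hy1 : 1 < w.valuation y := by
    rw [hyx]
    exact (one_lt_inv₀ (zero_lt_iff.mpr hvx)).mpr h1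
  have hy0 : 0 < w.valuation y := lt_trans zero_lt_one hy1
  have halg : IsIntegral K y := (Algebra.IsAlgebraic.isAlgebraic y).isIntegral
  set p := minpoly K y with hp
  have hpm : p.Monic := minpoly.monic halg
  set n := p.natDegree with hn
  have hn0 : 0 < n := minpoly.natDegree_pos halg
  have hroot : ∑ i ∈ Finset.range n, algebraMap K Om (p.coeff i) * y ^ i = - y ^ n := by
    have e := minpoly.aeval K y
    rw [← hp, aeval_eq_sum_range, Finset.sum_range_succ, ← hn, hpm.coeff_natDegree, one_smul] at e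
    have e2 : ∑ i ∈ Finset.range n, p.coeff i • y ^ i =
        ∑ i ∈ Finset.range n, algebraMap K Om (p.coeff i) * y ^ i :=
      Finset.sum_congr rfl fun i _ => Algebra.smul_def _ _
    rw [e2] at e
    exact eq_neg_of_add_eq_zero_left e
  obtain ⟨i, hi, hle⟩ : ∃ i ∈ Finset.range n,
      w.valuation y ≤ w.valuation (algebraMap K Om (p.coeff i)) := by
    by_contra hc
    push Not at hc
    have h2 : w.valuation (∑ i ∈ Finset.range n, algebraMap K Om (p.coeff i) * y ^ i) <
        w.valuation (y ^ n) := by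
      have hpos : (0 : w.ValueGroup) < w.valuation y ^ n := pow_pos hy0 n
      refine Valuation.map_sum_lt _ (by rw [map_pow]; exact hpos.ne') ?_
      intro i hi
      have hin : i < n := Finset.mem_range.mp hi
      rw [map_mul, map_pow, map_pow]
      have h3 : w.valuation y ^ i ≤ w.valuation y ^ (n - 1) :=
        pow_le_pow_right₀ hy1.le (by omega)
      have h4 : w.valuation y ^ n = w.valuation y * w.valuation y ^ (n - 1) := by
        rw [← pow_succ']
        congr 1
        omega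
      rw [h4]
      calc w.valuation (algebraMap K Om (p.coeff i)) * w.valuation y ^ i
          ≤ w.valuation (algebraMap K Om (p.coeff i)) * w.valuation y ^ (n - 1) :=
            mul_le_mul' le_rfl h3
        _ < w.valuation y * w.valuation y ^ (n - 1) :=
            mul_lt_mul_of_pos_right (hc i hi) (pow_pos hy0 _)
    rw [hroot, Valuation.map_neg] at h2
    exact lt_irrefl _ h2
  have hc0 : p.coeff i ≠ 0 := by
    intro h0
    rw [h0, map_zero, map_zero] at hle
    exact absurd hy0 (not_lt.mpr hle)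
  obtain ⟨k, hk⟩ := hL.disc _ hc0
  refine ⟨(-k).toNat, ?_⟩
  have h5 : w.valuation x = (w.valuation y)⁻¹ := by rw [hyx, inv_inv]
  rw [h5, ← zpow_natCast]
  have h6 : w.valuation (algebraMap K Om π) ^ (((-k).toNat : ℕ) : ℤ) ≤
      w.valuation (algebraMap K Om π) ^ (-k) :=
    zpow_le_zpow_right_of_le_one₀ hpi hL.pi_lt.le (Int.self_le_toNat _)
  refine h6.trans ?_
  rw [zpow_neg, ← hk]
  exact inv_anti₀ hy0 hle

end small

section tw

variable {Om : Type} [Field Om] {g : ℕ} (a : Fin (2 * g + 1) → Om) [HypA a]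

/-- equivariance of the scaling isomorphism, roots permuted -/
theorem twIso_act (σ : Om ≃+* Om) (ha : (ff a).map (σ : Om →+* Om) = ff a) {D δ : Om}
    [HypA fun i => D * a i] (h : δ ^ 2 = D) (hδ : δ ≠ 0) (hσ : σ δ = δ)
    (hb : (ff fun i => D * a i).map (σ : Om →+* Om) = ff fun i => D * a i) (Q : JJ (ff a)) :
    act σ hb (twIso a h hδ Q) = twIso a h hδ (act σ ha Q) := by
  rw [twJ_apply, twJ_apply, act, act, jMap_jMap, jMap_jMap]
  congr 1
  congr 1
  have hD : (σ : Om →+* Om) D⁻¹ = D⁻¹ := by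
    rw [map_inv₀, ← h, map_pow]
    congr 2
  have hδ' : (σ : Om →+* Om) (δ ^ (2 * g + 1))⁻¹ = (δ ^ (2 * g + 1))⁻¹ := by
    rw [map_inv₀, map_pow]
    congr 2
  ext1 z
  ext1
  · change (z.re.comp (C D⁻¹ * X)).map (σ : Om →+* Om) =
      (z.re.map (σ : Om →+* Om)).comp (C D⁻¹ * X)
    rw [Polynomial.map_comp, Polynomial.map_mul, map_X, map_C, hD]
  · change (C (δ ^ (2 * g + 1))⁻¹ * z.im.comp (C D⁻¹ * X)).map (σ : Om →+* Om) =
      C (δ ^ (2 * g + 1))⁻¹ * (z.im.map (σ : Om →+* Om)).comp (C D⁻¹ * X)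
    rw [Polynomial.map_mul, Polynomial.map_comp, Polynomial.map_mul, map_X, map_C, map_C, hD, hδ']

end tw

variable {K Om : Type} [Field K] [Field Om] [Algebra K Om] {w : ValuationSubring Om} {π : K}

/-- `fin_int` with a name for the polynomial over `Om` -/
theorem fin_int' [IsSepClosed Om] [Infinite K] [Infinite (ResidueField w)]
    {f : (w : Type)[X]} {F : Om[X]} [Hyp F] (hF : f.map (algebraMap w Om) = F) (hfm : f.Monic)
    (h2 : w.valuation 2 = 1)
    (hDF : ∀ s ∈ dec K w, F.map (((s : Om ≃ₐ[K] Om) : Om ≃+* Om) : Om →+* Om) = F)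
    {r : K} {ρ : w} (hr : algebraMap K Om r = (ρ : Om)) (hρ0 : ρ ≠ 0)
    (hρ : ∀ x : w, f.eval x ∣ ρ ∨ f.derivative.eval x ∣ ρ)
    (hFin : ∀ t : K, t ≠ 0 → ∃ Fs : Set Om, Fs.Finite ∧ ∀ u, w.valuation u ≤ 1 →
      (∀ s ∈ dec K w, s u = u) → ∃ v ∈ Fs, w.valuation (u - v) ≤ w.valuation (algebraMap K Om t))
    (hπ : ∃ π : K, π ≠ 0 ∧ w.valuation (algebraMap K Om π) < 1) :
    {Q : JJ F | (∃ j : ℕ, 2 ^ j • Q = 0) ∧
      ∀ s (hs : s ∈ dec K w), act (s : Om ≃+* Om) (hDF s hs) Q = Q ∨
        act (s : Om ≃+* Om) (hDF s hs) Q = -Q}.Finite := by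
  subst hF
  exact fin_int hfm h2 hDF hr hρ0 hρ hFin hπ

/-- **E3** at an arbitrary place -/
theorem fin_loc [IsSepClosed Om] [Algebra.IsAlgebraic K Om] [Infinite K]
    [Infinite (ResidueField w)] (hL : LocHyp K w π)
    (hFin : ∀ t : K, t ≠ 0 → ∃ Fs : Set Om, Fs.Finite ∧ ∀ u, w.valuation u ≤ 1 →
      (∀ s ∈ dec K w, s u = u) → ∃ v ∈ Fs, w.valuation (u - v) ≤ w.valuation (algebraMap K Om t))
    {g : ℕ} {a : Fin (2 * g + 1) → Om} [HypA a]
    (hDF : ∀ s ∈ dec K w, (ff a).map (((s : Om ≃ₐ[K] Om) : Om ≃+* Om) : Om →+* Om) = ff a) :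
    {Q : JJ (ff a) | (∃ j : ℕ, 2 ^ j • Q = 0) ∧
      ∀ s (hs : s ∈ dec K w), act (s : Om ≃+* Om) (hDF s hs) Q = Q ∨
        act (s : Om ≃+* Om) (hDF s hs) Q = -Q}.Finite := by
  have hpi := hL.pi_pos
  -- the scaling factor
  have hm : ∀ i, ∃ m : ℕ, w.valuation (algebraMap K Om π) ^ m * w.valuation (a i) ≤ 1 := by
    intro i
    by_cases h0 : a i = 0
    · exact ⟨0, by rw [h0, map_zero, mul_zero]; exact zero_le_one⟩
    · obtain ⟨m, hm⟩ := exists_pow_le_alg (K := K) hL (inv_ne_zero h0)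
      refine ⟨m, ?_⟩
      have hv : w.valuation (a i) ≠ 0 := (w.valuation.ne_zero_iff).mpr h0
      rw [map_inv₀] at hm
      calc w.valuation (algebraMap K Om π) ^ m * w.valuation (a i)
          ≤ (w.valuation (a i))⁻¹ * w.valuation (a i) := mul_le_mul' hm le_rfl
        _ = 1 := inv_mul_cancel₀ hv
  choose mm hmm using hm
  set m := ∑ i, mm i with hmdef
  set δ : Om := algebraMap K Om π ^ m with hδdef
  set D : Om := δ ^ 2 with hDdef
  have hπ0 : algebraMap K Om π ≠ 0 := (map_ne_zero_iff _ (algebraMap K Om).injective).mpr hL.pi_ne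
  have hδ : δ ≠ 0 := pow_ne_zero _ hπ0
  have hD : D ≠ 0 := pow_ne_zero _ hδ
  have hint : ∀ i, D * a i ∈ w := by
    intro i
    rw [← w.valuation_le_one_iff, hDdef, hδdef, map_mul, map_pow, map_pow, ← pow_mul]
    have hle : mm i ≤ m * 2 := by
      have h1 : mm i ≤ m := Finset.single_le_sum (f := mm) (fun _ _ => Nat.zero_le _)
        (Finset.mem_univ i)
      omega
    calc w.valuation (algebraMap K Om π) ^ (m * 2) * w.valuation (a i)
        ≤ w.valuation (algebraMap K Om π) ^ (mm i) * w.valuation (a i) :=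
          mul_le_mul' (pow_le_pow_right_of_le_one' hL.pi_lt.le hle) le_rfl
      _ ≤ 1 := hmm i
  have hinst : HypA fun i => D * a i := HypA.mul hD
  -- the integral model
  set f : (w : Type)[X] := ∏ i, (X - C (⟨D * a i, hint i⟩ : w)) with hf
  have hfm : f.Monic := monic_prod_of_monic _ _ fun i _ => monic_X_sub_C _
  have hF : f.map (algebraMap w Om) = ff fun i => D * a i := by
    rw [hf, Polynomial.map_prod, ff]
    refine Finset.prod_congr rfl fun i _ => ?_
    rw [Polynomial.map_sub, Polynomial.map_X, Polynomial.map_C]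
    rfl
  have hδs : ∀ s : Om ≃ₐ[K] Om, (s : Om ≃+* Om) δ = δ := by
    intro s
    rw [hδdef, map_pow]
    congr 1
    exact s.commutes π
  have hDF' : ∀ s ∈ dec K w, (ff fun i => D * a i).map
      (((s : Om ≃ₐ[K] Om) : Om ≃+* Om) : Om →+* Om) = ff fun i => D * a i := by
    intro s hs
    have hDs : (((s : Om ≃ₐ[K] Om) : Om ≃+* Om) : Om →+* Om) D = D := by
      rw [hDdef, map_pow]
      congr 1
      exact hδs s
    rw [← ff_comp a hD, Polynomial.map_mul, Polynomial.map_comp, map_C, map_pow, hDs, hDF s hs,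
      Polynomial.map_mul, map_C, map_X, map_inv₀, hDs]
  -- the constant
  have hsep : (f.map (algebraMap w Om)).Separable := by
    rw [hF]
    exact Hyp.sep
  obtain ⟨ρ0, hρ00, hρ0⟩ := exists_rho hsep
  obtain ⟨N, hN⟩ := exists_pow_le_alg (K := K) hL (x := (ρ0 : Om))
    (fun h0 => hρ00 (Subtype.ext h0))
  have hπw : algebraMap K Om π ∈ w := (w.valuation_le_one_iff _).mp hL.pi_lt.le
  set ρ : w := (⟨algebraMap K Om π, hπw⟩ : w) ^ N with hρdef
  have hρr : algebraMap K Om (π ^ N) = (ρ : Om) := by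
    rw [map_pow]
    rfl
  have hρne : ρ ≠ 0 := by
    apply pow_ne_zero
    intro h0
    exact hπ0 (congrArg Subtype.val h0)
  have hρ00' : (ρ0 : Om) ≠ 0 := fun h0 => hρ00 (Subtype.ext h0)
  have hdvd : ρ0 ∣ ρ := by
    have hq : (ρ : Om) / ρ0 ∈ w := by
      rw [← w.valuation_le_one_iff, map_div₀, ← hρr, map_pow, map_pow,
        div_le_one₀ (zero_lt_iff.mpr ((w.valuation.ne_zero_iff).mpr hρ00'))]
      exact hN
    refine ⟨⟨(ρ : Om) / ρ0, hq⟩, Subtype.ext ?_⟩
    change (ρ : Om) = ρ0 * ((ρ : Om) / ρ0)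
    rw [mul_div_cancel₀ _ hρ00']
  have hmain := fin_int' (K := K) hF hfm hL.two hDF' hρr hρne
    (fun x => (hρ0 x).imp (fun h => h.trans hdvd) (fun h => h.trans hdvd)) hFin
    ⟨π, hL.pi_ne, hL.pi_lt⟩
  refine Set.Finite.of_injOn (f := twIso a (rfl : δ ^ 2 = D) hδ) ?_
    (twIso a (rfl : δ ^ 2 = D) hδ).injective.injOn hmain
  rintro Q ⟨⟨j, hj⟩, hQ⟩
  refine ⟨⟨j, by rw [← map_nsmul, hj, map_zero]⟩, fun s hs => ?_⟩
  have e := twIso_act a (s : Om ≃+* Om) (hDF s hs) (rfl : δ ^ 2 = D) hδ (hδs s) (hDF' s hs) Q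
  rw [e]
  rcases hQ s hs with h | h
  · left
    rw [h]
  · right
    rw [h, map_neg]

end Pool.Agent.SmJ
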