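import Pool.Agent.Lib.SmJ.E.PtGen

/-!
SMITH for Jacobians (MP_950c68_ag), block E: classes as sums of classes of points.
-/

set_option autoImplicit false

open Polynomial

namespace Pool.Agent.SmJ

variable {Om : Type} [Field Om] {f : Om[X]} [Hyp f]

/-- the class of a Mumford ideal whose first entry splits -/
theorem mcl_split {A B : Om[X]} (hA : A ≠ 0) (h : A ∣ f - B ^ 2) (hs : A.Splits) :
    ∃ s : Multiset (Pnt f), A.roots = s.map Pnt.x ∧ mcl f A B = (s.map fun P => P.cl).sum := by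
  obtain ⟨n, hn⟩ : ∃ n, A.natDegree = n := ⟨_, rfl⟩
  induction n generalizing A with
  | zero =>
    obtain ⟨c, rfl⟩ := natDegree_eq_zero.mp hn
    have hc : c ≠ 0 := fun h0 => hA (by rw [h0, C_0])
    refine ⟨0, by simp, ?_⟩
    rw [mcl, mid_C hc, cls_top]
    simp
  | succ n ih =>
    obtain ⟨r, hr⟩ := hs.exists_eval_eq_zero (by
      rw [degree_eq_natDegree hA, hn]
      exact_mod_cast Nat.succ_ne_zero n)
    obtain ⟨A1, rfl⟩ : X - C r ∣ A := by
      rw [dvd_iff_isRoot]
      exact hr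
    have hX : X - C r ≠ 0 := X_sub_C_ne_zero r
    have hA1 : A1 ≠ 0 := right_ne_zero_of_mul hA
    have hd1 : A1 ∣ f - B ^ 2 := (Dvd.intro_left _ rfl).trans h
    have hd0 : X - C r ∣ f - B ^ 2 := (Dvd.intro _ rfl).trans h
    have hn1 : A1.natDegree = n := by
      rw [natDegree_mul hX hA1, natDegree_X_sub_C] at hn
      omega
    obtain ⟨s, hs1, hs2⟩ := ih hA1 hd1 (hs.of_dvd hA (Dvd.intro_left _ rfl)) hn1
    have hon : (B.eval r) ^ 2 = f.eval r := by
      rw [dvd_iff_isRoot, IsRoot.def, eval_sub, eval_pow] at hd0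
      linear_combination -hd0
    refine ⟨(⟨r, B.eval r, hon⟩ : Pnt f) ::ₘ s, ?_, ?_⟩
    · rw [roots_mul hA, roots_X_sub_C, Multiset.map_cons, hs1]
      rfl
    · rw [Multiset.map_cons, Multiset.sum_cons, ← hs2]
      have e1 := (mumf f).mul hA h
      rw [mumf_cl, mumf_cl, mumf_cl] at e1
      rw [e1]
      congr 1
      have e2 := (mumf f).cl_lin hd0
      rw [mumf_cl] at e2
      rw [e2]
      exact mumf_pt (⟨r, B.eval r, hon⟩ : Pnt f)

/-- the class of `(U, y - V)` as a sum of points over the roots of the moved polynomial -/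
theorem mcl_points [IsSepClosed Om] {U V D : Om[X]} (h : f = V ^ 2 + U * D) (hU : U ≠ 0) {l : Om}
    (hG : (mv U V D l).Separable) :
    ∃ s : Multiset (Pnt f), (mv U V D l).roots = s.map Pnt.x ∧ mcl f U V = (s.map fun P => P.cl).sum := by
  have hG0 : mv U V D l ≠ 0 := hG.ne_zero
  have e := mv_eq h l
  obtain ⟨s, h1, h2⟩ := mcl_split (f := f) (A := mv U V D l) (B := C l * U - V) hG0
    ⟨U, by linear_combination e⟩ (IsSepClosed.splits_of_separable _ hG)
  exact ⟨s, h1, by rw [← h2, mcl_mv h hU hG0]⟩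

/-- the Jacobian is generated by the points -/
theorem jac_gen [IsSepClosed Om] [Infinite Om] (Q : JJ f) :
    ∃ s : Multiset (Pnt f), Q = (s.map fun P => P.cl).sum := by
  obtain ⟨g, hg⟩ := Hyp.odd (f := f)
  obtain ⟨U, V, hU, hUg, hV, ⟨D, hD⟩, rfl⟩ := exists_red hg Q
  have h : f = V ^ 2 + U * D := by linear_combination hD
  obtain ⟨l, hl⟩ := (finite_bad h hU.ne_zero (by omega)).exists_notMem
  rw [Set.mem_ofPred_eq, not_not] at hl
  obtain ⟨s, -, hs⟩ := mcl_points h hU.ne_zero hl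
  exact ⟨s, hs⟩

/-- induction over the points -/
theorem jac_induction [IsSepClosed Om] [Infinite Om] {p : JJ f → Prop} (h0 : p 0)
    (h1 : ∀ P : Pnt f, p P.cl) (h2 : ∀ x y, p x → p y → p (x + y)) (Q : JJ f) : p Q := by
  obtain ⟨s, rfl⟩ := jac_gen Q
  induction s using Multiset.induction_on with
  | empty => simpa using h0
  | cons P s ih =>
    rw [Multiset.map_cons, Multiset.sum_cons]
    exact h2 _ _ (h1 P) ih

end Pool.Agent.SmJ
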