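import Pool.Agent.Lib.SmJ.E.HSub
import Pool.Agent.Lib.SmJ.E.PtSum
import Pool.Agent.Lib.SmD.Defs

/-!
SMITH for Jacobians (MP_950c68_ag), block E2: at a place of good reduction the inertia group acts
trivially on the 2-power torsion of the Jacobian.
-/

set_option autoImplicit false

open Polynomial IsLocalRing

namespace Pool.Agent.SmJ

open SmJE Pool.Agent.Lib.SmD

variable {Om : Type} [Field Om]

/-- the residue field of a place of a separably closed field is infinite -/
theorem infinite_res (p : ℕ) [Fact p.Prime] [CharP Om p] [IsSepClosed Om]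
    (w : ValuationSubring Om) : Infinite (ResidueField w) := by
  by_contra hc
  rw [not_infinite_iff_finite] at hc
  have : Fintype (ResidueField w) := Fintype.ofFinite _
  obtain ⟨p', hp', n, hpp, hq⟩ := FiniteField.card' (ResidueField w)
  have hpw : ((p : ℕ) : w) = 0 := by
    apply Subtype.ext
    change ((p : w) : Om) = 0
    rw [show ((p : w) : Om) = (p : Om) from map_natCast (algebraMap w Om) p, CharP.cast_eq_zero]
  have hpr : ((p : ℕ) : ResidueField w) = 0 := by
    rw [← map_natCast (residue w), hpw, map_zero]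
  have hpp' : p' ∣ p := (CharP.cast_eq_zero_iff (ResidueField w) p' p).mp hpr
  have hpe : p' = p := (Nat.prime_dvd_prime_iff_eq hpp Fact.out).mp hpp'
  set q := Fintype.card (ResidueField w) with hqd
  have hq0 : (q : Om) = 0 := by
    rw [hq, hpe, Nat.cast_pow, CharP.cast_eq_zero, zero_pow n.pos.ne']
  have hq1 : 1 < q := Fintype.one_lt_card
  set P : Om[X] := X ^ q - X - 1 with hP
  have hder : derivative P = -1 := by
    rw [hP, derivative_sub, derivative_sub, derivative_X_pow, derivative_X, derivative_one, hq0]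
    simp
  have hsep : P.Separable := by
    rw [Polynomial.Separable, hder]
    exact isCoprime_one_right.neg_right
  have hdeg : P.degree ≠ 0 := by
    have e : P = X ^ q - (X + 1) := by rw [hP]; ring
    have h1 : (X + 1 : Om[X]).degree < (X ^ q : Om[X]).degree := by
      rw [degree_X_pow]
      refine lt_of_le_of_lt (degree_add_le _ _) (max_lt ?_ ?_)
      · rw [degree_X]
        exact_mod_cast hq1
      · rw [degree_one]
        exact_mod_cast (by omega : 0 < q)
    rw [e, degree_sub_eq_left_of_degree_lt h1, degree_X_pow]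
    exact_mod_cast (by omega : q ≠ 0)
  obtain ⟨α, hα⟩ := IsSepClosed.exists_root P hdeg hsep
  have hα1 : α ^ q = α + 1 := by
    rw [IsRoot.def, hP] at hα
    simp only [eval_sub, eval_pow, eval_X, eval_one] at hα
    linear_combination hα
  have hαw : α ∈ w := by
    by_contra hn
    have h1 : 1 < w.valuation α := by
      rw [← w.valuation_le_one_iff] at hn
      exact not_le.mp hn
    have h2 : w.valuation (α + 1) = w.valuation α :=
      Valuation.map_add_eq_of_lt_left _ (by rw [map_one]; exact h1)
    have h3 : w.valuation α ^ q = w.valuation α := by rw [← map_pow, hα1, h2]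
    have h4 : w.valuation α < w.valuation α ^ q := by
      have := pow_lt_pow_right₀ h1 hq1
      rwa [pow_one] at this
    exact absurd h3 h4.ne'
  have h5 : residue w ⟨α, hαw⟩ ^ q = residue w ⟨α, hαw⟩ + 1 := by
    rw [← map_pow, ← map_one (residue w), ← map_add]
    congr 1
    exact Subtype.ext hα1
  rw [FiniteField.pow_card] at h5
  exact one_ne_zero (left_eq_add.mp h5)

theorem exists_sqrt_sc [IsSepClosed Om] (h2 : (2 : Om) ≠ 0) (x : Om) : ∃ y : Om, y ^ 2 = x := by
  have : NeZero ((2 : ℕ) : Om) := ⟨by exact_mod_cast h2⟩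
  exact IsSepClosed.exists_pow_nat_eq x 2

variable {K : Type*} [Field K] [Algebra K Om] {w : ValuationSubring Om}

/-- an element of the inertia group moves the Jacobian inside `Hs` when `ρ = 1` -/
theorem iner_sub_mem [IsSepClosed Om] [Infinite Om] {f : (w : Type)[X]}
    [Hyp (f.map (algebraMap w Om))] {s : Om ≃ₐ[K] Om} (hs : s ∈ iner K w)
    (hsf : (f.map (algebraMap w Om)).map ((s : Om ≃+* Om) : Om →+* Om) =
      f.map (algebraMap w Om)) (Q : JJ (f.map (algebraMap w Om))) :
    act (s : Om ≃+* Om) hsf Q - Q ∈ Hs w f 1 := by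
  refine jac_induction (p := fun Q => act (s : Om ≃+* Om) hsf Q - Q ∈ Hs w f 1) ?_ ?_ ?_ Q
  · rw [map_zero, sub_zero]
    exact zero_mem _
  · intro P
    rw [act_cl]
    by_cases hP : w.valuation P.x ≤ 1
    · -- close points
      obtain ⟨a, b, ha, hb, -⟩ := int_y hP
      have hmem : P.cl - (P.map (s : Om ≃+* Om) hsf).cl ∈ Hs w f 1 := by
        refine AddSubgroup.subset_closure (Or.inr ⟨P, P.map (s : Om ≃+* Om) hsf, hP, ?_, ?_, rfl⟩)
        · have h1 := hs.2 P.x (by rw [← ha]; exact a.2)
          have e : w.valuation ((1 : w) : Om) = 1 := map_one _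
          rw [e]
          exact h1
        · have h1 := hs.2 P.y (by rw [← hb]; exact b.2)
          have e : w.valuation ((1 : w) : Om) = 1 := map_one _
          rw [e]
          exact h1
      have e : (P.map (s : Om ≃+* Om) hsf).cl - P.cl = -(P.cl - (P.map (s : Om ≃+* Om) hsf).cl) :=
        (neg_sub _ _).symm
      rw [e]
      exact neg_mem hmem
    · have hP' : 1 < w.valuation P.x := not_le.mp hP
      have hsP : 1 < w.valuation (P.map (s : Om ≃+* Om) hsf).x := by
        rw [← not_le]
        intro h1
        exact hP ((dec_val_le K (iner_le_dec K w hs) P.x).mp h1)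
      exact sub_mem (AddSubgroup.subset_closure (Or.inl ⟨_, hsP, rfl⟩))
        (AddSubgroup.subset_closure (Or.inl ⟨_, hP', rfl⟩))
  · intro x y hx hy
    have e : act (s : Om ≃+* Om) hsf (x + y) - (x + y) =
        (act (s : Om ≃+* Om) hsf x - x) + (act (s : Om ≃+* Om) hsf y - y) := by
      rw [map_add]
      abel
    rw [e]
    exact add_mem hx hy

/-- **E2**, general form: `F` has `w`-integral coefficients and a separable reduction. -/
theorem good_fix [IsSepClosed Om] [Infinite Om] [Infinite (ResidueField w)] {f : (w : Type)[X]}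
    {F : Om[X]} [Hyp F] (hF : f.map (algebraMap w Om) = F) (hfm : f.Monic)
    (h2 : w.valuation 2 = 1) (hsep : (f.map (residue w)).Separable) {s : Om ≃ₐ[K] Om}
    (hs : s ∈ iner K w) (hsF : F.map ((s : Om ≃+* Om) : Om →+* Om) = F) {Q : JJ F} {j : ℕ}
    (hQ : (2 : ℕ) ^ j • Q = 0) : act (s : Om ≃+* Om) hsF Q = Q := by
  subst hF
  obtain ⟨g, hg⟩ := Hyp.odd (f := f.map (algebraMap w Om))
  rw [hfm.natDegree_map] at hg
  have h2u : IsUnit (2 : w) := by
    rw [w.valuation_eq_one_iff]
    exact h2
  have hρ : ∀ x : w, f.eval x ∣ 1 ∨ f.derivative.eval x ∣ 1 := by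
    intro x
    by_contra hc
    push Not at hc
    have key : ∀ P : (w : Type)[X], ¬ P.eval x ∣ 1 → (P.map (residue w)).eval (residue w x) = 0 := by
      intro P hP
      rw [Polynomial.eval_map, Polynomial.eval₂_at_apply, residue_eq_zero_iff,
        mem_maximalIdeal, mem_nonunits_iff]
      exact fun h => hP (isUnit_iff_dvd_one.mp h)
    have e1 := key f hc.1
    have e2 := key f.derivative hc.2
    rw [← Polynomial.derivative_map] at e2
    obtain ⟨u, v, huv⟩ := hsep
    have e3 := congrArg (Polynomial.eval (residue w x)) huv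
    rw [eval_add, eval_mul, eval_mul, e1, e2, eval_one] at e3
    simp at e3
  have hmem := iner_sub_mem hs hsF Q
  have h0 : (2 : ℕ) ^ j • (act (s : Om ≃+* Om) hsF Q - Q) = 0 := by
    rw [smul_sub, ← map_nsmul, hQ, map_zero, sub_zero]
  have h2' : (2 : Om) ≠ 0 := Hyp.two (f.map (algebraMap w Om))
  have := Hs_tors (exists_sqrt_sc h2') hfm hg h2u one_ne_zero hρ hmem h0
  exact sub_eq_zero.mp this

/-- **E2** for `f = ∏ (X - a i)`: the `a i` are `w`-integral with different residues. -/
theorem good_fix_a [IsSepClosed Om] [Infinite Om] [Infinite (ResidueField w)] {g : ℕ}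
    {a : Fin (2 * g + 1) → Om} [HypA a] (h2 : w.valuation 2 = 1)
    (ha : ∀ i, w.valuation (a i) ≤ 1) (hab : ∀ i j, i ≠ j → w.valuation (a i - a j) = 1)
    {s : Om ≃ₐ[K] Om} (hs : s ∈ iner K w) (hsa : ∀ i, (s : Om ≃+* Om) (a i) = a i)
    {Q : JJ (ff a)} {j : ℕ} (hQ : (2 : ℕ) ^ j • Q = 0) :
    act (s : Om ≃+* Om) (map_ff _ hsa) Q = Q := by
  set a0 : Fin (2 * g + 1) → w := fun i => ⟨a i, (w.valuation_le_one_iff _).mp (ha i)⟩ with ha0
  set f : (w : Type)[X] := ∏ i, (X - C (a0 i)) with hf
  have hfm : f.Monic := monic_prod_of_monic _ _ fun i _ => monic_X_sub_C (a0 i)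
  have hF : f.map (algebraMap w Om) = ff a := by
    rw [hf, Polynomial.map_prod, ff]
    refine Finset.prod_congr rfl fun i _ => ?_
    rw [Polynomial.map_sub, Polynomial.map_X, Polynomial.map_C]
    rfl
  have hsep : (f.map (residue w)).Separable := by
    rw [hf, Polynomial.map_prod]
    have e : ∏ i, (X - C (a0 i)).map (residue w) = ∏ i, (X - C (residue w (a0 i))) := by
      refine Finset.prod_congr rfl fun i _ => ?_
      rw [Polynomial.map_sub, Polynomial.map_X, Polynomial.map_C]
    rw [e, separable_prod_X_sub_C_iff]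
    intro i j hij
    by_contra hne
    change residue w (a0 i) = residue w (a0 j) at hij
    have h1 : residue w (a0 i - a0 j) = 0 := by rw [map_sub, hij, sub_self]
    rw [residue_eq_zero_iff, w.valuation_lt_one_iff] at h1
    exact absurd (hab i j hne) h1.ne
  exact good_fix hF hfm h2 hsep hs _ hQ

end Pool.Agent.SmJ
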