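import Mathlib
import Pool.Agent.Lib.SmJ.E.Ded

/-!
SMITH for Jacobians (MP_950c68_ag), block E: the leading coefficient at infinity.

`LT z = p(T^2) + T^n q(T^2)` for `z = p(x) + q(x) y`; `lcc z` = leading coefficient of `LT z`,
multiplicative; `wd z = natDegree z.norm` = degree of `LT z`, additive. `lcc (star z)` and the leading
coefficient of the norm. Every nonzero principal ideal has exactly one generator with `lcc = 1`.
-/

set_option autoImplicit false
set_option linter.unusedSectionVars false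

open Polynomial

namespace Pool.Agent.SmJ

variable {Om : Type} [Field Om] {f : Om[X]}

/-- `p + q y ↦ p(T^2) + T^n q(T^2)`. -/
noncomputable def LT (z : Co f) : Om[X] :=
  expand Om 2 z.re + X ^ f.natDegree * expand Om 2 z.im

/-- The weighted degree (pole order at infinity). -/
noncomputable def wd (z : Co f) : ℕ := z.norm.natDegree

/-- The leading coefficient at infinity. -/
noncomputable def lcc (z : Co f) : Om := (LT z).leadingCoeff

theorem LT_zero : LT (0 : Co f) = 0 := by
  simp [LT]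

theorem LT_one : LT (1 : Co f) = 1 := by
  simp [LT, QuadraticAlgebra.re_one, QuadraticAlgebra.im_one]

theorem LT_poly (p : Om[X]) : LT (⟨p, 0⟩ : Co f) = expand Om 2 p := by
  simp [LT]

theorem LT_add (z w : Co f) : LT (z + w) = LT z + LT w := by
  simp only [LT, QuadraticAlgebra.re_add, QuadraticAlgebra.im_add, map_add]
  ring

theorem LT_mul_sub (z w : Co f) : LT z * LT w - LT (z * w) =
    (X ^ (2 * f.natDegree) - expand Om 2 f) * (expand Om 2 z.im * expand Om 2 w.im) := by
  simp only [LT, QuadraticAlgebra.re_mul, QuadraticAlgebra.im_mul, map_add, map_mul, zero_mul,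
    add_zero]
  ring

section hyp

variable [Hyp f]

theorem natDegree_term {q : Om[X]} (hq : q ≠ 0) :
    (X ^ f.natDegree * expand Om 2 q).natDegree = 2 * q.natDegree + f.natDegree := by
  rw [natDegree_mul (pow_ne_zero _ X_ne_zero) ((expand_ne_zero two_pos).mpr hq), natDegree_X_pow,
    natDegree_expand]
  ring

theorem natDegree_LT (z : Co f) : (LT z).natDegree = wd z := by
  obtain ⟨g, hg⟩ := Hyp.odd (f := f)
  rw [wd]
  by_cases h : z.im = 0
  · rw [natDegree_norm_of_im_eq_zero z h, LT, h, map_zero, mul_zero, add_zero, natDegree_expand,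
      mul_comm]
  · rw [natDegree_norm z h, LT]
    have e1 := natDegree_term (f := f) h
    have e2 : (expand Om 2 z.re).natDegree = 2 * z.re.natDegree := by
      rw [natDegree_expand, mul_comm]
    rcases lt_trichotomy (expand Om 2 z.re).natDegree (X ^ f.natDegree * expand Om 2 z.im).natDegree
      with h1 | h1 | h1
    · rw [natDegree_add_eq_right_of_natDegree_lt h1]
      omega
    · omega
    · rw [natDegree_add_eq_left_of_natDegree_lt h1]
      omega

theorem LT_ne_zero {z : Co f} (hz : z ≠ 0) : LT z ≠ 0 := by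
  obtain ⟨g, hg⟩ := Hyp.odd (f := f)
  intro h
  by_cases h1 : z.im = 0
  · have h0 : z.re ≠ 0 := fun h0 => hz (QuadraticAlgebra.ext h0 h1)
    rw [LT, h1, map_zero, mul_zero, add_zero] at h
    exact (expand_ne_zero two_pos).mpr h0 h
  · have h2 := natDegree_LT z
    rw [h, natDegree_zero, wd, natDegree_norm z h1] at h2
    omega

@[simp] theorem lcc_zero : lcc (0 : Co f) = 0 := by
  rw [lcc, LT_zero, leadingCoeff_zero]

@[simp] theorem lcc_one : lcc (1 : Co f) = 1 := by
  rw [lcc, LT_one, leadingCoeff_one]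

theorem lcc_ne_zero {z : Co f} (hz : z ≠ 0) : lcc z ≠ 0 :=
  leadingCoeff_ne_zero.mpr (LT_ne_zero hz)

theorem lcc_eq_zero_iff {z : Co f} : lcc z = 0 ↔ z = 0 := by
  constructor
  · intro h
    by_contra hz
    exact lcc_ne_zero hz h
  · rintro rfl
    exact lcc_zero

theorem degree_diff_lt {z w : Co f} (hz : z ≠ 0) (hw : w ≠ 0) :
    (LT z * LT w - LT (z * w)).degree < (LT z * LT w).degree := by
  obtain ⟨g, hg⟩ := Hyp.odd (f := f)
  have hne : LT z * LT w ≠ 0 := mul_ne_zero (LT_ne_zero hz) (LT_ne_zero hw)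
  rw [LT_mul_sub]
  by_cases h : z.im = 0
  · rw [h, map_zero, zero_mul, mul_zero, degree_zero]
    exact bot_lt_iff_ne_bot.mpr (degree_ne_bot.mpr hne)
  by_cases h' : w.im = 0
  · rw [h', map_zero, mul_zero, mul_zero, degree_zero]
    exact bot_lt_iff_ne_bot.mpr (degree_ne_bot.mpr hne)
  have hm : (X ^ (2 * f.natDegree) : Om[X]).degree = (expand Om 2 f).degree := by
    rw [degree_X_pow, degree_eq_natDegree ((expand_ne_zero two_pos).mpr (f_ne_zero f)),
      natDegree_expand, mul_comm]
  have hlt : (X ^ (2 * f.natDegree) - expand Om 2 f).degree < (X ^ (2 * f.natDegree) : Om[X]).degree := by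
    refine degree_sub_lt_left hm (pow_ne_zero _ X_ne_zero) ?_
    rw [(monic_X_pow _).leadingCoeff, ((Hyp.monic (f := f)).expand two_pos).leadingCoeff]
  by_cases h0 : X ^ (2 * f.natDegree) - expand Om 2 f = 0
  · rw [h0, zero_mul, degree_zero]
    exact bot_lt_iff_ne_bot.mpr (degree_ne_bot.mpr hne)
  have hlt' : (X ^ (2 * f.natDegree) - expand Om 2 f).natDegree < 2 * f.natDegree := by
    have := natDegree_lt_natDegree h0 hlt
    rwa [natDegree_X_pow] at this
  have hne1 : expand Om 2 z.im * expand Om 2 w.im ≠ 0 :=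
    mul_ne_zero ((expand_ne_zero two_pos).mpr h) ((expand_ne_zero two_pos).mpr h')
  rw [degree_eq_natDegree hne, degree_eq_natDegree (mul_ne_zero h0 hne1),
    natDegree_mul h0 hne1, natDegree_mul ((expand_ne_zero two_pos).mpr h)
      ((expand_ne_zero two_pos).mpr h'), natDegree_mul (LT_ne_zero hz) (LT_ne_zero hw),
    natDegree_LT, natDegree_LT, wd, wd, natDegree_norm z h, natDegree_norm w h', natDegree_expand,
    natDegree_expand, Nat.cast_lt]
  omega

theorem LT_mul_eq (z w : Co f) : LT (z * w) = LT z * LT w - (LT z * LT w - LT (z * w)) := by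
  ring

theorem lcc_mul (z w : Co f) : lcc (z * w) = lcc z * lcc w := by
  by_cases hz : z = 0
  · rw [hz, zero_mul, lcc_zero, zero_mul]
  by_cases hw : w = 0
  · rw [hw, mul_zero, lcc_zero, mul_zero]
  rw [lcc, LT_mul_eq, leadingCoeff_sub_of_degree_lt (degree_diff_lt hz hw), leadingCoeff_mul]
  rfl

theorem wd_mul {z w : Co f} (hz : z ≠ 0) (hw : w ≠ 0) : wd (z * w) = wd z + wd w := by
  rw [wd, map_mul, natDegree_mul (norm_ne_zero hz) (norm_ne_zero hw)]
  rfl

/-- `lcc` as a homomorphism. -/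
noncomputable def lcH (f : Om[X]) [Hyp f] : Co f →*₀ Om where
  toFun := lcc
  map_zero' := lcc_zero
  map_one' := lcc_one
  map_mul' := lcc_mul

theorem lcc_pow (z : Co f) (n : ℕ) : lcc (z ^ n) = lcc z ^ n := map_pow (lcH f) z n

theorem lcc_prod {ι : Type*} (s : Finset ι) (z : ι → Co f) :
    lcc (∏ i ∈ s, z i) = ∏ i ∈ s, lcc (z i) := map_prod (lcH f) z s

theorem wd_pow {z : Co f} (n : ℕ) : wd (z ^ n) = n * wd z := by
  rw [wd, map_pow, natDegree_pow, wd]

@[simp] theorem wd_one : wd (1 : Co f) = 0 := by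
  rw [wd, map_one, natDegree_one]

omit [Hyp f] in
theorem norm_poly (p : Om[X]) : (⟨p, 0⟩ : Co f).norm = p ^ 2 := by
  rw [norm_eq]
  simp

omit [Hyp f] in
theorem wd_poly (p : Om[X]) : wd (⟨p, 0⟩ : Co f) = 2 * p.natDegree := by
  rw [wd, norm_poly, natDegree_pow]

omit [Hyp f] in
theorem lcc_poly (p : Om[X]) : lcc (⟨p, 0⟩ : Co f) = p.leadingCoeff := by
  rw [lcc, LT_poly, leadingCoeff_expand two_pos]

omit [Hyp f] in
theorem LT_star (z : Co f) (h : Odd f.natDegree) : LT (star z) = (LT z).comp (-X) := by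
  obtain ⟨g, hg⟩ := h
  have e : ∀ p : Om[X], (expand Om 2 p).comp (-X) = expand Om 2 p := by
    intro p
    rw [expand_eq_comp_X_pow, comp_assoc, X_pow_comp, neg_sq]
  rw [LT, LT, add_comp, mul_comp, e, e, X_pow_comp, QuadraticAlgebra.re_star,
    QuadraticAlgebra.im_star, hg, Odd.neg_pow ⟨g, rfl⟩, zero_mul, add_zero, map_neg]
  ring

theorem lcc_star (z : Co f) : lcc (star z) = (-1) ^ wd z * lcc z := by
  rw [lcc, LT_star z Hyp.odd, leadingCoeff_comp (by rw [natDegree_neg, natDegree_X]; decide),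
    leadingCoeff_neg, leadingCoeff_X, natDegree_LT, mul_comm]
  rfl

omit [Hyp f] in
theorem mul_star_eq (z : Co f) : z * star z = ⟨z.norm, 0⟩ :=
  (QuadraticAlgebra.algebraMap_norm_eq_mul_star z).symm

/-- The leading coefficient of the norm. -/
theorem leadingCoeff_norm (z : Co f) : z.norm.leadingCoeff = (-1) ^ wd z * lcc z ^ 2 := by
  have h := lcc_mul z (star z)
  rw [mul_star_eq, lcc_poly, lcc_star] at h
  rw [h]
  ring

theorem lcc_C (c : Om) : lcc (⟨C c, 0⟩ : Co f) = c := by
  rw [lcc_poly, leadingCoeff_C]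

/-- A nonzero principal ideal has a generator with leading coefficient `1`. -/
theorem exists_gen {I : Ideal (Co f)} (hI : I ≠ ⊥) {z : Co f} (h : I = Ideal.span {z}) :
    ∃ w : Co f, I = Ideal.span {w} ∧ lcc w = 1 := by
  have hz : z ≠ 0 := by
    rintro rfl
    exact hI (by rw [h, Ideal.span_singleton_eq_bot])
  refine ⟨⟨C (lcc z)⁻¹, 0⟩ * z, ?_, ?_⟩
  · rw [h, Ideal.span_singleton_mul_left_unit]
    exact (isUnit_iff f _).mpr ⟨_, inv_ne_zero (lcc_ne_zero hz), rfl⟩
  · rw [lcc_mul, lcc_C, inv_mul_cancel₀ (lcc_ne_zero hz)]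

/-- The generator with leading coefficient `1` is unique. -/
theorem gen_unique {z w : Co f} (h : Ideal.span {z} = Ideal.span {w}) (hz : lcc z = 1)
    (hw : lcc w = 1) : z = w := by
  obtain ⟨u, hu⟩ := (Ideal.span_singleton_eq_span_singleton.mp h)
  obtain ⟨c, hc, hc'⟩ := (isUnit_iff f _).mp u.isUnit
  have h1 := congrArg lcc hu
  rw [hc', lcc_mul, lcc_C, hz, hw, one_mul] at h1
  rw [← hu, hc', h1]
  have : (⟨C 1, 0⟩ : Co f) = 1 := by
    rw [C_1]
    rfl
  rw [this, mul_one]

theorem lcc_ne_zero_of_one {z : Co f} (h : lcc z = 1) : z ≠ 0 := by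
  rintro rfl
  rw [lcc_zero] at h
  exact zero_ne_one h

end hyp

section act

theorem LT_coMap (σ : Om ≃+* Om) (h : f.map (σ : Om →+* Om) = f) (z : Co f) :
    LT (coMap σ h z) = (LT z).map (σ : Om →+* Om) := by
  rw [LT, LT, Polynomial.map_add, Polynomial.map_mul, Polynomial.map_pow, map_X, map_expand,
    map_expand, coMap_re, coMap_im]

theorem lcc_coMap (σ : Om ≃+* Om) (h : f.map (σ : Om →+* Om) = f) (z : Co f) :
    lcc (coMap σ h z) = σ (lcc z) := by
  rw [lcc, LT_coMap, leadingCoeff_map]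
  rfl

theorem wd_coMap (σ : Om ≃+* Om) (h : f.map (σ : Om →+* Om) = f) (z : Co f) :
    wd (coMap σ h z) = wd z := by
  rw [wd, coMap_norm, natDegree_map]
  rfl

end act

end Pool.Agent.SmJ
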