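import Mathlib
import Pool.Agent.Lib.SmJ.E.Lc

/-!
SMITH for Jacobians (MP_950c68_ag), block E: norms of ideals.

`po f : Om[X] →+* Co f` the inclusion, `yy = y`, `cj I` the conjugate ideal, `mu U V = (U, y - V)`.
`IsNm I p`: `p` is monic and `I * cj I = (p)`. Every nonzero ideal is `(d) * mu U V` with
`U ∣ V ^ 2 - f` and has a norm; norms are unique, multiplicative, equivariant; the norm of a
principal ideal.
-/

set_option autoImplicit false
set_option linter.unusedSectionVars false

open Polynomial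

namespace Pool.Agent.SmJ

variable {Om : Type} [Field Om] {f : Om[X]}

/-- The inclusion of the polynomials. -/
noncomputable abbrev po (f : Om[X]) : Om[X] →+* Co f := algebraMap Om[X] (Co f)

theorem po_eq (p : Om[X]) : po f p = ⟨p, 0⟩ := rfl

@[simp] theorem po_re (p : Om[X]) : (po f p).re = p := rfl

@[simp] theorem po_im (p : Om[X]) : (po f p).im = 0 := rfl

theorem po_injective : Function.Injective (po f) := fun p q h => by
  have := congrArg QuadraticAlgebra.re h
  exact this

theorem po_ne_zero {p : Om[X]} (h : p ≠ 0) : po f p ≠ 0 := by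
  intro h0
  exact h (po_injective (h0.trans (map_zero _).symm))

/-- The element `y`. -/
noncomputable def yy (f : Om[X]) : Co f := ⟨0, 1⟩

theorem eq_po_add (z : Co f) : z = po f z.re + po f z.im * yy f := by
  ext1
  · simp [yy]
  · simp [yy]

theorem yy_sq : yy f * yy f = po f f := by
  ext1
  · simp [yy]
  · simp [yy]

theorem star_po (p : Om[X]) : star (po f p) = po f p := by
  ext1
  · simp
  · simp

theorem star_yy : star (yy f) = -yy f := by
  ext1
  · simp [yy]
  · simp [yy]

theorem po_mul_re (p : Om[X]) (z : Co f) : (po f p * z).re = p * z.re := by simp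

theorem po_mul_im (p : Om[X]) (z : Co f) : (po f p * z).im = p * z.im := by simp

/-- The conjugate ideal. -/
noncomputable def cj (I : Ideal (Co f)) : Ideal (Co f) := I.map (starRingEnd (Co f))

theorem star_surj : Function.Surjective (starRingEnd (Co f)) := fun z =>
  ⟨star z, star_star z⟩

theorem mem_cj {I : Ideal (Co f)} {z : Co f} : z ∈ cj I ↔ star z ∈ I := by
  rw [cj, Ideal.mem_map_iff_of_surjective _ star_surj]
  constructor
  · rintro ⟨w, hw, rfl⟩
    rw [starRingEnd_apply, star_star]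
    exact hw
  · intro h
    exact ⟨star z, h, star_star z⟩

theorem cj_cj (I : Ideal (Co f)) : cj (cj I) = I := by
  ext z
  rw [mem_cj, mem_cj, star_star]

theorem cj_mul (I J : Ideal (Co f)) : cj (I * J) = cj I * cj J := Ideal.map_mul _ _ _

theorem cj_pow (I : Ideal (Co f)) (n : ℕ) : cj (I ^ n) = cj I ^ n := Ideal.map_pow _ _ _

theorem cj_span (z : Co f) : cj (Ideal.span {z}) = Ideal.span {star z} := by
  rw [cj, Ideal.map_span, Set.image_singleton]
  rfl

theorem cj_top : cj (⊤ : Ideal (Co f)) = ⊤ := Ideal.map_top _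

theorem cj_ne_bot {I : Ideal (Co f)} (h : I ≠ ⊥) : cj I ≠ ⊥ := by
  intro h0
  apply h
  rw [← cj_cj I, h0]
  exact Ideal.map_bot

theorem cj_map (σ : Om ≃+* Om) (h : f.map (σ : Om →+* Om) = f) (I : Ideal (Co f)) :
    cj (I.map (coMap σ h : Co f →+* Co f)) = (cj I).map (coMap σ h : Co f →+* Co f) := by
  rw [cj, cj, Ideal.map_map, Ideal.map_map]
  congr 1
  refine RingHom.ext fun z => ?_
  refine QuadraticAlgebra.ext ?_ ?_
  · change (star (coMap σ h z)).re = (coMap σ h (star z)).re
    simp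
  · change (star (coMap σ h z)).im = (coMap σ h (star z)).im
    simp

/-- The Mumford ideal `(U, y - V)`. -/
noncomputable def mu (U V : Om[X]) : Ideal (Co f) := Ideal.span {po f U, yy f - po f V}

theorem po_mem_mu (U V : Om[X]) : po f U ∈ mu (f := f) U V := Ideal.subset_span (by simp)

theorem yy_sub_mem_mu (U V : Om[X]) : yy f - po f V ∈ mu (f := f) U V :=
  Ideal.subset_span (by simp)

theorem mu_ne_bot {U : Om[X]} (hU : U ≠ 0) (V : Om[X]) : mu (f := f) U V ≠ ⊥ := fun h =>
  po_ne_zero hU ((Submodule.mem_bot _).mp (h ▸ po_mem_mu U V))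

theorem mem_mu {U V : Om[X]} (h : U ∣ V ^ 2 - f) (z : Co f) :
    z ∈ mu U V ↔ U ∣ z.re + z.im * V := by
  constructor
  · intro hz
    rw [mu, Ideal.mem_span_pair] at hz
    obtain ⟨a, b, rfl⟩ := hz
    have e : (a * po f U + b * (yy f - po f V)).re + (a * po f U + b * (yy f - po f V)).im * V =
        U * (a.re + a.im * V) - b.im * (V ^ 2 - f) := by
      simp only [QuadraticAlgebra.re_add, QuadraticAlgebra.re_mul, QuadraticAlgebra.im_add,
        QuadraticAlgebra.im_mul, QuadraticAlgebra.re_sub, QuadraticAlgebra.im_sub, yy, po_re, po_im]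
      ring
    rw [e]
    exact dvd_sub (dvd_mul_right _ _) (h.mul_left _)
  · rintro ⟨c, hc⟩
    have e : z = po f c * po f U + po f z.im * (yy f - po f V) := by
      conv_lhs => rw [eq_po_add z]
      have : po f z.re = po f c * po f U - po f z.im * po f V := by
        rw [← map_mul, ← map_mul, ← map_sub]
        congr 1
        rw [mul_comm c U, ← hc]
        ring
      rw [this]
      ring
    rw [e]
    exact Ideal.add_mem _ (Ideal.mul_mem_left _ _ (po_mem_mu U V))
      (Ideal.mul_mem_left _ _ (yy_sub_mem_mu U V))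

theorem cj_mu (U V : Om[X]) : cj (mu (f := f) U V) = mu U (-V) := by
  rw [cj, mu, Ideal.map_span, Set.image_pair]
  change Ideal.span {star (po f U), star (yy f - po f V)} = _
  rw [star_po, star_sub, star_yy, star_po, mu, map_neg]
  have e : -yy f - po f V = -(yy f - -po f V) := by ring
  rw [e]
  apply le_antisymm
  · rw [Ideal.span_le]
    rintro z (rfl | rfl)
    · exact Ideal.subset_span (by simp)
    · exact neg_mem (Ideal.subset_span (by simp))
  · rw [Ideal.span_le]
    rintro z (rfl | rfl)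
    · exact Ideal.subset_span (by simp)
    · rw [← neg_neg (yy f - -po f V)]
      exact neg_mem (Ideal.subset_span (by simp))

theorem map_mu (σ : Om ≃+* Om) (h : f.map (σ : Om →+* Om) = f) (U V : Om[X]) :
    (mu (f := f) U V).map (coMap σ h : Co f →+* Co f) =
      mu (U.map (σ : Om →+* Om)) (V.map (σ : Om →+* Om)) := by
  rw [mu, Ideal.map_span, Set.image_pair, mu]
  congr 2
  · ext1 <;> simp
  · congr 1
    ext1 <;> simp [yy]

section hyp

variable [Hyp f]

theorem mu_mul_cj {U V : Om[X]} (h : U ∣ V ^ 2 - f) :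
    mu (f := f) U V * cj (mu U V) = Ideal.span {po f U} := by
  obtain ⟨W, hW⟩ := h
  rw [cj_mu]
  apply le_antisymm
  · rw [Ideal.mul_le]
    intro a ha b hb
    rw [mem_mu ⟨W, hW⟩] at ha
    rw [mem_mu ⟨W, by rw [neg_sq, hW]⟩] at hb
    obtain ⟨c, hc⟩ := ha
    obtain ⟨d, hd⟩ := hb
    rw [Ideal.mem_span_singleton]
    refine ⟨⟨c * b.re - a.im * V * d - a.im * b.im * W, c * b.im + a.im * d⟩, ?_⟩
    have e1 : a.re = U * c - a.im * V := by rw [← hc]; ring
    have e2 : b.re = U * d + b.im * V := by rw [← hd]; ring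
    ext1
    · rw [po_mul_re, QuadraticAlgebra.re_mul]
      have e3 : f = V ^ 2 - U * W := by rw [← hW]; ring
      simp only [e1, e2]
      linear_combination (a.im * b.im) * e3
    · rw [po_mul_im, QuadraticAlgebra.im_mul]
      simp only [e1, e2]
      ring
  · rw [Ideal.span_singleton_le_iff_mem]
    -- the ideal generated by `U, 2 V, W` is `⊤`
    have hcop : Ideal.span {U, V, W} = ⊤ := by
      obtain ⟨g, hg⟩ := (inferInstance : (Ideal.span ({U, V, W} : Set Om[X])).IsPrincipal)
      have hg' : Ideal.span ({U, V, W} : Set Om[X]) = Ideal.span {g} := hg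
      have d1 : g ∣ U := by
        rw [← Ideal.mem_span_singleton, ← hg']
        exact Ideal.subset_span (by simp)
      have d2 : g ∣ V := by
        rw [← Ideal.mem_span_singleton, ← hg']
        exact Ideal.subset_span (by simp)
      have d3 : g ∣ W := by
        rw [← Ideal.mem_span_singleton, ← hg']
        exact Ideal.subset_span (by simp)
      have d4 : g * g ∣ f := by
        have : f = V * V - U * W := by rw [← hW]; ring
        rw [this]
        exact dvd_sub (mul_dvd_mul d2 d2) (mul_dvd_mul d1 d3)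
      have hu : IsUnit g := (Hyp.sep (f := f)).squarefree g d4
      rw [hg', Ideal.span_singleton_eq_top]
      exact hu
    have h1 : (1 : Om[X]) ∈ Ideal.span {U, V, W} := by rw [hcop]; trivial
    rw [Ideal.mem_span_insert] at h1
    obtain ⟨a, z, hz, e⟩ := h1
    rw [Ideal.mem_span_pair] at hz
    obtain ⟨b, c, rfl⟩ := hz
    have m1 : po f U * po f U ∈ mu (f := f) U V * mu U (-V) :=
      Ideal.mul_mem_mul (po_mem_mu _ _) (po_mem_mu _ _)
    have m2 : po f U * (yy f - po f (-V)) ∈ mu (f := f) U V * mu U (-V) :=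
      Ideal.mul_mem_mul (po_mem_mu _ _) (yy_sub_mem_mu _ _)
    have m3 : (yy f - po f V) * po f U ∈ mu (f := f) U V * mu U (-V) :=
      Ideal.mul_mem_mul (yy_sub_mem_mu _ _) (po_mem_mu _ _)
    have m4 : (yy f - po f V) * (yy f - po f (-V)) ∈ mu (f := f) U V * mu U (-V) :=
      Ideal.mul_mem_mul (yy_sub_mem_mu _ _) (yy_sub_mem_mu _ _)
    have h2 : (2 : Om) ≠ 0 := Hyp.two f
    have e2 : po f (C 2⁻¹) * (po f 2) = 1 := by
      rw [← map_mul]
      have : (C (2 : Om)⁻¹ : Om[X]) * 2 = 1 := by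
        have : (2 : Om[X]) = C 2 := (C_ofNat 2).symm
        rw [this, ← C_mul, inv_mul_cancel₀ h2, C_1]
      rw [this, map_one]
    have hy := yy_sq (f := f)
    have e5 : po f f = po f V * po f V - po f U * po f W := by
      rw [← map_mul, ← map_mul, ← map_sub]
      congr 1
      rw [← hW]
      ring
    have e6 : (1 : Co f) = po f a * po f U + (po f b * po f V + po f c * po f W) := by
      rw [← map_mul, ← map_mul, ← map_mul, ← map_add, ← map_add, ← e, map_one]
    have e7 : po f 2 = 2 := map_ofNat _ 2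
    have key : po f U = po f a * (po f U * po f U) +
        po f (C 2⁻¹) * po f b * (po f U * (yy f - po f (-V)) - (yy f - po f V) * po f U) -
        po f c * ((yy f - po f V) * (yy f - po f (-V))) := by
      rw [map_neg]
      rw [e7] at e2
      linear_combination po f U * e6 - (po f b * po f U * po f V) * e2 + po f c * hy + po f c * e5
    rw [key]
    exact sub_mem (add_mem (Ideal.mul_mem_left _ _ m1) (Ideal.mul_mem_left _ _ (sub_mem m2 m3)))
      (Ideal.mul_mem_left _ _ m4)

/-- `p` is the norm of the ideal `I`. -/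
structure IsNm (I : Ideal (Co f)) (p : Om[X]) : Prop where
  monic : p.Monic
  eq : I * cj I = Ideal.span {po f p}

theorem lcc_po (p : Om[X]) : lcc (po f p) = p.leadingCoeff := lcc_poly p

namespace IsNm

variable {I J : Ideal (Co f)} {p q : Om[X]}

theorem unique (h : IsNm I p) (h' : IsNm I q) : p = q := by
  apply po_injective (f := f)
  apply gen_unique
  · rw [← h.eq, h'.eq]
  · rw [lcc_po]
    exact h.monic
  · rw [lcc_po]
    exact h'.monic

theorem ne_bot (h : IsNm I p) : I ≠ ⊥ := by
  rintro rfl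
  have h1 := h.eq
  rw [Ideal.bot_mul, eq_comm, Ideal.span_singleton_eq_bot] at h1
  exact po_ne_zero h.monic.ne_zero h1

theorem mul (h : IsNm I p) (h' : IsNm J q) : IsNm (I * J) (p * q) :=
  ⟨h.monic.mul h'.monic, by
    rw [cj_mul, mul_mul_mul_comm, h.eq, h'.eq, Ideal.span_singleton_mul_span_singleton, map_mul]⟩

theorem one : IsNm (1 : Ideal (Co f)) 1 :=
  ⟨monic_one, by rw [Ideal.one_eq_top, cj_top, Ideal.top_mul, map_one, Ideal.span_singleton_one]⟩

theorem pow (h : IsNm I p) (n : ℕ) : IsNm (I ^ n) (p ^ n) := by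
  induction n with
  | zero =>
    rw [pow_zero, pow_zero]
    exact one
  | succ n ih =>
    rw [pow_succ, pow_succ]
    exact ih.mul h

theorem prod {ι : Type*} (s : Finset ι) {I : ι → Ideal (Co f)} {p : ι → Om[X]}
    (h : ∀ i ∈ s, IsNm (I i) (p i)) : IsNm (∏ i ∈ s, I i) (∏ i ∈ s, p i) := by
  classical
  induction s using Finset.induction_on with
  | empty =>
    rw [Finset.prod_empty, Finset.prod_empty]
    exact one
  | insert a s ha ih =>
    rw [Finset.prod_insert ha, Finset.prod_insert ha]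
    exact (h a (Finset.mem_insert_self _ _)).mul (ih fun i hi => h i (Finset.mem_insert_of_mem hi))

theorem conj (h : IsNm I p) : IsNm (cj I) p :=
  ⟨h.monic, by rw [cj_cj, mul_comm, h.eq]⟩

theorem map (σ : Om ≃+* Om) (hσ : f.map (σ : Om →+* Om) = f) (h : IsNm I p) :
    IsNm (I.map (coMap σ hσ : Co f →+* Co f)) (p.map (σ : Om →+* Om)) :=
  ⟨h.monic.map _, by
    rw [cj_map, ← Ideal.map_mul, h.eq, Ideal.map_span, Set.image_singleton]
    congr 2
    ext1 <;> simp⟩

end IsNm

theorem norm_ofPo (p : Om[X]) : (po f p).norm = p ^ 2 := norm_poly p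

theorem isNm_span {z : Co f} (hz : lcc z = 1) :
    IsNm (Ideal.span {z}) (C ((-1) ^ wd z) * z.norm) := by
  have hu : ((-1 : Om) ^ wd z) * (-1) ^ wd z = 1 := by
    rw [← mul_pow, neg_one_mul, neg_neg, one_pow]
  refine ⟨?_, ?_⟩
  · rw [Monic, leadingCoeff_mul, leadingCoeff_C, leadingCoeff_norm, hz, one_pow, mul_one, hu]
  · rw [cj_span, Ideal.span_singleton_mul_span_singleton, mul_star_eq, map_mul,
      Ideal.span_singleton_mul_left_unit]
    · rfl
    · refine (isUnit_iff f _).mpr ⟨(-1) ^ wd z, ?_, rfl⟩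
      intro h0
      rw [h0, mul_zero] at hu
      exact zero_ne_one hu

theorem IsNm.norm_eq {z : Co f} (hz : lcc z = 1) {p : Om[X]} (h : IsNm (Ideal.span {z}) p) :
    wd z = p.natDegree ∧ z.norm = C ((-1) ^ p.natDegree) * p := by
  have h1 := h.unique (isNm_span hz)
  have hu : ((-1 : Om) ^ wd z) * (-1) ^ wd z = 1 := by
    rw [← mul_pow, neg_one_mul, neg_neg, one_pow]
  have hc : ((-1 : Om) ^ wd z) ≠ 0 := fun h0 => by
    rw [h0, mul_zero] at hu
    exact zero_ne_one hu
  have h2 : wd z = p.natDegree := by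
    rw [h1, natDegree_C_mul hc]
    rfl
  refine ⟨h2, ?_⟩
  rw [← h2]
  conv_rhs => rw [h1]
  rw [← mul_assoc, ← C_mul, hu, C_1, one_mul]

theorem isNm_po {p : Om[X]} (hp : p.Monic) : IsNm (Ideal.span {po f p}) (p ^ 2) := by
  refine ⟨hp.pow 2, ?_⟩
  rw [cj_span, star_po, Ideal.span_singleton_mul_span_singleton, ← map_mul, sq]

theorem isNm_mu {U V : Om[X]} (hU : U.Monic) (h : U ∣ V ^ 2 - f) : IsNm (mu (f := f) U V) U :=
  ⟨hU, mu_mul_cj h⟩

theorem Pnt.idl_eq_mu (P : Pnt f) : P.idl = mu (X - C P.x) (C P.y) := by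
  have h : X - C P.x ∣ (C P.y) ^ 2 - f := by
    rw [dvd_iff_isRoot, IsRoot, eval_sub, eval_pow, eval_C, P.on, sub_self]
  ext z
  rw [mem_mu h, dvd_iff_isRoot, IsRoot, eval_add, eval_mul, eval_C]
  exact P.mem_idl

theorem Pnt.isNm (P : Pnt f) : IsNm P.idl (X - C P.x) := by
  rw [P.idl_eq_mu]
  refine isNm_mu (monic_X_sub_C _) ?_
  rw [dvd_iff_isRoot, IsRoot, eval_sub, eval_pow, eval_C, P.on, sub_self]

/-- **Hermite normal form of an ideal.** -/
theorem exists_mu {I : Ideal (Co f)} (hI : I ≠ ⊥) : ∃ d U V : Om[X], d.Monic ∧ U.Monic ∧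
    U ∣ V ^ 2 - f ∧ I = Ideal.span {po f d} * mu U V := by
  obtain ⟨z0, hz0, hz0'⟩ := Submodule.exists_mem_ne_zero_of_ne_bot hI
  -- the ideal of the coefficients of `y`
  let B : Ideal Om[X] :=
    { carrier := {q | ∃ p, (⟨p, q⟩ : Co f) ∈ I}
      add_mem' := by
        rintro a b ⟨p, hp⟩ ⟨q, hq⟩
        exact ⟨p + q, I.add_mem hp hq⟩
      zero_mem' := ⟨0, I.zero_mem⟩
      smul_mem' := by
        rintro c a ⟨p, hp⟩
        refine ⟨c * p, ?_⟩
        have := I.mul_mem_left (po f c) hp
        have e : po f c * (⟨p, a⟩ : Co f) = ⟨c * p, c * a⟩ := by ext1 <;> simp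
        rw [e] at this
        exact this }
  have hB : ∀ q, q ∈ B ↔ ∃ p, (⟨p, q⟩ : Co f) ∈ I := fun q => Iff.rfl
  have hBbot : B ≠ ⊥ := by
    intro h
    have h1 : z0.im ∈ B := ⟨z0.re, hz0⟩
    have h2 : z0.re ∈ B := by
      refine ⟨f * z0.im, ?_⟩
      have := I.mul_mem_left (yy f) hz0
      have e : yy f * z0 = ⟨f * z0.im, z0.re⟩ := by ext1 <;> simp [yy]
      rw [e] at this
      exact this
    rw [h, Submodule.mem_bot] at h1 h2
    exact hz0' (QuadraticAlgebra.ext h2 h1)
  -- monic generators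
  have hgen : ∀ J : Ideal Om[X], J ≠ ⊥ → ∃ d : Om[X], d.Monic ∧ J = Ideal.span {d} := by
    intro J hJ
    obtain ⟨d, hd⟩ := (inferInstance : J.IsPrincipal)
    have hd' : J = Ideal.span {d} := hd
    have hd0 : d ≠ 0 := by
      rintro rfl
      exact hJ (by rw [hd', Ideal.span_singleton_eq_bot])
    refine ⟨d * C (d.leadingCoeff)⁻¹, monic_mul_leadingCoeff_inv hd0, ?_⟩
    rw [hd', Ideal.span_singleton_mul_right_unit]
    exact isUnit_C.mpr (inv_ne_zero (leadingCoeff_ne_zero.mpr hd0)).isUnit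
  obtain ⟨d, hd, hBd⟩ := hgen B hBbot
  obtain ⟨c, hc⟩ := (hB d).mp (by rw [hBd]; exact Ideal.mem_span_singleton_self d)
  -- the polynomials in `I`
  have hA : I.comap (po f) ≠ ⊥ := by
    intro h
    have h1 : z0.norm ∈ I.comap (po f) := by
      rw [Ideal.mem_comap]
      have := I.mul_mem_right (star z0) hz0
      rw [mul_star_eq] at this
      exact this
    rw [h, Submodule.mem_bot] at h1
    exact norm_ne_zero hz0' h1
  obtain ⟨e, he, hAe⟩ := hgen _ hA
  have hAe' : ∀ p, po f p ∈ I ↔ e ∣ p := by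
    intro p
    rw [← Ideal.mem_span_singleton, ← hAe, Ideal.mem_comap]
  have hBd' : ∀ z ∈ I, d ∣ z.im := by
    intro z hz
    rw [← Ideal.mem_span_singleton, ← hBd]
    exact ⟨z.re, hz⟩
  obtain ⟨U, hU⟩ : d ∣ e := by
    have h1 := I.mul_mem_left (yy f) ((hAe' e).mpr dvd_rfl)
    have := hBd' _ h1
    have e1 : (yy f * po f e).im = e := by simp [yy]
    rwa [e1] at this
  obtain ⟨V', hV'⟩ : d ∣ c := by
    have h1 := I.mul_mem_left (yy f) hc
    have := hBd' _ h1
    have e1 : (yy f * (⟨c, d⟩ : Co f)).im = c := by simp [yy]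
    rwa [e1] at this
  have hd0 : d ≠ 0 := hd.ne_zero
  have hUm : U.Monic := by
    have : (d * U).Monic := hU ▸ he
    exact hd.of_mul_monic_left this
  have hUV : U ∣ (-V') ^ 2 - f := by
    have h1 : po f (d * ((-V') ^ 2 - f)) ∈ I := by
      have h2 := I.sub_mem (I.mul_mem_left (po f V') hc) (I.mul_mem_left (yy f) hc)
      have e1 : po f V' * (⟨c, d⟩ : Co f) - yy f * ⟨c, d⟩ = po f (d * ((-V') ^ 2 - f)) := by
        ext1
        · rw [po_re]
          simp [yy, hV']
          ring
        · rw [po_im]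
          simp [yy, hV']
          ring
      rwa [e1] at h2
    rw [hAe', hU] at h1
    exact (mul_dvd_mul_iff_left hd0).mp h1
  refine ⟨d, U, -V', hd, hUm, hUV, ?_⟩
  apply le_antisymm
  · intro z hz
    obtain ⟨q, hq⟩ := hBd' z hz
    have h1 : po f (z.re - q * c) ∈ I := by
      have h2 := I.sub_mem hz (I.mul_mem_left (po f q) hc)
      have e1 : z - po f q * (⟨c, d⟩ : Co f) = po f (z.re - q * c) := by
        ext1
        · simp
        · simp [hq]
          ring
      rwa [e1] at h2
    rw [hAe'] at h1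
    obtain ⟨r, hr⟩ := h1
    rw [Ideal.mem_span_singleton_mul]
    refine ⟨po f r * po f U + po f q * (yy f - po f (-V')), ?_, ?_⟩
    · exact Ideal.add_mem _ (Ideal.mul_mem_left _ _ (po_mem_mu _ _))
        (Ideal.mul_mem_left _ _ (yy_sub_mem_mu _ _))
    · have e2 : z.re = e * r + q * c := by rw [← hr]; ring
      ext1
      · simp [yy, e2, hU, hV']
        ring
      · simp [yy, hq]
  · rw [Ideal.span_singleton_mul_le_iff]
    intro z hz
    rw [mem_mu hUV] at hz
    obtain ⟨r, hr⟩ := hz
    have e1 : po f d * z = po f (e * r) + po f z.im * ⟨c, d⟩ := by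
      have e2 : z.re = U * r + z.im * V' := by rw [← hr]; ring
      ext1
      · simp [e2, hU, hV']
        ring
      · simp
        ring
    rw [e1]
    exact I.add_mem ((hAe' _).mpr (dvd_mul_right _ _)) (I.mul_mem_left _ hc)

theorem exists_isNm {I : Ideal (Co f)} (hI : I ≠ ⊥) : ∃ p, IsNm I p := by
  obtain ⟨d, U, V, hd, hU, h, rfl⟩ := exists_mu hI
  exact ⟨_, (isNm_po hd).mul (isNm_mu hU h)⟩

end hyp

end Pool.Agent.SmJ
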