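import Mathlib
import Pool.Agent.Lib.SmJ.E.Nm

/-!
SMITH for Jacobians (MP_950c68_ag), block E: every ideal class contains an ideal prime to a given
nonzero ideal; products of branch points `PS S`.
-/

set_option autoImplicit false
set_option linter.unusedSectionVars false

open Polynomial

namespace Pool.Agent.SmJ

section ded

variable {R : Type} [CommRing R] [IsDedekindDomain R]

/-- Every class contains an ideal prime to `K`. -/
theorem exists_coprime (Q : Additive (ClassGroup R)) {K : Ideal R} (hK : K ≠ ⊥) :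
    ∃ I : Ideal R, I ≠ ⊥ ∧ cls I = Q ∧ I ⊔ K = ⊤ := by
  obtain ⟨J0, hJ0, hJ0'⟩ := exists_cls (-Q)
  obtain ⟨z, hz⟩ := IsDedekindDomain.exists_sup_span_eq (I := J0 * K) (J := J0)
    Ideal.mul_le_left (mul_ne_zero hJ0 hK)
  by_cases h0 : z = 0
  · rw [h0, Ideal.span_singleton_eq_bot.mpr rfl, sup_bot_eq] at hz
    have hK1 : K = ⊤ := by
      have h1 : J0 * K = J0 * 1 := by rw [hz, mul_one]
      have := mul_left_cancel₀ hJ0 h1
      rwa [Ideal.one_eq_top] at this
    obtain ⟨I, hI, hI'⟩ := exists_cls Q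
    exact ⟨I, hI, hI', by rw [hK1, sup_top_eq]⟩
  · have h1 : Ideal.span {z} ≤ J0 := by
      conv_rhs => rw [← hz]
      exact le_sup_right
    obtain ⟨I, hI⟩ := Ideal.dvd_iff_le.mpr h1
    have hI0 : I ≠ ⊥ := by
      rintro rfl
      rw [Ideal.mul_bot, Ideal.span_singleton_eq_bot] at hI
      exact h0 hI
    refine ⟨I, hI0, ?_, ?_⟩
    · have h2 := congrArg cls hI
      rw [cls_span, cls_mul hJ0 hI0, hJ0'] at h2
      have := (neg_add_eq_zero.mp h2.symm)
      exact this.symm
    · rw [hI, ← Ideal.mul_sup] at hz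
      have h2 : J0 * (K ⊔ I) = J0 * 1 := by rw [hz, mul_one]
      have := mul_left_cancel₀ hJ0 h2
      rw [sup_comm, this, Ideal.one_eq_top]

end ded

variable {Om : Type} [Field Om]

section ev

variable {f : Om[X]} [Hyp f]

theorem Pnt.ev_po (P : Pnt f) (p : Om[X]) : P.ev (po f p) = p.eval P.x := by
  rw [Pnt.ev_apply]
  simp

theorem Pnt.idl_prime (P : Pnt f) : P.idl.IsPrime := RingHom.ker_isPrime _

theorem Pnt.idl_ne_bot (P : Pnt f) : P.idl ≠ ⊥ := P.isNm.ne_bot

theorem Pnt.idl_isMaximal (P : Pnt f) : P.idl.IsMaximal :=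
  (P.idl_prime).isMaximal P.idl_ne_bot

/-- The norm of an ideal prime to `P` and to its conjugate does not vanish at `P`. -/
theorem eval_ne_zero_of_not_le {I : Ideal (Co f)} {p : Om[X]} (h : IsNm I p) {P : Pnt f}
    (h1 : ¬ I ≤ P.idl) (h2 : ¬ cj I ≤ P.idl) : p.eval P.x ≠ 0 := by
  intro h0
  have h3 : I * cj I ≤ P.idl := by
    rw [h.eq, Ideal.span_singleton_le_iff_mem]
    change P.ev (po f p) = 0
    rw [P.ev_po, h0]
  rcases (P.idl_prime.mul_le).mp h3 with h4 | h4
  · exact h1 h4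
  · exact h2 h4

end ev

section split

variable {g : ℕ} (a : Fin (2 * g + 1) → Om) [HypA a]

theorem br_ev (i : Fin (2 * g + 1)) (z : Co (ff a)) : (br a i).ev z = z.re.eval (a i) := by
  rw [Pnt.ev_apply]
  change z.re.eval (a i) + z.im.eval (a i) * 0 = _
  rw [mul_zero, add_zero]

theorem br_ev_sq (i : Fin (2 * g + 1)) (z : Co (ff a)) :
    (br a i).ev z ^ 2 = z.norm.eval (a i) := by
  rw [br_ev, norm_eq, eval_sub, eval_mul, ff_eval_br, zero_mul, sub_zero, eval_pow]

theorem cj_br (i : Fin (2 * g + 1)) : cj (br a i).idl = (br a i).idl := by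
  ext z
  rw [mem_cj]
  change (br a i).ev (star z) = 0 ↔ (br a i).ev z = 0
  rw [br_ev, br_ev, QuadraticAlgebra.re_star, zero_mul, add_zero]

/-- The product of the branch points in `S`. -/
noncomputable def PS (S : Finset (Fin (2 * g + 1))) : Ideal (Co (ff a)) := ∏ i ∈ S, (br a i).idl

/-- The polynomial of `S`. -/
noncomputable def fS (S : Finset (Fin (2 * g + 1))) : Om[X] := ∏ i ∈ S, (X - C (a i))

theorem isNm_PS (S : Finset (Fin (2 * g + 1))) : IsNm (PS a S) (fS a S) :=
  IsNm.prod S fun i _ => (br a i).isNm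

theorem cj_PS (S : Finset (Fin (2 * g + 1))) : cj (PS a S) = PS a S := by
  classical
  rw [PS]
  induction S using Finset.induction_on with
  | empty => rw [Finset.prod_empty, Ideal.one_eq_top, cj_top]
  | insert i S hi ih => rw [Finset.prod_insert hi, cj_mul, cj_br, ih]

theorem PS_mul_self (S : Finset (Fin (2 * g + 1))) :
    PS a S * PS a S = Ideal.span {po (ff a) (fS a S)} := by
  have h := (isNm_PS a S).eq
  rwa [cj_PS] at h

theorem fS_monic (S : Finset (Fin (2 * g + 1))) : (fS a S).Monic :=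
  monic_prod_of_monic _ _ fun i _ => monic_X_sub_C (a i)

theorem natDegree_fS (S : Finset (Fin (2 * g + 1))) : (fS a S).natDegree = S.card := by
  rw [fS, natDegree_prod_of_monic _ _ fun i _ => monic_X_sub_C (a i)]
  simp

theorem fS_eval_ne {S : Finset (Fin (2 * g + 1))} {i : Fin (2 * g + 1)} (h : i ∉ S) :
    (fS a S).eval (a i) ≠ 0 := by
  rw [fS, eval_prod, Finset.prod_ne_zero_iff]
  intro j hj
  rw [eval_sub, eval_X, eval_C, sub_ne_zero]
  intro h1
  exact h (HypA.inj h1 ▸ hj)

theorem fS_univ : fS a Finset.univ = ff a := rfl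

theorem PS_ne_bot (S : Finset (Fin (2 * g + 1))) : PS a S ≠ ⊥ := (isNm_PS a S).ne_bot

theorem cls_PS (S : Finset (Fin (2 * g + 1))) : cls (PS a S) = ∑ i ∈ S, ee a i :=
  cls_prod S fun i _ => (br a i).idl_ne_bot

theorem PS_univ : PS a Finset.univ = Ideal.span {yy (ff a)} := by
  have h : PS a Finset.univ ^ 2 = Ideal.span {yy (ff a)} ^ 2 := by
    rw [sq, PS_mul_self, fS_univ, sq, Ideal.span_singleton_mul_span_singleton, yy_sq]
  exact dvd_antisymm ((UniqueFactorizationMonoid.pow_dvd_pow_iff_dvd two_ne_zero).mp h.dvd)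
    ((UniqueFactorizationMonoid.pow_dvd_pow_iff_dvd two_ne_zero).mp h.symm.dvd)

theorem cls_PS_add_compl (S : Finset (Fin (2 * g + 1))) :
    cls (PS a S) + cls (PS a Sᶜ) = 0 := by
  rw [← cls_mul (PS_ne_bot a S) (PS_ne_bot a _), PS, PS, Finset.prod_mul_prod_compl]
  change cls (PS a Finset.univ) = 0
  rw [PS_univ, cls_span]

theorem cls_PS_add_self (S : Finset (Fin (2 * g + 1))) : cls (PS a S) + cls (PS a S) = 0 := by
  rw [← cls_mul (PS_ne_bot a S) (PS_ne_bot a _), PS_mul_self, cls_span]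

theorem cls_PS_compl (S : Finset (Fin (2 * g + 1))) : cls (PS a Sᶜ) = cls (PS a S) := by
  have h1 := cls_PS_add_compl a S
  have h2 := cls_PS_add_self a S
  exact add_left_cancel (h1.trans h2.symm)

/-- Every class contains an ideal with norm prime to `f`. -/
theorem exists_prime_to (Q : JJ (ff a)) : ∃ (I : Ideal (Co (ff a))) (U : Om[X]), cls I = Q ∧
    IsNm I U ∧ ∀ i, U.eval (a i) ≠ 0 := by
  obtain ⟨I, hI, hQ, hc⟩ := exists_coprime Q (PS_ne_bot a Finset.univ)
  obtain ⟨U, hU⟩ := exists_isNm hI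
  refine ⟨I, U, hQ, hU, fun i => ?_⟩
  have hle : PS a Finset.univ ≤ (br a i).idl := Ideal.prod_le_inf.trans (Finset.inf_le (Finset.mem_univ i))
  have h1 : ¬ I ≤ (br a i).idl := by
    intro h
    have : (⊤ : Ideal (Co (ff a))) ≤ (br a i).idl := hc ▸ sup_le h hle
    exact (br a i).idl_prime.ne_top (top_le_iff.mp this)
  have h2 : ¬ cj I ≤ (br a i).idl := by
    intro h
    apply h1
    intro z hz
    have : star z ∈ cj I := mem_cj.mpr (by rw [star_star]; exact hz)
    have := h this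
    rwa [← mem_cj, cj_br] at this
  exact eval_ne_zero_of_not_le hU h1 h2

end split

end Pool.Agent.SmJ
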