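import Mathlib
import Pool.Agent.Lib.SmJ.E.Ded

/-!
SMITH for Jacobians (MP_950c68_ag), block E: the ideals `(A, y - B)`, points, conjugation, ideals of
split norm.
-/

set_option autoImplicit false

open Polynomial

namespace Pool.Agent.SmJ

variable {Om : Type} [Field Om] {f : Om[X]}

/-- The ideal `(A, y - B)`. -/
noncomputable def mI (A B : Om[X]) : Ideal (Co f) := Ideal.span {(⟨A, 0⟩ : Co f), ⟨-B, 1⟩}

/-- The polynomial `p` as a function. -/
noncomputable def px (p : Om[X]) : Co f := ⟨p, 0⟩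

@[simp] theorem px_re (p : Om[X]) : (px p : Co f).re = p := rfl

@[simp] theorem px_im (p : Om[X]) : (px p : Co f).im = 0 := rfl

theorem px_mul (p q : Om[X]) : (px (p * q) : Co f) = px p * px q := by
  ext1 <;> simp

theorem px_add (p q : Om[X]) : (px (p + q) : Co f) = px p + px q := by
  ext1 <;> simp

theorem px_sub (p q : Om[X]) : (px (p - q) : Co f) = px p - px q := by
  ext1 <;> simp

theorem px_one : (px 1 : Co f) = 1 := by
  ext1
  · simp [QuadraticAlgebra.re_one]
  · simp [QuadraticAlgebra.im_one]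

theorem px_pow (p : Om[X]) (n : ℕ) : (px (p ^ n) : Co f) = px p ^ n := by
  induction n with
  | zero => rw [pow_zero, pow_zero, px_one]
  | succ n ih => rw [pow_succ, pow_succ, px_mul, ih]

theorem px_inj {p q : Om[X]} : (px p : Co f) = px q ↔ p = q := by
  constructor
  · intro h
    exact congrArg QuadraticAlgebra.re h
  · rintro rfl
    rfl

theorem px_eq_zero {p : Om[X]} : (px p : Co f) = 0 ↔ p = 0 := by
  rw [← px_inj (f := f)]
  rfl

theorem px_ne_zero {p : Om[X]} (h : p ≠ 0) : (px p : Co f) ≠ 0 := fun h0 => h (px_eq_zero.mp h0)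

theorem px_dvd {p : Om[X]} {z : Co f} : px p ∣ z ↔ p ∣ z.re ∧ p ∣ z.im := by
  constructor
  · rintro ⟨w, rfl⟩
    refine ⟨⟨w.re, by simp⟩, ⟨w.im, by simp⟩⟩
  · rintro ⟨⟨u, hu⟩, ⟨v, hv⟩⟩
    refine ⟨⟨u, v⟩, ?_⟩
    ext1 <;> simp [hu, hv]

/-- The function `y - B`. -/
noncomputable def ym (B : Om[X]) : Co f := ⟨-B, 1⟩

theorem ym_mul (B B' : Om[X]) : (ym B : Co f) * ym B' = ⟨f + B * B', -(B + B')⟩ := by
  ext1
  · simp only [ym, QuadraticAlgebra.re_mul]
    ring
  · simp only [ym, QuadraticAlgebra.im_mul]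
    ring

theorem mI_def (A B : Om[X]) : (mI A B : Ideal (Co f)) = Ideal.span {px A, ym B} := rfl

theorem px_mem_mI (A B : Om[X]) : (px A : Co f) ∈ (mI A B : Ideal (Co f)) :=
  Ideal.subset_span (Set.mem_insert _ _)

theorem ym_mem_mI (A B : Om[X]) : (ym B : Co f) ∈ (mI A B : Ideal (Co f)) :=
  Ideal.subset_span (Set.mem_insert_of_mem _ rfl)

theorem mem_eq (B : Om[X]) (z : Co f) : z = px (z.re + z.im * B) + px z.im * ym B := by
  ext1
  · simp [ym]
  · simp [ym]

theorem mem_mI {A B : Om[X]} (h : A ∣ f - B ^ 2) {z : Co f} :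
    z ∈ (mI A B : Ideal (Co f)) ↔ A ∣ z.re + z.im * B := by
  constructor
  · intro hz
    rw [mI_def, Ideal.mem_span_pair] at hz
    obtain ⟨u, v, rfl⟩ := hz
    have e : (u * px A + v * ym B).re + (u * px A + v * ym B).im * B =
        A * (u.re + u.im * B) + (f - B ^ 2) * v.im := by
      simp only [ym, QuadraticAlgebra.re_add, QuadraticAlgebra.re_mul, QuadraticAlgebra.im_add,
        QuadraticAlgebra.im_mul, px_re, px_im]
      ring
    rw [e]
    exact dvd_add (dvd_mul_right _ _) (h.mul_right _)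
  · intro hz
    obtain ⟨c, hc⟩ := hz
    rw [mem_eq B z, hc, px_mul]
    exact Ideal.add_mem _ (Ideal.mul_mem_right _ _ (px_mem_mI A B))
      (Ideal.mul_mem_left _ _ (ym_mem_mI A B))

theorem mI_ne_bot {A : Om[X]} (B : Om[X]) : (mI A B : Ideal (Co f)) ≠ ⊥ := by
  intro h
  have h1 := ym_mem_mI (f := f) A B
  rw [h, Ideal.mem_bot] at h1
  have h2 := congrArg QuadraticAlgebra.im h1
  exact one_ne_zero h2

theorem mI_congr {A B B' : Om[X]} (h : A ∣ B - B') :
    (mI A B : Ideal (Co f)) = mI A B' := by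
  obtain ⟨c, hc⟩ := h
  have e : (ym B : Co f) = ym B' - px c * px A := by
    rw [← px_mul]
    ext1
    · simp only [ym, QuadraticAlgebra.re_sub, px_re]
      linear_combination -hc
    · simp [ym]
  apply le_antisymm
  · rw [mI_def, Ideal.span_le]
    rintro z (rfl | rfl)
    · exact px_mem_mI _ _
    · rw [e]
      exact Ideal.sub_mem _ (ym_mem_mI _ _) (Ideal.mul_mem_left _ _ (px_mem_mI _ _))
  · rw [mI_def A B', Ideal.span_le]
    rintro z (rfl | rfl)
    · exact px_mem_mI _ _
    · have e' : (ym B' : Co f) = ym B + px c * px A := by rw [e, sub_add_cancel]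
      rw [e']
      exact Ideal.add_mem _ (ym_mem_mI _ _) (Ideal.mul_mem_left _ _ (px_mem_mI _ _))

theorem mI_one (B : Om[X]) : (mI 1 B : Ideal (Co f)) = ⊤ := by
  rw [Ideal.eq_top_iff_one, ← px_one]
  exact px_mem_mI 1 B

theorem mI_full {A B : Om[X]} (h : A = f - B ^ 2) :
    (mI A B : Ideal (Co f)) = Ideal.span {ym B} := by
  apply le_antisymm
  · rw [mI_def, Ideal.span_le]
    rintro z (rfl | rfl)
    · rw [SetLike.mem_coe, Ideal.mem_span_singleton]
      refine ⟨ym (-B), ?_⟩
      rw [ym_mul, h]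
      ext1
      · simp only [px_re]
        ring
      · simp
    · exact Ideal.mem_span_singleton_self _
  · rw [Ideal.span_singleton_le_iff_mem]
    exact ym_mem_mI A B

theorem mI_isCoprime [Hyp f] {A A' B : Om[X]} (h : A * A' ∣ f - B ^ 2) :
    ∃ u v w : Om[X], u * A + v * A' + w * (2 * B) = 1 := by
  classical
  have h2 : (2 : Om) ≠ 0 := Hyp.two f
  set D := EuclideanDomain.gcd (EuclideanDomain.gcd A A') B with hD
  have hDA : D ∣ A := (EuclideanDomain.gcd_dvd_left _ _).trans (EuclideanDomain.gcd_dvd_left _ _)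
  have hDA' : D ∣ A' :=
    (EuclideanDomain.gcd_dvd_left _ _).trans (EuclideanDomain.gcd_dvd_right _ _)
  have hDB : D ∣ B := EuclideanDomain.gcd_dvd_right _ _
  have hDf : D * D ∣ f := by
    have h1 : D * D ∣ f - B ^ 2 := (mul_dvd_mul hDA hDA').trans h
    have h3 : D * D ∣ B ^ 2 := by
      rw [sq]
      exact mul_dvd_mul hDB hDB
    have := dvd_add h1 h3
    rwa [sub_add_cancel] at this
  have hu : IsUnit D := (Hyp.sep (f := f)).squarefree D hDf
  obtain ⟨d, hd⟩ := hu.exists_left_inv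
  obtain ⟨s, t, e1⟩ : ∃ s t, D = EuclideanDomain.gcd A A' * s + B * t :=
    ⟨_, _, EuclideanDomain.gcd_eq_gcd_ab _ _⟩
  obtain ⟨p, q, e2⟩ : ∃ p q, EuclideanDomain.gcd A A' = A * p + A' * q :=
    ⟨_, _, EuclideanDomain.gcd_eq_gcd_ab _ _⟩
  have h22 : C (2⁻¹ : Om) * 2 = 1 := by
    rw [← C_ofNat, ← C_mul, inv_mul_cancel₀ h2, map_one]
  refine ⟨d * (p * s), d * (q * s), d * t * C (2⁻¹), ?_⟩
  rw [← hd]
  linear_combination (d * t * B) * h22 - d * e1 - d * s * e2

theorem mI_mul [Hyp f] {A A' B : Om[X]} (h : A * A' ∣ f - B ^ 2) :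
    (mI A B * mI A' B : Ideal (Co f)) = mI (A * A') B := by
  obtain ⟨c, hc⟩ := h
  obtain ⟨u, v, w, huvw⟩ := mI_isCoprime (Dvd.intro _ hc.symm)
  have hy : (ym B : Co f) * ym B = px (A * A') * px c - px (2 * B) * ym B := by
    rw [ym_mul, ← px_mul]
    ext1
    · simp only [ym, QuadraticAlgebra.re_sub, QuadraticAlgebra.re_mul, px_re, px_im]
      linear_combination hc
    · simp only [ym, QuadraticAlgebra.im_sub, QuadraticAlgebra.im_mul, px_re, px_im]
      ring
  apply le_antisymm
  · rw [mI_def A, mI_def A', Ideal.span_mul_span', Ideal.span_le]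
    rintro z ⟨p, hp, q, hq, rfl⟩
    rw [SetLike.mem_coe]
    rcases hp with rfl | rfl <;> rcases hq with rfl | rfl
    · change px A * px A' ∈ _
      rw [← px_mul]
      exact px_mem_mI _ _
    · exact Ideal.mul_mem_left _ _ (ym_mem_mI _ _)
    · exact Ideal.mul_mem_right _ _ (ym_mem_mI _ _)
    · exact Ideal.mul_mem_left _ _ (ym_mem_mI _ _)
  · have m1 : px A * px A' ∈ (mI A B * mI A' B : Ideal (Co f)) :=
      Ideal.mul_mem_mul (px_mem_mI A B) (px_mem_mI A' B)
    have m2 : px A * ym B ∈ (mI A B * mI A' B : Ideal (Co f)) :=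
      Ideal.mul_mem_mul (px_mem_mI A B) (ym_mem_mI A' B)
    have m3 : ym B * px A' ∈ (mI A B * mI A' B : Ideal (Co f)) :=
      Ideal.mul_mem_mul (ym_mem_mI A B) (px_mem_mI A' B)
    have m4 : ym B * ym B ∈ (mI A B * mI A' B : Ideal (Co f)) :=
      Ideal.mul_mem_mul (ym_mem_mI A B) (ym_mem_mI A' B)
    rw [mI_def (A * A'), Ideal.span_le]
    rintro z (rfl | rfl)
    · rw [px_mul]
      exact m1
    · have m5 : px (2 * B) * ym B ∈ (mI A B * mI A' B : Ideal (Co f)) := by
        have e : (px (2 * B) * ym B : Co f) = px A * px A' * px c - ym B * ym B := by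
          rw [hy, px_mul A A']
          ring
        rw [e]
        exact Ideal.sub_mem _ (Ideal.mul_mem_right _ _ m1) m4
      have e : (ym B : Co f) = px u * (px A * ym B) + px v * (ym B * px A') +
          px w * (px (2 * B) * ym B) := by
        have e1 : (px u * px A + px v * px A' + px w * px (2 * B) : Co f) = 1 := by
          rw [← px_mul, ← px_mul, ← px_mul, ← px_add, ← px_add, huvw, px_one]
        calc (ym B : Co f) = 1 * ym B := (one_mul _).symm
          _ = _ := by
            rw [← e1]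
            ring
      rw [SetLike.mem_coe, e]
      exact Ideal.add_mem _ (Ideal.add_mem _ (Ideal.mul_mem_left _ _ m2)
        (Ideal.mul_mem_left _ _ m3)) (Ideal.mul_mem_left _ _ m5)

theorem mI_pow [Hyp f] {A B : Om[X]} (n : ℕ) (h : A ^ n ∣ f - B ^ 2) :
    (mI A B : Ideal (Co f)) ^ n = mI (A ^ n) B := by
  induction n with
  | zero => rw [pow_zero, pow_zero, mI_one, Ideal.one_eq_top]
  | succ n ih =>
    rw [pow_succ, ih ((pow_dvd_pow A n.le_succ).trans h), mI_mul (by rwa [← pow_succ]), pow_succ]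

/-- `(A, y - B) (A, y + B) = (A)`. -/
theorem mI_mul_neg [Hyp f] {A B : Om[X]} (h : A ∣ f - B ^ 2) :
    (mI A B * mI A (-B) : Ideal (Co f)) = Ideal.span {px A} := by
  obtain ⟨c, hc⟩ := h
  obtain ⟨u, v, w, huvw⟩ := mI_isCoprime (f := f) (A := A) (A' := c) (B := B) (dvd_of_eq hc.symm)
  have hy : (ym B : Co f) * ym (-B) = px A * px c := by
    rw [ym_mul, ← px_mul]
    ext1
    · simp only [px_re]
      linear_combination hc
    · simp
  have m1 : px A * px A ∈ (mI A B * mI A (-B) : Ideal (Co f)) :=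
    Ideal.mul_mem_mul (px_mem_mI A B) (px_mem_mI A (-B))
  have m2 : px A * ym (-B) ∈ (mI A B * mI A (-B) : Ideal (Co f)) :=
    Ideal.mul_mem_mul (px_mem_mI A B) (ym_mem_mI A (-B))
  have m3 : ym B * px A ∈ (mI A B * mI A (-B) : Ideal (Co f)) :=
    Ideal.mul_mem_mul (ym_mem_mI A B) (px_mem_mI A (-B))
  have m4 : ym B * ym (-B) ∈ (mI A B * mI A (-B) : Ideal (Co f)) :=
    Ideal.mul_mem_mul (ym_mem_mI A B) (ym_mem_mI A (-B))
  apply le_antisymm
  · rw [mI_def A, mI_def A, Ideal.span_mul_span', Ideal.span_le]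
    rintro z ⟨p, hp, q, hq, rfl⟩
    rw [SetLike.mem_coe, Ideal.mem_span_singleton]
    rcases hp with rfl | rfl <;> rcases hq with rfl | rfl
    · exact dvd_mul_right _ _
    · exact dvd_mul_right _ _
    · exact dvd_mul_left _ _
    · change px A ∣ ym B * ym (-B)
      rw [hy]
      exact dvd_mul_right _ _
  · rw [Ideal.span_singleton_le_iff_mem]
    have e : (px A : Co f) = px u * (px A * px A) + px v * (ym B * ym (-B)) +
        px w * (px A * ym (-B) - ym B * px A) := by
      have e1 : (px u * px A + px v * px c + px w * px (2 * B) : Co f) = 1 := by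
        rw [← px_mul, ← px_mul, ← px_mul, ← px_add, ← px_add, huvw, px_one]
      have e2 : (ym (-B) - ym B : Co f) = px (2 * B) := by
        ext1
        · simp only [ym, QuadraticAlgebra.re_sub, px_re]
          ring
        · simp [ym]
      calc (px A : Co f) = px A * 1 := (mul_one _).symm
        _ = px u * (px A * px A) + px v * (px A * px c) +
            px w * (px A * (ym (-B) - ym B)) := by
          rw [← e1, e2]
          ring
        _ = _ := by
          rw [hy]
          ring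
    rw [e]
    exact Ideal.add_mem _ (Ideal.add_mem _ (Ideal.mul_mem_left _ _ m1)
      (Ideal.mul_mem_left _ _ m4)) (Ideal.mul_mem_left _ _ (Ideal.sub_mem _ m2 m3))

theorem cls_mI_neg [Hyp f] {A B : Om[X]} (h : A ∣ f - B ^ 2) :
    cls (mI A (-B) : Ideal (Co f)) = -cls (mI A B : Ideal (Co f)) := by
  have h1 := cls_mul (mI_ne_bot (f := f) (A := A) B) (mI_ne_bot (f := f) (A := A) (-B))
  rw [mI_mul_neg h, cls_span] at h1
  exact (neg_eq_of_add_eq_zero_right h1.symm).symm

end Pool.Agent.SmJ
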