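import Mathlib
import Pool.Agent.Lib.SmJ.E.Pts

/-!
SMITH for Jacobians (MP_950c68_ag), block E: the 2-torsion of the class group.
-/

set_option autoImplicit false

open Polynomial

namespace Pool.Agent.SmJ

variable {Om : Type} [Field Om] {f : Om[X]}

/-- Hermite form of an ideal. -/
theorem exists_mI [Hyp f] {I : Ideal (Co f)} (hI : I ≠ ⊥) : ∃ d A B : Om[X], d ≠ 0 ∧ A ≠ 0 ∧
    A ∣ f - B ^ 2 ∧ I = Ideal.span {px d} * mI A B := by
  -- the ideals of the imaginary parts and of the polynomials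
  let φ : Co f →ₗ[Om[X]] Om[X] := QuadraticAlgebra.imₗ f 0
  have hφ : ∀ z, φ z = z.im := fun z => rfl
  let Io : Submodule Om[X] (Co f) := I.restrictScalars Om[X]
  let I1 : Ideal Om[X] := Submodule.map φ Io
  let I2 : Ideal Om[X] := I.comap (algebraMap Om[X] (Co f))
  have hI2 : ∀ p : Om[X], p ∈ I2 ↔ (px p : Co f) ∈ I := fun p => Iff.rfl
  have hI1 : ∀ p : Om[X], p ∈ I1 ↔ ∃ z ∈ I, z.im = p := fun p => Iff.rfl
  obtain ⟨d, hd⟩ := (IsPrincipalIdealRing.principal I1).principal
  obtain ⟨n, hn⟩ := (IsPrincipalIdealRing.principal I2).principal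
  have hd' : ∀ p, p ∈ I1 ↔ d ∣ p := fun p => by
    rw [hd]
    exact Ideal.mem_span_singleton
  have hn' : ∀ p, p ∈ I2 ↔ n ∣ p := fun p => by
    rw [hn]
    exact Ideal.mem_span_singleton
  obtain ⟨z, hz, hz0⟩ := Submodule.exists_mem_ne_zero_of_ne_bot hI
  have hn0 : n ≠ 0 := by
    rintro rfl
    have h1 : z.norm ∈ I2 := by
      rw [hI2]
      have e : (px z.norm : Co f) = z * star z := QuadraticAlgebra.algebraMap_norm_eq_mul_star z
      rw [e]
      exact I.mul_mem_right _ hz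
    rw [hn', zero_dvd_iff] at h1
    exact norm_ne_zero hz0 h1
  have hym : ∀ p : Om[X], (px p * ym 0 : Co f).im = p := fun p => by simp [ym]
  have hdn : d ∣ n := by
    rw [← hd', hI1]
    refine ⟨px n * ym 0, I.mul_mem_right _ ((hI2 n).mp ((hn' n).mpr dvd_rfl)), hym n⟩
  obtain ⟨A, rfl⟩ := hdn
  have hd0 : d ≠ 0 := left_ne_zero_of_mul hn0
  have hA0 : A ≠ 0 := right_ne_zero_of_mul hn0
  obtain ⟨z0, hz0I, hz0d⟩ := (hI1 d).mp ((hd' d).mpr dvd_rfl)
  have hdre : d ∣ z0.re := by
    rw [← hd', hI1]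
    refine ⟨z0 * ym 0, I.mul_mem_right _ hz0I, by simp [ym]⟩
  obtain ⟨b, hb⟩ := hdre
  have e0 : z0 = px d * ym (-b) := by
    ext1
    · simp [ym, hb]
    · simp [ym, hz0d]
  have hAB : A ∣ f - (-b) ^ 2 := by
    have h1 : (px (d * (f - (-b) ^ 2)) : Co f) ∈ I := by
      have e : (px (d * (f - (-b) ^ 2)) : Co f) = z0 * ym b := by
        rw [e0, mul_assoc, ym_mul]
        ext1
        · simp only [px_re, QuadraticAlgebra.re_mul, px_im]
          ring
        · simp
      rw [e]
      exact I.mul_mem_right _ hz0I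
    rw [← hI2, hn'] at h1
    exact (mul_dvd_mul_iff_left hd0).mp h1
  refine ⟨d, A, -b, hd0, hA0, hAB, ?_⟩
  apply le_antisymm
  · intro w hw
    have h1 : d ∣ w.im := by
      rw [← hd', hI1]
      exact ⟨w, hw, rfl⟩
    obtain ⟨e, he⟩ := h1
    have h2 : (px (w.re - e * z0.re) : Co f) ∈ I := by
      have e1 : (px (w.re - e * z0.re) : Co f) = w - px e * z0 := by
        ext1
        · simp
        · simp only [px_im, QuadraticAlgebra.im_sub, QuadraticAlgebra.im_mul, px_re, hz0d, he]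
          ring
      rw [e1]
      exact I.sub_mem hw (I.mul_mem_left _ hz0I)
    rw [← hI2, hn'] at h2
    obtain ⟨c, hc⟩ := h2
    have e2 : w = px d * (px (c * A) + px e * ym (-b)) := by
      ext1
      · simp only [QuadraticAlgebra.re_mul, QuadraticAlgebra.re_add, px_re, px_im, ym,
          QuadraticAlgebra.im_add, QuadraticAlgebra.im_mul]
        linear_combination hc + e * hb
      · simp only [QuadraticAlgebra.re_mul, QuadraticAlgebra.re_add, px_re, px_im, ym,
          QuadraticAlgebra.im_add, QuadraticAlgebra.im_mul]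
        linear_combination he
    rw [e2]
    refine Ideal.mul_mem_mul (Ideal.mem_span_singleton_self _) (Ideal.add_mem _ ?_ ?_)
    · rw [px_mul]
      exact Ideal.mul_mem_left _ _ (px_mem_mI _ _)
    · exact Ideal.mul_mem_left _ _ (ym_mem_mI _ _)
  · rw [mI_def, Ideal.span_mul_span', Ideal.span_le]
    rintro w ⟨p, hp, q, hq, rfl⟩
    rw [Set.mem_singleton_iff] at hp
    subst hp
    rcases hq with rfl | rfl
    · change px d * px A ∈ I
      rw [← px_mul]
      exact (hI2 _).mp ((hn' _).mpr dvd_rfl)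
    · change px d * ym (-b) ∈ I
      rw [← e0]
      exact hz0I

/-- Every class is the class of an ideal `(A, y - B)`. -/
theorem exists_cls_mI [Hyp f] (Q : JJ f) : ∃ A B : Om[X], A ≠ 0 ∧ A ∣ f - B ^ 2 ∧
    Q = cls (mI A B) := by
  obtain ⟨I, hI, rfl⟩ := exists_cls Q
  obtain ⟨d, A, B, hd, hA, hAB, rfl⟩ := exists_mI hI
  refine ⟨A, B, hA, hAB, ?_⟩
  rw [cls_mul (by rw [Ne, Ideal.span_singleton_eq_bot]; exact px_ne_zero hd) (mI_ne_bot B),
    cls_span, zero_add]

/-- The conjugate of an ideal. -/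
noncomputable def cjI (I : Ideal (Co f)) : Ideal (Co f) := I.map (starRingEnd (Co f))

theorem cjI_mul (I I' : Ideal (Co f)) : cjI (I * I') = cjI I * cjI I' := Ideal.map_mul _ _ _

theorem cjI_span (z : Co f) : cjI (Ideal.span {z}) = Ideal.span {star z} := by
  rw [cjI, Ideal.map_span, Set.image_singleton]
  rfl

theorem cjI_mI (A B : Om[X]) : cjI (mI A B : Ideal (Co f)) = mI A (-B) := by
  have e1 : starRingEnd (Co f) (px A) = px A := by
    rw [starRingEnd_apply]
    ext1 <;> simp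
  have e2 : starRingEnd (Co f) (ym B) = -ym (-B) := by
    rw [starRingEnd_apply]
    ext1 <;> simp [ym]
  rw [cjI, mI_def, Ideal.map_span, Set.image_pair, e1, e2, mI_def]
  apply le_antisymm
  · rw [Ideal.span_le]
    rintro z (rfl | rfl)
    · exact Ideal.subset_span (Set.mem_insert _ _)
    · have h0 : ym (-B) ∈ Ideal.span {(px A : Co f), ym (-B)} :=
        Ideal.subset_span (Set.mem_insert_of_mem _ rfl)
      exact (Ideal.span {(px A : Co f), ym (-B)}).neg_mem h0
  · rw [Ideal.span_le]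
    rintro z (rfl | rfl)
    · exact Ideal.subset_span (Set.mem_insert _ _)
    · have h0 : -ym (-B) ∈ Ideal.span {(px A : Co f), -ym (-B)} :=
        Ideal.subset_span (Set.mem_insert_of_mem _ rfl)
      have h := (Ideal.span {(px A : Co f), -ym (-B)}).neg_mem h0
      rwa [neg_neg] at h

theorem px_span_eq [Hyp f] {p q : Om[X]} (h : (Ideal.span {px p} : Ideal (Co f)) =
    Ideal.span {px q}) : Associated p q := by
  rw [Ideal.span_singleton_eq_span_singleton] at h
  refine associated_of_dvd_dvd ?_ ?_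
  · exact (px_dvd.mp h.dvd).1
  · exact (px_dvd.mp h.symm.dvd).1

/-- If `(A, y - B) ^ 2` is generated by a polynomial then `A` divides `f` and `B` may be taken `0`. -/
theorem mI_sq_px [Hyp f] {A B n : Om[X]} (hAB : A ∣ f - B ^ 2)
    (h : (mI A B : Ideal (Co f)) ^ 2 = Ideal.span {px n}) :
    A ∣ f ∧ (mI A B : Ideal (Co f)) = mI A 0 := by
  have hcj : (mI A (-B) : Ideal (Co f)) ^ 2 = Ideal.span {px n} := by
    have h1 := congrArg cjI h
    rw [sq, cjI_mul, cjI_mI, cjI_span, ← sq] at h1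
    rw [h1]
    congr 2
    ext1 <;> simp
  have h2 : (Ideal.span {px (n ^ 2)} : Ideal (Co f)) = Ideal.span {px (A ^ 2)} := by
    rw [px_pow, px_pow, ← Ideal.span_singleton_pow, ← Ideal.span_singleton_pow, ← mI_mul_neg hAB,
      mul_pow, hcj, h, sq]
  have h3 : Associated (n ^ 2) (A ^ 2) := px_span_eq h2
  have h4 : A ∣ n := (IsIntegrallyClosed.pow_dvd_pow_iff two_ne_zero).mp h3.symm.dvd
  have h5 : n ∣ A := (IsIntegrallyClosed.pow_dvd_pow_iff two_ne_zero).mp h3.dvd
  have h6 : (Ideal.span {px n} : Ideal (Co f)) = Ideal.span {px A} := by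
    apply le_antisymm
    · rw [Ideal.span_singleton_le_span_singleton]
      obtain ⟨c, hc⟩ := h4
      exact ⟨px c, by rw [hc, px_mul]⟩
    · rw [Ideal.span_singleton_le_span_singleton]
      obtain ⟨c, hc⟩ := h5
      exact ⟨px c, by rw [hc, px_mul]⟩
  have h7 : (mI A B : Ideal (Co f)) = mI A (-B) := by
    have h8 : (mI A B : Ideal (Co f)) * mI A B = mI A B * mI A (-B) := by
      rw [mI_mul_neg hAB, ← h6, ← h, sq]
    exact mul_left_cancel₀ (mI_ne_bot (f := f) (A := A) B) h8
  have h9 : A ∣ B := by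
    have h10 : (ym B : Co f) ∈ (mI A (-B) : Ideal (Co f)) := by
      rw [← h7]
      exact ym_mem_mI A B
    have hAB' : A ∣ f - (-B) ^ 2 := by rwa [neg_sq]
    rw [mem_mI hAB'] at h10
    obtain ⟨c, hc⟩ := h10
    have h22 : C (2⁻¹ : Om) * 2 = 1 := by
      rw [← C_ofNat, ← C_mul, inv_mul_cancel₀ (Hyp.two f), map_one]
    refine ⟨-C (2⁻¹) * c, ?_⟩
    simp only [ym] at hc
    linear_combination (-C (2⁻¹)) * hc - B * h22
  refine ⟨?_, mI_congr (by rwa [sub_zero])⟩
  have h11 : A ∣ B ^ 2 := h9.trans (dvd_pow_self B two_ne_zero)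
  have h12 := dvd_add hAB h11
  rwa [sub_add_cancel] at h12

/-- **The 2-torsion**: classes of the ideals `(A, y)`, `A ∣ f`. -/
theorem exists_of_two_nsmul [Hyp f] [IsSepClosed Om] {Q : JJ f} (hQ : (2 : ℕ) • Q = 0) :
    ∃ A : Om[X], A.Monic ∧ A ∣ f ∧ Q = cls (mI A 0) := by
  obtain ⟨A, B, hA, hAB, rfl⟩ := exists_cls_mI Q
  have hne := mI_ne_bot (f := f) (A := A) B
  rw [← cls_pow hne, cls_eq_zero_iff (pow_ne_zero 2 hne)] at hQ
  obtain ⟨z, hz⟩ := hQ
  -- the norm of `z`
  have hcj : (mI A (-B) : Ideal (Co f)) ^ 2 = Ideal.span {star z} := by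
    have h1 := congrArg cjI hz
    rwa [sq, cjI_mul, cjI_mI, cjI_span, ← sq] at h1
  have h2 : (Ideal.span {px z.norm} : Ideal (Co f)) = Ideal.span {px (A ^ 2)} := by
    have e : (px z.norm : Co f) = z * star z := QuadraticAlgebra.algebraMap_norm_eq_mul_star z
    rw [e, ← Ideal.span_singleton_mul_span_singleton, ← hz, ← hcj, ← mul_pow, mI_mul_neg hAB,
      Ideal.span_singleton_pow, px_pow]
  obtain ⟨c, hc⟩ := (px_span_eq h2).symm
  obtain ⟨κ, hκ, hκc⟩ := Polynomial.isUnit_iff.mp c.isUnit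
  have : NeZero ((2 : ℕ) : Om) := ⟨by
    rw [Nat.cast_ofNat]
    exact Hyp.two f⟩
  obtain ⟨r, hr⟩ := IsSepClosed.exists_pow_nat_eq κ 2
  set u : Om[X] := C r * A with hu
  have hnu : z.norm = u ^ 2 := by
    rw [← hc, hu, mul_pow, ← C_pow, hr, hκc]
    ring
  have hr0 : r ≠ 0 := by
    rintro rfl
    rw [zero_pow two_ne_zero] at hr
    rw [← hr] at hκ
    exact not_isUnit_zero hκ
  have hu0 : u ≠ 0 := mul_ne_zero (by rwa [Ne, C_eq_zero]) hA
  -- `m = ± u + z`
  obtain ⟨u', hu', m, hm, hm0⟩ : ∃ u' : Om[X], u' ^ 2 = u ^ 2 ∧ ∃ m : Co f, m = px u' + z ∧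
      m ≠ 0 := by
    by_cases h0 : px u + z = 0
    · refine ⟨-u, neg_sq u, _, rfl, fun h1 => ?_⟩
      have h3 : (px (2 * u) : Co f) = 0 := by
        have e : (px (2 * u) : Co f) = (px u + z) - (px (-u) + z) := by
          ext1
          · simp only [px_re, QuadraticAlgebra.re_sub, QuadraticAlgebra.re_add]
            ring
          · simp
        rw [e, h0, h1, sub_zero]
      rw [px_eq_zero] at h3
      rcases mul_eq_zero.mp h3 with h4 | h4
      · have h5 : (2 : Om[X]) = C 2 := (C_ofNat 2).symm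
        rw [h5, C_eq_zero] at h4
        exact Hyp.two f h4
      · exact hu0 h4
    · exact ⟨u, rfl, _, rfl, h0⟩
  have hzs : z * star z = px u' * px u' := by
    have e : (px z.norm : Co f) = z * star z := QuadraticAlgebra.algebraMap_norm_eq_mul_star z
    rw [← e, hnu, ← hu', sq, px_mul]
  have hus : star (px u' : Co f) = px u' := by
    ext1 <;> simp
  have hkey : z * star m = px u' * m := by
    rw [hm, star_add, hus, mul_add, hzs]
    ring
  have hsm0 : star m ≠ 0 := by
    intro h0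
    apply hm0
    rw [← star_star m, h0, star_zero]
  have hspan0 : (Ideal.span {star m} : Ideal (Co f)) ≠ ⊥ := by
    rwa [Ne, Ideal.span_singleton_eq_bot]
  -- the ideal `I * star m`
  have hJ0 : (mI A B * Ideal.span {star m} : Ideal (Co f)) ≠ ⊥ := mul_ne_zero hne hspan0
  have hJcls : cls (mI A B * Ideal.span {star m} : Ideal (Co f)) = cls (mI A B) := by
    rw [cls_mul hne hspan0, cls_span, add_zero]
  have hJsq : (mI A B * Ideal.span {star m} : Ideal (Co f)) ^ 2 =
      Ideal.span {px (u' * m.norm)} := by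
    rw [mul_pow, hz, Ideal.span_singleton_pow, Ideal.span_singleton_mul_span_singleton]
    congr 2
    have e : (px m.norm : Co f) = m * star m := QuadraticAlgebra.algebraMap_norm_eq_mul_star m
    rw [px_mul, e, ← mul_assoc, ← hkey]
    ring
  obtain ⟨d, A', B', hd, hA', hAB', hJ⟩ := exists_mI hJ0
  have hspd : (Ideal.span {px d} : Ideal (Co f)) ≠ ⊥ := by
    rw [Ne, Ideal.span_singleton_eq_bot]
    exact px_ne_zero hd
  have hdsq : (Ideal.span {px (d ^ 2)} : Ideal (Co f)) * mI A' B' ^ 2 =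
      Ideal.span {px (u' * m.norm)} := by
    rw [← hJsq, hJ, mul_pow, Ideal.span_singleton_pow, px_pow]
  obtain ⟨n, hn⟩ : d ^ 2 ∣ u' * m.norm := by
    have h1 : (px (u' * m.norm) : Co f) ∈ Ideal.span {(px (d ^ 2) : Co f)} := by
      have h2 : (px (u' * m.norm) : Co f) ∈ Ideal.span {(px (u' * m.norm) : Co f)} :=
        Ideal.mem_span_singleton_self _
      rw [← hdsq] at h2
      exact (Ideal.mul_le_inf h2).1
    rw [Ideal.mem_span_singleton, px_dvd] at h1
    exact h1.1
  have hn' : (mI A' B' : Ideal (Co f)) ^ 2 = Ideal.span {px n} := by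
    have hd2 : (Ideal.span {px (d ^ 2)} : Ideal (Co f)) ≠ ⊥ := by
      rw [Ne, Ideal.span_singleton_eq_bot]
      exact px_ne_zero (pow_ne_zero 2 hd)
    refine mul_left_cancel₀ hd2 ?_
    rw [hdsq, hn, px_mul, Ideal.span_singleton_mul_span_singleton]
  obtain ⟨hA'f, hB'⟩ := mI_sq_px hAB' hn'
  -- make `A'` monic
  have hlc : A'.leadingCoeff ≠ 0 := leadingCoeff_ne_zero.mpr hA'
  refine ⟨A' * C (A'.leadingCoeff⁻¹), monic_mul_leadingCoeff_inv hA', ?_, ?_⟩
  · have hun : IsUnit (C (A'.leadingCoeff⁻¹)) := isUnit_C.mpr (IsUnit.mk0 _ (inv_ne_zero hlc))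
    exact (hun.mul_right_dvd).mpr hA'f
  · rw [← hJcls, hJ, cls_mul hspd (mI_ne_bot B'), cls_span, zero_add, hB']
    congr 1
    have hcc : C (A'.leadingCoeff⁻¹) * C A'.leadingCoeff = (1 : Om[X]) := by
      rw [← C_mul, inv_mul_cancel₀ hlc, C_1]
    apply le_antisymm
    · rw [mI_def, Ideal.span_le]
      rintro w (rfl | rfl)
      · have e : (px A' : Co f) = px (C A'.leadingCoeff) * px (A' * C (A'.leadingCoeff⁻¹)) := by
          rw [← px_mul]
          congr 1
          linear_combination (-A') * hcc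
        rw [e]
        exact Ideal.mul_mem_left _ _ (px_mem_mI _ _)
      · exact ym_mem_mI _ _
    · rw [mI_def (A' * _), Ideal.span_le]
      rintro w (rfl | rfl)
      · rw [px_mul]
        exact Ideal.mul_mem_right _ _ (px_mem_mI _ _)
      · exact ym_mem_mI _ _

end Pool.Agent.SmJ
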