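import Mathlib
import Pool.Agent.Lib.SmJ.E.J2
import Pool.Agent.Lib.SmJ.E.Cop

/-!
SMITH for Jacobians (MP_950c68_ag), block E: the 2-torsion in the split case: the map
`io a x = ∑ x i • e_i` from the vectors over `ZMod 2`, its kernel and its image.
-/

set_option autoImplicit false

open Polynomial

namespace Pool.Agent.SmJ

variable {Om : Type} [Field Om] {g : ℕ}

section split

variable (a : Fin (2 * g + 1) → Om) [HypA a]

theorem two_ee (i : Fin (2 * g + 1)) : ee a i + ee a i = 0 := by
  have h := cls_PS_add_self a {i}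
  rwa [cls_PS, Finset.sum_singleton] at h

/-- The homomorphism `1 ↦ e_i`. -/
noncomputable def eH (i : Fin (2 * g + 1)) : ZMod 2 →+ JJ (ff a) :=
  ZMod.lift 2 ⟨zmultiplesHom _ (ee a i), by
    rw [zmultiplesHom_apply, Nat.cast_ofNat, two_zsmul]
    exact two_ee a i⟩

theorem eH_one (i : Fin (2 * g + 1)) : eH a i 1 = ee a i := by
  have h : (1 : ZMod 2) = ((1 : ℤ) : ZMod 2) := by simp
  rw [eH, h, ZMod.lift_coe]
  change (1 : ℤ) • ee a i = _
  rw [one_zsmul]

/-- `x ↦ ∑ x i • e_i`. -/
noncomputable def io : (Fin (2 * g + 1) → ZMod 2) →+ JJ (ff a) where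
  toFun x := ∑ i, eH a i (x i)
  map_zero' := by simp
  map_add' x y := by
    simp [Finset.sum_add_distrib]

theorem io_apply (x : Fin (2 * g + 1) → ZMod 2) : io a x = ∑ i, eH a i (x i) := rfl

theorem zcase (x : ZMod 2) : x = 0 ∨ x = 1 := by
  revert x
  decide

theorem io_eq (x : Fin (2 * g + 1) → ZMod 2) :
    io a x = cls (PS a (Finset.univ.filter fun i => x i = 1)) := by
  rw [io_apply, cls_PS, Finset.sum_filter]
  refine Finset.sum_congr rfl fun i _ => ?_
  rcases zcase (x i) with h | h
  · rw [h, map_zero, if_neg (by decide)]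
  · rw [h, eH_one, if_pos rfl]

theorem io_single (i : Fin (2 * g + 1)) : io a (Pi.single i 1) = ee a i := by
  classical
  rw [io_apply, Finset.sum_eq_single i]
  · rw [Pi.single_eq_same, eH_one]
  · intro j _ hj
    rw [Pi.single_eq_of_ne hj, map_zero]
  · intro h
    exact absurd (Finset.mem_univ i) h

theorem io_add_self (x : Fin (2 * g + 1) → ZMod 2) : io a x + io a x = 0 := by
  rw [io_eq]
  exact cls_PS_add_self a _

theorem io_one_add (x : Fin (2 * g + 1) → ZMod 2) : io a (fun i => x i + 1) = io a x := by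
  classical
  rw [io_eq, io_eq, ← cls_PS_compl]
  congr 2
  ext i
  simp only [Finset.mem_compl, Finset.mem_filter, Finset.mem_univ, true_and]
  rcases zcase (x i) with h | h <;> rw [h] <;> decide

/-- A monic divisor of `f` is the polynomial of a set of roots. -/
theorem exists_fS {A : Om[X]} (hA : A.Monic) (h : A ∣ ff a) : ∃ S, A = fS a S := by
  classical
  refine ⟨Finset.univ.filter fun i => A.eval (a i) = 0, ?_⟩
  set S := Finset.univ.filter fun i => A.eval (a i) = 0 with hS
  refine (eq_of_monic_of_associated hA (fS_monic a S) (associated_of_dvd_dvd ?_ ?_))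
  · have h1 : A ∣ fS a S * fS a Sᶜ := by
      rw [fS, fS, Finset.prod_mul_prod_compl]
      exact h
    refine IsCoprime.dvd_of_dvd_mul_right ?_ h1
    rw [fS]
    refine IsCoprime.prod_right fun i hi => ?_
    have h2 : A.eval (a i) ≠ 0 := by
      intro h0
      rw [Finset.mem_compl, hS, Finset.mem_filter] at hi
      exact hi ⟨Finset.mem_univ i, h0⟩
    have h3 : IsCoprime (X - C (a i)) A := by
      rw [(irreducible_X_sub_C (a i)).coprime_iff_not_dvd, dvd_iff_isRoot]
      exact h2
    exact h3.symm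
  · refine Finset.prod_dvd_of_coprime ?_ ?_
    · intro i _ j _ hij
      exact pairwise_coprime_X_sub_C HypA.inj hij
    · intro i hi
      rw [dvd_iff_isRoot]
      rw [hS, Finset.mem_filter] at hi
      exact hi.2

theorem sq_inj {I J : Ideal (Co (ff a))} (h : I ^ 2 = J ^ 2) : I = J :=
  dvd_antisymm ((UniqueFactorizationMonoid.pow_dvd_pow_iff_dvd two_ne_zero).mp h.dvd)
    ((UniqueFactorizationMonoid.pow_dvd_pow_iff_dvd two_ne_zero).mp h.symm.dvd)

theorem mI_fS (S : Finset (Fin (2 * g + 1))) (h : fS a S ∣ ff a) :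
    (mI (fS a S) 0 : Ideal (Co (ff a))) = PS a S := by
  apply sq_inj
  have h1 : fS a S ∣ ff a - 0 ^ 2 := by simpa using h
  have h2 := mI_mul_neg (f := ff a) h1
  rw [neg_zero] at h2
  rw [sq, h2, sq, PS_mul_self]
  rfl

omit [HypA a] in
theorem fS_dvd (S : Finset (Fin (2 * g + 1))) : fS a S ∣ ff a :=
  Finset.prod_dvd_prod_of_subset _ _ _ (Finset.subset_univ S)

/-- The kernel. -/
theorem cls_PS_eq_zero {S : Finset (Fin (2 * g + 1))} (h : cls (PS a S) = 0) :
    S = ∅ ∨ S = Finset.univ := by
  classical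
  rw [cls_eq_zero_iff (PS_ne_bot a S)] at h
  obtain ⟨z, hz⟩ := h
  have h1 : Ideal.span {z * z} = Ideal.span {po (ff a) (fS a S)} := by
    rw [← PS_mul_self, hz, Ideal.span_singleton_mul_span_singleton]
  rw [Ideal.span_singleton_eq_span_singleton] at h1
  obtain ⟨c, hc⟩ := h1
  obtain ⟨κ, hκ, hκc⟩ := (isUnit_iff (ff a) (c : Co (ff a))).mp c.isUnit
  rw [hκc] at hc
  have hre := congrArg QuadraticAlgebra.re hc
  have him := congrArg QuadraticAlgebra.im hc
  simp only [QuadraticAlgebra.re_mul, QuadraticAlgebra.im_mul, po_re, po_im] at hre him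
  have h2 : (2 : Om[X]) ≠ 0 := by
    rw [← C_ofNat, Ne, C_eq_zero]
    exact HypA.two a
  have hκ' : (C κ : Om[X]) ≠ 0 := by rwa [Ne, C_eq_zero]
  have h3 : z.re * z.im = 0 := by
    have h4 : 2 * C κ * (z.re * z.im) = 0 := by linear_combination him
    exact (mul_eq_zero.mp h4).resolve_left (mul_ne_zero h2 hκ')
  rcases mul_eq_zero.mp h3 with h4 | h4
  · -- `f * im ^ 2 = c f_S`
    right
    rw [h4] at hre
    have h5 : (ff a).natDegree ≤ (fS a S).natDegree := by
      apply natDegree_le_of_dvd _ (fS_monic a S).ne_zero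
      exact ⟨z.im * z.im * C κ, by linear_combination -hre⟩
    rw [natDegree_ff, natDegree_fS] at h5
    rw [← Finset.card_eq_iff_eq_univ, Fintype.card_fin]
    have h6 := Finset.card_le_univ S
    rw [Fintype.card_fin] at h6
    omega
  · left
    rw [h4] at hre
    by_contra hne
    obtain ⟨i, hi⟩ := Finset.nonempty_iff_ne_empty.mpr hne
    have h5 : z.re ∣ ff a → IsUnit z.re := fun h =>
      (Hyp.sep (f := ff a)).squarefree _ (by
        refine dvd_trans ?_ (fS_dvd a S)
        exact ⟨C κ, by linear_combination -hre⟩)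
    have h6 : z.re ∣ fS a S := ⟨z.re * C κ, by linear_combination -hre⟩
    have h7 := h5 (h6.trans (fS_dvd a S))
    obtain ⟨r, hr, hr'⟩ := Polynomial.isUnit_iff.mp h7
    have h8 := congrArg (fun p => eval (a i) p) hre
    simp only [← hr', eval_mul, eval_C, mul_zero, zero_mul, add_zero] at h8
    have h9 : (fS a S).eval (a i) = 0 := by
      rw [fS, eval_prod]
      exact Finset.prod_eq_zero hi (by simp)
    rw [h9] at h8
    exact mul_ne_zero (mul_ne_zero hr.ne_zero hr.ne_zero) hκ h8

theorem io_eq_zero {x : Fin (2 * g + 1) → ZMod 2} (h : io a x = 0) :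
    (∀ i, x i = 0) ∨ ∀ i, x i = 1 := by
  rw [io_eq] at h
  rcases cls_PS_eq_zero a h with h | h
  · left
    intro i
    rcases zcase (x i) with h1 | h1
    · exact h1
    · exfalso
      have : i ∈ Finset.univ.filter fun i => x i = 1 := by simp [h1]
      rw [h] at this
      simp at this
  · right
    intro i
    have : i ∈ Finset.univ.filter fun i => x i = 1 := by
      rw [h]
      exact Finset.mem_univ i
    simpa using this

theorem sum_one : ∑ _i : Fin (2 * g + 1), (1 : ZMod 2) = 1 := by
  rw [Finset.sum_const, Finset.card_univ, Fintype.card_fin, nsmul_eq_mul, mul_one]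
  push_cast
  have : (2 : ZMod 2) = 0 := rfl
  rw [this, zero_mul, zero_add]

theorem io_inj {x : Fin (2 * g + 1) → ZMod 2} (hx : ∑ i, x i = 0) (h : io a x = 0) : x = 0 := by
  rcases io_eq_zero a h with h1 | h1
  · exact funext h1
  · exfalso
    have h2 : ∑ i, x i = 1 := by
      rw [Finset.sum_congr rfl fun i _ => h1 i]
      exact sum_one
    rw [hx] at h2
    exact zero_ne_one h2

theorem io_range [IsSepClosed Om] {Q : JJ (ff a)} (hQ : (2 : ℕ) • Q = 0) :
    ∃ x : Fin (2 * g + 1) → ZMod 2, ∑ i, x i = 0 ∧ io a x = Q := by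
  classical
  obtain ⟨A, hA, hAf, rfl⟩ := exists_of_two_nsmul hQ
  obtain ⟨S, rfl⟩ := exists_fS a hA hAf
  rw [mI_fS a S hAf]
  let x : Fin (2 * g + 1) → ZMod 2 := fun i => if i ∈ S then 1 else 0
  have hx : io a x = cls (PS a S) := by
    rw [io_eq]
    congr 2
    ext i
    simp [x]
  rcases zcase (∑ i, x i) with h | h
  · exact ⟨x, h, hx⟩
  · refine ⟨fun i => x i + 1, ?_, by rw [io_one_add, hx]⟩
    rw [Finset.sum_add_distrib, sum_one, h]
    rfl

end split

end Pool.Agent.SmJ
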