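import Mathlib
import Pool.Agent.Lib.SmJ.E.Iota
import Pool.Agent.Lib.SmJ.L.Stmt
import Pool.Agent.Lib.SmD.NN

/-!
SMITH for Jacobians (MP_950c68_ag), block E: the Galois action on the Jacobian, the 2-power torsion
`VJ Ω a`, the map `iota : EV g →+ VJ Ω a`, 2-finiteness of the action.
-/

set_option autoImplicit false

open Polynomial

namespace Pool.Agent.SmJ

open Pool.Agent.SmJ.L (rts Jac map_rts EV)

section general

variable {Om : Type} [Field Om] {f : Om[X]}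

theorem mI_map (σ : Om ≃+* Om) (h : f.map (σ : Om →+* Om) = f) (A B : Om[X]) :
    (mI A B : Ideal (Co f)).map (coMap σ h : Co f →+* Co f) =
      mI (A.map (σ : Om →+* Om)) (B.map (σ : Om →+* Om)) := by
  rw [mI_def, Ideal.map_span, Set.image_pair, mI_def]
  congr 2
  · change coMap σ h (px A) = _
    ext1 <;> simp
  · congr 1
    change coMap σ h (ym B) = _
    ext1 <;> simp [ym]

theorem act_mI [Hyp f] (σ : Om ≃+* Om) (h : f.map (σ : Om →+* Om) = f) (A B : Om[X]) :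
    act σ h (cls (mI A B)) = cls (mI (A.map (σ : Om →+* Om)) (B.map (σ : Om →+* Om))) := by
  rw [act_cls, mI_map]

end general

section torsion

variable {M : Type} [AddCommGroup M]

/-- The 2-power torsion. -/
def twoTors (M : Type) [AddCommGroup M] : AddSubgroup M where
  carrier := {P | ∃ n : ℕ, (2 : ℕ) ^ n • P = 0}
  zero_mem' := ⟨0, by simp⟩
  add_mem' := by
    rintro P Q ⟨n, hn⟩ ⟨m, hm⟩
    refine ⟨n + m, ?_⟩
    rw [smul_add, pow_add, mul_smul, mul_smul, smul_comm, hn, hm, smul_zero, smul_zero, add_zero]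
  neg_mem' := by
    rintro P ⟨n, hn⟩
    exact ⟨n, by rw [smul_neg, hn, neg_zero]⟩

theorem mem_twoTors {P : M} : P ∈ twoTors M ↔ ∃ n : ℕ, (2 : ℕ) ^ n • P = 0 := Iff.rfl

/-- In a 2-divisible group the `2 ^ j`-torsion has `c ^ j` elements, `c = #M[2]`. -/
theorem card_tors (hd : ∀ Q : M, ∃ R, (2 : ℕ) • R = Q) (j : ℕ) :
    Nat.card {Q : M // (2 : ℕ) ^ j • Q = 0} = Nat.card {Q : M // (2 : ℕ) • Q = 0} ^ j := by
  induction j with
  | zero =>
    rw [pow_zero]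
    have : Unique {Q : M // (2 : ℕ) ^ 0 • Q = 0} :=
      { default := ⟨0, smul_zero _⟩
        uniq := by
          rintro ⟨Q, hQ⟩
          rw [pow_zero, one_smul] at hQ
          exact Subtype.ext hQ }
    exact Nat.card_unique
  | succ j ih =>
    let T : ℕ → AddSubgroup M := fun j => (nsmulAddMonoidHom (α := M) (2 ^ j)).ker
    have hT : ∀ j Q, Q ∈ T j ↔ (2 : ℕ) ^ j • Q = 0 := fun j Q => Iff.rfl
    let φ : T (j + 1) →+ T j :=
      { toFun := fun Q => ⟨(2 : ℕ) • Q.1, (hT _ _).mpr (by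
          rw [← mul_smul, ← pow_succ]
          exact (hT _ _).mp Q.2)⟩
        map_zero' := Subtype.ext (smul_zero _)
        map_add' := fun Q R => Subtype.ext (smul_add _ _ _) }
    have hsurj : Function.Surjective φ := by
      intro Q
      obtain ⟨R, hR⟩ := hd Q.1
      refine ⟨⟨R, (hT _ _).mpr ?_⟩, Subtype.ext hR⟩
      rw [pow_succ, mul_smul, hR]
      exact (hT _ _).mp Q.2
    have h1 : Nat.card φ.ker * φ.ker.index = Nat.card (T (j + 1)) := AddSubgroup.card_mul_index _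
    rw [AddSubgroup.index_ker, AddMonoidHom.range_eq_top.mpr hsurj, AddSubgroup.card_top] at h1
    have h2 : Nat.card φ.ker = Nat.card {Q : M // (2 : ℕ) • Q = 0} := by
      refine Nat.card_congr ⟨fun Q => ⟨Q.1.1, congrArg Subtype.val Q.2⟩,
        fun Q => ⟨⟨Q.1, (hT _ _).mpr (by rw [pow_succ, mul_smul, Q.2, smul_zero])⟩,
          Subtype.ext Q.2⟩, fun Q => rfl, fun Q => rfl⟩
    have h3 : Nat.card (T (j + 1)) = Nat.card {Q : M // (2 : ℕ) ^ (j + 1) • Q = 0} := rfl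
    have h4 : Nat.card (T j) = Nat.card {Q : M // (2 : ℕ) ^ j • Q = 0} := rfl
    rw [← h3, ← h1, h2, h4, ih, pow_succ, mul_comm]

end torsion

section galois

variable {K : Type} [Field K] {Ω : Type} [Field Ω] [Algebra K Ω] {g : ℕ}
  (a : Fin (2 * g + 1) → K)

theorem hypA_rts (ha : Function.Injective a) (h2 : (2 : K) ≠ 0) : HypA (rts Ω a) where
  inj i j h := ha ((algebraMap K Ω).injective h)
  two := by
    have : (2 : Ω) = algebraMap K Ω 2 := (map_ofNat _ 2).symm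
    rw [this]
    intro h0
    exact h2 ((map_eq_zero_iff _ (algebraMap K Ω).injective).mp h0)

variable [HypA (rts Ω a)]

/-- The Galois action on the Jacobian. -/
noncomputable def ga (s : Ω ≃ₐ[K] Ω) : JJ (ff (rts Ω a)) →+ JJ (ff (rts Ω a)) :=
  act s.toRingEquiv (map_rts Ω a s)

theorem ga_mI (s : Ω ≃ₐ[K] Ω) (A B : Polynomial Ω) : ga a s (cls (mI A B)) =
    cls (mI (A.map (s.toRingEquiv : Ω →+* Ω)) (B.map (s.toRingEquiv : Ω →+* Ω))) := act_mI _ _ _ _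

theorem ga_one (Q : JJ (ff (rts Ω a))) : ga a 1 Q = Q := by
  obtain ⟨A, B, -, -, rfl⟩ := exists_cls_mI Q
  rw [ga_mI]
  have h : (((1 : Ω ≃ₐ[K] Ω).toRingEquiv : Ω ≃+* Ω) : Ω →+* Ω) = RingHom.id Ω := rfl
  rw [h, Polynomial.map_id, Polynomial.map_id]

theorem ga_mul (s t : Ω ≃ₐ[K] Ω) (Q : JJ (ff (rts Ω a))) :
    ga a (s * t) Q = ga a s (ga a t Q) := by
  obtain ⟨A, B, -, -, rfl⟩ := exists_cls_mI Q
  rw [ga_mI, ga_mI, ga_mI]
  have h : (((s * t).toRingEquiv : Ω ≃+* Ω) : Ω →+* Ω) =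
      (s.toRingEquiv : Ω →+* Ω).comp (t.toRingEquiv : Ω →+* Ω) := rfl
  rw [h, Polynomial.map_map, Polynomial.map_map]

/-- Every class is defined over a finite extension. -/
theorem ga_level [Algebra.IsIntegral K Ω] (Q : JJ (ff (rts Ω a))) :
    ∃ L : IntermediateField K Ω, FiniteDimensional K L ∧
      ∀ s t : Ω ≃ₐ[K] Ω, (∀ x ∈ L, s x = t x) → ga a s Q = ga a t Q := by
  classical
  obtain ⟨A, B, -, -, rfl⟩ := exists_cls_mI Q
  let S : Finset Ω := (Finset.range (A.natDegree + 1)).image A.coeff ∪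
    (Finset.range (B.natDegree + 1)).image B.coeff
  refine ⟨IntermediateField.adjoin K (S : Set Ω),
    IntermediateField.finiteDimensional_adjoin fun x _ => Algebra.IsIntegral.isIntegral x, ?_⟩
  intro s t hst
  have key : ∀ P : Polynomial Ω, (∀ i, i ≤ P.natDegree → P.coeff i ∈ S) →
      P.map (s.toRingEquiv : Ω →+* Ω) = P.map (t.toRingEquiv : Ω →+* Ω) := by
    intro P hP
    ext i
    rw [coeff_map, coeff_map]
    by_cases hi : i ≤ P.natDegree
    · exact hst _ (IntermediateField.subset_adjoin K _ (hP i hi))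
    · rw [coeff_eq_zero_of_natDegree_lt (not_le.mp hi), map_zero, map_zero]
  rw [ga_mI, ga_mI, key A, key B]
  · intro i hi
    exact Finset.mem_union_right _ (Finset.mem_image_of_mem _ (Finset.mem_range.mpr (by omega)))
  · intro i hi
    exact Finset.mem_union_left _ (Finset.mem_image_of_mem _ (Finset.mem_range.mpr (by omega)))

theorem ga_ee (s : Ω ≃ₐ[K] Ω) (i : Fin (2 * g + 1)) :
    ga a s (ee (rts Ω a) i) = ee (rts Ω a) i := act_ee _ (fun i => s.commutes (a i)) i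

theorem ga_io (s : Ω ≃ₐ[K] Ω) (x : Fin (2 * g + 1) → ZMod 2) :
    ga a s (io (rts Ω a) x) = io (rts Ω a) x := by
  rw [io_apply, map_sum]
  refine Finset.sum_congr rfl fun i _ => ?_
  rcases zcase (x i) with h | h
  · rw [h, map_zero, map_zero]
  · rw [h, eH_one, ga_ee]

variable (Ω) in
/-- The 2-power torsion of the Jacobian. -/
noncomputable def VJ : AddSubgroup (JJ (ff (rts Ω a))) := twoTors _

variable {a}

theorem ga_mem_VJ (s : Ω ≃ₐ[K] Ω) {P : JJ (ff (rts Ω a))} (hP : P ∈ VJ Ω a) :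
    ga a s P ∈ VJ Ω a := by
  obtain ⟨n, hn⟩ := hP
  exact ⟨n, by rw [← map_nsmul, hn, map_zero]⟩

/-- The Galois action on the 2-power torsion. -/
noncomputable instance vjAction : DistribMulAction (Ω ≃ₐ[K] Ω) (VJ Ω a) where
  smul s P := ⟨ga a s P.1, ga_mem_VJ s P.2⟩
  one_smul P := Subtype.ext (ga_one a P.1)
  mul_smul s t P := Subtype.ext (ga_mul a s t P.1)
  smul_zero s := Subtype.ext (map_zero (ga a s))
  smul_add s P Q := Subtype.ext (map_add (ga a s) P.1 Q.1)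

theorem coe_smul_VJ (s : Ω ≃ₐ[K] Ω) (P : VJ Ω a) :
    ((s • P : VJ Ω a) : JJ (ff (rts Ω a))) = ga a s P := rfl

omit [HypA (rts Ω a)] in
theorem tors_VJ (Q : VJ Ω a) : ∃ j : ℕ, (2 : ℕ) ^ j • Q = 0 := by
  obtain ⟨n, hn⟩ := Q.2
  exact ⟨n, Subtype.ext hn⟩

omit [HypA (rts Ω a)] in
theorem mem_VJ_of_two {P : JJ (ff (rts Ω a))} (h : (2 : ℕ) • P = 0) : P ∈ VJ Ω a :=
  ⟨1, by rwa [pow_one]⟩

theorem two_io (x : Fin (2 * g + 1) → ZMod 2) : (2 : ℕ) • io (rts Ω a) x = 0 := by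
  rw [two_nsmul]
  exact io_add_self _ x

variable (Ω a) in
/-- The inclusion of the 2-torsion. -/
noncomputable def iota : EV g →+ VJ Ω a where
  toFun x := ⟨io (rts Ω a) x, mem_VJ_of_two (two_io _)⟩
  map_zero' := Subtype.ext (map_zero _)
  map_add' _ _ := Subtype.ext (map_add _ _ _)

theorem coe_iota (x : EV g) : ((iota Ω a x : VJ Ω a) : JJ (ff (rts Ω a))) =
    io (rts Ω a) (x : Fin (2 * g + 1) → ZMod 2) := rfl

theorem iota_injective : Function.Injective (iota Ω a) := by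
  rw [injective_iff_map_eq_zero]
  intro x hx
  exact Subtype.ext (io_inj (rts Ω a) x.2 (congrArg Subtype.val hx))

theorem iota_range [IsSepClosed Ω] (Q : VJ Ω a) (hQ : (2 : ℕ) • Q = 0) :
    ∃ x, iota Ω a x = Q := by
  obtain ⟨x, hx, h⟩ := io_range (rts Ω a) (congrArg Subtype.val hQ)
  exact ⟨⟨x, hx⟩, Subtype.ext h⟩

theorem iota_fix (s : Ω ≃ₐ[K] Ω) (x : EV g) : s • iota Ω a x = iota Ω a x :=
  Subtype.ext (ga_io a s x)

theorem two_iota (x : EV g) : (2 : ℕ) • iota Ω a x = 0 := Subtype.ext (two_io _)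

theorem card_VJ_two [IsSepClosed Ω] :
    Nat.card {Q : JJ (ff (rts Ω a)) // (2 : ℕ) • Q = 0} = Nat.card (EV g) := by
  symm
  refine Nat.card_congr (Equiv.ofBijective (fun x => ⟨io (rts Ω a) x, two_io _⟩) ⟨?_, ?_⟩)
  · intro x y h
    apply iota_injective (Ω := Ω) (a := a)
    have h1 : io (rts Ω a) (x : Fin (2 * g + 1) → ZMod 2) = io (rts Ω a) y :=
      congrArg Subtype.val h
    exact Subtype.ext h1
  · rintro ⟨Q, hQ⟩
    obtain ⟨x, hx, h⟩ := io_range (rts Ω a) hQ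
    exact ⟨⟨x, hx⟩, Subtype.ext h⟩

variable (Ω a) in
/-- The subgroup acting trivially on the `2 ^ j`-torsion. -/
def fixTors (j : ℕ) : Subgroup (Ω ≃ₐ[K] Ω) where
  carrier := {σ | ∀ Q : VJ Ω a, (2 : ℕ) ^ j • Q = 0 → σ • Q = Q}
  one_mem' := fun Q _ => one_smul _ Q
  mul_mem' := by
    intro σ τ hσ hτ Q hQ
    rw [mul_smul, hτ Q hQ, hσ Q hQ]
  inv_mem' := by
    intro σ hσ Q hQ
    rw [inv_smul_eq_iff, hσ Q hQ]

theorem exists_pow_fix [IsSepClosed Ω] (σ : Ω ≃ₐ[K] Ω) (j : ℕ) :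
    ∃ m : ℕ, σ ^ (2 ^ m) ∈ fixTors Ω a j := by
  induction j with
  | zero =>
    refine ⟨0, fun Q hQ => ?_⟩
    rw [pow_zero, one_smul] at hQ
    rw [hQ, smul_zero]
  | succ j ih =>
    obtain ⟨m, hm⟩ := ih
    refine ⟨m + 1, fun Q hQ => ?_⟩
    set τ := σ ^ (2 ^ m) with hτ
    have e : σ ^ (2 ^ (m + 1)) = τ * τ := by rw [hτ, ← pow_add]; congr 1; ring
    have h1 : τ • ((2 : ℕ) • Q) = (2 : ℕ) • Q := by
      apply hm
      rw [← mul_smul, ← pow_succ, hQ]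
    have h3 : (2 : ℕ) • (τ • Q - Q) = 0 := by
      rw [smul_sub, smul_comm, h1, sub_self]
    obtain ⟨w, hw⟩ := iota_range _ h3
    have h4 : τ • (τ • Q - Q) = τ • Q - Q := by rw [← hw, iota_fix]
    rw [e, mul_smul]
    have h5 : τ • Q = Q + (τ • Q - Q) := by abel
    have h6 : (τ • Q - Q) + (τ • Q - Q) = 0 := by rw [← two_smul ℕ, h3]
    calc τ • τ • Q = τ • (Q + (τ • Q - Q)) := by rw [← h5]
      _ = τ • Q + (τ • Q - Q) := by rw [smul_add, h4]
      _ = Q + ((τ • Q - Q) + (τ • Q - Q)) := by abel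
      _ = Q := by rw [h6, add_zero]

theorem isOpen_fix [Algebra.IsIntegral K Ω] (Q : VJ Ω a) :
    IsOpen (MulAction.stabilizer (Ω ≃ₐ[K] Ω) Q : Set (Ω ≃ₐ[K] Ω)) := by
  obtain ⟨L, hL, hst⟩ := ga_level a Q.1
  refine Subgroup.isOpen_mono (H₁ := L.fixingSubgroup) (fun s hs => ?_)
    (IntermediateField.fixingSubgroup_isOpen L)
  rw [MulAction.mem_stabilizer_iff]
  refine Subtype.ext ?_
  rw [coe_smul_VJ, hst s 1 fun x hx => ?_, ga_one]
  exact (IntermediateField.mem_fixingSubgroup_iff _ _).mp hs x hx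

theorem finite_tors [IsSepClosed Ω] (hd : ∀ Q : JJ (ff (rts Ω a)), ∃ R, (2 : ℕ) • R = Q)
    (j : ℕ) : {Q : VJ Ω a | (2 : ℕ) ^ j • Q = 0}.Finite := by
  have h1 : Finite {Q : JJ (ff (rts Ω a)) // (2 : ℕ) ^ j • Q = 0} := by
    refine Nat.finite_of_card_ne_zero ?_
    rw [card_tors hd, card_VJ_two]
    exact pow_ne_zero j Nat.card_pos.ne'
  have h4 : Function.Injective (fun Q : {Q : VJ Ω a | (2 : ℕ) ^ j • Q = 0} =>
      (⟨Q.1.1, congrArg Subtype.val Q.2⟩ : {Q : JJ (ff (rts Ω a)) // (2 : ℕ) ^ j • Q = 0})) := by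
    intro Q R h
    have := congrArg Subtype.val h
    exact Subtype.ext (Subtype.ext this)
  exact @Set.toFinite _ _ (Finite.of_injective _ h4)

theorem act_fin_of [IsGalois K Ω] [IsSepClosed Ω]
    (hd : ∀ Q : JJ (ff (rts Ω a)), ∃ R, (2 : ℕ) • R = Q) (j : ℕ) :
    ∃ N ∈ Pool.Agent.SmD.NN K Ω, ∀ s ∈ N, ∀ Q : VJ Ω a, (2 : ℕ) ^ j • Q = 0 → s • Q = Q := by
  refine ⟨fixTors Ω a j, Pool.Agent.SmD.mem_NN_of_pow ?_ ?_
    (fun σ => exists_pow_fix σ j), fun s hs Q hQ => hs Q hQ⟩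
  · refine ⟨fun σ hσ τ Q hQ => ?_⟩
    rw [mul_smul, mul_smul, hσ, smul_inv_smul]
    rw [smul_comm, hQ, smul_zero]
  · have hfin := finite_tors hd j
    have h3 : (fixTors Ω a j : Set (Ω ≃ₐ[K] Ω)) =
        ⋂ Q ∈ {Q : VJ Ω a | (2 : ℕ) ^ j • Q = 0},
          (MulAction.stabilizer (Ω ≃ₐ[K] Ω) Q : Set (Ω ≃ₐ[K] Ω)) := by
      ext σ
      simp only [Set.mem_iInter]
      exact Iff.rfl
    rw [h3]
    exact hfin.isOpen_biInter fun Q _ => isOpen_fix Q

omit [HypA (rts Ω a)] in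
theorem half_VJ_of (hd : ∀ Q : JJ (ff (rts Ω a)), ∃ R, (2 : ℕ) • R = Q) (Q : VJ Ω a) :
    ∃ R : VJ Ω a, (2 : ℕ) • R = Q := by
  obtain ⟨R, hR⟩ := hd Q.1
  obtain ⟨n, hn⟩ := Q.2
  exact ⟨⟨R, n + 1, by rw [pow_succ, mul_smul, hR, hn]⟩, Subtype.ext hR⟩

end galois

end Pool.Agent.SmJ
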