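import Pool.Agent.Lib.SmJ.E.MumfB

/-!
SMITH for Jacobians (MP_950c68_ag), block E: every class is the class of a reduced Mumford ideal;
classes fixed (up to sign) by an automorphism.
-/

set_option autoImplicit false

open Polynomial

namespace Pool.Agent.SmJ

variable {Om : Type} [Field Om] {f : Om[X]} [Hyp f]

/-- **Hermite form**: every nonzero ideal is `d * (A, y - B)`. -/
theorem exists_mid {I : Ideal (Co f)} (hI : I ≠ ⊥) : ∃ d A B : Om[X], d ≠ 0 ∧ A ≠ 0 ∧
    A ∣ f - B ^ 2 ∧ I = Ideal.span {(⟨d, 0⟩ : Co f)} * mid f A B := by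
  -- the ideal of second components
  let D : Ideal Om[X] :=
    { carrier := {q | ∃ z ∈ I, z.im = q}
      add_mem' := by
        rintro a b ⟨z, hz, rfl⟩ ⟨w, hw, rfl⟩
        exact ⟨z + w, add_mem hz hw, rfl⟩
      zero_mem' := ⟨0, zero_mem _, rfl⟩
      smul_mem' := by
        rintro c a ⟨z, hz, rfl⟩
        refine ⟨⟨c, 0⟩ * z, Ideal.mul_mem_left _ _ hz, ?_⟩
        simp }
  have hDmem : ∀ z ∈ I, z.im ∈ D := fun z hz => ⟨z, hz, rfl⟩
  obtain ⟨d, hd⟩ := (IsPrincipalIdealRing.principal D).principal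
  have hdD : d ∈ D := by
    rw [hd]
    exact Ideal.mem_span_singleton_self d
  obtain ⟨z0, hz0, hz0d⟩ := hdD
  have hdvd : ∀ z ∈ I, d ∣ z.im := by
    intro z hz
    have h := hDmem z hz
    rw [hd] at h
    exact Ideal.mem_span_singleton.mp h
  -- the ideal of elements without second component
  obtain ⟨n, hn⟩ := (IsPrincipalIdealRing.principal
    (I.comap (algebraMap Om[X] (Co f)))).principal
  have hnI : (⟨n, 0⟩ : Co f) ∈ I := by
    have h : n ∈ I.comap (algebraMap Om[X] (Co f)) := by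
      rw [hn]
      exact Ideal.mem_span_singleton_self n
    exact h
  have hndvd : ∀ p : Om[X], (⟨p, 0⟩ : Co f) ∈ I → n ∣ p := by
    intro p hp
    have h : p ∈ I.comap (algebraMap Om[X] (Co f)) := hp
    rw [hn] at h
    exact Ideal.mem_span_singleton.mp h
  have hn0 : n ≠ 0 := by
    rintro rfl
    obtain ⟨z, hz, hz0⟩ := Submodule.exists_mem_ne_zero_of_ne_bot hI
    have h1 : (⟨z.norm, 0⟩ : Co f) ∈ I := by
      have h := QuadraticAlgebra.algebraMap_norm_eq_mul_star z
      have e : (⟨z.norm, 0⟩ : Co f) = star z * z := by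
        rw [mul_comm, ← h]
        rfl
      rw [e]
      exact Ideal.mul_mem_left _ _ hz
    exact norm_ne_zero hz0 (zero_dvd_iff.mp (hndvd _ h1))
  obtain ⟨A, hA⟩ : d ∣ n := by
    have h := hdvd _ (Ideal.mul_mem_left I (⟨0, 1⟩ : Co f) hnI)
    have e : ((⟨0, 1⟩ : Co f) * ⟨n, 0⟩).im = n := by simp
    rwa [e] at h
  obtain ⟨B', hB'⟩ : d ∣ z0.re := by
    have h := hdvd _ (Ideal.mul_mem_left I (⟨0, 1⟩ : Co f) hz0)
    have e : ((⟨0, 1⟩ : Co f) * z0).im = z0.re := by simp
    rwa [e] at h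
  have hd0 : d ≠ 0 := by
    rintro rfl
    exact hn0 (by rw [hA, zero_mul])
  have hA0 : A ≠ 0 := by
    rintro rfl
    exact hn0 (by rw [hA, mul_zero])
  have hz0e : z0 = ⟨d, 0⟩ * ⟨- -B', 1⟩ := by
    ext1
    · simp [hB']
    · simp [hz0d]
  refine ⟨d, A, -B', hd0, hA0, ?_, ?_⟩
  · have h1 : (⟨d * (f - (-B') ^ 2), 0⟩ : Co f) ∈ I := by
      have e : (⟨d * (f - (-B') ^ 2), 0⟩ : Co f) = ⟨-B', 1⟩ * z0 := by
        rw [hz0e]
        ext1
        · simp only [QuadraticAlgebra.re_mul, QuadraticAlgebra.im_mul]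
          ring
        · simp only [QuadraticAlgebra.re_mul, QuadraticAlgebra.im_mul]
          ring
      rw [e]
      exact Ideal.mul_mem_left _ _ hz0
    have h2 := hndvd _ h1
    rw [hA] at h2
    exact (mul_dvd_mul_iff_left hd0).mp h2
  · apply le_antisymm
    · intro z hz
      obtain ⟨q, hq⟩ := hdvd z hz
      have h1 : z - ⟨q, 0⟩ * z0 ∈ I := sub_mem hz (Ideal.mul_mem_left _ _ hz0)
      have h2 : z - ⟨q, 0⟩ * z0 = ⟨z.re - q * z0.re, 0⟩ := by
        ext1
        · simp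
        · simp only [QuadraticAlgebra.im_sub, QuadraticAlgebra.im_mul]
          rw [hz0d, hq]
          ring
      rw [h2] at h1
      obtain ⟨m, hm⟩ := hndvd _ h1
      rw [Ideal.mem_span_singleton_mul]
      refine ⟨⟨q, 0⟩ * ⟨- -B', 1⟩ + ⟨m, 0⟩ * ⟨A, 0⟩, add_mem (Ideal.mul_mem_left _ _ snd_mem_mid)
        (Ideal.mul_mem_left _ _ fst_mem_mid), ?_⟩
      ext1
      · simp only [QuadraticAlgebra.re_mul, QuadraticAlgebra.re_add, QuadraticAlgebra.im_mul,
          QuadraticAlgebra.im_add]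
        linear_combination -hm - q * hB' - m * hA
      · simp only [QuadraticAlgebra.re_mul, QuadraticAlgebra.re_add, QuadraticAlgebra.im_mul,
          QuadraticAlgebra.im_add]
        linear_combination -hq
    · rw [Ideal.mul_le]
      intro r hr s hs
      rw [Ideal.mem_span_singleton'] at hr
      obtain ⟨t, rfl⟩ := hr
      rw [mid, Ideal.mem_span_pair] at hs
      obtain ⟨u, v, rfl⟩ := hs
      have e : t * ⟨d, 0⟩ * (u * ⟨A, 0⟩ + v * ⟨- -B', 1⟩) = (t * u) * ⟨n, 0⟩ + (t * v) * z0 := by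
        have e1 : (⟨n, 0⟩ : Co f) = ⟨d, 0⟩ * ⟨A, 0⟩ := by
          rw [hA]
          ext1 <;> simp
        rw [e1, hz0e]
        ring
      rw [e]
      exact add_mem (Ideal.mul_mem_left _ _ hnI) (Ideal.mul_mem_left _ _ hz0)

theorem mcl_C_mul {c : Om} (hc : c ≠ 0) (A B : Om[X]) : mcl f (C c * A) B = mcl f A B := by
  rw [mcl, mid_C_mul hc, mcl]

theorem mcl_neg {A B : Om[X]} (hA : A ≠ 0) (h : A ∣ f - B ^ 2) : mcl f A (-B) = - mcl f A B :=
  (mumf f).conj hA h

/-- normalisation of a Mumford pair -/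
theorem exists_normal {A B : Om[X]} (hA : A ≠ 0) (h : A ∣ f - B ^ 2) :
    ∃ U V : Om[X], U.Monic ∧ U.natDegree = A.natDegree ∧ V.degree < U.degree ∧ U ∣ f - V ^ 2 ∧
      mcl f U V = mcl f A B := by
  have hl : A.leadingCoeff ≠ 0 := leadingCoeff_ne_zero.mpr hA
  have hm : (C A.leadingCoeff⁻¹ * A).Monic := by
    rw [mul_comm]
    exact monic_mul_leadingCoeff_inv hA
  have hd : C A.leadingCoeff⁻¹ * A ∣ f - B ^ 2 := by
    refine Dvd.dvd.trans ?_ h
    refine ⟨C A.leadingCoeff, ?_⟩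
    have e : C A.leadingCoeff⁻¹ * C A.leadingCoeff = (1 : Om[X]) := by
      rw [← C_mul, inv_mul_cancel₀ hl, C_1]
    linear_combination (-A) * e
  set U := C A.leadingCoeff⁻¹ * A with hU
  have e : B = B %ₘ U + U * (B /ₘ U) := (modByMonic_add_div B U).symm
  have hd' : U ∣ f - (B %ₘ U) ^ 2 := by
    have e1 : B %ₘ U = B + U * (-(B /ₘ U)) := by
      linear_combination -e
    rw [e1]
    exact dvd_shift hd _
  refine ⟨U, B %ₘ U, hm, ?_, degree_modByMonic_lt B hm, hd', ?_⟩
  · rw [hU, natDegree_C_mul (inv_ne_zero hl)]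
  · have e2 : mcl f U B = mcl f U (B %ₘ U) := by
      conv_lhs => rw [e]
      exact (mumf f).shift _ hm.ne_zero hd'
    rw [← e2, hU, mcl_C_mul (inv_ne_zero hl)]

/-- every class is the class of a Mumford ideal -/
theorem exists_mcl (Q : JJ f) : ∃ A B : Om[X], A ≠ 0 ∧ A ∣ f - B ^ 2 ∧ mcl f A B = Q := by
  obtain ⟨I, hI, rfl⟩ := exists_cls Q
  obtain ⟨d, A, B, hd, hA, h, hIe⟩ := exists_mid hI
  refine ⟨A, B, hA, h, ?_⟩
  have hd' : Ideal.span {(⟨d, 0⟩ : Co f)} ≠ ⊥ := by
    rw [Ne, Ideal.span_singleton_eq_bot]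
    intro h0
    exact hd (congrArg QuadraticAlgebra.re h0)
  rw [hIe, cls_mul hd' (mid_ne_bot hA), cls_span, zero_add, mcl]

/-- **every class has a reduced Mumford pair** -/
theorem exists_red {g : ℕ} (hg : f.natDegree = 2 * g + 1) (Q : JJ f) :
    ∃ U V : Om[X], U.Monic ∧ U.natDegree ≤ g ∧ V.degree < U.degree ∧ U ∣ f - V ^ 2 ∧
      mcl f U V = Q := by
  obtain ⟨A, B, hA, h, rfl⟩ := exists_mcl Q
  obtain ⟨n, hn⟩ : ∃ n, A.natDegree = n := ⟨_, rfl⟩
  induction n using Nat.strong_induction_on generalizing A B with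
  | _ n ih =>
    obtain ⟨U, V, hU, hUd, hV, hd, hc⟩ := exists_normal hA h
    rw [← hc]
    by_cases hle : U.natDegree ≤ g
    · exact ⟨U, V, hU, hle, hV, hd, rfl⟩
    · obtain ⟨D, hD⟩ := hd
      have hfD : f = V ^ 2 + U * D := by linear_combination hD
      have hV2 : V.natDegree < U.natDegree := by
        by_cases hV0 : V = 0
        · rw [hV0, natDegree_zero]
          omega
        · exact (natDegree_lt_natDegree_iff hV0).mpr hV
      have hD0 : D ≠ 0 := by
        rintro rfl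
        rw [mul_zero, add_zero] at hfD
        have e := congrArg natDegree hfD
        rw [natDegree_pow, hg] at e
        omega
      have hDd : D.natDegree < U.natDegree := by
        have e := congrArg natDegree hD
        rw [natDegree_mul hU.ne_zero hD0] at e
        have e1 : (f - V ^ 2).natDegree ≤ max f.natDegree (V ^ 2).natDegree :=
          natDegree_sub_le _ _
        rw [natDegree_pow, hg] at e1
        omega
      have e2 : mcl f U V = mcl f D (-V) := by
        have e3 := (mumf f).flip hU.ne_zero hD0 hfD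
        rw [mumf_cl, mumf_cl] at e3
        rw [mcl_neg hD0 ⟨U, by linear_combination hfD⟩]
        exact eq_neg_of_add_eq_zero_left e3
      rw [e2]
      exact ih D.natDegree (by omega) _ _ hD0 ⟨U, by linear_combination hfD⟩ rfl

/-- the action on Mumford ideals -/
theorem act_mcl (σ : Om ≃+* Om) (h : f.map (σ : Om →+* Om) = f) (A B : Om[X]) :
    act σ h (mcl f A B) = mcl f (A.map (σ : Om →+* Om)) (B.map (σ : Om →+* Om)) := by
  rw [mcl, act_cls, mcl, mid, Ideal.map_span, Set.image_pair, mid]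
  congr 3
  · ext1
    · rfl
    · exact Polynomial.map_zero _
  · congr 1
    ext1
    · exact Polynomial.map_neg _
    · exact Polynomial.map_one _

omit [Hyp f] in
theorem map_dvd_frm (σ : Om ≃+* Om) (h : f.map (σ : Om →+* Om) = f) {U V : Om[X]}
    (d : U ∣ f - V ^ 2) : U.map (σ : Om →+* Om) ∣ f - (V.map (σ : Om →+* Om)) ^ 2 := by
  have e : f - (V.map (σ : Om →+* Om)) ^ 2 = (f - V ^ 2).map (σ : Om →+* Om) := by
    rw [Polynomial.map_sub, Polynomial.map_pow, h]
  rw [e]
  exact Polynomial.map_dvd _ d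

/-- a class fixed by an automorphism has a fixed reduced pair -/
theorem fixed_pair {g : ℕ} (hg : f.natDegree = 2 * g + 1) (σ : Om ≃+* Om)
    (h : f.map (σ : Om →+* Om) = f) {U V : Om[X]} (hU : U.Monic) (hUg : U.natDegree ≤ g)
    (hV : V.degree < U.degree) (d : U ∣ f - V ^ 2) (hfix : act σ h (mcl f U V) = mcl f U V) :
    U.map (σ : Om →+* Om) = U ∧ V.map (σ : Om →+* Om) = V := by
  rw [act_mcl] at hfix
  refine mcl_inj hg (hU.map _) hU ?_ hUg ?_ hV (map_dvd_frm σ h d) d hfix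
  · rwa [hU.natDegree_map]
  · rw [degree_map, degree_map]
    exact hV

/-- a class inverted by an automorphism -/
theorem inverted_pair {g : ℕ} (hg : f.natDegree = 2 * g + 1) (σ : Om ≃+* Om)
    (h : f.map (σ : Om →+* Om) = f) {U V : Om[X]} (hU : U.Monic) (hUg : U.natDegree ≤ g)
    (hV : V.degree < U.degree) (d : U ∣ f - V ^ 2) (hfix : act σ h (mcl f U V) = -mcl f U V) :
    U.map (σ : Om →+* Om) = U ∧ V.map (σ : Om →+* Om) = -V := by
  rw [act_mcl, ← mcl_neg hU.ne_zero d] at hfix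
  refine mcl_inj hg (hU.map _) hU ?_ hUg ?_ ?_ (map_dvd_frm σ h d) ?_ hfix
  · rwa [hU.natDegree_map]
  · rw [degree_map, degree_map]
    exact hV
  · rwa [degree_neg]
  · rwa [neg_sq]

end Pool.Agent.SmJ
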