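import Pool.Agent.Lib.SmJ.E.E6C
import Pool.Agent.Lib.SmJ.L.GalAct

/-!
SMITH for Jacobians (MP_950c68_ag), E6: the property `E6Prop k (gal Ω a)` of the Jacobian of
`y ^ 2 = ∏ (x - a i)` over `k(t)`, from the divisibility of `J(Ω)` by `2` and the finiteness of the
2-power torsion over the fixed fields of the decomposition groups.
-/

set_option autoImplicit false

open Polynomial Module

namespace Pool.Agent.SmJ.E6

open Pool.Agent.Lib.SmD Pool.Agent.SmJ.L

variable {k : Type} [Field k] [Finite k] {Ω : Type} [Field Ω] [Algebra (RatFunc k) Ω]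
  [IsSepClosure (RatFunc k) Ω]

/-- **E6** over `k(t)`. -/
theorem e6_jac (h2 : (2 : k) ≠ 0) {g : ℕ} (a : Fin (2 * g + 1) → RatFunc k)
    [HypA (rts Ω a)] (half : ∀ Q : JJ (ff (rts Ω a)), ∃ R, (2 : ℕ) • R = Q)
    (fin : ∀ (w : ValuationSubring Ω) (π : RatFunc k), LocHyp (RatFunc k) w π →
      {Q : JJ (ff (rts Ω a)) | (∀ s ∈ dec (RatFunc k) w, ga a s Q = Q) ∧
        ∃ i : ℕ, (2 : ℕ) ^ i • Q = 0}.Finite) : E6Prop k (gal Ω a) := by
  have hsc : IsSepClosed Ω := IsSepClosure.sep_closed (RatFunc k)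
  have hinf : Infinite (RatFunc k) :=
    Infinite.of_injective (algebraMap k[X] (RatFunc k)) (IsFractionRing.injective k[X] (RatFunc k))
  intro w hw hk j Q hQ
  obtain ⟨π, h⟩ := exists_locHyp_of_ne_top h2 w hw hk
  obtain ⟨Q', hQ', h'⟩ := e6_loc h half (fin w π h) j Q (fun s hs => by
    have h1 := hQ s hs
    rw [gal_eq_act] at h1
    exact h1)
  refine ⟨Q', hQ', fun s hs => ?_⟩
  rw [gal_eq_act, gal_eq_act]
  exact h' s hs

end Pool.Agent.SmJ.E6
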