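import Mathlib
import Pool.Agent.Lib.SmJ.E.Act

/-!
SMITH for Jacobians (MP_950c68_ag), block E5: the explicit half of a point and the difference of two
halves.

`T ^ 2 = - π`: the ring `Om[x][T] / (T ^ 2 + π)` is `Co (- π)`. For `π = x - x0`,
`r j ^ 2 = x0 - a j` the element `G = ∏ (T + r j) = g0 + g1 T` has norm
`g0 ^ 2 + π * g1 ^ 2 = ∏ (x - a j) = f`.
-/

set_option autoImplicit false

open Polynomial

namespace Pool.Agent.SmJ

variable {Om : Type} [Field Om]

/-- `∏ (T + r j)`. -/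
noncomputable def GG (π : Om[X]) {ι : Type} (S : Finset ι) (r : ι → Om) : Co (-π) :=
  ∏ j ∈ S, (⟨C (r j), 1⟩ : Co (-π))

theorem norm_GG (π : Om[X]) {ι : Type} (S : Finset ι) (r : ι → Om) :
    (GG π S r).re ^ 2 + π * (GG π S r).im ^ 2 = ∏ j ∈ S, (C (r j ^ 2) + π) := by
  have h : (GG π S r).norm = ∏ j ∈ S, (C (r j ^ 2) + π) := by
    rw [GG, map_prod]
    refine Finset.prod_congr rfl fun j _ => ?_
    rw [norm_eq, C_pow]
    ring
  rw [← h, norm_eq]
  ring

theorem re_GG (π : Om[X]) {ι : Type} (S : Finset ι) (r : ι → Om) :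
    π ∣ (GG π S r).re - C (∏ j ∈ S, r j) := by
  classical
  induction S using Finset.induction_on with
  | empty =>
    rw [GG, Finset.prod_empty, Finset.prod_empty, C_1, QuadraticAlgebra.re_one, sub_self]
    exact dvd_zero π
  | insert i S hi ih =>
    obtain ⟨c, hc⟩ := ih
    have e : GG π (insert i S) r = ⟨C (r i), 1⟩ * GG π S r := by
      rw [GG, Finset.prod_insert hi]
      rfl
    rw [e, QuadraticAlgebra.re_mul, Finset.prod_insert hi, C_mul]
    exact ⟨C (r i) * c - (GG π S r).im, by linear_combination (C (r i)) * hc⟩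

theorem GG_map (π : Om[X]) {ι : Type} (S : Finset ι) (r : ι → Om) (σ : Om ≃+* Om)
    (h : (-π).map (σ : Om →+* Om) = -π) :
    coMap σ h (GG π S r) = GG π S (fun j => σ (r j)) := by
  rw [GG, GG, map_prod]
  refine Finset.prod_congr rfl fun j _ => ?_
  ext1
  · rw [coMap_re, map_C]
    rfl
  · rw [coMap_im, Polynomial.map_one]

theorem GG_neg (π : Om[X]) {ι : Type} (S : Finset ι) (r : ι → Om) (hS : Even S.card) :
    GG π S (fun j => -r j) = star (GG π S r) := by
  rw [GG, GG, star_prod]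
  have h : ∀ j ∈ S, (⟨C (-r j), 1⟩ : Co (-π)) = -star (⟨C (r j), 1⟩ : Co (-π)) := by
    intro j _
    ext1
    · simp
    · simp
  rw [Finset.prod_congr rfl h, Finset.prod_neg, hS.neg_one_pow, one_mul]

section split

variable {g : ℕ} (a : Fin (2 * g + 1) → Om) (x0 : Om) (r : Fin (2 * g + 1) → Om)

/-- The even part. -/
noncomputable def hg0 : Om[X] := (GG (X - C x0) Finset.univ r).re

/-- The odd part. -/
noncomputable def hg1 : Om[X] := (GG (X - C x0) Finset.univ r).im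

variable {a x0 r}

theorem ff_eq (hr : ∀ j, r j ^ 2 = x0 - a j) :
    ff a = hg0 x0 r ^ 2 + (X - C x0) * hg1 x0 r ^ 2 := by
  rw [hg0, hg1, norm_GG, ff]
  refine Finset.prod_congr rfl fun j _ => ?_
  rw [hr j, C_sub]
  ring

variable (a x0 r)

/-- A half of the point `(x0, ∏ r j)`. -/
noncomputable def hD [HypA a] : JJ (ff a) := cls (mI (hg1 x0 r) (-hg0 x0 r))

variable {a x0 r} [HypA a]

theorem mI_g0 (hr : ∀ j, r j ^ 2 = x0 - a j) :
    (mI (X - C x0) (hg0 x0 r) : Ideal (Co (ff a))) * mI (hg1 x0 r) (hg0 x0 r) ^ 2 =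
      Ideal.span {ym (hg0 x0 r)} := by
  have h := ff_eq hr
  have h1 : (X - C x0) * hg1 x0 r ^ 2 = ff a - hg0 x0 r ^ 2 := by rw [h]; ring
  have h2 : hg1 x0 r ^ 2 ∣ ff a - hg0 x0 r ^ 2 := by rw [← h1]; exact dvd_mul_left _ _
  rw [mI_pow 2 h2, mI_mul (by rw [h1]), mI_full h1]

theorem cls_mI_g0 (hr : ∀ j, r j ^ 2 = x0 - a j) :
    cls (mI (hg1 x0 r) (hg0 x0 r) : Ideal (Co (ff a))) = -hD a x0 r := by
  have h : hg1 x0 r ∣ ff a - hg0 x0 r ^ 2 := by
    rw [ff_eq hr]
    exact ⟨(X - C x0) * hg1 x0 r, by ring⟩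
  rw [hD, cls_mI_neg h, neg_neg]

theorem two_hD (hr : ∀ j, r j ^ 2 = x0 - a j) :
    (2 : ℕ) • hD a x0 r = cls (mI (X - C x0) (C (∏ j, r j)) : Ideal (Co (ff a))) := by
  have h := congrArg cls (mI_g0 hr)
  have hc : (mI (X - C x0) (hg0 x0 r) : Ideal (Co (ff a))) = mI (X - C x0) (C (∏ j, r j)) :=
    mI_congr (re_GG (X - C x0) Finset.univ r)
  rw [cls_span, cls_mul (mI_ne_bot _) (pow_ne_zero 2 (mI_ne_bot _)), cls_pow (mI_ne_bot _),
    cls_mI_g0 hr, hc, smul_neg, ← sub_eq_add_neg, sub_eq_zero] at h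
  exact h.symm

theorem act_hD (σ : Om ≃+* Om) (h : ∀ i, σ (a i) = a i) (hx : σ x0 = x0) :
    act σ (map_ff σ h) (hD a x0 r) = hD a x0 (fun j => σ (r j)) := by
  have hm : (-(X - C x0) : Om[X]).map (σ : Om →+* Om) = -(X - C x0) := by
    rw [Polynomial.map_neg, Polynomial.map_sub, map_X, map_C]
    congr 3
  have h1 := GG_map (X - C x0) Finset.univ r σ hm
  have h2 : (hg0 x0 r).map (σ : Om →+* Om) = hg0 x0 fun j => σ (r j) :=
    congrArg QuadraticAlgebra.re h1
  have h3 : (hg1 x0 r).map (σ : Om →+* Om) = hg1 x0 fun j => σ (r j) :=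
    congrArg QuadraticAlgebra.im h1
  rw [hD, act_mI, Polynomial.map_neg, h2, h3, hD]

theorem cls_fS (S : Finset (Fin (2 * g + 1))) :
    cls (mI (fS a S) 0 : Ideal (Co (ff a))) = ∑ j ∈ S, ee a j := by
  rw [mI_fS a S (fS_dvd a S), cls_PS]

/-- **The difference of two halves.** -/
theorem hD_flip (hr : ∀ j, r j ^ 2 = x0 - a j) {r' : Fin (2 * g + 1) → Om}
    {S : Finset (Fin (2 * g + 1))} (hS : Even S.card) (h1 : ∀ j ∈ S, r' j = -r j)
    (h2 : ∀ j, j ∉ S → r' j = r j) : hD a x0 r' = hD a x0 r + ∑ j ∈ S, ee a j := by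
  classical
  have hr' : ∀ j, r' j ^ 2 = x0 - a j := by
    intro j
    by_cases hj : j ∈ S
    · rw [h1 j hj, neg_sq, hr]
    · rw [h2 j hj, hr]
  set p : Om[X] := X - C x0 with hp
  set B := GG p S r with hB
  set A := GG p Sᶜ r with hA
  have hG : GG p Finset.univ r = A * B := by
    rw [hA, hB, GG, GG, GG]
    exact (Finset.prod_compl_mul_prod _ _).symm
  have hG' : GG p Finset.univ r' = A * star B := by
    have e1 : GG p Sᶜ r' = A := by
      rw [hA, GG, GG]
      refine Finset.prod_congr rfl fun j hj => ?_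
      rw [h2 j (Finset.mem_compl.mp hj)]
    have e2 : GG p S r' = star B := by
      rw [hB, ← GG_neg p S r hS, GG, GG]
      refine Finset.prod_congr rfl fun j hj => ?_
      rw [h1 j hj]
    rw [← e1, ← e2, GG, GG, GG]
    exact (Finset.prod_compl_mul_prod _ _).symm
  have g0 : hg0 x0 r = A.re * B.re - p * (A.im * B.im) := by
    rw [hg0, ← hp, hG, QuadraticAlgebra.re_mul]
    ring
  have g1 : hg1 x0 r = A.re * B.im + A.im * B.re := by
    rw [hg1, ← hp, hG, QuadraticAlgebra.im_mul]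
    ring
  have g0' : hg0 x0 r' = A.re * B.re + p * (A.im * B.im) := by
    rw [hg0, ← hp, hG', QuadraticAlgebra.re_mul, QuadraticAlgebra.re_star,
      QuadraticAlgebra.im_star]
    ring
  have g1' : hg1 x0 r' = A.im * B.re - A.re * B.im := by
    rw [hg1, ← hp, hG', QuadraticAlgebra.im_mul, QuadraticAlgebra.re_star,
      QuadraticAlgebra.im_star]
    ring
  have hfS : fS a S = B.re ^ 2 + p * B.im ^ 2 := by
    rw [hB, norm_GG, fS]
    refine Finset.prod_congr rfl fun j _ => ?_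
    rw [hr j, C_sub]
    ring
  have hfSc : fS a Sᶜ = A.re ^ 2 + p * A.im ^ 2 := by
    rw [hA, norm_GG, fS]
    refine Finset.prod_congr rfl fun j _ => ?_
    rw [hr j, C_sub]
    ring
  have hff : ff a = fS a S * fS a Sᶜ := by
    rw [fS, fS, Finset.prod_mul_prod_compl]
    rfl
  -- the function `w`
  set w : Co (ff a) := ⟨fS a S * A.im, B.im⟩ with hw
  have hid : w ^ 2 * px p = px (fS a S) * (ym (hg0 x0 r) * ym (-hg0 x0 r')) := by
    rw [sq, ym_mul, g0, g0']
    ext1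
    · simp only [hw, QuadraticAlgebra.re_mul, px_re, px_im, QuadraticAlgebra.im_mul]
      rw [hff, hfS, hfSc]
      ring
    · simp only [hw, QuadraticAlgebra.re_mul, px_re, px_im, QuadraticAlgebra.im_mul]
      ring
  have hp0 : p ≠ 0 := X_sub_C_ne_zero x0
  have hcjm : (mI p (hg0 x0 r) : Ideal (Co (ff a))) * mI p (-hg0 x0 r') =
      Ideal.span {px p} := by
    have e1 : (mI p (-hg0 x0 r') : Ideal (Co (ff a))) = mI p (-hg0 x0 r) := by
      apply mI_congr
      rw [g0, g0']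
      exact ⟨-2 * (A.im * B.im), by ring⟩
    rw [e1]
    apply mI_mul_neg
    rw [ff_eq hr]
    exact ⟨hg1 x0 r ^ 2, by rw [hp]; ring⟩
  have hI' : (mI p (-hg0 x0 r') : Ideal (Co (ff a))) * mI (hg1 x0 r') (-hg0 x0 r') ^ 2 =
      Ideal.span {ym (-hg0 x0 r')} := by
    have h := ff_eq hr'
    have h3 : p * hg1 x0 r' ^ 2 = ff a - (-hg0 x0 r') ^ 2 := by rw [h]; ring
    have h4 : hg1 x0 r' ^ 2 ∣ ff a - (-hg0 x0 r') ^ 2 := by rw [← h3]; exact dvd_mul_left _ _
    rw [mI_pow 2 h4, mI_mul (by rw [h3]), mI_full h3]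
  have hPS : (mI (fS a S) 0 : Ideal (Co (ff a))) ^ 2 = Ideal.span {px (fS a S)} := by
    rw [mI_fS a S (fS_dvd a S), sq, PS_mul_self]
    rfl
  have hsq : (Ideal.span {w} : Ideal (Co (ff a))) ^ 2 =
      (mI (fS a S) 0 * mI (hg1 x0 r) (hg0 x0 r) * mI (hg1 x0 r') (-hg0 x0 r')) ^ 2 := by
    have hsp : (Ideal.span {px p} : Ideal (Co (ff a))) ≠ ⊥ := by
      rw [Ne, Ideal.span_singleton_eq_bot]
      exact px_ne_zero hp0
    apply mul_right_cancel₀ hsp
    rw [Ideal.span_singleton_pow, Ideal.span_singleton_mul_span_singleton, hid,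
      ← Ideal.span_singleton_mul_span_singleton, ← Ideal.span_singleton_mul_span_singleton,
      ← hPS, ← mI_g0 hr, ← hI', ← hcjm, ← hp]
    ring
  have hI := congrArg cls (sq_inj a hsq)
  rw [cls_span, cls_mul (mul_ne_zero (mI_ne_bot _) (mI_ne_bot _)) (mI_ne_bot _),
    cls_mul (mI_ne_bot _) (mI_ne_bot _), cls_fS, cls_mI_g0 hr] at hI
  have h5 : hD a x0 r' = cls (mI (hg1 x0 r') (-hg0 x0 r') : Ideal (Co (ff a))) := rfl
  have h6 : (∑ j ∈ S, ee a j) + ∑ j ∈ S, ee a j = 0 := by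
    rw [← cls_fS, ← cls_mul (mI_ne_bot _) (mI_ne_bot _), ← sq, hPS, cls_span]
  rw [← h5] at hI
  have h7 : hD a x0 r' = hD a x0 r - ∑ j ∈ S, ee a j := by
    rw [eq_comm, ← sub_eq_zero]
    calc hD a x0 r - ∑ j ∈ S, ee a j - hD a x0 r' =
        -(∑ j ∈ S, ee a j + -hD a x0 r + hD a x0 r') := by abel
      _ = 0 := by rw [← hI, neg_zero]
  rw [h7, sub_eq_add_neg]
  congr 1
  exact (neg_eq_of_add_eq_zero_right h6)

theorem hD_io (hr : ∀ j, r j ^ 2 = x0 - a j) {r' : Fin (2 * g + 1) → Om}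
    {c : Fin (2 * g + 1) → ZMod 2} (hc : ∑ j, c j = 0)
    (h : ∀ j, r' j = if c j = 1 then -r j else r j) :
    hD a x0 r' = hD a x0 r + io a c := by
  classical
  have hS : Even (Finset.univ.filter fun j => c j = 1).card := by
    have h1 : ((Finset.univ.filter fun j => c j = 1).card : ZMod 2) = 0 := by
      rw [← hc, Finset.card_filter]
      push_cast
      refine Finset.sum_congr rfl fun j _ => ?_
      rcases zcase (c j) with h | h <;> simp [h]
    rw [ZMod.natCast_eq_zero_iff] at h1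
    exact even_iff_two_dvd.mpr h1
  rw [hD_flip hr hS, io_eq, cls_PS]
  · intro j hj
    rw [Finset.mem_filter] at hj
    rw [h j, if_pos hj.2]
  · intro j hj
    rw [Finset.mem_filter, not_and] at hj
    rw [h j, if_neg (hj (Finset.mem_univ j))]

end split

end Pool.Agent.SmJ
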