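import Mathlib
import Pool.Agent.Lib.SmJ.E.HD

/-!
SMITH for Jacobians (MP_950c68_ag), block E1: over a separably closed field of characteristic not 2
the Jacobian is 2-divisible. The primes of `Co f` are the ideals `(π, y - v)` with
`π = X ^ q - b`, `q` a power of the characteristic exponent, and these are halved explicitly.
-/

set_option autoImplicit false

open Polynomial

namespace Pool.Agent.SmJ

variable {Om : Type} [Field Om]

section sqrt

variable [IsSepClosed Om] (q : ℕ) [ExpChar Om q]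

/-- Irreducible polynomials over a separably closed field. -/
theorem irr_form {π : Om[X]} (hπ : Irreducible π) (hm : π.Monic) :
    ∃ (n : ℕ) (b : Om), π = X ^ q ^ n - C b := by
  obtain ⟨h, hs, n, hn⟩ := hπ.hasSeparableContraction q
  have hq : q ≠ 0 := (expChar_pos Om q).ne'
  have hirr : Irreducible h := of_irreducible_expand (pow_ne_zero n hq) (hn ▸ hπ)
  have hdeg : h.natDegree = 1 :=
    natDegree_eq_of_degree_eq_some (IsSepClosed.degree_eq_one_of_irreducible Om hirr hs)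
  have hmon : h.Monic := (monic_expand_iff (pow_pos (expChar_pos Om q) n)).mp (hn ▸ hm)
  refine ⟨n, -(h.coeff 0), ?_⟩
  rw [← hn, hmon.eq_X_add_C hdeg]
  simp [sub_neg_eq_add]

omit [IsSepClosed Om] in
theorem pow_mod (n : ℕ) (b : Om) (h : Om[X]) : X ^ q ^ n - C b ∣
    h ^ q ^ n - C ((h.map (iterateFrobenius Om q n)).eval b) := by
  set H := h.map (iterateFrobenius Om q n) with hH
  have h1 : X - C b ∣ H - C (H.eval b) := by
    rw [dvd_iff_isRoot, IsRoot.def, eval_sub, eval_C, sub_self]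
  have h2 := map_dvd (expand Om (q ^ n)) h1
  rw [map_sub, map_sub, expand_X, expand_C, expand_C] at h2
  have h3 : expand Om (q ^ n) H = h ^ q ^ n := by
    rw [hH, ← map_expand, map_iterateFrobenius_expand]
  rwa [h3] at h2

omit [IsSepClosed Om] in
theorem q_odd (h2 : (2 : Om) ≠ 0) (n : ℕ) : ∃ m, q ^ n = 2 * m + 1 := by
  have h3 : Odd q := by
    rcases (inferInstance : ExpChar Om q) with _ | hp
    · exact odd_one
    · rcases hp.eq_two_or_odd' with h4 | h4
      · exfalso
        subst h4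
        exact h2 CharTwo.two_eq_zero
      · exact h4
  exact (h3.pow (n := n))

/-- Everything is a square modulo an irreducible polynomial. -/
theorem exists_sqrt_mod (h2 : (2 : Om) ≠ 0) {n : ℕ} {b : Om}
    (hπ : Irreducible (X ^ q ^ n - C b : Om[X])) (h : Om[X]) :
    ∃ v : Om[X], X ^ q ^ n - C b ∣ h - v ^ 2 := by
  set π : Om[X] := X ^ q ^ n - C b with hp
  by_cases hd : π ∣ h
  · exact ⟨0, by simpa using hd⟩
  obtain ⟨m, hm⟩ := q_odd q h2 n
  have hcop : IsCoprime π h := (hπ.coprime_iff_not_dvd).mpr hd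
  obtain ⟨t, u, htu⟩ := hcop
  have : NeZero ((2 : ℕ) : Om) := ⟨by rwa [Nat.cast_ofNat]⟩
  obtain ⟨s, hs⟩ := IsSepClosed.exists_pow_nat_eq ((h.map (iterateFrobenius Om q n)).eval b) 2
  have h1 := pow_mod q n b h
  rw [← hp, ← hs, hm] at h1
  refine ⟨C s * u ^ m, ?_⟩
  obtain ⟨c, hc⟩ := h1
  -- `u ^ (2 m) h ^ (2 m + 1) = h` modulo `π`
  have h3 : π ∣ h * (1 - (u * h) ^ (2 * m)) := by
    have h4 : π ∣ 1 - u * h := ⟨t, by linear_combination -htu⟩
    have h5 : 1 - u * h ∣ 1 - (u * h) ^ (2 * m) := by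
      have := sub_dvd_pow_sub_pow (1 : Om[X]) (u * h) (2 * m)
      rwa [one_pow] at this
    exact (h4.trans h5).mul_left h
  obtain ⟨d, hd'⟩ := h3
  refine ⟨d + c * u ^ (2 * m), ?_⟩
  have e1 : (C s * u ^ m) ^ 2 = C (s ^ 2) * u ^ (2 * m) := by
    rw [mul_pow, C_pow, ← pow_mul, mul_comm m 2]
  rw [e1]
  have e2 : h * (u * h) ^ (2 * m) = h ^ (2 * m + 1) * u ^ (2 * m) := by
    rw [mul_pow, pow_succ]
    ring
  linear_combination hd' + e2 + (u ^ (2 * m)) * hc

end sqrt

section primes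

variable {f : Om[X]}

/-- The primes of `Co f`. -/
theorem exists_prime_form [Hyp f] [IsSepClosed Om] (q : ℕ) [ExpChar Om q] {P : Ideal (Co f)}
    (hP : P.IsPrime) (h0 : P ≠ ⊥) : ∃ (n : ℕ) (b : Om) (v : Om[X]),
      Irreducible (X ^ q ^ n - C b : Om[X]) ∧ X ^ q ^ n - C b ∣ f - v ^ 2 ∧
      P = mI (X ^ q ^ n - C b) v := by
  classical
  obtain ⟨z, hz, hz0⟩ := Submodule.exists_mem_ne_zero_of_ne_bot h0
  have hn : (px z.norm : Co f) ∈ P := by
    have e : (px z.norm : Co f) = z * star z := QuadraticAlgebra.algebraMap_norm_eq_mul_star z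
    rw [e]
    exact P.mul_mem_right _ hz
  -- an irreducible factor of the norm in `P`
  have key : ∀ p : Om[X], p ≠ 0 → (px p : Co f) ∈ P →
      ∃ π : Om[X], Irreducible π ∧ (px π : Co f) ∈ P := by
    intro p
    refine UniqueFactorizationMonoid.induction_on_prime p ?_ ?_ ?_
    · intro h
      exact absurd rfl h
    · intro u hu _ hup
      exfalso
      apply hP.ne_top
      rw [Ideal.eq_top_iff_one]
      obtain ⟨w, hw⟩ := hu.exists_left_inv
      rw [← px_one, ← hw, px_mul]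
      exact P.mul_mem_left _ hup
    · intro c π hc hπ ih _ hcp
      rw [px_mul] at hcp
      rcases hP.mem_or_mem hcp with h | h
      · exact ⟨π, hπ.irreducible, h⟩
      · exact ih hc h
  obtain ⟨π', hπ', hπP'⟩ := key z.norm (norm_ne_zero hz0) hn
  set π : Om[X] := π' * C (π'.leadingCoeff⁻¹) with hπdef
  have hπm : π.Monic := monic_mul_leadingCoeff_inv hπ'.ne_zero
  have hunit : IsUnit (C (π'.leadingCoeff⁻¹)) :=
    isUnit_C.mpr (IsUnit.mk0 _ (inv_ne_zero (leadingCoeff_ne_zero.mpr hπ'.ne_zero)))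
  have hπ : Irreducible π := (irreducible_mul_isUnit hunit).mpr hπ'
  have hπP : (px π : Co f) ∈ P := by
    rw [hπdef, px_mul]
    exact P.mul_mem_right _ hπP'
  obtain ⟨n, b, hnb⟩ := irr_form q hπ hπm
  rw [hnb] at hπ hπP
  set ρ : Om[X] := X ^ q ^ n - C b with hρ
  obtain ⟨v, hv⟩ := exists_sqrt_mod q (Hyp.two f) hπ f
  rw [← hρ] at hv
  -- `y - v` or `y + v` lies in `P`
  have hprod : (ym v : Co f) * ym (-v) ∈ P := by
    have e : (ym v : Co f) * ym (-v) = px (f - v ^ 2) := by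
      rw [ym_mul]
      ext1
      · simp only [px_re]
        ring
      · simp
    obtain ⟨c, hc⟩ := hv
    rw [e, hc, px_mul]
    exact P.mul_mem_right _ hπP
  obtain ⟨w, hw, hwP⟩ : ∃ w, ρ ∣ f - w ^ 2 ∧ (ym w : Co f) ∈ P := by
    rcases hP.mem_or_mem hprod with h | h
    · exact ⟨v, hv, h⟩
    · exact ⟨-v, by rwa [neg_sq], h⟩
  refine ⟨n, b, w, hπ, hw, ?_⟩
  apply le_antisymm
  · intro z hz
    rw [mem_mI hw]
    by_contra hnd
    have hcop : IsCoprime ρ (z.re + z.im * w) := (hπ.coprime_iff_not_dvd).mpr hnd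
    obtain ⟨s, t, hst⟩ := hcop
    have h1 : (px (z.re + z.im * w) : Co f) ∈ P := by
      have e : (px (z.re + z.im * w) : Co f) = z - px z.im * ym w := by
        conv_rhs => rw [mem_eq w z]
        rw [add_sub_assoc]
        ext1 <;> simp [ym]
      rw [e]
      exact P.sub_mem hz (P.mul_mem_left _ hwP)
    apply hP.ne_top
    rw [Ideal.eq_top_iff_one, ← px_one, ← hst, px_add, px_mul, px_mul]
    exact P.add_mem (P.mul_mem_left _ hπP) (P.mul_mem_left _ h1)
  · rw [mI_def, Ideal.span_le]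
    rintro z (rfl | rfl)
    · exact hπP
    · exact hwP

/-- An element of `(A, y - B)` whose norm is `- A` generates it. -/
theorem mI_eq_span [Hyp f] {A B : Om[X]} (h : A ∣ f - B ^ 2) {z : Co f}
    (hz : z ∈ (mI A B : Ideal (Co f))) (hn : z.norm = -A) (hA : A ≠ 0) :
    (mI A B : Ideal (Co f)) = Ideal.span {z} := by
  have h' : A ∣ f - (-B) ^ 2 := by rwa [neg_sq]
  have hzs : star z ∈ (mI A (-B) : Ideal (Co f)) := by
    rw [mem_mI h'] 
    rw [mem_mI h] at hz
    have e : (star z).re + (star z).im * -B = z.re + z.im * B := by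
      rw [QuadraticAlgebra.re_star, QuadraticAlgebra.im_star]
      ring
    rwa [e]
  obtain ⟨K, hK⟩ := Ideal.dvd_span_singleton.mpr hz
  obtain ⟨K', hK'⟩ := Ideal.dvd_span_singleton.mpr hzs
  have e : z * star z = px z.norm := (QuadraticAlgebra.algebraMap_norm_eq_mul_star z).symm
  have h2 : (Ideal.span {z} * Ideal.span {star z} : Ideal (Co f)) = Ideal.span {px A} := by
    rw [Ideal.span_singleton_mul_span_singleton, e, hn]
    have e1 : (px (-A) : Co f) = -px A := by ext1 <;> simp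
    rw [e1, Ideal.span_singleton_neg]
  have h3 : (Ideal.span {px A} : Ideal (Co f)) * 1 = Ideal.span {px A} * (K * K') := by
    rw [mul_one]
    conv_lhs => rw [← h2, hK, hK']
    rw [← mI_mul_neg h]
    ring
  have hsp : (Ideal.span {px A} : Ideal (Co f)) ≠ 0 := by
    rw [Ideal.zero_eq_bot, Ne, Ideal.span_singleton_eq_bot]
    exact px_ne_zero hA
  have h4 := mul_left_cancel₀ hsp h3
  have h5 : K = 1 := isUnit_iff_eq_one.mp (IsUnit.of_mul_eq_one K' h4.symm)
  rw [hK, h5, mul_one]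

end primes

section halving

variable {g : ℕ} {a : Fin (2 * g + 1) → Om} [HypA a] (q : ℕ) [ExpChar Om q]

/-- The halving of the prime `(π, y - v)`, `π = X ^ q ^ n - b`. -/
theorem half_prime [IsSepClosed Om] {n : ℕ} {b : Om} {v : Om[X]}
    (hπ : Irreducible (X ^ q ^ n - C b : Om[X])) (hv : X ^ q ^ n - C b ∣ ff a - v ^ 2) :
    ∃ R : JJ (ff a), (2 : ℕ) • R = cls (mI (X ^ q ^ n - C b) v) := by
  classical
  have h2 : (2 : Om) ≠ 0 := HypA.two a
  obtain ⟨m, hm⟩ := q_odd q h2 n
  set π : Om[X] := X ^ q ^ n - C b with hp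
  have hπ0 : π ≠ 0 := hπ.ne_zero
  have : NeZero ((2 : ℕ) : Om) := ⟨by rwa [Nat.cast_ofNat]⟩
  choose r hr using fun j => IsSepClosed.exists_pow_nat_eq (b - a j ^ q ^ n) 2
  set G := GG π Finset.univ r with hG
  have hnorm : G.re ^ 2 + π * G.im ^ 2 = ff a ^ q ^ n := by
    rw [hG, norm_GG, ff, ← Finset.prod_pow]
    refine Finset.prod_congr rfl fun j _ => ?_
    rw [sub_pow_expChar_pow, hr j, hp, ← C_pow, C_sub]
    ring
  have hre := re_GG π Finset.univ r
  rw [← hG] at hre
  set R := ∏ j, r j with hR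
  set F := ff a ^ m with hF
  have hfF : ff a ^ q ^ n = ff a * F ^ 2 := by
    rw [hm, hF, ← pow_mul, mul_comm m 2, pow_succ, mul_comm]
  -- `F` is prime to `π g1 ^ 2`
  have hcop : IsCoprime F (π * G.im ^ 2) := by
    rcases Nat.eq_zero_or_pos m with h0 | hm0
    · rw [hF, h0, pow_zero]
      exact isCoprime_one_left
    rw [hF]
    refine IsCoprime.pow_left ?_
    have e : π * G.im ^ 2 = ff a ^ q ^ n + (-1) * G.re ^ 2 := by rw [← hnorm]; ring
    have hqn : ff a ∣ ff a ^ q ^ n := dvd_pow_self _ (by omega)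
    obtain ⟨c, hc⟩ := hqn
    rw [e, hc, IsCoprime.mul_add_left_right_iff, neg_one_mul, IsCoprime.neg_right_iff]
    refine IsCoprime.pow_right ?_
    rw [ff]
    refine IsCoprime.prod_left fun j _ => ?_
    rw [(irreducible_X_sub_C (a j)).coprime_iff_not_dvd, dvd_iff_isRoot]
    intro hroot
    -- evaluation at `(a j, ± r j)` on `y ^ 2 = - π`
    have hon : ∀ t : Om, t ^ 2 = b - a j ^ q ^ n → t ^ 2 = (-π).eval (a j) := by
      intro t ht
      rw [ht, hp, eval_neg, eval_sub, eval_pow, eval_X, eval_C]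
      ring
    have hevG : ∀ P : Pnt (-π), P.ev G = ∏ i, (r i + P.y) := by
      intro P
      rw [hG, GG, map_prod]
      refine Finset.prod_congr rfl fun i _ => ?_
      rw [Pnt.ev_apply, eval_C, eval_one, one_mul]
    have h3 := hevG ⟨a j, r j, hon _ (hr j)⟩
    have h4 := hevG ⟨a j, -r j, hon _ (by rw [neg_sq, hr j])⟩
    rw [Pnt.ev_apply] at h3 h4
    simp only at h3 h4
    have hz : ∏ i, (r i + -r j) = 0 :=
      Finset.prod_eq_zero (Finset.mem_univ j) (add_neg_cancel _)
    rw [hz] at h4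
    have hroot' : G.re.eval (a j) = 0 := hroot
    rw [hroot', zero_add] at h3 h4
    have h5 : ∏ i, (r i + r j) = 0 := by
      rw [← h3]
      linear_combination -h4
    obtain ⟨i, -, hi⟩ := Finset.prod_eq_zero_iff.mp h5
    have h6 : r i ^ 2 = r j ^ 2 := by
      rw [eq_neg_of_add_eq_zero_left hi, neg_sq]
    have h7 : a i = a j := by
      rw [hr i, hr j] at h6
      have h8 : a i ^ q ^ n = a j ^ q ^ n := by linear_combination -h6
      exact iterateFrobenius_inj Om q n (by rwa [iterateFrobenius_def, iterateFrobenius_def])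
    have h9 : i = j := HypA.inj h7
    rw [h9] at hi
    have h10 : r j = 0 := by
      have : 2 * r j = 0 := by linear_combination hi
      exact (mul_eq_zero.mp this).resolve_left h2
    -- then `π = (X - a j) ^ q ^ n`
    have h11 : b = a j ^ q ^ n := by
      have := hr j
      rw [h10, zero_pow two_ne_zero] at this
      linear_combination -this
    have h12 : π = (X - C (a j)) ^ q ^ n := by
      rw [hp, sub_pow_expChar_pow, h11, C_pow]
    rw [h12] at hπ
    exact not_irreducible_pow (by omega) hπ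
  obtain ⟨F', w, hFw⟩ := hcop
  -- the half
  set B := F' * G.re with hB
  set A := π * G.im ^ 2 with hA
  have hA0 : A ≠ 0 := by
    intro h0
    rw [← hnorm, h0, add_zero] at hfF
    have h3 : (G.re : Om[X]) ^ 2 = ff a * F ^ 2 := hfF
    have h4 := Ded_parity (ff a) h3
    exact pow_ne_zero m (ff_ne_zero a) h4
  have hAB : A ∣ ff a - B ^ 2 := by
    have h3 : A ∣ F ^ 2 * (ff a - B ^ 2) := by
      refine ⟨1 + G.re ^ 2 * (w * (1 + F' * F)), ?_⟩
      have e1 : ff a * F ^ 2 = G.re ^ 2 + A := by rw [← hfF, ← hnorm]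
      rw [hB]
      linear_combination e1 - (G.re ^ 2 * (1 + F' * F)) * hFw
    have h4 : IsCoprime A (F ^ 2) := (IsCoprime.pow_left ⟨F', w, hFw⟩).symm
    exact h4.dvd_of_dvd_mul_left h3
  have hz : (⟨G.re, -F⟩ : Co (ff a)) ∈ (mI A B : Ideal (Co (ff a))) := by
    rw [mem_mI hAB]
    refine ⟨w * G.re, ?_⟩
    rw [hB]
    linear_combination -(G.re) * hFw
  have hzn : (⟨G.re, -F⟩ : Co (ff a)).norm = -A := by
    rw [norm_eq]
    simp only
    rw [neg_sq, ← hfF, ← hnorm]
    ring
  have hspan := mI_eq_span hAB hz hzn hA0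
  have hfac : (mI π B : Ideal (Co (ff a))) * mI G.im B ^ 2 = mI A B := by
    have h3 : G.im ^ 2 ∣ ff a - B ^ 2 := (Dvd.intro_left π rfl).trans hAB
    rw [mI_pow 2 h3, mI_mul hAB]
  have hcls : (2 : ℕ) • (-cls (mI G.im B : Ideal (Co (ff a)))) = cls (mI π B) := by
    have h3 := congrArg cls hfac
    rw [hspan, cls_span, cls_mul (mI_ne_bot _) (pow_ne_zero 2 (mI_ne_bot _)),
      cls_pow (mI_ne_bot _)] at h3
    rw [smul_neg]
    exact (eq_neg_of_add_eq_zero_left h3).symm
  -- `v = ± B` modulo `π`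
  have hFF : π ∣ F' * F - 1 := ⟨-(w * G.im ^ 2), by rw [hA] at hFw; linear_combination hFw⟩
  have hsq : π ∣ (F * v - C R) * (F * v + C R) := by
    obtain ⟨c, hc⟩ := hv
    obtain ⟨d, hd⟩ := hre
    refine ⟨-F ^ 2 * c + G.im ^ 2 + d * (G.re + C R), ?_⟩
    have e1 : ff a * F ^ 2 = G.re ^ 2 + π * G.im ^ 2 := by rw [← hfF, ← hnorm]
    linear_combination (-F ^ 2) * hc + e1 + (G.re + C R) * hd
  have hBv : π ∣ B - v ∨ π ∣ B - -v := by
    obtain ⟨d, hd⟩ := hre
    obtain ⟨e, he⟩ := hFF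
    rcases hπ.prime.dvd_or_dvd hsq with ⟨c, hc⟩ | ⟨c, hc⟩
    · left
      refine ⟨F' * d - F' * c + e * v, ?_⟩
      rw [hB]
      linear_combination F' * hd - F' * hc + v * he
    · right
      refine ⟨F' * d + F' * c - e * v, ?_⟩
      rw [hB]
      linear_combination F' * hd + F' * hc - v * he
  rcases hBv with h | h
  · exact ⟨_, hcls.trans (congrArg cls (mI_congr h))⟩
  · refine ⟨-(-cls (mI G.im B : Ideal (Co (ff a)))), ?_⟩
    rw [smul_neg, hcls, mI_congr h, cls_mI_neg hv, neg_neg]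

/-- **The Jacobian is 2-divisible.** -/
theorem exists_half [IsSepClosed Om] (Q : JJ (ff a)) : ∃ R, (2 : ℕ) • R = Q := by
  obtain ⟨q, hq⟩ := ExpChar.exists Om
  refine cls_induction (p := fun Q => ∃ R, (2 : ℕ) • R = Q) ?_ ?_ ?_ Q
  · exact ⟨0, smul_zero _⟩
  · intro P hP h0
    obtain ⟨n, b, v, hπ, hv, rfl⟩ := exists_prime_form q hP h0
    exact half_prime q hπ hv
  · rintro x y ⟨R, rfl⟩ ⟨R', rfl⟩
    exact ⟨R + R', smul_add _ _ _⟩

end halving

end Pool.Agent.SmJ
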