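import Mathlib
import Pool.Agent.Lib.SmJ.E.HD
import Pool.Agent.Lib.SmJ.L.TwJ
import Pool.Agent.Lib.SmF.Base

/-!
SMITH for Jacobians (MP_950c68_ag), block E5: the Kummer cocycle of the 2-torsion points.
-/

set_option autoImplicit false

open Polynomial

namespace Pool.Agent.SmJ

open Pool.Agent.SmJ.L (rts Jac map_rts EV dd dd_apply mapW mapW_apply)
open Pool.Agent.Lib.SmD (chi)

variable {K : Type} [Field K] {Ω : Type} [Field Ω] [Algebra K Ω] [IsSepClosed Ω] {g : ℕ}
  {a : Fin (2 * g + 1) → K} [HypA (rts Ω a)]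

/-- **Halves of the branch points.** -/
theorem exists_half_ee (i : Fin (2 * g + 1)) : ∃ R : JJ (ff (rts Ω a)),
    (2 : ℕ) • R = ee (rts Ω a) i ∧ ∀ s : Ω ≃ₐ[K] Ω, ga a s R =
      R + io (rts Ω a) (∑ j, chi K (a i - a j) s • dd i j : EV g).1 := by
  classical
  have : NeZero ((2 : ℕ) : Ω) := ⟨by
    rw [Nat.cast_ofNat]
    exact HypA.two (rts Ω a)⟩
  have hex : ∀ j, ∃ t : Ω, t ^ 2 = algebraMap K Ω (a i - a j) := fun j =>
    IsSepClosed.exists_pow_nat_eq _ 2
  choose r hr using hex
  have hr' : ∀ j, r j ^ 2 = rts Ω a i - rts Ω a j := fun j => by rw [hr j, map_sub]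
  have hri : r i = 0 := by
    have := hr' i
    rwa [sub_self, pow_eq_zero_iff two_ne_zero] at this
  refine ⟨hD (rts Ω a) (rts Ω a i) r, ?_, fun s => ?_⟩
  · rw [two_hD hr', Finset.prod_eq_zero (Finset.mem_univ i) hri, C_0]
    have h := cls_fS (a := rts Ω a) {i}
    rwa [fS, Finset.prod_singleton, Finset.sum_singleton] at h
  · set c : EV g := ∑ j, chi K (a i - a j) s • dd i j with hc
    have hcj : ∀ j, j ≠ i → c.1 j = chi K (a i - a j) s := by
      intro j hj
      rw [hc, AddSubmonoidClass.coe_finsetSum, Finset.sum_apply, Finset.sum_eq_single j]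
      · change chi K (a i - a j) s * (dd i j).1 j = _
        rw [dd_apply, if_neg hj, if_pos rfl, zero_add, mul_one]
      · intro l _ hl
        change chi K (a i - a l) s * (dd i l).1 j = _
        rw [dd_apply, if_neg hj, if_neg (Ne.symm hl), add_zero, mul_zero]
      · intro h
        exact absurd (Finset.mem_univ j) h
    have h1 : ga a s (hD (rts Ω a) (rts Ω a i) r) =
        hD (rts Ω a) (rts Ω a i) (fun j => s (r j)) :=
      act_hD s.toRingEquiv (fun j => s.commutes (a j)) (s.commutes (a i))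
    rw [h1, hD_io hr' c.2]
    intro j
    by_cases hj : j = i
    · rw [hj, hri, map_zero, neg_zero, ite_self]
    · rw [hcj j hj, SmF.chi_spec (hr j) s]
      rcases zcase (chi K (a i - a j) s) with h | h
      · rw [h, ZMod.val_zero, pow_zero, one_mul, if_neg (by decide)]
      · rw [h, if_pos rfl]
        have : (1 : ZMod 2).val = 1 := rfl
        rw [this, pow_one, neg_one_mul]

/-- **E5.** -/
theorem kapE (z : JJ (ff (rts Ω a))) (w : EV g)
    (hz : (2 : ℕ) • z = io (rts Ω a) (w : Fin (2 * g + 1) → ZMod 2)) (s : Ω ≃ₐ[K] Ω) :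
    ga a s z - z = io (rts Ω a) (mapW (fun i j => chi K (a i - a j) s) w).1 := by
  classical
  choose R hR hRs using fun i => exists_half_ee (Ω := Ω) (a := a) i
  set z' : JJ (ff (rts Ω a)) := ∑ i, (w.1 i).val • R i with hz'
  have h2 : (2 : ℕ) • z' = io (rts Ω a) w.1 := by
    rw [hz', Finset.smul_sum, io_apply]
    refine Finset.sum_congr rfl fun i _ => ?_
    rw [smul_comm, hR]
    rcases zcase (w.1 i) with h | h
    · rw [h, ZMod.val_zero, zero_smul, map_zero]
    · rw [h, eH_one]
      have : (1 : ZMod 2).val = 1 := rfl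
      rw [this, one_smul]
  have h3 : (2 : ℕ) • (z - z') = 0 := by rw [smul_sub, hz, h2, sub_self]
  obtain ⟨x, -, hx⟩ := io_range (rts Ω a) h3
  have h4 : ga a s (z - z') = z - z' := by rw [← hx, ga_io]
  have h5 : ga a s z - z = ga a s z' - z' := by
    rw [map_sub] at h4
    rw [sub_eq_sub_iff_sub_eq_sub]
    exact h4
  rw [h5, hz', map_sum, ← Finset.sum_sub_distrib, mapW_apply,
    AddSubmonoidClass.coe_finsetSum, map_sum]
  refine Finset.sum_congr rfl fun i _ => ?_
  rw [map_nsmul, ← smul_sub, hRs i s, add_sub_cancel_left]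
  rcases zcase (w.1 i) with h | h
  · rw [h, ZMod.val_zero, zero_smul]
    simp
  · rw [h]
    have : (1 : ZMod 2).val = 1 := rfl
    rw [this, one_smul]
    simp

end Pool.Agent.SmJ
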