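import Pool.Agent.Lib.SmJ.E.MoveInfB

/-!
SMITH for Jacobians, blocks E2 and E3: residually generic auxiliary divisors.
-/

set_option autoImplicit false

open Polynomial IsLocalRing

namespace Pool.Agent.SmJE

variable {R : Type*} [CommRing R] [IsDomain R] [ValuationRing R]

/-- square roots of integral elements are integral -/
theorem exists_sqrt_int {Om : Type*} [Field Om] (i : R →+* Om) (inj : Function.Injective i)
    (hi : Val i) (hs : ∀ x : Om, ∃ y, y ^ 2 = x) (x : R) : ∃ y : R, y ^ 2 = x := by
  obtain ⟨y, hy⟩ := hs (i x)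
  rcases hi y with ⟨r, rfl⟩ | ⟨r, hr, hr1⟩
  · refine ⟨r, inj ?_⟩
    rw [map_pow, hy]
  · exfalso
    have e : i (r * x * r) = i 1 := by
      rw [map_mul, map_mul, ← hy, map_one]
      linear_combination (i r * y + 1) * hr1
    have e3 : (1 : R) ∈ maximalIdeal R := by
      rw [← inj e]
      exact mem_m_mul_left hr
    exact (mem_maximalIdeal _).mp e3 isUnit_one

/-- adding a point to a divisor (without degrees) -/
theorem add_point0 {f U V W : R[X]} (h : f = V ^ 2 + U * W) {a b : R} (hb : b ^ 2 = f.eval a)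
    (hU : IsUnit (U.eval a)) : ∃ (c : R) (W' : R[X]),
      W - 2 * C c * V - C c ^ 2 * U = (X - C a) * W' := by
  obtain ⟨u, hu⟩ := hU
  obtain ⟨c, hcu⟩ : ∃ c : R, c * U.eval a = b - V.eval a :=
    ⟨(b - V.eval a) * ((u⁻¹ : Rˣ) : R), by rw [← hu, mul_assoc, Units.inv_mul, mul_one]⟩
  have h2 : X - C a ∣ W - 2 * C c * V - C c ^ 2 * U := by
    rw [Polynomial.dvd_iff_isRoot, Polynomial.IsRoot.def]
    have e : U.eval a * (W - 2 * C c * V - C c ^ 2 * U).eval a = 0 := by
      have e1 : f.eval a = V.eval a ^ 2 + U.eval a * W.eval a := by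
        rw [h]
        simp
      simp only [eval_sub, eval_mul, eval_pow, eval_C, eval_ofNat]
      linear_combination (-1) * e1 - hb - (V.eval a + b + c * U.eval a) * hcu
    rcases mul_eq_zero.mp e with h0 | h0
    · exfalso
      rw [h0] at hu
      exact u.ne_zero hu
    · exact h0
  obtain ⟨W', hW'⟩ := h2
  exact ⟨c, W', hW'⟩

/-- **auxiliary divisors** -/
theorem exists_base [Infinite (ResidueField R)] {Om : Type*} [Field Om] (i : R →+* Om)
    (inj : Function.Injective i) (hi : Val i) (hs : ∀ x : Om, ∃ y, y ^ 2 = x) {f : R[X]}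
    (hf : f.Monic) {Z : Set (ResidueField R)} (hZ : Z.Finite) (m : ℕ) :
    ∃ U V W : R[X], Frm f U V W m ∧ IsCoprime (U.map (residue R)) (f.map (residue R)) ∧
      ∀ z ∈ Z, (U.map (residue R)).eval z ≠ 0 := by
  induction m with
  | zero =>
    refine ⟨1, 0, f, ⟨by ring, monic_one, natDegree_one, ?_⟩, ?_, ?_⟩
    · rw [degree_zero]
      exact WithBot.bot_lt_coe _
    · rw [Polynomial.map_one]
      exact isCoprime_one_left
    · intro z _
      rw [Polynomial.map_one, eval_one]
      exact one_ne_zero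
  | succ m ih =>
    obtain ⟨U, V, W, h, hcop, hz⟩ := ih
    have hUr : (U.map (residue R)) ≠ 0 := (h.monic.map _).ne_zero
    have hfr : (f.map (residue R)) ≠ 0 := (hf.map _).ne_zero
    have hfin : (Z ∪ ({x | (U.map (residue R)).eval x = 0} ∪
        {x | (f.map (residue R)).eval x = 0})).Finite := by
      refine hZ.union (Set.Finite.union ?_ ?_)
      · have := (U.map (residue R)).rootSet_finite (ResidueField R)
        refine this.subset fun x hx => ?_
        rw [Polynomial.mem_rootSet]
        exact ⟨hUr, by rw [Polynomial.coe_aeval_eq_eval]; exact hx⟩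
      · have := (f.map (residue R)).rootSet_finite (ResidueField R)
        refine this.subset fun x hx => ?_
        rw [Polynomial.mem_rootSet]
        exact ⟨hfr, by rw [Polynomial.coe_aeval_eq_eval]; exact hx⟩
    obtain ⟨r, hr⟩ := hfin.exists_notMem
    obtain ⟨ξ, rfl⟩ := residue_surjective r
    obtain ⟨η, hη⟩ := exists_sqrt_int i inj hi hs (f.eval ξ)
    rw [Set.mem_union, Set.mem_union, not_or, not_or] at hr
    obtain ⟨hr1, hr2, hr3⟩ := hr
    have hUe : (U.map (residue R)).eval (residue R ξ) = residue R (U.eval ξ) := by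
      rw [Polynomial.eval_map, Polynomial.eval₂_at_apply]
    have hU : IsUnit (U.eval ξ) := by
      rw [Set.mem_setOf_eq, hUe] at hr2
      by_contra hc
      exact hr2 ((residue_eq_zero_iff _).mpr ((mem_maximalIdeal _).mpr hc))
    obtain ⟨c, W', hW'⟩ := add_point0 h.eq hη hU
    refine ⟨U * (X - C ξ), V + C c * U, W', ⟨?_, h.monic.mul (monic_X_sub_C ξ), ?_, ?_⟩, ?_, ?_⟩
    · linear_combination h.eq + U * hW'
    · rw [h.monic.natDegree_mul (monic_X_sub_C ξ), h.deg, natDegree_X_sub_C]
    · have hlt : ((m : ℕ) : WithBot ℕ) < ((m + 1 : ℕ) : WithBot ℕ) := by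
        exact_mod_cast Nat.lt_succ_self m
      refine lt_of_le_of_lt (degree_add_le _ _) (max_lt (h.lt.trans hlt) ?_)
      refine lt_of_le_of_lt (deg_C_mul_le _ _) ?_
      rw [Polynomial.degree_eq_natDegree h.monic.ne_zero, h.deg]
      exact hlt
    · rw [Polynomial.map_mul]
      refine IsCoprime.mul_left hcop ?_
      rw [Polynomial.map_sub, Polynomial.map_X, Polynomial.map_C]
      rw [(Polynomial.irreducible_X_sub_C (residue R ξ)).coprime_iff_not_dvd,
        Polynomial.dvd_iff_isRoot]
      exact hr3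
    · intro z hzZ
      rw [Polynomial.map_mul, eval_mul]
      refine mul_ne_zero (hz z hzZ) ?_
      rw [Polynomial.map_sub, Polynomial.map_X, Polynomial.map_C, eval_sub, eval_X, eval_C,
        sub_ne_zero]
      rintro rfl
      exact hr1 hzZ

end Pool.Agent.SmJE
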