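import Pool.Agent.Lib.SmJ.E.ClFun

/-!
SMITH for Jacobians, blocks E2 and E3: moving a divisor by the difference of two close integral
points.  Everything is explicit: `R` is a valuation ring, the divisor `D` is given by an integral
pair `(U, V)`, and `[D] + [P] - [P'] = [D₁]` with `D₁` residually equal to `D`.
-/

set_option autoImplicit false

open Polynomial IsLocalRing

namespace Pool.Agent.SmJE

variable {R : Type*} [CommRing R]

/-- the data of a divisor of degree `g` in `R`: `f = V ^ 2 + U W` -/
structure Frm (f U V W : R[X]) (g : ℕ) : Prop where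
  eq : f = V ^ 2 + U * W
  monic : U.Monic
  deg : U.natDegree = g
  lt : V.degree < g

section local_

variable [IsLocalRing R]

theorem mem_m_mul_left {a b : R} (hb : b ∈ maximalIdeal R) : a * b ∈ maximalIdeal R :=
  Ideal.mul_mem_left _ _ hb

theorem unit_add {u m : R} (hu : IsUnit u) (hm : m ∈ maximalIdeal R) : IsUnit (u + m) := by
  by_contra h
  have h1 : u + m ∈ maximalIdeal R := (mem_maximalIdeal _).mpr h
  have h2 : u ∈ maximalIdeal R := by
    have e : u = (u + m) - m := by ring
    rw [e]
    exact Ideal.sub_mem _ h1 hm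
  exact (mem_maximalIdeal _).mp h2 hu

theorem map_res_eq {P Q : R[X]} {m : R} (hm : m ∈ maximalIdeal R) {T : R[X]}
    (h : P = Q + C m * T) : P.map (residue R) = Q.map (residue R) := by
  have : residue R m = 0 := (residue_eq_zero_iff m).mpr hm
  rw [h, Polynomial.map_add, Polynomial.map_mul, Polynomial.map_C, this, C_0, zero_mul, add_zero]

end local_

theorem two_eq : (2 : R[X]) = C 2 := (map_ofNat C 2).symm

theorem deg_C_mul_le (a : R) (p : R[X]) : (C a * p).degree ≤ p.degree := by
  refine (degree_mul_le _ _).trans ?_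
  calc (C a).degree + p.degree ≤ 0 + p.degree := by gcongr; exact degree_C_le
    _ = p.degree := zero_add _

section chain

variable [IsDomain R]

/-- adding a point to a divisor -/
theorem add_point {f U V W : R[X]} {g : ℕ} (h : Frm f U V W g) (hW : W.Monic)
    (hWd : W.natDegree = g + 1) {a b : R} (hb : b ^ 2 = f.eval a) (hU : IsUnit (U.eval a)) :
    ∃ (c : R) (W' : R[X]), (V + C c * U).eval a = b ∧
      W - 2 * C c * V - C c ^ 2 * U = (X - C a) * W' ∧ W'.Monic ∧ W'.natDegree = g := by
  obtain ⟨u, hu⟩ := hU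
  obtain ⟨c, hcu⟩ : ∃ c : R, c * U.eval a = b - V.eval a :=
    ⟨(b - V.eval a) * ((u⁻¹ : Rˣ) : R), by rw [← hu, mul_assoc, Units.inv_mul, mul_one]⟩
  have h1 : (V + C c * U).eval a = b := by
    rw [eval_add, eval_mul, eval_C, hcu]
    ring
  have h2 : X - C a ∣ W - 2 * C c * V - C c ^ 2 * U := by
    rw [Polynomial.dvd_iff_isRoot, Polynomial.IsRoot.def]
    have e : U.eval a * (W - 2 * C c * V - C c ^ 2 * U).eval a = 0 := by
      have e1 : f.eval a = V.eval a ^ 2 + U.eval a * W.eval a := by
        rw [h.eq]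
        simp
      simp only [eval_sub, eval_mul, eval_pow, eval_C, eval_ofNat]
      linear_combination (-1) * e1 - hb - (V.eval a + b + c * U.eval a) * hcu
    rcases mul_eq_zero.mp e with h0 | h0
    · exfalso
      rw [h0] at hu
      exact u.ne_zero hu
    · exact h0
  obtain ⟨W', hW'⟩ := h2
  have hlt : (2 * C c * V + C c ^ 2 * U).degree < W.degree := by
    rw [Polynomial.degree_eq_natDegree hW.ne_zero, hWd]
    refine lt_of_le_of_lt (degree_add_le _ _) (max_lt ?_ ?_)
    · have e : (2 : R[X]) * C c * V = C (2 * c) * V := by rw [C_mul, ← two_eq]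
      rw [e]
      refine lt_of_le_of_lt (deg_C_mul_le _ _) (h.lt.trans ?_)
      exact_mod_cast Nat.lt_succ_self g
    · rw [← C_pow]
      refine lt_of_le_of_lt (deg_C_mul_le _ _) ?_
      rw [Polynomial.degree_eq_natDegree h.monic.ne_zero, h.deg]
      exact_mod_cast Nat.lt_succ_self g
  have hm : (W - 2 * C c * V - C c ^ 2 * U).Monic := by
    have e : W - 2 * C c * V - C c ^ 2 * U = W - (2 * C c * V + C c ^ 2 * U) := by ring
    rw [e]
    exact hW.sub_of_left hlt
  have hdg : (W - 2 * C c * V - C c ^ 2 * U).natDegree = g + 1 := by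
    have e : W - 2 * C c * V - C c ^ 2 * U = W - (2 * C c * V + C c ^ 2 * U) := by ring
    rw [e, Polynomial.natDegree_sub_eq_left_of_natDegree_lt, hWd]
    by_cases h0 : 2 * C c * V + C c ^ 2 * U = 0
    · rw [h0, natDegree_zero, hWd]
      omega
    · exact (Polynomial.natDegree_lt_natDegree_iff h0).mpr hlt
  have hm' : W'.Monic := by
    rw [hW'] at hm
    exact (monic_X_sub_C a).of_mul_monic_left hm
  refine ⟨c, W', h1, hW', hm', ?_⟩
  have e := congrArg natDegree hW'
  rw [hdg, (monic_X_sub_C a).natDegree_mul hm', natDegree_X_sub_C] at e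
  omega

end chain

end Pool.Agent.SmJE
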