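import Mathlib

/-!
SMITH for Jacobians, blocks E2 and E3: abstract class functions on Mumford pairs.

`cl A B` is the class of the ideal `(A, y - B)` of `Om[x][y] / (y ^ 2 - f)`, where `A ∣ f - B ^ 2`.
-/

set_option autoImplicit false

open Polynomial

namespace Pool.Agent.SmJE

/-- The rules of the calculus of the classes of the ideals `(A, y - B)`, `A ∣ f - B ^ 2`. -/
structure ClFun {Om : Type*} [Field Om] (f : Om[X]) (J : Type*) [AddCommGroup J] where
  cl : Om[X] → Om[X] → J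
  shift : ∀ {A B : Om[X]} (M : Om[X]), A ≠ 0 → A ∣ f - B ^ 2 → cl A (B + A * M) = cl A B
  mul : ∀ {A A' B : Om[X]}, A * A' ≠ 0 → A * A' ∣ f - B ^ 2 →
    cl (A * A') B = cl A B + cl A' B
  flip : ∀ {A B C : Om[X]}, A ≠ 0 → C ≠ 0 → f = B ^ 2 + A * C → cl A B + cl C B = 0
  conj : ∀ {A B : Om[X]}, A ≠ 0 → A ∣ f - B ^ 2 → cl A (-B) = - cl A B

namespace ClFun

variable {Om : Type*} [Field Om] {f : Om[X]} {J : Type*} [AddCommGroup J] (c : ClFun f J)

/-- the class of the point `(a, b)` -/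
noncomputable def pt (a b : Om) : J := c.cl (X - C a) (C b)

theorem dvd_pt {a b : Om} (h : b ^ 2 = f.eval a) : X - C a ∣ f - (C b) ^ 2 := by
  rw [Polynomial.dvd_iff_isRoot, Polynomial.IsRoot.def]
  simp [h]

theorem X_sub_ne (a : Om) : X - C a ≠ 0 := Polynomial.X_sub_C_ne_zero a

/-- a class with a linear first entry is the class of a point -/
theorem cl_lin {a : Om} {B : Om[X]} (h : X - C a ∣ f - B ^ 2) :
    c.cl (X - C a) B = c.pt a (B.eval a) := by
  have h1 : X - C a ∣ B - C (B.eval a) := Polynomial.X_sub_C_dvd_sub_C_eval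
  obtain ⟨M, hM⟩ := h1
  have h2 : B.eval a ^ 2 = f.eval a := by
    rw [Polynomial.dvd_iff_isRoot, Polynomial.IsRoot.def] at h
    simp only [eval_sub, eval_pow] at h
    linear_combination -h
  have h3 : B = C (B.eval a) + (X - C a) * M := by rw [← hM]; ring
  rw [pt]
  conv_lhs => rw [h3]
  exact c.shift M (X_sub_ne a) (dvd_pt h2)

theorem pt_neg {a b : Om} (h : b ^ 2 = f.eval a) : c.pt a (-b) = - c.pt a b := by
  rw [pt, pt, C_neg]
  exact c.conj (X_sub_ne a) (dvd_pt h)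

/-- the key move: `A ↦ A - 2 μ B - μ ^ 2 C` -/
theorem cl_move {A B D : Om[X]} (m : Om[X]) (h : f = B ^ 2 + A * D) (hA : A ≠ 0) (hD : D ≠ 0)
    (hA' : A - 2 * m * B - m ^ 2 * D ≠ 0) :
    c.cl (A - 2 * m * B - m ^ 2 * D) (B + m * D) = c.cl A B := by
  have e1 := c.flip hA hD h
  have e2 : c.cl D (B + D * m) = c.cl D B := c.shift m hD ⟨A, by rw [h]; ring⟩
  have e3 := c.flip (A := D) (B := B + D * m) (C := A - 2 * m * B - m ^ 2 * D) hD hA'
    (by rw [h]; ring)
  rw [e2] at e3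
  have e4 : c.cl A B = - c.cl D B := eq_neg_of_add_eq_zero_left e1
  have e5 : c.cl (A - 2 * m * B - m ^ 2 * D) (B + D * m) = - c.cl D B :=
    eq_neg_of_add_eq_zero_right e3
  rw [e4, ← e5, mul_comm m D]

end ClFun

end Pool.Agent.SmJE
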