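import Mathlib
import Pool.Agent.Lib.SmJ.Sys

/-!
SMITH for Jacobians (MP_950c68_ag), E6, the abstract part. `M` an abelian group with an action `ρ`
of a group, `D` a subgroup, `sg`, `ph` two elements such that a class `Q` with `2 (s Q - Q) = 0` on
`D` which is fixed by `sg` and `ph` is fixed by `D`; `M[2] = iota V1` fixed by `D`; the 2-power
torsion of `M^D` is finite; the pairs `(sg Q - Q, ph Q - Q)` form an isotropic subgroup of
`V1 × V1`. Then `M^D` is the sum of its 2-power torsion and of `2 ^ j M^D`, and every coboundary on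
`D` with values in `M[2 ^ j]` is the coboundary of a 2-power torsion element.
-/

set_option autoImplicit false

open Module

namespace Pool.Agent.SmJ.E6

/-- A `ZMod 2`-subspace of `V1 × V1` isotropic for `sym e ep` has at most `#V1` elements. -/
theorem card_isot_le {V1 : Type} [AddCommGroup V1] [Module (ZMod 2) V1] [Finite V1]
    (e : V1 →ₗ[ZMod 2] V1 →ₗ[ZMod 2] ZMod 2) (alt : ∀ w, e w w = 0)
    (nondeg : ∀ w, (∀ w', e w w' = 0) → w = 0) (ep : ZMod 2)
    (B : Submodule (ZMod 2) (V1 × V1)) (hB : ∀ x ∈ B, ∀ y ∈ B, sym e ep x y = 0) :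
    Nat.card B ≤ Nat.card V1 := by
  have hsw : ∀ x y, e x y = e y x := by
    intro x y
    have h1 := alt (x + y)
    rw [map_add, map_add, LinearMap.add_apply, LinearMap.add_apply, alt, alt, zero_add,
      add_zero] at h1
    have h2 : ∀ a b : ZMod 2, a + b = 0 → a = b := by decide
    rw [add_comm] at h1
    exact h2 _ _ h1
  let F : V1 × V1 →ₗ[ZMod 2] V1 × V1 →ₗ[ZMod 2] ZMod 2 :=
    LinearMap.mk₂ (ZMod 2) (fun x y => sym e ep x y)
      (by
        intro x y z
        simp only [sym, Prod.fst_add, Prod.snd_add, map_add, LinearMap.add_apply]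
        ring)
      (by
        intro c x y
        simp only [sym, Prod.smul_fst, Prod.smul_snd, map_smul, LinearMap.smul_apply, smul_eq_mul]
        ring)
      (by
        intro x y z
        simp only [sym, Prod.fst_add, Prod.snd_add, map_add]
        ring)
      (by
        intro c x y
        simp only [sym, Prod.smul_fst, Prod.smul_snd, map_smul, smul_eq_mul]
        ring)
  have hF : ∀ x y, F x y = sym e ep x y := fun x y => rfl
  have hinj : Function.Injective F := by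
    rw [← LinearMap.ker_eq_bot, LinearMap.ker_eq_bot']
    intro x hx
    have h1 : ∀ y, sym e ep x y = 0 := fun y => by rw [← hF, hx, LinearMap.zero_apply]
    have h2 : x.1 = 0 := by
      apply nondeg
      intro w'
      have h3 := h1 (0, w')
      simpa [sym] using h3
    have h3 : x.2 = 0 := by
      apply nondeg
      intro w'
      have h4 := h1 (w', 0)
      simpa [sym, h2] using h4
    exact Prod.ext h2 h3
  have : FiniteDimensional (ZMod 2) V1 := Module.Finite.of_finite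
  -- restriction to `B`
  let R : V1 × V1 →ₗ[ZMod 2] Dual (ZMod 2) B := B.dualRestrict.comp F
  have hsurj : Function.Surjective R := by
    have h1 : Function.Surjective F :=
      (LinearMap.injective_iff_surjective_of_finrank_eq_finrank
        (Subspace.dual_finrank_eq (K := ZMod 2) (V := V1 × V1)).symm).mp hinj
    exact (Subspace.dualRestrict_surjective).comp h1
  have hker : B ≤ LinearMap.ker R := by
    intro x hx
    rw [LinearMap.mem_ker]
    ext ⟨y, hy⟩
    exact hB x hx y hy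
  have h1 := LinearMap.finrank_range_add_finrank_ker R
  rw [LinearMap.range_eq_top.mpr hsurj, finrank_top, Subspace.dual_finrank_eq,
    Module.finrank_prod] at h1
  have h2 := Submodule.finrank_mono hker
  have h3 : finrank (ZMod 2) B ≤ finrank (ZMod 2) V1 := by omega
  rw [Module.natCard_eq_pow_finrank (K := ZMod 2) (V := B),
    Module.natCard_eq_pow_finrank (K := ZMod 2) (V := V1)]
  exact Nat.pow_le_pow_right Nat.card_pos h3

section abs

variable {G M V1 : Type} [Group G] [AddCommGroup M] [AddCommGroup V1] [Module (ZMod 2) V1]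

/-- The hypotheses of the abstract E6. -/
structure Dat (ρ : G → M →+ M) (D : Subgroup G) (sg ph : G) (iota : V1 →+ M)
    (e : V1 →ₗ[ZMod 2] V1 →ₗ[ZMod 2] ZMod 2) (ep : ZMod 2) : Prop where
  sg_mem : sg ∈ D
  ph_mem : ph ∈ D
  inj : Function.Injective iota
  range : ∀ Q : M, (2 : ℕ) • Q = 0 → ∃ w, iota w = Q
  two : ∀ w, (2 : ℕ) • iota w = 0
  fix : ∀ s ∈ D, ∀ w, ρ s (iota w) = iota w
  half : ∀ Q : M, ∃ R, (2 : ℕ) • R = Q
  det : ∀ Q : M, (∀ s ∈ D, (2 : ℕ) • (ρ s Q - Q) = 0) → ρ sg Q = Q → ρ ph Q = Q →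
    ∀ s ∈ D, ρ s Q = Q
  fin : {Q : M | (∀ s ∈ D, ρ s Q = Q) ∧ ∃ i : ℕ, (2 : ℕ) ^ i • Q = 0}.Finite
  alt : ∀ w, e w w = 0
  nondeg : ∀ w, (∀ w', e w w' = 0) → w = 0
  isot : ∀ Q R : M, (∀ s ∈ D, (2 : ℕ) • (ρ s Q - Q) = 0) →
    (∀ s ∈ D, (2 : ℕ) • (ρ s R - R) = 0) → ∀ x y : V1 × V1,
    ρ sg Q - Q = iota x.1 → ρ ph Q - Q = iota x.2 →
    ρ sg R - R = iota y.1 → ρ ph R - R = iota y.2 → sym e ep x y = 0

variable {ρ : G → M →+ M} {D : Subgroup G} {sg ph : G} {iota : V1 →+ M}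
  {e : V1 →ₗ[ZMod 2] V1 →ₗ[ZMod 2] ZMod 2} {ep : ZMod 2}

/-- the elements whose coboundary on `D` has values in `M[2]` -/
private def HH (ρ : G → M →+ M) (D : Subgroup G) : AddSubgroup M where
  carrier := {Q | ∀ s ∈ D, (2 : ℕ) • (ρ s Q - Q) = 0}
  zero_mem' := by
    intro s _
    simp
  add_mem' := by
    intro Q R hQ hR s hs
    have h : ρ s (Q + R) - (Q + R) = (ρ s Q - Q) + (ρ s R - R) := by
      rw [map_add]
      abel
    rw [h, smul_add, hQ s hs, hR s hs, add_zero]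
  neg_mem' := by
    intro Q hQ s hs
    have h : ρ s (-Q) - (-Q) = -(ρ s Q - Q) := by
      rw [map_neg]
      abel
    rw [h, smul_neg, hQ s hs, neg_zero]

/-- the 2-power torsion -/
private def TT (M : Type) [AddCommGroup M] : AddSubgroup M where
  carrier := {Q | ∃ i : ℕ, (2 : ℕ) ^ i • Q = 0}
  zero_mem' := ⟨0, by simp⟩
  add_mem' := by
    rintro Q R ⟨i, hi⟩ ⟨j, hj⟩
    refine ⟨i + j, ?_⟩
    have h1 : (2 : ℕ) ^ (i + j) • Q = 0 := by rw [pow_add, mul_comm, mul_smul, hi, smul_zero]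
    have h2 : (2 : ℕ) ^ (i + j) • R = 0 := by rw [pow_add, mul_smul, hj, smul_zero]
    rw [smul_add, h1, h2, add_zero]
  neg_mem' := by
    rintro Q ⟨i, hi⟩
    exact ⟨i, by rw [smul_neg, hi, neg_zero]⟩

/-- the fixed elements -/
private def FF (ρ : G → M →+ M) (D : Subgroup G) : AddSubgroup M where
  carrier := {Q | ∀ s ∈ D, ρ s Q = Q}
  zero_mem' := by
    intro s _
    simp
  add_mem' := by
    intro Q R hQ hR s hs
    rw [map_add, hQ s hs, hR s hs]
  neg_mem' := by
    intro Q hQ s hs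
    rw [map_neg, hQ s hs]

private theorem mem_HH {Q : M} : Q ∈ HH ρ D ↔ ∀ s ∈ D, (2 : ℕ) • (ρ s Q - Q) = 0 := Iff.rfl

private theorem mem_TT {Q : M} : Q ∈ TT M ↔ ∃ i : ℕ, (2 : ℕ) ^ i • Q = 0 := Iff.rfl

private theorem mem_FF {Q : M} : Q ∈ FF ρ D ↔ ∀ s ∈ D, ρ s Q = Q := Iff.rfl

private theorem exists_dl [Finite V1] (h : Dat ρ D sg ph iota e ep) :
    ∃ dl : HH ρ D →+ V1 × V1, ∀ Q : HH ρ D,
      ρ sg Q - Q = iota (dl Q).1 ∧ ρ ph Q - Q = iota (dl Q).2 := by
  have h1 : ∀ Q : HH ρ D, ∃ z : V1 × V1, ρ sg Q - Q = iota z.1 ∧ ρ ph Q - Q = iota z.2 := by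
    intro Q
    obtain ⟨z1, hz1⟩ := h.range _ (Q.2 sg h.sg_mem)
    obtain ⟨z2, hz2⟩ := h.range _ (Q.2 ph h.ph_mem)
    exact ⟨(z1, z2), hz1.symm, hz2.symm⟩
  choose dl hdl using h1
  refine ⟨AddMonoidHom.mk' dl ?_, hdl⟩
  intro Q R
  apply Prod.ext
  · apply h.inj
    rw [Prod.fst_add, map_add, ← (hdl _).1, ← (hdl _).1, ← (hdl _).1, AddSubgroup.coe_add, map_add]
    abel
  · apply h.inj
    rw [Prod.snd_add, map_add, ← (hdl _).2, ← (hdl _).2, ← (hdl _).2, AddSubgroup.coe_add, map_add]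
    abel

/-- every `Q` with `2 (s Q - Q) = 0` on `D` is the sum of a 2-power torsion element and of an
element fixed by `D` -/
private theorem exists_tors [Finite V1] (h : Dat ρ D sg ph iota e ep) {Q : M}
    (hQ : ∀ s ∈ D, (2 : ℕ) • (ρ s Q - Q) = 0) : ∃ t ∈ TT M, ∀ s ∈ D, ρ s (Q - t) = Q - t := by
  obtain ⟨dl, hdl⟩ := exists_dl h
  have hkerF : ∀ R : HH ρ D, dl R = 0 → (R : M) ∈ FF ρ D := by
    intro R hR
    obtain ⟨h1, h2⟩ := hdl R
    rw [hR, Prod.fst_zero, map_zero, sub_eq_zero] at h1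
    rw [hR, Prod.snd_zero, map_zero, sub_eq_zero] at h2
    exact h.det R R.2 h1 h2
  have hFker : ∀ R : HH ρ D, (R : M) ∈ FF ρ D → dl R = 0 := by
    intro R hR
    obtain ⟨h1, h2⟩ := hdl R
    apply Prod.ext
    · apply h.inj
      rw [← h1, hR sg h.sg_mem, sub_self, Prod.fst_zero, map_zero]
    · apply h.inj
      rw [← h2, hR ph h.ph_mem, sub_self, Prod.snd_zero, map_zero]
  -- the torsion part
  let TH : AddSubgroup (HH ρ D) := (TT M).addSubgroupOf (HH ρ D)
  let d' : TH →+ V1 × V1 := dl.comp TH.subtype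
  let TF : AddSubgroup M := FF ρ D ⊓ TT M
  have hTFfin : Finite TF := by
    have := h.fin
    exact this.to_subtype
  let m : TH →+ TF :=
    { toFun := fun R => ⟨(2 : ℕ) • ((R : HH ρ D) : M), fun s hs => by
          rw [map_nsmul, ← sub_eq_zero, ← smul_sub]
          exact (R : HH ρ D).2 s hs, by
          have := R.2
          exact (TT M).nsmul_mem this 2⟩
      map_zero' := by
        apply Subtype.ext
        simp
      map_add' := fun R R' => by
        apply Subtype.ext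
        simp }
  have hmsurj : Function.Surjective m := by
    rintro ⟨x, hxF, ⟨i, hi⟩⟩
    obtain ⟨R, hR⟩ := h.half x
    have hRH : R ∈ HH ρ D := by
      intro s hs
      rw [smul_sub, ← map_nsmul, hR, hxF s hs, sub_self]
    refine ⟨⟨⟨R, hRH⟩, ⟨i + 1, ?_⟩⟩, ?_⟩
    · change (2 : ℕ) ^ (i + 1) • R = 0
      rw [pow_succ, mul_smul, hR, hi]
    · exact Subtype.ext hR
  -- the kernel of `m` is `V1`
  have hkm : Nat.card m.ker = Nat.card V1 := by
    symm
    have hi : ∀ w : V1, iota w ∈ HH ρ D := by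
      intro w s hs
      rw [h.fix s hs, sub_self, smul_zero]
    have ht : ∀ w : V1, (⟨iota w, hi w⟩ : HH ρ D) ∈ TH := by
      intro w
      exact ⟨1, by rw [pow_one]; exact h.two w⟩
    refine Nat.card_eq_of_bijective (fun w : V1 => (⟨⟨⟨iota w, hi w⟩, ht w⟩, by
      rw [AddMonoidHom.mem_ker]
      exact Subtype.ext (h.two w)⟩ : m.ker)) ⟨?_, ?_⟩
    · intro w w' hw
      apply h.inj
      exact congrArg (fun x : m.ker => (((x : TH) : HH ρ D) : M)) hw
    · rintro ⟨⟨⟨R, hR⟩, hR'⟩, hR''⟩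
      have h1 : (2 : ℕ) • R = 0 := congrArg Subtype.val ((AddMonoidHom.mem_ker).mp hR'')
      obtain ⟨w, hw⟩ := h.range R h1
      refine ⟨w, ?_⟩
      apply Subtype.ext
      apply Subtype.ext
      apply Subtype.ext
      exact hw
  -- the kernel of `d'` is `TF`
  have hkd : Nat.card d'.ker = Nat.card TF := by
    refine Nat.card_eq_of_bijective (fun R : d'.ker => (⟨(((R : TH) : HH ρ D) : M),
      hkerF _ ((AddMonoidHom.mem_ker).mp R.2), (R : TH).2⟩ : TF)) ⟨?_, ?_⟩
    · intro R R' hR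
      apply Subtype.ext
      apply Subtype.ext
      apply Subtype.ext
      exact congrArg (fun x : TF => (x : M)) hR
    · rintro ⟨x, hxF, hxT⟩
      have hxH : x ∈ HH ρ D := fun s hs => by rw [hxF s hs, sub_self, smul_zero]
      exact ⟨⟨⟨⟨x, hxH⟩, hxT⟩, (AddMonoidHom.mem_ker).mpr (hFker ⟨x, hxH⟩ hxF)⟩, rfl⟩
  have hTH1 : Nat.card TH = Nat.card TF * Nat.card V1 := by
    rw [← hkm, ← Nat.card_congr (QuotientAddGroup.quotientKerEquivOfSurjective m hmsurj).toEquiv]
    exact AddSubgroup.card_eq_card_quotient_mul_card_addSubgroup m.ker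
  have hTH2 : Nat.card TH = Nat.card d'.range * Nat.card TF := by
    rw [← hkd, ← Nat.card_congr (QuotientAddGroup.quotientKerEquivRange d').toEquiv]
    exact AddSubgroup.card_eq_card_quotient_mul_card_addSubgroup d'.ker
  have hcr : Nat.card d'.range = Nat.card V1 := by
    have h1 : Nat.card TF * Nat.card V1 = Nat.card TF * Nat.card d'.range := by
      rw [← hTH1, hTH2, mul_comm]
    exact (Nat.eq_of_mul_eq_mul_left Nat.card_pos h1).symm
  -- the range of `dl`
  have hle : d'.range ≤ dl.range := by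
    rintro _ ⟨R, rfl⟩
    exact ⟨R, rfl⟩
  have hB : Nat.card dl.range ≤ Nat.card V1 := by
    let B : Submodule (ZMod 2) (V1 × V1) := AddSubgroup.toZModSubmodule 2 dl.range
    have h1 : Nat.card B ≤ Nat.card V1 := by
      refine card_isot_le e h.alt h.nondeg ep B ?_
      rintro _ ⟨R, rfl⟩ _ ⟨R', rfl⟩
      exact h.isot R R' R.2 R'.2 _ _ (hdl R).1 (hdl R).2 (hdl R').1 (hdl R').2
    exact h1
  have heq : (d'.range : Set (V1 × V1)) = dl.range := by
    apply Set.eq_of_subset_of_ncard_le hle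
    rw [← Nat.card_coe_set_eq, ← Nat.card_coe_set_eq]
    exact hB.trans hcr.ge
  obtain ⟨t, ht⟩ : dl ⟨Q, hQ⟩ ∈ (d'.range : Set (V1 × V1)) := by
    rw [heq]
    exact ⟨_, rfl⟩
  refine ⟨((t : HH ρ D) : M), t.2, ?_⟩
  have h1 : dl (⟨Q, hQ⟩ - (t : HH ρ D)) = 0 := by
    rw [map_sub, ← ht]
    exact sub_self _
  exact hkerF _ h1

/-- **E6, abstract form.** -/
theorem Dat.e6 [Finite V1] (h : Dat ρ D sg ph iota e ep) (j : ℕ) (Q : M)
    (hQ : ∀ s ∈ D, (2 : ℕ) ^ j • (ρ s Q - Q) = 0) :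
    ∃ Q' : M, (∃ i : ℕ, (2 : ℕ) ^ i • Q' = 0) ∧ ∀ s ∈ D, ρ s Q - Q = ρ s Q' - Q' := by
  have key : ∀ (j : ℕ) (Q : M), (∀ s ∈ D, (2 : ℕ) ^ j • (ρ s Q - Q) = 0) →
      ∃ t ∈ TT M, Q - t ∈ FF ρ D := by
    intro j
    induction j with
    | zero =>
      intro Q hQ
      refine ⟨0, (TT M).zero_mem, ?_⟩
      rw [sub_zero]
      intro s hs
      have h1 := hQ s hs
      rwa [pow_zero, one_smul, sub_eq_zero] at h1
    | succ j ih =>
      intro Q hQ
      obtain ⟨t, ht, hx⟩ := ih ((2 : ℕ) • Q) (fun s hs => by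
        rw [map_nsmul, ← smul_sub, smul_smul, ← pow_succ]
        exact hQ s hs)
      obtain ⟨t', ht'⟩ := h.half t
      obtain ⟨x', hx'⟩ := h.half ((2 : ℕ) • Q - t)
      obtain ⟨t'', ht'', hy⟩ := exists_tors h (Q := x') (fun s hs => by
        rw [smul_sub, ← map_nsmul, hx', hx s hs, sub_self])
      have h1 : (2 : ℕ) • (Q - t' - x') = 0 := by
        rw [smul_sub, smul_sub, ht', hx']
        abel
      have h2 : Q - t' - x' ∈ TT M := ⟨1, by rw [pow_one]; exact h1⟩
      have h3 : t' ∈ TT M := by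
        obtain ⟨i, hi⟩ := ht
        exact ⟨i + 1, by rw [pow_succ, mul_smul, ht', hi]⟩
      refine ⟨(Q - t' - x') + t' + t'', (TT M).add_mem ((TT M).add_mem h2 h3) ht'', ?_⟩
      have h4 : Q - ((Q - t' - x') + t' + t'') = x' - t'' := by abel
      rw [h4]
      exact hy
  obtain ⟨t, ht, hF⟩ := key j Q hQ
  refine ⟨t, ht, fun s hs => ?_⟩
  have h1 := hF s hs
  rw [map_sub] at h1
  rw [sub_eq_sub_iff_sub_eq_sub]
  exact h1

end abs

end Pool.Agent.SmJ.E6
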