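import Pool.Agent.Lib.SmJ.E.E6
import Pool.Agent.Lib.SmJ.E.Act
import Pool.Agent.Lib.SmJ.E4.Jac
import Pool.Agent.Lib.SmD.Main
import Pool.Agent.Lib.SmD.HomLoc
import Pool.Agent.Lib.SmD.DvrBelow
import Pool.Agent.Lib.SmJ.L.Brg

/-!
SMITH for Jacobians (MP_950c68_ag), E6 for the Jacobian of `y ^ 2 = ∏ (x - a i)`, `a i ∈ K`, at a
place `w` of a separable closure `Ω` of `K`.
-/

set_option autoImplicit false

open Polynomial Module

namespace Pool.Agent.SmJ.E6

open Pool.Agent.Lib.SmD Pool.Agent.SmJ.L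

variable {K Ω : Type} [Field K] [Field Ω] [Algebra K Ω] {w : ValuationSubring Ω} {π : K}

/-- the residue field has an odd number of elements -/
theorem exists_half_resCard (h : LocHyp K w π) : ∃ m : ℕ, resCard (below K w) = 2 * m + 1 := by
  have := h.fin
  have hf : Fintype (IsLocalRing.ResidueField (below K w)) := Fintype.ofFinite _
  have hodd : Odd (resCard (below K w)) := by
    rw [resCard, Nat.card_eq_fintype_card, Nat.odd_iff]
    exact FiniteField.odd_card_of_char_ne_two (ringChar_residue h.two)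
  exact hodd

variable {g : ℕ} (a : Fin (2 * g + 1) → K) [HypA (rts Ω a)]

variable (Ω) in
/-- The inclusion of the 2-torsion in the Jacobian. -/
noncomputable def iotaM : EV g →+ JJ (ff (rts Ω a)) := (VJ Ω a).subtype.comp (iota Ω a)

variable {a}

theorem iotaM_apply (x : EV g) : iotaM Ω a x = ∑ i, (x.1 i).val • ee (rts Ω a) i := by
  change io (rts Ω a) x.1 = _
  rw [io_apply]
  refine Finset.sum_congr rfl fun i _ => ?_
  rcases zcase (x.1 i) with h | h
  · rw [h, map_zero]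
    simp
  · rw [h, eH_one]
    exact (one_smul ℕ _).symm

/-- a class fixed by the tame inertia and the Frobenius elements is fixed by the decomposition
group, if it is fixed up to 2-torsion -/
theorem det_loc [IsGalois K Ω] [IsSepClosed Ω] (h : LocHyp K w π) {sg ph : Ω ≃ₐ[K] Ω}
    (hsg : IsSg K w π sg) (hph : IsFrob K w ph) (Q : JJ (ff (rts Ω a)))
    (hQ : ∀ s ∈ dec K w, (2 : ℕ) • (ga a s Q - Q) = 0) (h1 : ga a sg Q = Q)
    (h2 : ga a ph Q = Q) : ∀ s ∈ dec K w, ga a s Q = Q := by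
  classical
  -- the values as even vectors
  have hex : ∀ s : Ω ≃ₐ[K] Ω, ∃ x : EV g, s ∈ dec K w → ga a s Q - Q = io (rts Ω a) x.1 := by
    intro s
    by_cases hs : s ∈ dec K w
    · obtain ⟨x, hx, hx'⟩ := io_range (rts Ω a) (hQ s hs)
      exact ⟨⟨x, hx⟩, fun _ => hx'.symm⟩
    · exact ⟨0, fun h => absurd h hs⟩
  choose c hc using hex
  have hinj : ∀ x y : EV g, io (rts Ω a) x.1 = io (rts Ω a) y.1 → x = y := by
    intro x y hxy
    apply iota_injective (Ω := Ω) (a := a)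
    exact Subtype.ext hxy
  have hadd : ∀ s ∈ dec K w, ∀ t ∈ dec K w, c (s * t) = c s + c t := by
    intro s hs t ht
    apply hinj
    rw [← hc _ ((dec K w).mul_mem hs ht), Submodule.coe_add, map_add, ← hc s hs, ← hc t ht, ga_mul]
    have e1 : ga a t Q = io (rts Ω a) (c t).1 + Q := by rw [← hc t ht]; abel
    rw [e1, map_add, ga_io]
    abel
  have hzero : ∀ s ∈ dec K w, ga a s Q = Q → c s = 0 := by
    intro s hs h3
    apply hinj
    rw [← hc s hs, h3, sub_self, Submodule.coe_zero, map_zero]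
  obtain ⟨L, hL, hst⟩ := ga_level a Q
  have hfin : ∀ i, FinOn (dec K w) fun s => (c s).1 i := by
    intro i
    refine ⟨L, hL, fun s hs t ht hx => ?_⟩
    have : c s = c t := by
      apply hinj
      rw [← hc s hs, ← hc t ht, hst s t hx]
    simp only [this]
  have key : ∀ i, ∀ s ∈ dec K w, (c s).1 i = 0 := by
    intro i
    refine hom_dec_zero h hsg hph ?_ (hfin i) ?_ ?_
    · intro s hs t ht
      rw [hadd s hs t ht]
      rfl
    · rw [hzero sg (iner_le_dec K w hsg.1) h1]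
      rfl
    · rw [hzero ph hph.mem h2]
      rfl
  intro s hs
  have h3 : c s = 0 := Subtype.ext (funext fun i => key i s hs)
  have h4 := hc s hs
  rw [h3, Submodule.coe_zero, map_zero, sub_eq_zero] at h4
  exact h4

/-- The hypotheses of the abstract E6 for the Jacobian. -/
theorem dat_loc [IsGalois K Ω] [IsSepClosed Ω] [Infinite K] (h : LocHyp K w π)
    {sg ph : Ω ≃ₐ[K] Ω} (hsg : IsSg K w π sg) (hph : IsFrob K w ph) {m : ℕ}
    (hm : resCard (below K w) = 2 * m + 1)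
    (half : ∀ Q : JJ (ff (rts Ω a)), ∃ R, (2 : ℕ) • R = Q)
    (fin : {Q : JJ (ff (rts Ω a)) | (∀ s ∈ dec K w, ga a s Q = Q) ∧
      ∃ i : ℕ, (2 : ℕ) ^ i • Q = 0}.Finite) :
    Dat (ga a) (dec K w) sg ph (iotaM Ω a) (dotE g) (m : ZMod 2) where
  sg_mem := iner_le_dec K w hsg.1
  ph_mem := hph.mem
  inj := Subtype.val_injective.comp iota_injective
  range Q hQ := by
    obtain ⟨x, hx, hx'⟩ := io_range (rts Ω a) hQ
    exact ⟨⟨x, hx⟩, hx'⟩
  two x := two_io _
  fix s _ x := ga_io a s _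
  half := half
  det := det_loc h hsg hph
  fin := fin
  alt := dotE_alt
  nondeg x hx := dotE_nd x fun y => by rw [dotE_comm]; exact hx y
  isot Q R _ _ x y h1 h2 h3 h4 := by
    rw [sub_eq_iff_eq_add', iotaM_apply] at h1 h2 h3 h4
    exact E4.isot_jac h.two hsg.1 hph hm (fun i => sg.commutes (a i)) (fun i => ph.commutes (a i))
      h1 h2 h3 h4

/-- **E6** at the place `w`. -/
theorem e6_loc [IsGalois K Ω] [IsSepClosed Ω] [Infinite K] (h : LocHyp K w π)
    (half : ∀ Q : JJ (ff (rts Ω a)), ∃ R, (2 : ℕ) • R = Q)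
    (fin : {Q : JJ (ff (rts Ω a)) | (∀ s ∈ dec K w, ga a s Q = Q) ∧
      ∃ i : ℕ, (2 : ℕ) ^ i • Q = 0}.Finite) (j : ℕ) (Q : JJ (ff (rts Ω a)))
    (hQ : ∀ s ∈ dec K w, (2 : ℕ) ^ j • (ga a s Q - Q) = 0) :
    ∃ Q' : JJ (ff (rts Ω a)), (∃ i : ℕ, (2 : ℕ) ^ i • Q' = 0) ∧
      ∀ s ∈ dec K w, ga a s Q - Q = ga a s Q' - Q' := by
  obtain ⟨m, hm⟩ := exists_half_resCard h
  obtain ⟨sg, hsg⟩ := exists_sg h
  have := h.fin
  obtain ⟨ph, hph⟩ := exists_frob (K := K) w
  exact (dat_loc h hsg hph hm half fin).e6 j Q hQ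

end Pool.Agent.SmJ.E6
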