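import Pool.Agent.Lib.SmJ.E.NearRoot
import Pool.Agent.Lib.SmD.Defs

/-!
SMITH for Jacobians (MP_950c68_ag), block E3: the integral roots of the integral, residually nonzero,
split polynomials of bounded degree with coefficients fixed by the decomposition group lie in
finitely many small balls.
-/

set_option autoImplicit false

open Polynomial IsLocalRing

namespace Pool.Agent.SmJ

open SmJE Pool.Agent.Lib.SmD

variable {K Om : Type} [Field K] [Field Om] [Algebra K Om] {w : ValuationSubring Om}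

omit [Algebra K Om] [Field K] in
/-- values of polynomials with close coefficients -/
theorem eval_close {τ : w.ValueGroup} {n : ℕ} {P P' : (w : Type)[X]} (hP : P.natDegree ≤ n)
    (hP' : P'.natDegree ≤ n)
    (h : ∀ j, j ≤ n → w.valuation (((P.coeff j : w) : Om) - (P'.coeff j : w)) ≤ τ) (x : w) :
    w.valuation (((P.eval x : w) : Om) - (P'.eval x : w)) ≤ τ := by
  have e1 : P.eval x = ∑ j ∈ Finset.range (n + 1), P.coeff j * x ^ j :=
    Polynomial.eval_eq_sum_range' (by omega) x
  have e2 : P'.eval x = ∑ j ∈ Finset.range (n + 1), P'.coeff j * x ^ j :=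
    Polynomial.eval_eq_sum_range' (by omega) x
  have e3 : ((P.eval x : w) : Om) - (P'.eval x : w) =
      ∑ j ∈ Finset.range (n + 1), (((P.coeff j : w) : Om) - (P'.coeff j : w)) * (x : Om) ^ j := by
    have e4 : ((P.eval x : w) : Om) - (P'.eval x : w) = ((P.eval x - P'.eval x : w) : Om) := rfl
    rw [e4, e1, e2, ← Finset.sum_sub_distrib]
    have e5 : ((∑ j ∈ Finset.range (n + 1), (P.coeff j * x ^ j - P'.coeff j * x ^ j) : w) : Om) =
        ∑ j ∈ Finset.range (n + 1), ((P.coeff j * x ^ j - P'.coeff j * x ^ j : w) : Om) :=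
      map_sum (algebraMap w Om) _ _
    rw [e5]
    refine Finset.sum_congr rfl fun j _ => ?_
    have e6 : ((P.coeff j * x ^ j - P'.coeff j * x ^ j : w) : Om) =
        (P.coeff j : w) * (x : Om) ^ j - (P'.coeff j : w) * (x : Om) ^ j := rfl
    rw [e6]
    ring
  rw [e3]
  refine Valuation.map_sum_le _ fun j hj => ?_
  rw [map_mul, map_pow]
  have h1 := h j (by
    have := Finset.mem_range.mp hj
    omega)
  have h2 : w.valuation (x : Om) ^ j ≤ 1 := pow_le_one' (w.valuation_le_one x) j
  calc w.valuation (((P.coeff j : w) : Om) - (P'.coeff j : w)) * w.valuation (x : Om) ^ j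
      ≤ τ * 1 := mul_le_mul' h1 h2
    _ = τ := mul_one τ

theorem fin_roots {ι : Type*} (N : ι → (w : Type)[X]) {n : ℕ} (hdeg : ∀ i, (N i).natDegree ≤ n)
    (hres : ∀ i, (N i).map (residue w) ≠ 0)
    (hspl : ∀ i, ((N i).map (algebraMap w Om)).Splits)
    (hfix : ∀ i j, ∀ s ∈ dec K w, s (((N i).coeff j : w) : Om) = ((N i).coeff j : w))
    {t : K} (hFin : ∃ Fs : Set Om, Fs.Finite ∧ ∀ u, w.valuation u ≤ 1 →
      (∀ s ∈ dec K w, s u = u) → ∃ v ∈ Fs, w.valuation (u - v) ≤ w.valuation (algebraMap K Om t))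
    {δ : w.ValueGroup} (hδ : δ ≤ 1) (htδ : w.valuation (algebraMap K Om t) < δ ^ n) :
    ∃ R : Set Om, R.Finite ∧ ∀ (i : ι) (x : w), (N i).eval x = 0 →
      ∃ r ∈ R, w.valuation ((x : Om) - r) < δ := by
  classical
  obtain ⟨Fs, hFs, hFs'⟩ := hFin
  have hfs : Finite Fs := hFs.to_subtype
  have h1 : ∀ i, ∀ j : Fin (n + 1), ∃ v : Fs,
      w.valuation ((((N i).coeff j : w) : Om) - v) ≤ w.valuation (algebraMap K Om t) := by
    intro i j
    obtain ⟨v, hv, hv'⟩ := hFs' _ (w.valuation_le_one ((N i).coeff j)) (hfix i j)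
    exact ⟨⟨v, hv⟩, hv'⟩
  choose c hc using h1
  have hrange : (Set.range c).Finite := Set.toFinite _
  have hsel : ∀ κ : Set.range c, ∃ i, c i = κ := fun κ => κ.2
  choose sel hsel' using hsel
  have hfr : Finite (Set.range c) := hrange.to_subtype
  refine ⟨⋃ κ : Set.range c, {r | r ∈ ((N (sel κ)).map (algebraMap w Om)).roots}, ?_, ?_⟩
  · refine Set.finite_iUnion fun κ => ?_
    refine (((N (sel κ)).map (algebraMap w Om)).roots.toFinset.finite_toSet).subset ?_
    intro r hr
    exact Finset.mem_coe.mpr (Multiset.mem_toFinset.mpr hr)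
  · intro i x hx
    set κ : Set.range c := ⟨c i, i, rfl⟩ with hκ
    have e : c (sel κ) = c i := hsel' κ
    have hclose : ∀ j, j ≤ n → w.valuation ((((N (sel κ)).coeff j : w) : Om) -
        ((N i).coeff j : w)) ≤ w.valuation (algebraMap K Om t) := by
      intro j hj
      have a1 := hc (sel κ) ⟨j, by omega⟩
      have a2 := hc i ⟨j, by omega⟩
      rw [e] at a1
      have e1 : (((N (sel κ)).coeff j : w) : Om) - ((N i).coeff j : w) =
          ((((N (sel κ)).coeff j : w) : Om) - (c i ⟨j, by omega⟩ : Om)) -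
          ((((N i).coeff j : w) : Om) - (c i ⟨j, by omega⟩ : Om)) := by ring
      rw [e1]
      exact (w.valuation.map_sub _ _).trans (max_le a1 a2)
    have h2 := eval_close (hdeg (sel κ)) (hdeg i) hclose x
    rw [hx] at h2
    have e2 : (((N (sel κ)).eval x : w) : Om) - ((0 : w) : Om) = ((N (sel κ)).eval x : w) := by
      change _ - (0 : Om) = _
      rw [sub_zero]
    rw [e2] at h2
    obtain ⟨r, hr, hr'⟩ := near_root hδ (hres (sel κ)) (hspl (sel κ)) (hdeg (sel κ))
      (lt_of_le_of_lt h2 htδ)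
    exact ⟨r, Set.mem_iUnion.mpr ⟨κ, hr⟩, hr'⟩

end Pool.Agent.SmJ
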