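import Pool.Agent.Lib.SmJ.E.FinCode
import Pool.Agent.Lib.SmJ.E.Good

/-!
SMITH for Jacobians (MP_950c68_ag), block E3: the classes of 2-power order which are fixed up to sign
by the decomposition group are finite in number (integral model).
-/

set_option autoImplicit false

open Polynomial IsLocalRing

namespace Pool.Agent.SmJ

open SmJE Pool.Agent.Lib.SmD

section scale1

variable {Om : Type} [Field Om] (w : ValuationSubring Om)

/-- scaling one polynomial by one of its coefficients -/
theorem exists_scale1 {N : Om[X]} (hN : N ≠ 0) : ∃ (m : ℕ) (N0 : (w : Type)[X]), N.coeff m ≠ 0 ∧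
    N0.map (algebraMap w Om) = C (N.coeff m)⁻¹ * N ∧ N0.map (residue w) ≠ 0 := by
  classical
  have hne : N.support.Nonempty := Polynomial.nonempty_support_iff.mpr hN
  obtain ⟨m, hm, hmax⟩ := Finset.exists_max_image N.support (fun n => w.valuation (N.coeff n)) hne
  have hx0 : N.coeff m ≠ 0 := Polynomial.mem_support_iff.mp hm
  have hv0 : w.valuation (N.coeff m) ≠ 0 := (w.valuation.ne_zero_iff).mpr hx0
  have h1 : C (N.coeff m)⁻¹ * N ∈ Polynomial.lifts (algebraMap w Om) := by
    rw [Polynomial.lifts_iff_coeff_lifts]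
    intro n
    rw [coeff_C_mul]
    refine ⟨⟨(N.coeff m)⁻¹ * N.coeff n, ?_⟩, rfl⟩
    by_cases hn : n ∈ N.support
    · rw [← w.valuation_le_one_iff, map_mul, map_inv₀,
        inv_mul_le_iff₀ (zero_lt_iff.mpr hv0), mul_one]
      exact hmax n hn
    · rw [Polynomial.notMem_support_iff.mp hn, mul_zero]
      exact zero_mem w
  obtain ⟨N0, hN0⟩ := (Polynomial.mem_lifts _).mp h1
  refine ⟨m, N0, hx0, hN0, fun h0 => ?_⟩
  have e1 : N0.coeff m = 1 := by
    apply inj_w w
    have e := congrArg (fun q => q.coeff m) hN0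
    simp only [coeff_map, coeff_C_mul] at e
    rw [e, inv_mul_cancel₀ hx0, map_one]
  have e2 := congrArg (fun q => q.coeff m) h0
  simp only [coeff_map, coeff_zero, e1, map_one] at e2
  exact one_ne_zero e2

end scale1

section mv

variable {Om : Type} [Field Om]

theorem mv_map (σ : Om →+* Om) (U V D : Om[X]) (l : Om) :
    (mv U V D l).map σ = mv (U.map σ) (V.map σ) (D.map σ) (σ l) := by
  simp [mv]

theorem mv_neg (U V D : Om[X]) (l : Om) : mv U (-V) D l = mv U V D (-l) := by
  simp only [mv, C_neg]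
  ring

theorem natDegree_mv_le {U V D : Om[X]} {n : ℕ} (hU : U.natDegree ≤ n) (hV : V.natDegree ≤ n)
    (hD : D.natDegree ≤ n) (l : Om) : (mv U V D l).natDegree ≤ n := by
  have e : mv U V D l = D + C (2 * l) * V - C (l ^ 2) * U := by
    rw [mv, C_mul, C_pow, Pool.Agent.SmJE.two_eq]
  rw [e]
  refine (natDegree_sub_le _ _).trans (max_le ?_ ?_)
  · refine (natDegree_add_le _ _).trans (max_le hD ?_)
    exact (natDegree_C_mul_le _ _).trans hV
  · exact (natDegree_C_mul_le _ _).trans hU

end mv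

variable {K Om : Type} [Field K] [Field Om] [Algebra K Om] {w : ValuationSubring Om}

/-- the data attached to a class which is fixed up to sign -/
theorem exists_data [IsSepClosed Om] [Infinite K] {F : Om[X]} [Hyp F] {g : ℕ}
    (hg : F.natDegree = 2 * g + 1)
    (hDF : ∀ s ∈ dec K w, F.map (((s : Om ≃ₐ[K] Om) : Om ≃+* Om) : Om →+* Om) = F) {Q : JJ F}
    (hQ : ∀ s (hs : s ∈ dec K w), act (s : Om ≃+* Om) (hDF s hs) Q = Q ∨
      act (s : Om ≃+* Om) (hDF s hs) Q = -Q) :
    ∃ (N : (w : Type)[X]) (m : Multiset (Pnt F)), N.natDegree ≤ 2 * (2 * g + 1) ∧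
      N.map (residue w) ≠ 0 ∧ (N.map (algebraMap w Om)).Splits ∧
      (∀ j, ∀ s ∈ dec K w, s ((N.coeff j : w) : Om) = (N.coeff j : w)) ∧
      m.card ≤ 2 * g + 1 ∧ Q = (m.map fun P => P.cl).sum ∧
      ∀ P ∈ m, (N.map (algebraMap w Om)).eval P.x = 0 := by
  obtain ⟨U, V, hU, hUg, hV, ⟨D, hD⟩, rfl⟩ := exists_red hg Q
  have h : F = V ^ 2 + U * D := by linear_combination hD
  have hV2 : V.natDegree ≤ g := by
    by_cases hV0 : V = 0
    · rw [hV0, natDegree_zero]
      omega
    · have := (natDegree_lt_natDegree_iff hV0).mpr hV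
      omega
  have hD0 : D ≠ 0 := by
    rintro rfl
    rw [mul_zero, add_zero] at h
    have e := congrArg natDegree h
    rw [natDegree_pow, hg] at e
    omega
  have hDd : D.natDegree ≤ 2 * g + 1 := by
    have e := congrArg natDegree hD
    rw [natDegree_mul hU.ne_zero hD0] at e
    have e1 : (F - V ^ 2).natDegree ≤ max F.natDegree (V ^ 2).natDegree := natDegree_sub_le _ _
    rw [natDegree_pow, hg] at e1
    omega
  -- the parameter
  have hbad := finite_bad h hU.ne_zero (by omega)
  have hbad2 : {l : Om | ¬ (mv U V D (-l)).Separable}.Finite :=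
    (hbad.preimage (neg_injective.injOn)).subset fun l hl => hl
  have hfin : {l : K | ¬ (mv U V D (algebraMap K Om l)).Separable ∨
      ¬ (mv U V D (-algebraMap K Om l)).Separable}.Finite := by
    refine ((hbad.union hbad2).preimage ((algebraMap K Om).injective.injOn)).subset ?_
    intro l hl
    exact hl
  obtain ⟨l, hl⟩ := hfin.exists_notMem
  rw [Set.mem_ofPred_eq, not_or, not_not, not_not] at hl
  obtain ⟨hl1, hl2⟩ := hl
  set x := algebraMap K Om l with hx
  set N := mv U V D x * mv U V D (-x) with hN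
  have hN0 : N ≠ 0 := mul_ne_zero hl1.ne_zero hl2.ne_zero
  have hNfix : ∀ s ∈ dec K w, N.map (((s : Om ≃ₐ[K] Om) : Om ≃+* Om) : Om →+* Om) = N := by
    intro s hs
    have hsx : (((s : Om ≃ₐ[K] Om) : Om ≃+* Om) : Om →+* Om) x = x := s.commutes l
    have hcase : U.map (((s : Om ≃ₐ[K] Om) : Om ≃+* Om) : Om →+* Om) = U ∧
        (V.map (((s : Om ≃ₐ[K] Om) : Om ≃+* Om) : Om →+* Om) = V ∨
          V.map (((s : Om ≃ₐ[K] Om) : Om ≃+* Om) : Om →+* Om) = -V) := by
      rcases hQ s hs with h1 | h1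
      · obtain ⟨a1, a2⟩ := fixed_pair hg _ (hDF s hs) hU hUg hV ⟨D, hD⟩ h1
        exact ⟨a1, Or.inl a2⟩
      · obtain ⟨a1, a2⟩ := inverted_pair hg _ (hDF s hs) hU hUg hV ⟨D, hD⟩ h1
        exact ⟨a1, Or.inr a2⟩
    have hDs : D.map (((s : Om ≃ₐ[K] Om) : Om ≃+* Om) : Om →+* Om) = D := by
      have e := congrArg (Polynomial.map (((s : Om ≃ₐ[K] Om) : Om ≃+* Om) : Om →+* Om)) h
      rw [hDF s hs, Polynomial.map_add, Polynomial.map_pow, Polynomial.map_mul, hcase.1] at e
      have e2 : U * D.map (((s : Om ≃ₐ[K] Om) : Om ≃+* Om) : Om →+* Om) = U * D := by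
        rcases hcase.2 with h2 | h2
        · rw [h2] at e
          linear_combination h - e
        · rw [h2] at e
          linear_combination h - e
      exact mul_left_cancel₀ hU.ne_zero e2
    rw [hN, Polynomial.map_mul, mv_map, mv_map, hcase.1, hDs, map_neg, hsx]
    rcases hcase.2 with h2 | h2
    · rw [h2]
    · rw [h2, mv_neg, mv_neg, neg_neg, mul_comm]
  obtain ⟨m, N0, hm0, hN0', hN0r⟩ := exists_scale1 w hN0
  obtain ⟨s, hs1, hs2⟩ := mcl_points h hU.ne_zero hl1
  have hcoef : ∀ j, ((N0.coeff j : w) : Om) = (N.coeff m)⁻¹ * N.coeff j := by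
    intro j
    have e := congrArg (fun q => q.coeff j) hN0'
    simp only [coeff_map, coeff_C_mul] at e
    exact e
  refine ⟨N0, s, ?_, hN0r, ?_, ?_, ?_, hs2, ?_⟩
  · have e := congrArg natDegree hN0'
    rw [natDegree_map_eq_of_injective (inj_w w), natDegree_C_mul (inv_ne_zero hm0)] at e
    rw [e, hN, two_mul (2 * g + 1)]
    refine natDegree_mul_le.trans (Nat.add_le_add ?_ ?_)
    · exact natDegree_mv_le (by omega) (by omega) hDd _
    · exact natDegree_mv_le (by omega) (by omega) hDd _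
  · rw [hN0']
    refine Splits.mul (Splits.C _) (Splits.mul ?_ ?_)
    · exact IsSepClosed.splits_of_separable _ hl1
    · exact IsSepClosed.splits_of_separable _ hl2
  · intro j σ hσ
    have hc : ∀ i, σ (N.coeff i) = N.coeff i := by
      intro i
      have e := congrArg (fun q => q.coeff i) (hNfix σ hσ)
      simp only [coeff_map] at e
      exact e
    rw [hcoef, map_mul, map_inv₀, hc, hc]
  · have e : s.card = (mv U V D x).roots.card := by rw [hs1, Multiset.card_map]
    rw [e]
    exact (card_roots' _).trans (natDegree_mv_le (by omega) (by omega) hDd _)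
  · intro P hP
    have h1 : P.x ∈ (mv U V D x).roots := by
      rw [hs1]
      exact Multiset.mem_map_of_mem _ hP
    have h2 := (mem_roots'.mp h1).2
    rw [IsRoot.def] at h2
    rw [hN0', eval_mul, hN, eval_mul, h2, zero_mul, mul_zero]

/-- **E3**, integral model -/
theorem fin_int [IsSepClosed Om] [Infinite K] [Infinite (ResidueField w)] {f : (w : Type)[X]}
    [Hyp (f.map (algebraMap w Om))] (hfm : f.Monic) (h2 : w.valuation 2 = 1)
    (hDF : ∀ s ∈ dec K w, (f.map (algebraMap w Om)).map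
      (((s : Om ≃ₐ[K] Om) : Om ≃+* Om) : Om →+* Om) = f.map (algebraMap w Om))
    {r : K} {ρ : w} (hr : algebraMap K Om r = (ρ : Om)) (hρ0 : ρ ≠ 0)
    (hρ : ∀ x : w, f.eval x ∣ ρ ∨ f.derivative.eval x ∣ ρ)
    (hFin : ∀ t : K, t ≠ 0 → ∃ Fs : Set Om, Fs.Finite ∧ ∀ u, w.valuation u ≤ 1 →
      (∀ s ∈ dec K w, s u = u) → ∃ v ∈ Fs, w.valuation (u - v) ≤ w.valuation (algebraMap K Om t))
    (hπ : ∃ π : K, π ≠ 0 ∧ w.valuation (algebraMap K Om π) < 1) :
    {Q : JJ (f.map (algebraMap w Om)) | (∃ j : ℕ, 2 ^ j • Q = 0) ∧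
      ∀ s (hs : s ∈ dec K w), act (s : Om ≃+* Om) (hDF s hs) Q = Q ∨
        act (s : Om ≃+* Om) (hDF s hs) Q = -Q}.Finite := by
  classical
  obtain ⟨g, hg⟩ := Hyp.odd (f := f.map (algebraMap w Om))
  have hfd : f.natDegree = 2 * g + 1 := by rw [← hfm.natDegree_map (algebraMap w Om), hg]
  have h2u : IsUnit (2 : w) := by
    rw [w.valuation_eq_one_iff]
    exact h2
  set F := f.map (algebraMap w Om) with hFdef
  set S : Set (JJ F) := {Q | (∃ j : ℕ, 2 ^ j • Q = 0) ∧
      ∀ s (hs : s ∈ dec K w), act (s : Om ≃+* Om) (hDF s hs) Q = Q ∨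
        act (s : Om ≃+* Om) (hDF s hs) Q = -Q} with hS
  have hdat : ∀ Q : S, ∃ (N : (w : Type)[X]) (m : Multiset (Pnt F)),
      N.natDegree ≤ 2 * (2 * g + 1) ∧
      N.map (residue w) ≠ 0 ∧ (N.map (algebraMap w Om)).Splits ∧
      (∀ j, ∀ s ∈ dec K w, s ((N.coeff j : w) : Om) = (N.coeff j : w)) ∧
      m.card ≤ 2 * g + 1 ∧ (Q : JJ F) = (m.map fun P => P.cl).sum ∧
      ∀ P ∈ m, (N.map (algebraMap w Om)).eval P.x = 0 := fun Q => exists_data hg hDF Q.2.2
  choose N m hN1 hN2 hN3 hN4 hm1 hm2 hm3 using hdat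
  -- the constants
  have hρ' : (ρ : Om) ≠ 0 := fun h0 => hρ0 (Subtype.ext h0)
  have hvρ0 : w.valuation (ρ : Om) ≠ 0 := (w.valuation.ne_zero_iff).mpr hρ'
  have hvρ1 : w.valuation (ρ : Om) ≤ 1 := w.valuation_le_one ρ
  obtain ⟨π, hπ0, hπ1⟩ := hπ
  have hr0 : r ≠ 0 := by
    rintro rfl
    rw [map_zero] at hr
    exact hρ' hr.symm
  set n := 2 * (2 * g + 1) with hn
  set δ : w.ValueGroup := w.valuation (ρ : Om) ^ 2 with hδdef
  have hδ : δ ≤ 1 := pow_le_one' hvρ1 2
  have ht0 : π * (r ^ 2) ^ n ≠ 0 := mul_ne_zero hπ0 (pow_ne_zero _ (pow_ne_zero _ hr0))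
  have htδ : w.valuation (algebraMap K Om (π * (r ^ 2) ^ n)) < δ ^ n := by
    rw [map_mul, map_pow, map_pow, hr, map_mul, map_pow, map_pow]
    have hpos : 0 < δ ^ n := zero_lt_iff.mpr (pow_ne_zero _ (pow_ne_zero _ hvρ0))
    calc w.valuation (algebraMap K Om π) * δ ^ n < 1 * δ ^ n :=
          mul_lt_mul_of_pos_right hπ1 hpos
      _ = δ ^ n := one_mul _
  obtain ⟨R, hR, hR'⟩ := fin_roots (K := K) N hN1 hN2 hN3 hN4 (hFin _ ht0) hδ htδ
  -- the finite set of points
  set PP : Set (Pnt F) := {P | P.x ∈ R} with hPP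
  have hPPfin : PP.Finite := by
    have h1 : (⋃ r ∈ R, {P : Pnt F | P.x = r}).Finite := by
      refine hR.biUnion fun r _ => ?_
      have h3 : {y : Om | y ^ 2 = F.eval r}.Finite := by
        by_cases hex : ∃ z : Om, z ^ 2 = F.eval r
        · obtain ⟨z, hz⟩ := hex
          refine ((Set.finite_singleton z).union (Set.finite_singleton (-z))).subset ?_
          intro y hy
          have e : (y - z) * (y + z) = 0 := by
            have : y ^ 2 = F.eval r := hy
            linear_combination this - hz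
          rcases mul_eq_zero.mp e with h0 | h0
          · left
            exact sub_eq_zero.mp h0
          · right
            exact eq_neg_of_add_eq_zero_left h0
        · refine Set.finite_empty.subset fun y hy => hex ⟨y, hy⟩
      refine Set.Finite.of_injOn (f := fun P : Pnt F => P.y) ?_ ?_ h3
      · intro P hP
        have e : P.x = r := hP
        change P.y ^ 2 = F.eval r
        rw [P.on, e]
      · intro P hP P' hP' hy
        have e : P.x = r := hP
        have e' : P'.x = r := hP'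
        exact Pnt.ext (by rw [e, e']) hy
    refine h1.subset fun P hP => ?_
    exact Set.mem_iUnion₂.mpr ⟨P.x, hP, rfl⟩
  -- the quotient
  set q : JJ F →+ (JJ F ⧸ Hs w f ρ) := QuotientAddGroup.mk' (Hs w f ρ) with hq
  set T : Set (JJ F ⧸ Hs w f ρ) := insert 0 ((fun P : Pnt F => q P.cl) '' PP) with hT
  have hTfin : T.Finite := (hPPfin.image _).insert 0
  have hpt : ∀ (Q : S) (P : Pnt F), P ∈ m Q → q P.cl ∈ T := by
    intro Q P hP
    by_cases hPx : w.valuation P.x ≤ 1
    · obtain ⟨a, b, ha, hb, hab⟩ := int_y (f := f) hPx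
      have hroot : (N Q).eval a = 0 := by
        apply inj_w w
        rw [map_zero, ← hm3 Q P hP, ← ha]
        exact (Polynomial.eval_map_apply _ _).symm
      obtain ⟨r1, hr1, hr1'⟩ := hR' Q a hroot
      have hax : ((a : w) : Om) = P.x := ha
      rw [hax] at hr1'
      have hδρ : δ ≤ w.valuation (ρ : Om) := by
        rw [hδdef, pow_two]
        exact mul_le_of_le_one_left' hvρ1
      have hr1w : w.valuation r1 ≤ 1 := by
        have e : r1 = P.x - (P.x - r1) := by ring
        rw [e]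
        exact (w.valuation.map_sub _ _).trans (max_le hPx (hr1'.le.trans hδ))
      -- a point over `r1`
      obtain ⟨z, hz⟩ := exists_sqrt_sc (Hyp.two F) (F.eval r1)
      obtain ⟨y1, hy1, hy1'⟩ : ∃ y1 : Om, y1 ^ 2 = F.eval r1 ∧
          w.valuation (P.y - y1) < w.valuation (ρ : Om) := by
        have hprod : (P.y - z) * (P.y + z) = F.eval P.x - F.eval r1 := by
          linear_combination P.on - hz
        obtain ⟨c, hc⟩ : ∃ c : w, F.eval P.x - F.eval r1 = (P.x - r1) * (c : Om) := by
          have hr1m : r1 ∈ w := (w.valuation_le_one_iff _).mp hr1w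
          obtain ⟨c, hc⟩ := Polynomial.sub_dvd_eval_sub a (⟨r1, hr1m⟩ : w) f
          refine ⟨c, ?_⟩
          have e1 := congrArg (algebraMap w Om) hc
          rw [map_sub, map_mul, map_sub, ← Polynomial.eval_map_apply,
            ← Polynomial.eval_map_apply] at e1
          rw [ha] at e1
          exact e1
        have hle : w.valuation ((P.y - z) * (P.y + z)) < δ := by
          rw [hprod, hc, map_mul]
          calc w.valuation (P.x - r1) * w.valuation (c : Om) ≤ w.valuation (P.x - r1) * 1 :=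
                mul_le_mul' le_rfl (w.valuation_le_one c)
            _ = w.valuation (P.x - r1) := mul_one _
            _ < δ := hr1'
        by_cases h3 : w.valuation (P.y - z) < w.valuation (ρ : Om)
        · exact ⟨z, hz, h3⟩
        · refine ⟨-z, by rw [neg_sq]; exact hz, ?_⟩
          rw [sub_neg_eq_add]
          by_contra h4
          rw [not_lt] at h3 h4
          rw [map_mul] at hle
          have h5 : δ ≤ w.valuation (P.y - z) * w.valuation (P.y + z) := by
            rw [hδdef, pow_two]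
            exact mul_le_mul' h3 h4
          exact absurd hle (not_lt.mpr h5)
      set P1 : Pnt F := ⟨r1, y1, hy1⟩ with hP1
      have hmem : P1.cl - P.cl ∈ Hs w f ρ := by
        refine AddSubgroup.subset_closure (Or.inr ⟨P1, P, hr1w, ?_, hy1', rfl⟩)
        exact lt_of_lt_of_le hr1' hδρ
      have e : q P.cl = q P1.cl := by
        rw [eq_comm, ← sub_eq_zero, ← map_sub]
        exact (QuotientAddGroup.eq_zero_iff _).mpr hmem
      rw [e]
      exact Or.inr ⟨P1, hr1, rfl⟩
    · left
      exact (QuotientAddGroup.eq_zero_iff _).mpr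
        (AddSubgroup.subset_closure (Or.inl ⟨P, not_le.mp hPx, rfl⟩))
  have hfinal := finite_sums hTfin (2 * g + 1)
  refine Set.Finite.of_injOn (f := q) ?_ ?_ hfinal
  · intro Q hQ
    refine ⟨(m ⟨Q, hQ⟩).map fun P => q P.cl, ?_, ?_, ?_⟩
    · rw [Multiset.card_map]
      exact hm1 _
    · intro y hy
      obtain ⟨P, hP, rfl⟩ := Multiset.mem_map.mp hy
      exact hpt ⟨Q, hQ⟩ P hP
    · have e := congrArg q (hm2 ⟨Q, hQ⟩)
      rw [map_multiset_sum, Multiset.map_map] at e
      exact e
  · intro Q hQ Q' hQ' he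
    obtain ⟨j, hj⟩ := hQ.1
    obtain ⟨j', hj'⟩ := hQ'.1
    have hmem : Q - Q' ∈ Hs w f ρ := by
      rw [← QuotientAddGroup.eq_zero_iff]
      change q (Q - Q') = 0
      rw [map_sub, he, sub_self]
    have htor : (2 : ℕ) ^ (j + j') • (Q - Q') = 0 := by
      rw [smul_sub, pow_add, mul_comm, mul_smul, hj, smul_zero, mul_comm, mul_smul, hj', smul_zero,
        sub_zero]
    exact sub_eq_zero.mp (Hs_tors (exists_sqrt_sc (Hyp.two F)) hfm hfd h2u hρ0 hρ hmem htor)

end Pool.Agent.SmJ
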