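import Pool.Agent.Lib.SmJ.E.NoTwo

/-!
SMITH for Jacobians (MP_950c68_ag), blocks E2 and E3: the subgroup `Hs` of the Jacobian attached to a
place `w`: it is generated by the points whose abscissa is not integral and by the differences of two
close integral points.  It contains no point of order two.
-/

set_option autoImplicit false

open Polynomial IsLocalRing

namespace Pool.Agent.SmJ

open SmJE

variable {Om : Type} [Field Om] (w : ValuationSubring Om) (f : (w : Type)[X])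
  [Hyp (f.map (algebraMap w Om))] (ρ : w)

/-- the generators of `Hs` -/
def Gens : Set (JJ (f.map (algebraMap w Om))) :=
  {Q | (∃ P : Pnt (f.map (algebraMap w Om)), 1 < w.valuation P.x ∧ Q = P.cl) ∨
    ∃ P P' : Pnt (f.map (algebraMap w Om)), w.valuation P.x ≤ 1 ∧
      w.valuation (P'.x - P.x) < w.valuation ρ ∧ w.valuation (P'.y - P.y) < w.valuation ρ ∧
      Q = P.cl - P'.cl}

/-- the subgroup `Hs` -/
noncomputable def Hs : AddSubgroup (JJ (f.map (algebraMap w Om))) := AddSubgroup.closure (Gens w f ρ)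

/-- the property of the classes which can be added to a generic divisor -/
def Gd (g : ℕ) (Q : JJ (f.map (algebraMap w Om))) : Prop :=
  ∃ Z : Set (ResidueField w), Z.Finite ∧ ∀ U V W : (w : Type)[X], Frm f U V W g →
    (∀ z ∈ Z, (U.map (residue w)).eval z ≠ 0) →
    ∃ U1 V1 W1 : (w : Type)[X], Frm f U1 V1 W1 g ∧ U1.map (residue w) = U.map (residue w) ∧
      V1.map (residue w) = V.map (residue w) ∧
      mcl (f.map (algebraMap w Om)) (U1.map (algebraMap w Om)) (V1.map (algebraMap w Om)) =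
        mcl (f.map (algebraMap w Om)) (U.map (algebraMap w Om)) (V.map (algebraMap w Om)) + Q

variable {w f ρ}

theorem Gd.zero (g : ℕ) : Gd w f g 0 :=
  ⟨∅, Set.finite_empty, fun U V W h _ => ⟨U, V, W, h, rfl, rfl, (add_zero _).symm⟩⟩

theorem Gd.add {g : ℕ} {Q Q' : JJ (f.map (algebraMap w Om))} (h : Gd w f g Q)
    (h' : Gd w f g Q') : Gd w f g (Q + Q') := by
  obtain ⟨Z, hZ, h⟩ := h
  obtain ⟨Z', hZ', h'⟩ := h'
  refine ⟨Z ∪ Z', hZ.union hZ', fun U V W hF hz => ?_⟩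
  obtain ⟨U1, V1, W1, hF1, hU1, hV1, e1⟩ := h U V W hF fun z hzZ => hz z (Or.inl hzZ)
  obtain ⟨U2, V2, W2, hF2, hU2, hV2, e2⟩ := h' U1 V1 W1 hF1 fun z hzZ => by
    rw [hU1]
    exact hz z (Or.inr hzZ)
  exact ⟨U2, V2, W2, hF2, hU2.trans hU1, hV2.trans hV1, by rw [e2, e1, add_assoc]⟩

omit [Hyp (f.map (algebraMap w Om))] in
theorem exists_close {x y : Om} {a : w} (ha : algebraMap w Om a = x) (hρ : ρ ≠ 0)
    (h : w.valuation (y - x) < w.valuation ρ) :
    ∃ m ∈ maximalIdeal w, algebraMap w Om (a + ρ * m) = y := by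
  have hρ0 : (ρ : Om) ≠ 0 := fun h0 => hρ (Subtype.ext h0)
  have hv0 : w.valuation (ρ : Om) ≠ 0 := (w.valuation.ne_zero_iff).mpr hρ0
  have hlt : w.valuation ((y - x) / ρ) < 1 := by
    rw [map_div₀, div_lt_one₀ (zero_lt_iff.mpr hv0)]
    exact h
  refine ⟨⟨(y - x) / ρ, (w.valuation_le_one_iff _).mp hlt.le⟩, ?_, ?_⟩
  · rw [w.valuation_lt_one_iff]
    exact hlt
  · rw [map_add, map_mul, ha]
    change x + (ρ : Om) * ((y - x) / ρ) = y
    field_simp
    ring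

omit [Hyp (f.map (algebraMap w Om))] in
theorem int_y {P : Pnt (f.map (algebraMap w Om))} (h : w.valuation P.x ≤ 1) :
    ∃ a b : w, algebraMap w Om a = P.x ∧ algebraMap w Om b = P.y ∧ b ^ 2 = f.eval a := by
  have hx : P.x ∈ w := (w.valuation_le_one_iff _).mp h
  have e : algebraMap w Om (f.eval ⟨P.x, hx⟩) = P.y ^ 2 := by
    rw [P.on]
    exact (Polynomial.eval_map_apply (algebraMap w Om) ⟨P.x, hx⟩).symm
  have hy : P.y ∈ w := by
    rw [← w.valuation_le_one_iff]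
    have h1 : w.valuation (P.y) ^ 2 ≤ 1 := by
      rw [← map_pow, ← e]
      exact w.valuation_le_one _
    exact (pow_le_one_iff two_ne_zero).mp h1
  refine ⟨⟨P.x, hx⟩, ⟨P.y, hy⟩, rfl, rfl, ?_⟩
  apply inj_w w
  rw [map_pow, e]
  rfl

/-- the differences of close points -/
theorem Gd.close {g : ℕ} (hfm : f.Monic) (hfd : f.natDegree = 2 * g + 1) (h2 : IsUnit (2 : w))
    (hρ0 : ρ ≠ 0) (hρ : ∀ x : w, f.eval x ∣ ρ ∨ f.derivative.eval x ∣ ρ)
    {P P' : Pnt (f.map (algebraMap w Om))} (hP : w.valuation P.x ≤ 1)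
    (hx : w.valuation (P'.x - P.x) < w.valuation ρ)
    (hy : w.valuation (P'.y - P.y) < w.valuation ρ) : Gd w f g (P.cl - P'.cl) := by
  obtain ⟨a, b, ha, hb, hab⟩ := int_y hP
  obtain ⟨m1, hm1, e1⟩ := exists_close ha hρ0 hx
  obtain ⟨m2, hm2, e2⟩ := exists_close hb hρ0 hy
  have hab' : (b + ρ * m2) ^ 2 = f.eval (a + ρ * m1) := by
    apply inj_w w
    rw [map_pow, e2, P'.on, ← e1]
    exact Polynomial.eval_map_apply _ _
  refine ⟨{residue w a}, Set.finite_singleton _, fun U V W hF hz => ?_⟩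
  have hUa : IsUnit (U.eval a) := by
    have h1 := hz _ rfl
    rw [Polynomial.eval_map, Polynomial.eval₂_at_apply] at h1
    by_contra hc
    exact h1 ((residue_eq_zero_iff _).mpr ((mem_maximalIdeal _).mpr hc))
  obtain ⟨U1, V1, W1, hF1, hU1, hV1, hc⟩ := move_int (J := JJ (f.map (algebraMap w Om)))
    (algebraMap w Om) (inj_w w) hF hfm hfd hUa hab hab' h2 hρ0 (hρ a) hm1 hm2 rfl rfl
  refine ⟨U1, V1, W1, hF1, hU1, hV1, ?_⟩
  have h3 := hc (mumf _)
  rw [mumf_cl, mumf_cl, ha, hb, e1, e2, mumf_pt, mumf_pt] at h3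
  rw [add_sub_assoc']
  exact eq_sub_of_add_eq h3

/-- the points which are not integral -/
theorem Gd.inf {g : ℕ} (hfm : f.Monic) (hfd : f.natDegree = 2 * g + 1)
    {P : Pnt (f.map (algebraMap w Om))} (hP : 1 < w.valuation P.x) : Gd w f g P.cl := by
  refine ⟨∅, Set.finite_empty, fun U V W hF _ => ?_⟩
  have hx0 : P.x ≠ 0 := by
    intro h0
    rw [h0, map_zero] at hP
    exact not_lt_zero hP
  obtain ⟨ε, hε, hεa⟩ : ∃ ε ∈ maximalIdeal w, algebraMap w Om ε * P.x = 1 := by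
    rcases val_w w P.x with ⟨r, hr⟩ | h
    · exfalso
      rw [← hr] at hP
      exact not_le.mpr hP (w.valuation_le_one _)
    · exact h
  obtain ⟨U1, V1, W1, hF1, hU1, hV1, hc⟩ := move_inf (J := JJ (f.map (algebraMap w Om)))
    (algebraMap w Om) (inj_w w) (val_w w) hF hfm hfd P.on hε hεa
  refine ⟨U1, V1, W1, hF1, hU1, hV1, ?_⟩
  have h3 := hc (mumf _)
  rwa [mumf_cl, mumf_cl, mumf_pt] at h3

theorem neg_cl (F : Om[X]) [Hyp F] (P : Pnt F) : P.neg.cl = -P.cl := by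
  rw [← mumf_pt, ← mumf_pt]
  exact (mumf F).pt_neg P.on

theorem Hs_gd {g : ℕ} (hfm : f.Monic) (hfd : f.natDegree = 2 * g + 1) (h2 : IsUnit (2 : w))
    (hρ0 : ρ ≠ 0) (hρ : ∀ x : w, f.eval x ∣ ρ ∨ f.derivative.eval x ∣ ρ)
    {Q : JJ (f.map (algebraMap w Om))} (hQ : Q ∈ Hs w f ρ) : Gd w f g Q ∧ Gd w f g (-Q) := by
  induction hQ using AddSubgroup.closure_induction with
  | mem Q hQ =>
    rcases hQ with ⟨P, hP, rfl⟩ | ⟨P, P', hP, hx, hy, rfl⟩
    · refine ⟨Gd.inf hfm hfd hP, ?_⟩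
      rw [← neg_cl]
      exact Gd.inf hfm hfd hP
    · refine ⟨Gd.close hfm hfd h2 hρ0 hρ hP hx hy, ?_⟩
      rw [neg_sub]
      refine Gd.close hfm hfd h2 hρ0 hρ ?_ ?_ ?_
      · have e : P'.x = P.x + (P'.x - P.x) := by ring
        rw [e]
        exact (w.valuation.map_add _ _).trans (max_le hP (hx.le.trans (w.valuation_le_one _)))
      · rwa [w.valuation.map_sub_swap]
      · rwa [w.valuation.map_sub_swap]
  | zero => exact ⟨Gd.zero g, by rw [neg_zero]; exact Gd.zero g⟩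
  | add Q Q' _ _ ih ih' =>
    refine ⟨ih.1.add ih'.1, ?_⟩
    rw [neg_add]
    exact ih.2.add ih'.2
  | neg Q _ ih => exact ⟨ih.2, by rw [neg_neg]; exact ih.1⟩

/-- a class of order two -/
theorem exists_two {F : Om[X]} [Hyp F] {g : ℕ} (hg : F.natDegree = 2 * g + 1) {Q : JJ F}
    (h : (2 : ℕ) • Q = 0) : ∃ m : Om[X], m.Monic ∧ m ∣ F ∧ m.natDegree ≤ g ∧ mcl F m 0 = Q := by
  obtain ⟨U, V, hU, hUg, hV, hd, hc⟩ := exists_red hg Q
  have hneg : mcl F U V = mcl F U (-V) := by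
    rw [mcl_neg hU.ne_zero hd, hc, eq_neg_iff_add_eq_zero, ← two_nsmul]
    exact h
  have hVn : (-V).degree < U.degree := by rwa [degree_neg]
  have hdn : U ∣ F - (-V) ^ 2 := by rwa [neg_sq]
  have hVV := (mcl_inj hg hU hU hUg hUg hV hVn hd hdn hneg).2
  have hV0 : V = 0 := by
    have e : (2 : Om[X]) * V = 0 := by linear_combination hVV
    rcases mul_eq_zero.mp e with h0 | h0
    · exfalso
      have h2 := Hyp.two F
      rw [two_eq, C_eq_zero] at h0
      exact h2 h0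
    · exact h0
  subst hV0
  refine ⟨U, hU, ?_, hUg, hc⟩
  rwa [zero_pow two_ne_zero, sub_zero] at hd

/-- **`Hs` contains no element of order two** -/
theorem Hs_two [Infinite (ResidueField w)] (hs : ∀ x : Om, ∃ y, y ^ 2 = x) {g : ℕ}
    (hfm : f.Monic) (hfd : f.natDegree = 2 * g + 1) (h2 : IsUnit (2 : w))
    (hρ0 : ρ ≠ 0) (hρ : ∀ x : w, f.eval x ∣ ρ ∨ f.derivative.eval x ∣ ρ)
    {Q : JJ (f.map (algebraMap w Om))} (hQ : Q ∈ Hs w f ρ) (h : (2 : ℕ) • Q = 0) : Q = 0 := by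
  have hFd : (f.map (algebraMap w Om)).natDegree = 2 * g + 1 := by rw [hfm.natDegree_map, hfd]
  obtain ⟨m, hm, hmf, hmg, rfl⟩ := exists_two hFd h
  by_cases hd : 1 ≤ m.natDegree
  · exfalso
    obtain ⟨Z, hZ, hG⟩ := (Hs_gd hfm hfd h2 hρ0 hρ hQ).1
    obtain ⟨U, V, W, hF, hcop, hz⟩ := exists_base (algebraMap w Om) (inj_w w) (val_w w) hs hfm
      hZ g
    obtain ⟨U1, V1, W1, hF1, hU1, hV1, e⟩ := hG U V W hF hz
    exact no_two hfm hfd h2 hF hF1 hU1 hV1 hcop hm hmf hd hmg e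
  · have h0 : m = 1 := hm.natDegree_eq_zero.mp (by omega)
    rw [h0, mcl]
    have : mid (f.map (algebraMap w Om)) (1 : Om[X]) 0 = ⊤ := by
      rw [← C_1]
      exact mid_C one_ne_zero
    rw [this, cls_top]

/-- **`Hs` meets the 2-power torsion in 0** -/
theorem Hs_tors [Infinite (ResidueField w)] (hs : ∀ x : Om, ∃ y, y ^ 2 = x) {g : ℕ}
    (hfm : f.Monic) (hfd : f.natDegree = 2 * g + 1) (h2 : IsUnit (2 : w))
    (hρ0 : ρ ≠ 0) (hρ : ∀ x : w, f.eval x ∣ ρ ∨ f.derivative.eval x ∣ ρ)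
    {Q : JJ (f.map (algebraMap w Om))} (hQ : Q ∈ Hs w f ρ) {j : ℕ}
    (h : (2 : ℕ) ^ j • Q = 0) : Q = 0 := by
  induction j with
  | zero => rwa [pow_zero, one_nsmul] at h
  | succ j ih =>
    apply ih
    refine Hs_two hs hfm hfd h2 hρ0 hρ ((Hs w f ρ).nsmul_mem hQ _) ?_
    rw [smul_smul, ← pow_succ']
    exact h

end Pool.Agent.SmJ
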