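import Pool.Agent.Lib.SmJ.E.Ded
import Pool.Agent.Lib.SmJ.E.ClFun

/-!
SMITH for Jacobians (MP_950c68_ag), block E: Mumford ideals `(A, y - B)`, `A ∣ f - B ^ 2`, and the
calculus of their classes.
-/

set_option autoImplicit false

open Polynomial

namespace Pool.Agent.SmJ

variable {Om : Type} [Field Om]

/-- The ideal `(A, y - B)`. -/
noncomputable def mid (f A B : Om[X]) : Ideal (Co f) :=
  Ideal.span {(⟨A, 0⟩ : Co f), ⟨-B, 1⟩}

section basic

variable {f A B : Om[X]}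

theorem fst_mem_mid : (⟨A, 0⟩ : Co f) ∈ mid f A B :=
  Ideal.subset_span (Set.mem_insert _ _)

theorem snd_mem_mid : (⟨-B, 1⟩ : Co f) ∈ mid f A B :=
  Ideal.subset_span (Set.mem_insert_of_mem _ rfl)

theorem mem_mid (h : A ∣ f - B ^ 2) {z : Co f} : z ∈ mid f A B ↔ A ∣ z.re + z.im * B := by
  constructor
  · intro hz
    rw [mid, Ideal.mem_span_pair] at hz
    obtain ⟨u, v, rfl⟩ := hz
    obtain ⟨M, hM⟩ := h
    simp only [QuadraticAlgebra.re_add, QuadraticAlgebra.im_add, QuadraticAlgebra.re_mul,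
      QuadraticAlgebra.im_mul]
    refine ⟨u.re + u.im * B + v.im * M, ?_⟩
    linear_combination v.im * hM
  · rintro ⟨M, hM⟩
    rw [mid, Ideal.mem_span_pair]
    refine ⟨⟨M, 0⟩, ⟨z.im, 0⟩, ?_⟩
    ext1
    · simp only [QuadraticAlgebra.re_add, QuadraticAlgebra.re_mul]
      linear_combination -hM
    · simp only [QuadraticAlgebra.im_add, QuadraticAlgebra.im_mul]
      ring

theorem mid_ne_bot (hA : A ≠ 0) : mid f A B ≠ ⊥ := by
  intro h
  have h1 : (⟨A, 0⟩ : Co f) ∈ mid f A B := fst_mem_mid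
  rw [h, Ideal.mem_bot] at h1
  exact hA (congrArg QuadraticAlgebra.re h1)

theorem dvd_shift (h : A ∣ f - B ^ 2) (M : Om[X]) : A ∣ f - (B + A * M) ^ 2 := by
  have e : f - (B + A * M) ^ 2 = (f - B ^ 2) - A * (2 * B * M + A * M ^ 2) := by ring
  rw [e]
  exact dvd_sub h (Dvd.intro _ rfl)

theorem mid_shift (h : A ∣ f - B ^ 2) (M : Om[X]) : mid f A (B + A * M) = mid f A B := by
  ext z
  rw [mem_mid h, mem_mid (dvd_shift h M)]
  have e : z.re + z.im * (B + A * M) = (z.re + z.im * B) + A * (z.im * M) := by ring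
  rw [e]
  exact dvd_add_left (Dvd.intro _ rfl)

theorem mid_C {c : Om} (hc : c ≠ 0) : mid f (C c) B = ⊤ := by
  rw [Ideal.eq_top_iff_one]
  have h1 : (⟨C c, 0⟩ : Co f) ∈ mid f (C c) B := fst_mem_mid
  have h2 := Ideal.mul_mem_left (mid f (C c) B) (⟨C c⁻¹, 0⟩ : Co f) h1
  have e : (⟨C c⁻¹, 0⟩ : Co f) * ⟨C c, 0⟩ = 1 := by
    ext1
    · simp [← C_mul, inv_mul_cancel₀ hc, QuadraticAlgebra.re_one]
    · simp [QuadraticAlgebra.im_one]
  rwa [e] at h2

theorem mid_C_mul {c : Om} (hc : c ≠ 0) : mid f (C c * A) B = mid f A B := by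
  have hcc : C c⁻¹ * C c = (1 : Om[X]) := by rw [← C_mul, inv_mul_cancel₀ hc, C_1]
  apply le_antisymm
  · rw [mid, Ideal.span_le]
    rintro z (rfl | rfl)
    · have h2 := Ideal.mul_mem_left (mid f A B) (⟨C c, 0⟩ : Co f) fst_mem_mid
      have e : (⟨C c, 0⟩ : Co f) * ⟨A, 0⟩ = ⟨C c * A, 0⟩ := by
        ext1 <;> simp
      rwa [e] at h2
    · exact snd_mem_mid
  · rw [mid, Ideal.span_le]
    rintro z (rfl | rfl)
    · have h2 := Ideal.mul_mem_left (mid f (C c * A) B) (⟨C c⁻¹, 0⟩ : Co f) fst_mem_mid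
      have e : (⟨C c⁻¹, 0⟩ : Co f) * ⟨C c * A, 0⟩ = ⟨A, 0⟩ := by
        ext1
        · simp only [QuadraticAlgebra.re_mul]
          linear_combination A * hcc
        · simp
      rwa [e] at h2
    · exact snd_mem_mid

/-- conjugation -/
theorem mid_map_star : (mid f A B).map (starRingEnd (Co f)) = mid f A (-B) := by
  have e1 : starRingEnd (Co f) ⟨A, 0⟩ = ⟨A, 0⟩ := by
    rw [starRingEnd_apply]
    ext1 <;> simp
  have e2 : starRingEnd (Co f) ⟨-B, 1⟩ = -⟨- -B, 1⟩ := by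
    rw [starRingEnd_apply]
    ext1 <;> simp
  rw [mid, Ideal.map_span, Set.image_pair, e1, e2, mid]
  apply le_antisymm
  · rw [Ideal.span_le]
    rintro z (rfl | rfl)
    · exact Ideal.subset_span (Set.mem_insert _ _)
    · exact neg_mem (Ideal.subset_span (Set.mem_insert_of_mem _ rfl))
  · rw [Ideal.span_le]
    rintro z (rfl | rfl)
    · exact Ideal.subset_span (Set.mem_insert _ _)
    · rw [SetLike.mem_coe, ← neg_mem_iff]
      exact Ideal.subset_span (Set.mem_insert_of_mem _ rfl)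

end basic

section hyp

variable {f : Om[X]} [Hyp f]

/-- no common divisor -/
theorem exists_bezout (A A' B : Om[X]) (h : A * A' ∣ f - B ^ 2) :
    ∃ u v t : Om[X], u * A + v * A' + t * B = 1 := by
  obtain ⟨d, hd⟩ := (IsPrincipalIdealRing.principal (Ideal.span {A, A', B})).principal
  have hmem : ∀ x ∈ ({A, A', B} : Set Om[X]), d ∣ x := by
    intro x hx
    have h1 : x ∈ Ideal.span {A, A', B} := Ideal.subset_span hx
    rw [hd] at h1
    exact Ideal.mem_span_singleton.mp h1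
  have hA : d ∣ A := hmem A (by simp)
  have hA' : d ∣ A' := hmem A' (by simp)
  have hB : d ∣ B := hmem B (by simp)
  have h2 : d * d ∣ f := by
    have e : f = (f - B ^ 2) + B * B := by ring
    rw [e]
    exact dvd_add ((mul_dvd_mul hA hA').trans h) (mul_dvd_mul hB hB)
  have hu : IsUnit d := (Hyp.sep (f := f)).squarefree d h2
  have h1 : (1 : Om[X]) ∈ Ideal.span {A, A', B} := by
    rw [hd]
    exact Ideal.mem_span_singleton.mpr hu.dvd
  rw [Ideal.mem_span_insert] at h1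
  obtain ⟨u, z, hz, e1⟩ := h1
  rw [Ideal.mem_span_pair] at hz
  obtain ⟨v, t, rfl⟩ := hz
  exact ⟨u, v, t, by rw [e1]; ring⟩

theorem two_inv (f : Om[X]) [Hyp f] : C (2⁻¹ : Om) * 2 = 1 := by
  have e : (2 : Om[X]) = C 2 := (map_ofNat C 2).symm
  rw [e, ← C_mul, inv_mul_cancel₀ (Hyp.two f), C_1]

theorem mid_mul {A A' B : Om[X]} (h : A * A' ∣ f - B ^ 2) :
    mid f A B * mid f A' B = mid f (A * A') B := by
  have hA : A ∣ f - B ^ 2 := (Dvd.intro _ rfl).trans h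
  have hA' : A' ∣ f - B ^ 2 := (Dvd.intro_left _ rfl).trans h
  apply le_antisymm
  · rw [Ideal.mul_le]
    intro z hz w hw
    rw [mem_mid hA] at hz
    rw [mem_mid hA'] at hw
    rw [mem_mid h]
    have e : (z * w).re + (z * w).im * B =
        (z.re + z.im * B) * (w.re + w.im * B) + (f - B ^ 2) * (z.im * w.im) := by
      simp only [QuadraticAlgebra.re_mul, QuadraticAlgebra.im_mul]
      ring
    rw [e]
    exact dvd_add (mul_dvd_mul hz hw) (h.mul_right _)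
  · rw [mid, Ideal.span_le]
    have m1 : (⟨A, 0⟩ : Co f) * ⟨A', 0⟩ ∈ mid f A B * mid f A' B :=
      Ideal.mul_mem_mul fst_mem_mid fst_mem_mid
    rintro z (rfl | rfl)
    · have e : (⟨A, 0⟩ : Co f) * ⟨A', 0⟩ = ⟨A * A', 0⟩ := by
        ext1 <;> simp
      rw [SetLike.mem_coe, ← e]
      exact m1
    · obtain ⟨u, v, t, huvt⟩ := exists_bezout A A' B h
      obtain ⟨M, hM⟩ := h
      have m2 : (⟨A, 0⟩ : Co f) * ⟨-B, 1⟩ ∈ mid f A B * mid f A' B :=
        Ideal.mul_mem_mul fst_mem_mid snd_mem_mid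
      have m3 : (⟨-B, 1⟩ : Co f) * ⟨A', 0⟩ ∈ mid f A B * mid f A' B :=
        Ideal.mul_mem_mul snd_mem_mid fst_mem_mid
      have m4 : (⟨-B, 1⟩ : Co f) * ⟨-B, 1⟩ ∈ mid f A B * mid f A' B :=
        Ideal.mul_mem_mul snd_mem_mid snd_mem_mid
      have e : (⟨-B, 1⟩ : Co f) = ⟨u, 0⟩ * (⟨A, 0⟩ * ⟨-B, 1⟩) + ⟨v, 0⟩ * (⟨-B, 1⟩ * ⟨A', 0⟩) +
          ⟨-C 2⁻¹ * t, 0⟩ * (⟨-B, 1⟩ * ⟨-B, 1⟩) + ⟨C 2⁻¹ * t * M, 0⟩ * (⟨A, 0⟩ * ⟨A', 0⟩) := by
        have h2 := two_inv f
        ext1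
        · simp only [QuadraticAlgebra.re_add, QuadraticAlgebra.re_mul, QuadraticAlgebra.im_mul]
          linear_combination B * huvt + (C 2⁻¹ * t) * hM + (B ^ 2 * t) * h2
        · simp only [QuadraticAlgebra.im_add, QuadraticAlgebra.im_mul, QuadraticAlgebra.re_mul]
          linear_combination (-1) * huvt - (B * t) * h2
      rw [SetLike.mem_coe, e]
      exact add_mem (add_mem (add_mem (Ideal.mul_mem_left _ _ m2) (Ideal.mul_mem_left _ _ m3))
        (Ideal.mul_mem_left _ _ m4)) (Ideal.mul_mem_left _ _ m1)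

theorem mid_flip {A B D : Om[X]} (h : f = B ^ 2 + A * D) :
    mid f A B * mid f D B = Ideal.span {(⟨-B, 1⟩ : Co f)} := by
  rw [mid_mul ⟨1, by linear_combination h⟩]
  apply le_antisymm
  · rw [mid, Ideal.span_le]
    rintro z (rfl | rfl)
    · rw [SetLike.mem_coe, Ideal.mem_span_singleton']
      refine ⟨⟨B, 1⟩, ?_⟩
      ext1
      · simp only [QuadraticAlgebra.re_mul]
        linear_combination h
      · simp only [QuadraticAlgebra.im_mul]
        ring
    · exact Ideal.mem_span_singleton_self _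
  · rw [Ideal.span_le]
    rintro z rfl
    exact snd_mem_mid

theorem mid_conj {A B : Om[X]} (h : A ∣ f - B ^ 2) :
    mid f A B * mid f A (-B) = Ideal.span {(⟨A, 0⟩ : Co f)} := by
  have hn : A ∣ f - (-B) ^ 2 := by rwa [neg_sq]
  apply le_antisymm
  · rw [Ideal.mul_le]
    intro z hz w hw
    rw [mem_mid h] at hz
    rw [mem_mid hn] at hw
    obtain ⟨P, hP⟩ := hz
    obtain ⟨Q, hQ⟩ := hw
    obtain ⟨M, hM⟩ := h
    rw [Ideal.mem_span_singleton']
    refine ⟨⟨P * w.re - z.im * B * Q + z.im * w.im * M, P * w.im + z.im * Q⟩, ?_⟩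
    ext1
    · simp only [QuadraticAlgebra.re_mul]
      linear_combination (-w.re) * hP + (z.im * B) * hQ - (z.im * w.im) * hM
    · simp only [QuadraticAlgebra.im_mul]
      linear_combination (-w.im) * hP - z.im * hQ
  · rw [Ideal.span_le]
    rintro z rfl
    obtain ⟨M, hM⟩ := h
    obtain ⟨u, v, t, huvt⟩ := exists_bezout (f := f) A M B ⟨1, by linear_combination hM⟩
    have m1 : (⟨A, 0⟩ : Co f) * ⟨A, 0⟩ ∈ mid f A B * mid f A (-B) :=
      Ideal.mul_mem_mul fst_mem_mid fst_mem_mid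
    have m2 : (⟨A, 0⟩ : Co f) * ⟨- -B, 1⟩ ∈ mid f A B * mid f A (-B) :=
      Ideal.mul_mem_mul fst_mem_mid snd_mem_mid
    have m3 : (⟨-B, 1⟩ : Co f) * ⟨A, 0⟩ ∈ mid f A B * mid f A (-B) :=
      Ideal.mul_mem_mul snd_mem_mid fst_mem_mid
    have m4 : (⟨-B, 1⟩ : Co f) * ⟨- -B, 1⟩ ∈ mid f A B * mid f A (-B) :=
      Ideal.mul_mem_mul snd_mem_mid snd_mem_mid
    have e : (⟨A, 0⟩ : Co f) = ⟨u, 0⟩ * (⟨A, 0⟩ * ⟨A, 0⟩) + ⟨v, 0⟩ * (⟨-B, 1⟩ * ⟨- -B, 1⟩) +
        ⟨C 2⁻¹ * t, 0⟩ * (⟨A, 0⟩ * ⟨- -B, 1⟩) + ⟨-C 2⁻¹ * t, 0⟩ * (⟨-B, 1⟩ * ⟨A, 0⟩) := by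
      have h2 := two_inv f
      ext1
      · simp only [QuadraticAlgebra.re_add, QuadraticAlgebra.re_mul, QuadraticAlgebra.im_mul]
        linear_combination (-A) * huvt - v * hM - (t * A * B) * h2
      · simp only [QuadraticAlgebra.im_add, QuadraticAlgebra.im_mul, QuadraticAlgebra.re_mul]
        ring
    rw [SetLike.mem_coe, e]
    exact add_mem (add_mem (add_mem (Ideal.mul_mem_left _ _ m1) (Ideal.mul_mem_left _ _ m4))
      (Ideal.mul_mem_left _ _ m2)) (Ideal.mul_mem_left _ _ m3)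

/-- The class of the ideal `(A, y - B)`. -/
noncomputable def mcl (f : Om[X]) [Hyp f] (A B : Om[X]) : JJ f := cls (mid f A B)

/-- the class calculus -/
noncomputable def mumf (f : Om[X]) [Hyp f] : SmJE.ClFun f (JJ f) where
  cl := mcl f
  shift M _ h := by rw [mcl, mid_shift h, mcl]
  mul {A A' B} h0 h := by
    rw [mcl, ← mid_mul h, cls_mul (mid_ne_bot (left_ne_zero_of_mul h0))
      (mid_ne_bot (right_ne_zero_of_mul h0))]
    rfl
  flip {A B D} hA hD h := by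
    rw [mcl, mcl, ← cls_mul (mid_ne_bot hA) (mid_ne_bot hD), mid_flip h, cls_span]
  conj {A B} hA h := by
    rw [eq_neg_iff_add_eq_zero, add_comm, mcl, mcl, ← cls_mul (mid_ne_bot hA) (mid_ne_bot hA),
      mid_conj h, cls_span]

theorem mumf_cl (A B : Om[X]) : (mumf f).cl A B = mcl f A B := rfl

/-- the class of a point -/
theorem mumf_pt (P : Pnt f) : (mumf f).pt P.x P.y = P.cl := by
  change mcl f (X - C P.x) (C P.y) = cls P.idl
  rw [mcl]
  congr 1
  ext z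
  rw [mem_mid (SmJE.ClFun.dvd_pt P.on), Pnt.mem_idl, Polynomial.dvd_iff_isRoot,
    Polynomial.IsRoot.def]
  simp

end hyp

end Pool.Agent.SmJ
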