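import Mathlib
import Pool.Agent.Lib.SmJ.E.Cop

/-!
SMITH for Jacobians (MP_950c68_ag), block E: the Kummer formula (K).

`kum`: if `2 Q` is the class of `I0`, `I0` prime to the branch points with norm `U0`, then there are
`ρ i` with `ρ i ^ 2 = (-1) ^ deg U0 * U0 (a i)` such that `σ (ρ i) = ± ρ (π i)` for every automorphism
`σ` fixing `I0` and permuting the roots by `π`, with sign `-1` exactly for `π i ∈ S`, where
`σ Q = Q + ∑ i ∈ S, ee i`, `S` even.
-/

set_option autoImplicit false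
set_option linter.unusedSectionVars false

open Polynomial

namespace Pool.Agent.SmJ

variable {Om : Type} [Field Om] {g : ℕ} {a : Fin (2 * g + 1) → Om} [HypA a]

theorem isNm_pair {I I0 : Ideal (Co (ff a))} {U U0 : Om[X]} (hI : IsNm I U) (hI0 : IsNm I0 U0)
    {h : Co (ff a)} (e : I ^ 2 * cj I0 = Ideal.span {h}) :
    IsNm (Ideal.span {h}) (U ^ 2 * U0) := by
  rw [← e]
  exact (hI.pow 2).mul hI0.conj

theorem xt_sq {I I0 : Ideal (Co (ff a))} {U U0 : Om[X]} (hI : IsNm I U) (hI0 : IsNm I0 U0)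
    {h : Co (ff a)} (e : I ^ 2 * cj I0 = Ideal.span {h}) (hh : lcc h = 1)
    (i : Fin (2 * g + 1)) : (br a i).ev h ^ 2 =
      (-1) ^ U0.natDegree * (U.eval (a i) ^ 2 * U0.eval (a i)) := by
  obtain ⟨-, h2⟩ := IsNm.norm_eq hh (isNm_pair hI hI0 e)
  rw [br_ev_sq, h2, eval_mul, eval_C, eval_mul, eval_pow,
    natDegree_mul (pow_ne_zero 2 hI.monic.ne_zero) hI0.monic.ne_zero, natDegree_pow, pow_add,
    pow_mul, neg_one_sq, one_pow, one_mul]

theorem ev_coMap (σ : Om ≃+* Om) (hσ : (ff a).map (σ : Om →+* Om) = ff a)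
    {π : Fin (2 * g + 1) → Fin (2 * g + 1)} (hπ : ∀ i, σ (a i) = a (π i)) (z : Co (ff a))
    (i : Fin (2 * g + 1)) : (br a (π i)).ev (coMap σ hσ z) = σ ((br a i).ev z) := by
  rw [br_ev, br_ev, coMap_re, ← hπ]
  exact eval_map_apply (σ : Om →+* Om) (a i)

theorem xt_act {I I0 : Ideal (Co (ff a))} {U : Om[X]} (hI : IsNm I U)
    {h : Co (ff a)} (e : I ^ 2 * cj I0 = Ideal.span {h}) (hh : lcc h = 1)
    (hU : ∀ i, U.eval (a i) ≠ 0) (σ : Om ≃+* Om) (hσ : (ff a).map (σ : Om →+* Om) = ff a)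
    {π : Fin (2 * g + 1) → Fin (2 * g + 1)} (hπ : ∀ i, σ (a i) = a (π i))
    (hfix : I0.map (coMap σ hσ : Co (ff a) →+* Co (ff a)) = I0) (S : Finset (Fin (2 * g + 1)))
    {z : Co (ff a)} (ez : I.map (coMap σ hσ : Co (ff a) →+* Co (ff a)) * cj I * PS a S =
      Ideal.span {z}) (hz : lcc z = 1) (i : Fin (2 * g + 1)) (hi : π i ∉ S) :
    σ ((br a i).ev h) * U.eval (a (π i)) =
      (-1) ^ S.card * σ (U.eval (a i)) * (br a (π i)).ev h := by
  set I' := I.map (coMap σ hσ : Co (ff a) →+* Co (ff a)) with hI'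
  have hI'n : IsNm I' (U.map (σ : Om →+* Om)) := hI.map σ hσ
  -- the relation between the generators
  have e1 : z ^ 2 * h = po (ff a) (U ^ 2 * fS a S) * coMap σ hσ h := by
    apply gen_unique
    · have e2 : Ideal.span {coMap σ hσ h} = I' ^ 2 * cj I0 := by
        have := congrArg (Ideal.map (coMap σ hσ : Co (ff a) →+* Co (ff a))) e
        rw [Ideal.map_mul, Ideal.map_pow, ← cj_map, hfix, Ideal.map_span, Set.image_singleton]
          at this
        exact this.symm
      rw [← Ideal.span_singleton_mul_span_singleton, ← Ideal.span_singleton_pow, ← ez, ← e,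
        ← Ideal.span_singleton_mul_span_singleton, e2, map_mul,
        ← Ideal.span_singleton_mul_span_singleton, map_pow, ← Ideal.span_singleton_pow, ← hI.eq,
        ← PS_mul_self]
      ring
    · rw [lcc_mul, lcc_pow, hz, hh, one_pow, one_mul]
    · rw [lcc_mul, lcc_po, lcc_coMap, hh, map_one, mul_one]
      exact (hI.monic.pow 2).mul (fS_monic a S)
  have e3 := congrArg (br a (π i)).ev e1
  rw [map_mul, map_mul, map_pow, Pnt.ev_po, ev_coMap σ hσ hπ] at e3
  have e4 : IsNm (Ideal.span {z}) (U.map (σ : Om →+* Om) * U * fS a S) := by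
    rw [← ez]
    exact (hI'n.mul hI.conj).mul (isNm_PS a S)
  obtain ⟨-, e5⟩ := IsNm.norm_eq hz e4
  have e6 : (U.map (σ : Om →+* Om)).eval (a (π i)) = σ (U.eval (a i)) := by
    rw [← hπ]
    exact eval_map_apply (σ : Om →+* Om) (a i)
  have e7 : (br a (π i)).ev z ^ 2 =
      (-1) ^ S.card * (σ (U.eval (a i)) * U.eval (a (π i)) * (fS a S).eval (a (π i))) := by
    rw [br_ev_sq, e5, eval_mul, eval_C, eval_mul, eval_mul, e6,
      natDegree_mul (mul_ne_zero hI'n.monic.ne_zero hI.monic.ne_zero) (fS_monic a S).ne_zero,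
      natDegree_mul hI'n.monic.ne_zero hI.monic.ne_zero, natDegree_map, natDegree_fS, pow_add,
      ← two_mul, pow_mul, neg_one_sq, one_pow, one_mul]
  rw [e7] at e3
  change _ = (U ^ 2 * fS a S).eval (a (π i)) * _ at e3
  rw [eval_mul, eval_pow] at e3
  have h1 := hU (π i)
  have h2 := fS_eval_ne a hi
  apply mul_right_cancel₀ (mul_ne_zero h1 h2)
  linear_combination -e3

/-- **The Kummer formula.** -/
theorem kum {Q : JJ (ff a)} {I0 : Ideal (Co (ff a))} {U0 : Om[X]} (hI0 : IsNm I0 U0)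
    (h2 : cls I0 = 2 • Q) :
    ∃ ρ : Fin (2 * g + 1) → Om,
      (∀ i, ρ i ^ 2 = (-1) ^ U0.natDegree * U0.eval (a i)) ∧
      ∀ (σ : Om ≃+* Om) (hσ : (ff a).map (σ : Om →+* Om) = ff a)
        (π : Fin (2 * g + 1) → Fin (2 * g + 1)), (∀ i, σ (a i) = a (π i)) →
        I0.map (coMap σ hσ : Co (ff a) →+* Co (ff a)) = I0 →
        ∀ S : Finset (Fin (2 * g + 1)), Even S.card →
        act σ hσ Q = Q + ∑ i ∈ S, ee a i →
        ∀ i, (π i ∉ S → σ (ρ i) = ρ (π i)) ∧ (π i ∈ S → σ (ρ i) = -ρ (π i)) := by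
  classical
  obtain ⟨I, U, hQ, hI, hU⟩ := exists_prime_to a Q
  have hI0' : cls (cj I0) = -cls I0 := by
    have h := congrArg cls hI0.eq
    rw [cls_mul hI0.ne_bot hI0.conj.ne_bot, cls_span] at h
    exact (neg_eq_of_add_eq_zero_right h).symm
  have hcjI : cls (cj I) = -cls I := by
    have h := congrArg cls hI.eq
    rw [cls_mul hI.ne_bot hI.conj.ne_bot, cls_span] at h
    exact (neg_eq_of_add_eq_zero_right h).symm
  have hne : I ^ 2 * cj I0 ≠ ⊥ := mul_ne_zero (pow_ne_zero 2 hI.ne_bot) hI0.conj.ne_bot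
  obtain ⟨h0, hh0⟩ : ∃ h, I ^ 2 * cj I0 = Ideal.span {h} := by
    rw [← cls_eq_zero_iff hne, cls_mul (pow_ne_zero 2 hI.ne_bot) hI0.conj.ne_bot,
      cls_pow hI.ne_bot, hI0', h2, hQ, add_neg_cancel]
  obtain ⟨h, eh, hh⟩ := exists_gen hne hh0
  refine ⟨fun i => (br a i).ev h / U.eval (a i), fun i => ?_, ?_⟩
  · rw [div_pow, xt_sq hI hI0 eh hh i, div_eq_iff (pow_ne_zero 2 (hU i))]
    ring
  · intro σ hσ π hπ hfix S hS hact
    have hI' : I.map (coMap σ hσ : Co (ff a) →+* Co (ff a)) ≠ ⊥ := (hI.map σ hσ).ne_bot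
    have hclsI' : cls (I.map (coMap σ hσ : Co (ff a) →+* Co (ff a))) = Q + cls (PS a S) := by
      rw [← act_cls, hQ, hact, cls_PS]
    -- the generator for a set in the class of `PS S`
    have key : ∀ T : Finset (Fin (2 * g + 1)), cls (PS a T) = cls (PS a S) →
        ∀ i, π i ∉ T → σ ((br a i).ev h / U.eval (a i)) =
          (-1) ^ T.card * ((br a (π i)).ev h / U.eval (a (π i))) := by
      intro T hT i hi
      have hne' : I.map (coMap σ hσ : Co (ff a) →+* Co (ff a)) * cj I * PS a T ≠ ⊥ :=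
        mul_ne_zero (mul_ne_zero hI' hI.conj.ne_bot) (PS_ne_bot a T)
      obtain ⟨z0, hz0⟩ : ∃ z, I.map (coMap σ hσ : Co (ff a) →+* Co (ff a)) * cj I * PS a T =
          Ideal.span {z} := by
        rw [← cls_eq_zero_iff hne', cls_mul (mul_ne_zero hI' hI.conj.ne_bot) (PS_ne_bot a T),
          cls_mul hI' hI.conj.ne_bot, hclsI', hcjI, hQ, hT]
        have := cls_PS_add_self a S
        rw [add_comm Q, add_neg_cancel_right, this]
      obtain ⟨z, ez, hz⟩ := exists_gen hne' hz0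
      have hx := xt_act hI eh hh hU σ hσ hπ hfix T ez hz i hi
      have hσU : σ (U.eval (a i)) ≠ 0 := fun h0 => hU i ((map_eq_zero_iff σ σ.injective).mp h0)
      rw [map_div₀, div_eq_iff hσU, ← mul_right_inj' (hU (π i))]
      have h3 : U.eval (a (π i)) ≠ 0 := hU (π i)
      field_simp
      linear_combination hx
    intro i
    constructor
    · intro hi
      have := key S rfl i hi
      rw [hS.neg_one_pow, one_mul] at this
      exact this
    · intro hi
      have h3 := key Sᶜ (cls_PS_compl a S) i (by rw [Finset.mem_compl, not_not]; exact hi)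
      have hodd : Odd Sᶜ.card := by
        rw [Finset.card_compl, Fintype.card_fin]
        have hle : S.card ≤ 2 * g + 1 := by
          have := S.card_le_univ
          rwa [Fintype.card_fin] at this
        exact Nat.Odd.sub_even hle ⟨g, rfl⟩ hS
      rw [hodd.neg_one_pow, neg_one_mul] at h3
      exact h3

end Pool.Agent.SmJ
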