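import Mathlib
import Pool.Agent.Lib.SmJ.E.XT
import Pool.Agent.Lib.SmJ.E.Mumf

/-!
SMITH for Jacobians (MP_950c68_ag), block E: the Kummer formula for a reduced Mumford pair.

`V ^ 2 - U W = f`, `U` monic, `deg V < deg U ≤ g`, `2 Q` = class of `(U, y - V)`. With
`al U W i = (-1) ^ deg U * U (a i)`, or `(-1) ^ deg U * W (a i)` if `U (a i) = 0`:
there are `ρ i ≠ 0`, `ρ i ^ 2 = al U W i`, with `σ (ρ i) = ± ρ (π i)` for all `σ ∈ H`
(automorphisms fixing `U`, `V` and infinitely many `τ`), the sign being `-1` iff `π i ∈ S`,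
`σ Q = Q + ∑ i ∈ S, ee i`, `S` even.
-/

set_option autoImplicit false
set_option linter.unusedSectionVars false

open Polynomial

namespace Pool.Agent.SmJ

variable {Om : Type} [Field Om]

theorem mu_eq_mid {f : Om[X]} (U V : Om[X]) : mu (f := f) U V = mid f U V := by
  have h : yy f - po f V = (⟨-V, 1⟩ : Co f) := by
    ext1
    · simp [yy]
    · simp [yy]
  rw [mu, mid, h]
  rfl

variable {g : ℕ} {a : Fin (2 * g + 1) → Om} [HypA a]

/-- The `x`-coordinate of a reduced Mumford pair at the branch points. -/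
noncomputable def al (a : Fin (2 * g + 1) → Om) (U W : Om[X]) (i : Fin (2 * g + 1)) : Om :=
  open Classical in (-1) ^ U.natDegree * if U.eval (a i) = 0 then W.eval (a i) else U.eval (a i)

theorem eval_eq {U V W : Om[X]} (e : V ^ 2 - U * W = ff a) (i : Fin (2 * g + 1)) :
    V.eval (a i) ^ 2 = U.eval (a i) * W.eval (a i) := by
  have h := congrArg (eval (a i)) e
  rw [ff_eval_br, eval_sub, eval_pow, eval_mul, sub_eq_zero] at h
  exact h

theorem W_eval_ne {U V W : Om[X]} (e : V ^ 2 - U * W = ff a) {i : Fin (2 * g + 1)}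
    (h : U.eval (a i) = 0) : V.eval (a i) = 0 ∧ W.eval (a i) ≠ 0 := by
  have h1 := eval_eq e i
  rw [h, zero_mul] at h1
  have h2 : V.eval (a i) = 0 := pow_eq_zero_iff two_ne_zero |>.mp h1
  refine ⟨h2, fun h3 => ?_⟩
  have d1 : X - C (a i) ∣ U := dvd_iff_isRoot.mpr h
  have d2 : X - C (a i) ∣ V := dvd_iff_isRoot.mpr h2
  have d3 : X - C (a i) ∣ W := dvd_iff_isRoot.mpr h3
  have d4 : (X - C (a i)) * (X - C (a i)) ∣ ff a := by
    rw [← e, sq]
    exact dvd_sub (mul_dvd_mul d2 d2) (mul_dvd_mul d1 d3)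
  have hu := (Hyp.sep (f := ff a)).squarefree _ d4
  exact not_isUnit_X_sub_C (a i) hu

theorem al_ne_zero {U V W : Om[X]} (e : V ^ 2 - U * W = ff a) (i : Fin (2 * g + 1)) :
    al a U W i ≠ 0 := by
  rw [al]
  refine mul_ne_zero (pow_ne_zero _ (neg_ne_zero.mpr one_ne_zero)) ?_
  split_ifs with h
  · exact (W_eval_ne e h).2
  · exact h

/-- The moved polynomial. -/
noncomputable def wt (U V W : Om[X]) (τ : Om) : Om[X] := C (τ ^ 2) * U - C (2 * τ) * V + W

theorem wt_eq {U V W : Om[X]} (e : V ^ 2 - U * W = ff a) (τ : Om) :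
    (C τ * U - V) ^ 2 - ff a = U * wt U V W τ := by
  rw [← e, wt, C_pow, C_mul, C_ofNat]
  ring

theorem wt_eval (U V W : Om[X]) (τ x : Om) :
    (wt U V W τ).eval x = U.eval x * τ ^ 2 - 2 * V.eval x * τ + W.eval x := by
  simp only [wt, eval_add, eval_sub, eval_mul, eval_C]
  ring

/-- In an infinite set there is `τ` with `wt U V W τ` nonzero at the branch points. -/
theorem exists_tau {U V W : Om[X]} (e : V ^ 2 - U * W = ff a) {T : Set Om} (hT : T.Infinite) :
    ∃ τ ∈ T, ∀ i, (wt U V W τ).eval (a i) ≠ 0 := by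
  classical
  let P : Fin (2 * g + 1) → Om[X] := fun i =>
    C (U.eval (a i)) * X ^ 2 - C (2 * V.eval (a i)) * X + C (W.eval (a i))
  have hP : ∀ i, P i ≠ 0 := by
    intro i h0
    have h2 := congrArg (fun q => q.coeff 2) h0
    have h3 := congrArg (fun q => q.coeff 0) h0
    simp only [P, coeff_add, coeff_sub, coeff_C_mul, coeff_X_pow, coeff_X, coeff_C, coeff_zero] at h2 h3
    norm_num at h2 h3
    exact (W_eval_ne e h2).2 h3
  have hne : ∏ i, P i ≠ 0 := Finset.prod_ne_zero_iff.mpr fun i _ => hP i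
  obtain ⟨τ, hτ, hτ'⟩ := hT.exists_notMem_finset (∏ i, P i).roots.toFinset
  refine ⟨τ, hτ, fun i h0 => hτ' ?_⟩
  rw [Multiset.mem_toFinset, mem_roots hne, IsRoot, eval_prod]
  refine Finset.prod_eq_zero (Finset.mem_univ i) ?_
  rw [wt_eval] at h0
  simp only [P, eval_add, eval_sub, eval_mul, eval_C, eval_pow, eval_X]
  exact h0

theorem W_deg {U V W : Om[X]} (hU : U.Monic) (hV : V.degree < U.degree) (hg : U.natDegree ≤ g)
    (e : V ^ 2 - U * W = ff a) :
    W.natDegree = 2 * g + 1 - U.natDegree ∧ W.leadingCoeff = -1 := by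
  have h1 : (V ^ 2).degree < (ff a).degree := by
    by_cases hV0 : V = 0
    · rw [hV0]
      simp only [ne_eq, OfNat.ofNat_ne_zero, not_false_eq_true, zero_pow, degree_zero]
      exact bot_lt_iff_ne_bot.mpr (degree_ne_bot.mpr (ff_ne_zero a))
    · have h2 : V.natDegree < U.natDegree := natDegree_lt_natDegree hV0 hV
      rw [degree_eq_natDegree (pow_ne_zero 2 hV0), degree_eq_natDegree (ff_ne_zero a),
        natDegree_pow, natDegree_ff, Nat.cast_lt]
      omega
  have h2 : U * W = V ^ 2 - ff a := by rw [← e]; ring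
  have h3 : (U * W).natDegree = 2 * g + 1 := by
    rw [h2, natDegree_sub_eq_right_of_natDegree_lt, natDegree_ff]
    by_cases hV0 : V ^ 2 = 0
    · rw [hV0, natDegree_zero, natDegree_ff]
      omega
    · exact natDegree_lt_natDegree hV0 h1
  have h4 : (U * W).leadingCoeff = -1 := by
    rw [h2, leadingCoeff_sub_of_degree_lt' h1, (ff_monic a).leadingCoeff]
  have hW : W ≠ 0 := by
    rintro rfl
    rw [mul_zero, natDegree_zero] at h3
    omega
  rw [natDegree_mul hU.ne_zero hW] at h3
  rw [leadingCoeff_mul, hU.leadingCoeff, one_mul] at h4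
  exact ⟨by omega, h4⟩

theorem wt_deg {U V W : Om[X]} (hU : U.Monic) (hV : V.degree < U.degree) (hg : U.natDegree ≤ g)
    (e : V ^ 2 - U * W = ff a) (τ : Om) :
    (wt U V W τ).natDegree = 2 * g + 1 - U.natDegree ∧ (wt U V W τ).leadingCoeff = -1 := by
  obtain ⟨h1, h2⟩ := W_deg hU hV hg e
  have hW : W ≠ 0 := by
    intro h
    rw [h, leadingCoeff_zero] at h2
    exact neg_ne_zero.mpr one_ne_zero h2.symm
  have h3 : (C (τ ^ 2) * U - C (2 * τ) * V).degree < W.degree := by
    have h4 : (C (τ ^ 2) * U - C (2 * τ) * V).degree ≤ U.degree := by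
      refine (degree_sub_le _ _).trans (max_le ?_ ?_)
      · exact (degree_mul_le _ _).trans ((add_le_add_left degree_C_le _).trans (by rw [zero_add]))
      · exact ((degree_mul_le _ _).trans ((add_le_add_left degree_C_le _).trans
          (by rw [zero_add]))).trans hV.le
    refine lt_of_le_of_lt h4 ?_
    rw [degree_eq_natDegree hU.ne_zero, degree_eq_natDegree hW, h1, Nat.cast_lt]
    omega
  rw [wt]
  refine ⟨?_, ?_⟩
  · rw [natDegree_add_eq_right_of_degree_lt h3, h1]
  · rw [leadingCoeff_add_of_degree_lt h3, h2]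

/-- **The Kummer formula for a reduced pair.** -/
theorem kform {U V W : Om[X]} (hU : U.Monic) (hV : V.degree < U.degree) (hg : U.natDegree ≤ g)
    (e : V ^ 2 - U * W = ff a) {Q : JJ (ff a)} (h2 : mcl (ff a) U V = 2 • Q)
    {H : Set (Om ≃+* Om)} (hT : {τ : Om | ∀ σ ∈ H, σ τ = τ}.Infinite)
    (hHU : ∀ σ ∈ H, U.map (σ : Om →+* Om) = U) (hHV : ∀ σ ∈ H, V.map (σ : Om →+* Om) = V) :
    ∃ ρ : Fin (2 * g + 1) → Om, (∀ i, ρ i ^ 2 = al a U W i) ∧
      ∀ σ ∈ H, ∀ (hσ : (ff a).map (σ : Om →+* Om) = ff a)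
        (π : Fin (2 * g + 1) → Fin (2 * g + 1)), (∀ i, σ (a i) = a (π i)) →
        ∀ S : Finset (Fin (2 * g + 1)), Even S.card →
        act σ hσ Q = Q + ∑ i ∈ S, ee a i →
        ∀ i, (π i ∉ S → σ (ρ i) = ρ (π i)) ∧ (π i ∈ S → σ (ρ i) = -ρ (π i)) := by
  obtain ⟨τ, hτ, hne⟩ := exists_tau e hT
  obtain ⟨d1, d2⟩ := wt_deg hU hV hg e τ
  set w := wt U V W τ with hw
  set V' := C τ * U - V with hV'
  have e1 : V' ^ 2 - ff a = U * w := wt_eq e τ
  have hw0 : w ≠ 0 := by
    intro h
    rw [h, leadingCoeff_zero] at d2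
    exact neg_ne_zero.mpr one_ne_zero d2.symm
  have hwm : (-w).Monic := by rw [Monic, leadingCoeff_neg, d2, neg_neg]
  have hdvd : -w ∣ V' ^ 2 - ff a := ⟨-U, by rw [e1]; ring⟩
  have hI0 : IsNm (mu (f := ff a) (-w) V') (-w) := isNm_mu hwm hdvd
  have hcl : cls (mu (f := ff a) (-w) V') = 2 • Q := by
    rw [mu_eq_mid, ← h2]
    change mcl (ff a) (-w) V' = mcl (ff a) U V
    have f1 := (mumf (ff a)).flip (A := U) (C := -w) (B := V') hU.ne_zero (neg_ne_zero.mpr hw0)
      (by linear_combination -e1)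
    have f2 := (mumf (ff a)).shift (A := U) (B := -V) (C τ) hU.ne_zero
      ⟨-W, by linear_combination -e⟩
    have f3 := (mumf (ff a)).conj (A := U) (B := V) hU.ne_zero ⟨-W, by linear_combination -e⟩
    rw [mumf_cl, mumf_cl] at f1 f2 f3
    have f4 : -V + U * C τ = V' := by rw [hV']; ring
    rw [f4] at f2
    rw [f2, f3] at f1
    exact (neg_add_eq_zero.mp f1).symm
  obtain ⟨ρ, hρ, hρ'⟩ := kum hI0 hcl
  -- compare `-w (a i)` and `al`
  have hsgn : ∀ i, (-1 : Om) ^ (-w).natDegree * (-w).eval (a i) =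
      (-1) ^ U.natDegree * w.eval (a i) := by
    intro i
    have hle : U.natDegree ≤ 2 * g + 1 := by omega
    have h5 : (-1 : Om) ^ (2 * g + 1 - U.natDegree) * (-1) = (-1) ^ U.natDegree := by
      have h6 : (-1 : Om) ^ (2 * g + 1 - U.natDegree) * (-1) ^ U.natDegree = -1 := by
        rw [← pow_add, Nat.sub_add_cancel hle, pow_succ, pow_mul, neg_one_sq, one_pow, one_mul]
      have h7 : (-1 : Om) ^ U.natDegree * (-1) ^ U.natDegree = 1 := by
        rw [← mul_pow, neg_one_mul, neg_neg, one_pow]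
      linear_combination ((-1 : Om) ^ (2 * g + 1 - U.natDegree)) * h7 - (-1) ^ U.natDegree * h6
    rw [natDegree_neg, d1, eval_neg, ← h5]
    ring
  classical
  -- the explicit constants
  let c : Fin (2 * g + 1) → Om := fun i =>
    if U.eval (a i) = 0 then 1 else V'.eval (a i) / U.eval (a i)
  have hcne : ∀ i, c i ≠ 0 := by
    intro i
    by_cases h0 : U.eval (a i) = 0
    · simp only [c, if_pos h0]
      exact one_ne_zero
    · simp only [c, if_neg h0]
      refine div_ne_zero ?_ h0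
      intro h1
      have h3 := congrArg (eval (a i)) e1
      rw [eval_sub, eval_pow, h1, ff_eval_br, eval_mul] at h3
      have h4 : U.eval (a i) * w.eval (a i) = 0 := by rw [← h3]; ring
      exact (mul_ne_zero h0 (hne i)) h4
  have hcsq : ∀ i, ρ i ^ 2 = al a U W i * c i ^ 2 := by
    intro i
    by_cases h0 : U.eval (a i) = 0
    · simp only [c, if_pos h0]
      rw [hρ, hsgn, al, if_pos h0, hw, wt_eval, h0, (W_eval_ne e h0).1]
      ring
    · simp only [c, if_neg h0]
      rw [hρ, hsgn, al, if_neg h0]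
      have h3 := congrArg (eval (a i)) e1
      rw [eval_sub, eval_pow, ff_eval_br, sub_zero, eval_mul] at h3
      rw [div_pow, h3]
      field_simp
  refine ⟨fun i => ρ i / c i, fun i => ?_, ?_⟩
  · rw [div_pow, hcsq, mul_div_assoc, div_self (pow_ne_zero 2 (hcne i)), mul_one]
  · intro σ hσH hσ π hπ S hS hact i
    have hfU := hHU σ hσH
    have hfV := hHV σ hσH
    have hfτ : σ τ = τ := hτ σ hσH
    have hfW : W.map (σ : Om →+* Om) = W := by
      have h3 : U * (W.map (σ : Om →+* Om)) = U * W := by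
        have h4 := congrArg (Polynomial.map (σ : Om →+* Om)) e
        rw [hσ, Polynomial.map_sub, Polynomial.map_pow, Polynomial.map_mul, hfU, hfV] at h4
        linear_combination e - h4
      exact mul_left_cancel₀ hU.ne_zero h3
    have hτC : (C τ : Om[X]).map (σ : Om →+* Om) = C τ := by
      rw [map_C]
      congr 1
    have hfV' : V'.map (σ : Om →+* Om) = V' := by
      rw [hV', Polynomial.map_sub, Polynomial.map_mul, hfU, hfV, hτC]
    have hfw : (-w).map (σ : Om →+* Om) = -w := by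
      have h3 : w.map (σ : Om →+* Om) = w := by
        have h5 : U * (w.map (σ : Om →+* Om)) = U * w := by
          have h4 := congrArg (Polynomial.map (σ : Om →+* Om)) e1
          rw [Polynomial.map_sub, Polynomial.map_pow, Polynomial.map_mul, hσ, hfU, hfV'] at h4
          rw [← h4, e1]
        exact mul_left_cancel₀ hU.ne_zero h5
      rw [Polynomial.map_neg, h3]
    have hfix : (mu (f := ff a) (-w) V').map (coMap σ hσ : Co (ff a) →+* Co (ff a)) =
        mu (-w) V' := by
      rw [map_mu, hfw, hfV']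
    have hev : ∀ (p : Om[X]), p.map (σ : Om →+* Om) = p → σ (p.eval (a i)) = p.eval (a (π i)) := by
      intro p hp
      have := (eval_map_apply (σ : Om →+* Om) (a i) (p := p)).symm
      rw [hp] at this
      rw [← hπ]
      exact this
    have hσc : σ (c i) = c (π i) := by
      by_cases h0 : U.eval (a i) = 0
      · have h1 : U.eval (a (π i)) = 0 := by rw [← hev U hfU, h0, map_zero]
        simp only [c, if_pos h0, if_pos h1, map_one]
      · have h1 : U.eval (a (π i)) ≠ 0 := by
          rw [← hev U hfU]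
          exact fun h => h0 ((map_eq_zero_iff σ σ.injective).mp h)
        simp only [c, if_neg h0, if_neg h1, map_div₀, hev U hfU, hev V' hfV']
    obtain ⟨k1, k2⟩ := hρ' σ hσ π hπ hfix S hS hact i
    constructor
    · intro hi
      rw [map_div₀, k1 hi, hσc]
    · intro hi
      rw [map_div₀, k2 hi, hσc, neg_div]

end Pool.Agent.SmJ
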