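import Pool.Agent.Lib.SmJ.E.MoveInt

/-!
SMITH for Jacobians, blocks E2 and E3: the move `[D] + [P] = [D₁]` for a point `P` whose abscissa is
not integral.
-/

set_option autoImplicit false

open Polynomial IsLocalRing

namespace Pool.Agent.SmJE

variable {R : Type*} [CommRing R] [IsDomain R]

/-- values at a large element -/
theorem eval_large {Om : Type*} [Field Om] (i : R →+* Om) {ε : R} {a : Om} (hεa : i ε * a = 1)
    (P : R[X]) (n : ℕ) (hP : P.natDegree ≤ n) :
    ∃ s : R, (P.map i).eval a * i ε ^ n = i (P.coeff n + ε * s) := by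
  refine ⟨∑ j ∈ Finset.range n, P.coeff j * ε ^ (n - 1 - j), ?_⟩
  have h1 : (P.map i).natDegree < n + 1 := by
    have := Polynomial.natDegree_map_le (f := i) (p := P)
    omega
  rw [Polynomial.eval_eq_sum_range' h1, Finset.sum_mul, Finset.sum_range_succ, map_add, map_mul,
    map_sum, Finset.mul_sum, add_comm]
  congr 1
  · rw [coeff_map]
    have : a ^ n * i ε ^ n = 1 := by rw [← mul_pow, mul_comm a, hεa, one_pow]
    rw [mul_assoc, this, mul_one]
  · refine Finset.sum_congr rfl fun j hj => ?_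
    have hj' : j < n := Finset.mem_range.mp hj
    rw [coeff_map, map_mul, map_pow]
    have e : i ε ^ n = i ε ^ j * (i ε * i ε ^ (n - 1 - j)) := by
      rw [← pow_succ', ← pow_add]
      congr 1
      omega
    have e2 : a ^ j * i ε ^ j = 1 := by rw [← mul_pow, mul_comm a, hεa, one_pow]
    rw [e]
    linear_combination (i (P.coeff j) * (i ε * i ε ^ (n - 1 - j))) * e2

/-- division by `1 - ε X` preserves integrality -/
theorem lift_div {Om : Type*} [Field Om] (i : R →+* Om) {ε : R} {Q : Om[X]} {F : R[X]}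
    (h : (1 - C (i ε) * X) * Q = F.map i) : ∃ Q0 : R[X], Q0.map i = Q := by
  have key : ∀ n, Q.coeff n ∈ Set.range i := by
    intro n
    induction n with
    | zero =>
      have e := congrArg (fun P => P.coeff 0) h
      simp only [sub_mul, one_mul, coeff_sub, mul_assoc, coeff_C_mul, coeff_X_mul_zero, mul_zero,
        sub_zero, coeff_map] at e
      exact ⟨_, e.symm⟩
    | succ n ih =>
      obtain ⟨q, hq⟩ := ih
      have e := congrArg (fun P => P.coeff (n + 1)) h
      simp only [sub_mul, one_mul, coeff_sub, mul_assoc, coeff_C_mul, coeff_X_mul, coeff_map] at e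
      refine ⟨F.coeff (n + 1) + ε * q, ?_⟩
      rw [map_add, map_mul, hq, ← e]
      ring
  have h1 := (Polynomial.lifts_iff_coeff_lifts Q).mpr key
  obtain ⟨Q0, hQ0⟩ := (Polynomial.mem_lifts Q).mp h1
  exact ⟨Q0, hQ0⟩

variable [ValuationRing R]

/-- every element of `Om` is integral or the inverse of a small one -/
def Val {Om : Type*} [Field Om] (i : R →+* Om) : Prop :=
  ∀ x : Om, (∃ r, i r = x) ∨ ∃ r ∈ maximalIdeal R, i r * x = 1

/-- the constants of the move -/
theorem exists_gamma {Om : Type*} [Field Om] (i : R →+* Om) (inj : Function.Injective i)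
    (hi : Val i) {f U V : R[X]} {g : ℕ} (hf : f.Monic) (hfd : f.natDegree = 2 * g + 1)
    (hU : U.Monic) (hUd : U.natDegree = g) (hV : V.degree < g) {a b : Om}
    (hb : b ^ 2 = (f.map i).eval a) {ε : R} (hε : ε ∈ maximalIdeal R) (hεa : i ε * a = 1) :
    (U.map i).eval a ≠ 0 ∧ ∀ c : Om, c * (U.map i).eval a = b - (V.map i).eval a →
      ∃ γ ∈ maximalIdeal R, ∃ δ : R, i γ = i ε * c ∧ i δ = c ^ 2 - a := by
  have ha0 : a ≠ 0 := by
    rintro rfl
    rw [mul_zero] at hεa
    exact zero_ne_one hεa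
  have hε0 : i ε ≠ 0 := by
    intro h0
    rw [h0, zero_mul] at hεa
    exact zero_ne_one hεa
  obtain ⟨sf, hsf⟩ := eval_large i hεa f (2 * g + 1) hfd.le
  obtain ⟨sU, hsU⟩ := eval_large i hεa U g hUd.le
  have hVn : V.natDegree ≤ g := Polynomial.natDegree_le_of_degree_le hV.le
  obtain ⟨sV, hsV⟩ := eval_large i hεa V g hVn
  have c1 : f.coeff (2 * g + 1) = 1 := by rw [← hfd]; exact hf
  have c2 : U.coeff g = 1 := by rw [← hUd]; exact hU
  have c3 : V.coeff g = 0 := Polynomial.coeff_eq_zero_of_degree_lt hV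
  rw [c1] at hsf
  rw [c2] at hsU
  rw [c3, zero_add] at hsV
  have hu : IsUnit (1 + sU * ε) := unit_add isUnit_one (mem_m_mul_left hε)
  obtain ⟨u, hu⟩ := hu
  have hsU' : (U.map i).eval a * i ε ^ g = i u := by
    rw [hsU, hu, mul_comm ε sU]
  have hiu : i ((u⁻¹ : Rˣ) : R) * i u = 1 := by
    rw [← map_mul, Units.inv_mul, map_one]
  have hiu0 : i u ≠ 0 := by
    intro h0
    rw [h0, mul_zero] at hiu
    exact zero_ne_one hiu
  have hUa : (U.map i).eval a ≠ 0 := by
    intro h0
    rw [h0, zero_mul] at hsU'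
    exact hiu0 hsU'.symm
  refine ⟨hUa, fun c hc => ?_⟩
  -- the ordinate
  have hβ2 : (b * i ε ^ (g + 1)) ^ 2 = i (ε * (1 + ε * sf)) := by
    have e : (b * i ε ^ (g + 1)) ^ 2 = i ε * ((f.map i).eval a * i ε ^ (2 * g + 1)) := by
      rw [← hb]
      ring
    rw [e, hsf, map_mul]
  obtain ⟨β, hβ⟩ : ∃ β : R, i β = b * i ε ^ (g + 1) := by
    rcases hi (b * i ε ^ (g + 1)) with h | ⟨r, hr, hr1⟩
    · exact h
    · exfalso
      have e : i (r ^ 2 * (1 + ε * sf) * ε) = i 1 := by
        have e1 : i (r ^ 2 * (1 + ε * sf) * ε) = i r ^ 2 * i (ε * (1 + ε * sf)) := by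
          rw [← map_pow, ← map_mul]
          congr 1
          ring
        rw [e1, ← hβ2, ← mul_pow, hr1, one_pow, map_one]
      have e2 := inj e
      have e3 : (1 : R) ∈ maximalIdeal R := by
        rw [← e2]
        exact mem_m_mul_left hε
      exact (mem_maximalIdeal _).mp e3 isUnit_one
  have hβm : β ∈ maximalIdeal R := by
    have e : β ^ 2 = (1 + ε * sf) * ε := by
      apply inj
      rw [map_pow, hβ, hβ2]
      congr 1
      ring
    have e2 : β ^ 2 ∈ maximalIdeal R := by
      rw [e]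
      exact mem_m_mul_left hε
    exact (maximalIdeal.isMaximal R).isPrime.mem_of_pow_mem 2 e2
  -- the equation for c
  have hcu : c * i u = b * i ε ^ g - i ε * i sV := by
    rw [← hsU']
    have : (V.map i).eval a * i ε ^ g = i ε * i sV := by rw [hsV, map_mul]
    linear_combination (i ε ^ g) * hc - this
  refine ⟨((u⁻¹ : Rˣ) : R) * (β - (ε * sV) * ε), mem_m_mul_left (Ideal.sub_mem _ hβm
    (mem_m_mul_left hε)), ((u⁻¹ : Rˣ) : R) ^ 2 * (sf - 2 * β * sV + ε ^ 2 * sV ^ 2 - 2 * sU -
    ε * sU ^ 2), ?_, ?_⟩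
  · have e : (i ε * c) * i u = i (β - ε * sV * ε) := by
      rw [map_sub, hβ, map_mul, map_mul]
      linear_combination (i ε) * hcu
    rw [map_mul, ← e]
    linear_combination (i ε * c) * hiu
  · have e : (c ^ 2 - a) * i u ^ 2 = i (sf - 2 * β * sV + ε ^ 2 * sV ^ 2 - 2 * sU -
        ε * sU ^ 2) := by
      have e1 : c ^ 2 * i u ^ 2 = a * (1 + i ε * i sf) - 2 * i β * i sV + i ε ^ 2 * i sV ^ 2 := by
        have e2 : b ^ 2 * i ε ^ (2 * g) = a * (1 + i ε * i sf) := by
          have e3 : (1 + i ε * i sf) = (f.map i).eval a * i ε ^ (2 * g + 1) := by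
            rw [hsf, map_add, map_mul, map_one]
          rw [e3, ← hb]
          have e4 : a * (b ^ 2 * i ε ^ (2 * g + 1)) = b ^ 2 * i ε ^ (2 * g) * (i ε * a) := by
            ring
          rw [e4, hεa, mul_one]
        have e5 : (c * i u) ^ 2 = (b * i ε ^ g - i ε * i sV) ^ 2 := by rw [hcu]
        have e6 : b * i ε ^ g * i ε = i β := by rw [hβ, pow_succ]; ring
        linear_combination e5 + e2 - 2 * i sV * e6
      have e7 : i u = 1 + i ε * i sU := by
        rw [hu, map_add, map_mul, map_one]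
        ring
      have e8 : a * i u ^ 2 = a + 2 * i sU + i ε * i sU ^ 2 := by
        rw [e7]
        linear_combination (2 * i sU + i ε * i sU ^ 2) * hεa
      rw [sub_mul, e1, e8]
      simp only [map_sub, map_add, map_mul, map_pow, map_ofNat]
      linear_combination (i sf) * hεa
    rw [map_mul, map_pow, ← e]
    have h9 : i ((u⁻¹ : Rˣ) : R) ^ 2 * i u ^ 2 = 1 := by rw [← mul_pow, hiu, one_pow]
    linear_combination (c ^ 2 - a) * h9

end Pool.Agent.SmJE
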