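import Pool.Agent.Lib.SmJ.E.MoveInf

/-!
SMITH for Jacobians, blocks E2 and E3: the move `[D] + [P] = [D₁]` for a point `P` whose abscissa is
not integral.
-/

set_option autoImplicit false

open Polynomial IsLocalRing

namespace Pool.Agent.SmJE

variable {R : Type*} [CommRing R] [IsDomain R]

theorem Frm.map {Om : Type*} [Field Om] (i : R →+* Om) {f U V W : R[X]} {g : ℕ}
    (h : Frm f U V W g) : Frm (f.map i) (U.map i) (V.map i) (W.map i) g where
  eq := by
    conv_lhs => rw [h.eq]
    simp
  monic := h.monic.map i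
  deg := by rw [h.monic.natDegree_map, h.deg]
  lt := lt_of_le_of_lt Polynomial.degree_map_le h.lt

/-- the class of the sum of a divisor and a point -/
theorem cl_add_point {Om J : Type*} [Field Om] [AddCommGroup J] {f U V D : Om[X]}
    (c : ClFun f J) {a b e : Om} (hU : U ≠ 0) (h : f = (V + C e * U) ^ 2 + U * (X - C a) * D)
    (hb : (V + C e * U).eval a = b) :
    c.cl (U * (X - C a)) (V + C e * U) = c.cl U V + c.pt a b := by
  have hai := ClFun.X_sub_ne a
  rw [c.mul (mul_ne_zero hU hai) ⟨D, by linear_combination h⟩]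
  congr 1
  · have e1 : V + C e * U = V + U * C e := by ring
    rw [e1]
    refine c.shift _ hU ⟨2 * C e * V + C e ^ 2 * U + (X - C a) * D, ?_⟩
    linear_combination h
  · rw [c.cl_lin ⟨U * D, by linear_combination h⟩, hb]

variable [ValuationRing R]

/-- **The move** for a point which is not integral. -/
theorem move_inf {Om J : Type*} [Field Om] [AddCommGroup J] (i : R →+* Om)
    (inj : Function.Injective i) (hi : Val i) {f U V W : R[X]} {g : ℕ} (h : Frm f U V W g)
    (hf : f.Monic) (hfd : f.natDegree = 2 * g + 1) {a b : Om}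
    (hb : b ^ 2 = (f.map i).eval a) {ε : R} (hε : ε ∈ maximalIdeal R) (hεa : i ε * a = 1) :
    ∃ U1 V1 W1 : R[X], Frm f U1 V1 W1 g ∧ U1.map (residue R) = U.map (residue R) ∧
      V1.map (residue R) = V.map (residue R) ∧
      ∀ c : ClFun (f.map i) J,
        c.cl (U1.map i) (V1.map i) = c.cl (U.map i) (V.map i) + c.pt a b := by
  obtain ⟨hWm, hWd⟩ := h.W_monic hf hfd
  obtain ⟨hUa, hgam⟩ := exists_gamma i inj hi hf hfd h.monic h.deg h.lt hb hε hεa
  obtain ⟨c, D, hc, hD, hDm, hDd⟩ := add_point (h.map i) (hWm.map i)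
    (by rw [hWm.natDegree_map, hWd]) hb (isUnit_iff_ne_zero.mpr hUa)
  have hcU : c * (U.map i).eval a = b - (V.map i).eval a := by
    rw [eval_add, eval_mul, eval_C] at hc
    linear_combination hc
  obtain ⟨γ, hγ, δ, hγc, hδc⟩ := hgam c hcU
  have hCεa : C (i ε) * C a = (1 : Om[X]) := by rw [← C_mul, hεa, C_1]
  have hCγ : C (i γ) = C (i ε) * C c := by rw [hγc, C_mul]
  have hCδ : C (i δ) = C c ^ 2 - C a := by rw [hδc, C_sub, C_pow]
  -- the new first entry
  have hD' : (1 - C (i ε) * X) * D =
      ((1 + C (ε * δ)) * U + 2 * C γ * V - C ε * W).map i := by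
    simp only [Polynomial.map_add, Polynomial.map_sub, Polynomial.map_mul, Polynomial.map_C,
      Polynomial.map_one, map_mul, C_mul, hCγ, hCδ, Polynomial.map_ofNat]
    linear_combination (C (i ε)) * hD - (D - U.map i) * hCεa
  obtain ⟨U1, hU1⟩ := lift_div i hD'
  have hU1m : U1.Monic := by
    have : (U1.map i).Monic := by rw [hU1]; exact hDm
    exact Polynomial.monic_of_injective inj this
  have hU1d : U1.natDegree = g := by
    rw [← hDd, ← hU1, hU1m.natDegree_map]
  have hU1e : (1 - C ε * X) * U1 = (1 + C (ε * δ)) * U + 2 * C γ * V - C ε * W := by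
    apply Polynomial.map_injective i inj
    rw [← hD', ← hU1]
    simp
  have hresε : residue R ε = 0 := (residue_eq_zero_iff ε).mpr hε
  have hresγ : residue R γ = 0 := (residue_eq_zero_iff γ).mpr hγ
  have hresU : U1.map (residue R) = U.map (residue R) := by
    have e := congrArg (Polynomial.map (residue R)) hU1e
    simpa [hresε, hresγ] using e
  -- the new second entry
  have hV' : (1 - C (i ε) * X) * (-V.map i - C c * U.map i + C c * D) =
      (V + 2 * C (ε * δ) * V + C ε * X * V + C γ * (C δ + X) * U - C γ * W).map i := by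
    simp only [Polynomial.map_add, Polynomial.map_sub, Polynomial.map_mul, Polynomial.map_C,
      Polynomial.map_X, map_mul, C_mul, hCγ, hCδ, Polynomial.map_ofNat]
    simp only [Polynomial.map_add, Polynomial.map_sub, Polynomial.map_mul, Polynomial.map_C,
      Polynomial.map_one, map_mul, C_mul, hCγ, hCδ, Polynomial.map_ofNat] at hD'
    linear_combination (C c) * hD' + (2 * V.map i) * hCεa
  obtain ⟨V1, hV1⟩ := lift_div i hV'
  have hV1e : (1 - C ε * X) * V1 =
      V + 2 * C (ε * δ) * V + C ε * X * V + C γ * (C δ + X) * U - C γ * W := by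
    apply Polynomial.map_injective i inj
    rw [← hV', ← hV1]
    simp
  have hresV : V1.map (residue R) = V.map (residue R) := by
    have e := congrArg (Polynomial.map (residue R)) hV1e
    simpa [hresε, hresγ] using e
  have hV1lt : V1.degree < g := by
    have e : V1.degree = (V1.map i).degree := (Polynomial.degree_map_eq_of_injective inj V1).symm
    have e2 : -V.map i - C c * U.map i + C c * D = -V.map i + C c * (D - U.map i) := by ring
    rw [e, hV1, e2]
    refine lt_of_le_of_lt (degree_add_le _ _) (max_lt ?_ ?_)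
    · rw [degree_neg]
      exact (h.map i).lt
    · exact lt_of_le_of_lt (deg_C_mul_le _ _)
        (degree_sub_lt_of_monic hDm (h.monic.map i) hDd (h.map i).deg)
  have hfD : f.map i = (V.map i + C c * U.map i) ^ 2 + U.map i * (X - C a) * D := by
    linear_combination (h.map i).eq + (U.map i) * hD
  have hdvd : U1 ∣ f - V1 ^ 2 := by
    rw [← Polynomial.map_dvd_map i inj hU1m, hU1, Polynomial.map_sub, Polynomial.map_pow, hV1]
    refine ⟨-2 * C c * (-V.map i - C c * U.map i + C c * D) + C c ^ 2 * D + U.map i * (X - C a),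
      ?_⟩
    linear_combination hfD
  obtain ⟨W1, hW1⟩ := hdvd
  refine ⟨U1, V1, W1, ⟨by linear_combination hW1, hU1m, hU1d, hV1lt⟩, hresU, hresV, fun cf => ?_⟩
  have hUi : U.map i ≠ 0 := (h.monic.map i).ne_zero
  have hai := ClFun.X_sub_ne a
  have e1 := cl_add_point cf hUi hfD hc
  have e2 := cf.flip (mul_ne_zero hUi hai) hDm.ne_zero hfD
  have e3 : cf.cl D (-(V.map i + C c * U.map i)) = - cf.cl D (V.map i + C c * U.map i) :=
    cf.conj hDm.ne_zero ⟨U.map i * (X - C a), by linear_combination hfD⟩
  have e4 : cf.cl D (-(V.map i + C c * U.map i)) = cf.cl (U1.map i) (V1.map i) := by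
    rw [hU1, hV1]
    have e5 : -(V.map i + C c * U.map i) =
        (-V.map i - C c * U.map i + C c * D) + D * (-C c) := by ring
    rw [e5]
    refine cf.shift _ hDm.ne_zero ?_
    refine ⟨-2 * C c * (-V.map i - C c * U.map i + C c * D) + C c ^ 2 * D + U.map i * (X - C a),
      ?_⟩
    linear_combination hfD
  rw [← e4, e3, ← e1]
  exact (eq_neg_of_add_eq_zero_left e2).symm

end Pool.Agent.SmJE
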