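import Pool.Agent.Lib.SmJ.E.Mu

/-!
SMITH for Jacobians, blocks E2 and E3: the move `[D] + [P] = [D₁] + [P']` for two close integral
points `P`, `P'`.
-/

set_option autoImplicit false

open Polynomial IsLocalRing

namespace Pool.Agent.SmJE

variable {R : Type*} [CommRing R] [IsDomain R]

theorem Frm.W_monic {f U V W : R[X]} {g : ℕ} (h : Frm f U V W g) (hf : f.Monic)
    (hfd : f.natDegree = 2 * g + 1) : W.Monic ∧ W.natDegree = g + 1 := by
  have hV : (V ^ 2).degree < f.degree := by
    rw [Polynomial.degree_eq_natDegree hf.ne_zero, hfd]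
    by_cases hV0 : V = 0
    · rw [hV0, zero_pow two_ne_zero, degree_zero]
      exact WithBot.bot_lt_coe _
    · rw [pow_two, degree_mul, Polynomial.degree_eq_natDegree hV0]
      have h1 : V.natDegree < g := by
        have := h.lt
        rw [Polynomial.degree_eq_natDegree hV0] at this
        exact_mod_cast this
      have h2 : V.natDegree + V.natDegree < 2 * g + 1 := by omega
      exact_mod_cast h2
  have e : U * W = f - V ^ 2 := by
    rw [h.eq]
    ring
  have hm : (U * W).Monic := by
    rw [e]
    exact hf.sub_of_left hV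
  have hWm : W.Monic := h.monic.of_mul_monic_left hm
  refine ⟨hWm, ?_⟩
  have e1 : (U * W).natDegree = 2 * g + 1 := by
    rw [e, Polynomial.natDegree_sub_eq_left_of_natDegree_lt, hfd]
    by_cases h0 : V ^ 2 = 0
    · rw [h0, natDegree_zero, hfd]
      omega
    · exact (Polynomial.natDegree_lt_natDegree_iff h0).mpr hV
  rw [h.monic.natDegree_mul hWm, h.deg] at e1
  omega

theorem degree_sub_lt_of_monic {P Q : R[X]} {n : ℕ} (hP : P.Monic) (hQ : Q.Monic)
    (hPn : P.natDegree = n) (hQn : Q.natDegree = n) : (P - Q).degree < n := by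
  have h1 : P.degree = n := by rw [Polynomial.degree_eq_natDegree hP.ne_zero, hPn]
  have h2 : Q.degree = n := by rw [Polynomial.degree_eq_natDegree hQ.ne_zero, hQn]
  rw [← h1]
  exact Polynomial.degree_sub_lt_left (by rw [h1, h2]) hP.ne_zero (by rw [hP.leadingCoeff,
    hQ.leadingCoeff])

theorem degree_lin_comb {A B D : R[X]} {g : ℕ} (hA : A.Monic) (hAd : A.natDegree = g + 1)
    (hB : B.degree ≤ g) (hD : D.degree ≤ g) (m : R) :
    (A - 2 * C m * B - C m ^ 2 * D).Monic ∧
      (A - 2 * C m * B - C m ^ 2 * D).natDegree = g + 1 := by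
  have hlt : (2 * C m * B + C m ^ 2 * D).degree < A.degree := by
    rw [Polynomial.degree_eq_natDegree hA.ne_zero, hAd]
    refine lt_of_le_of_lt (degree_add_le _ _) (max_lt ?_ ?_)
    · have e : (2 : R[X]) * C m * B = C (2 * m) * B := by rw [C_mul, ← two_eq]
      rw [e]
      refine lt_of_le_of_lt ((deg_C_mul_le _ _).trans hB) ?_
      exact_mod_cast Nat.lt_succ_self g
    · rw [← C_pow]
      refine lt_of_le_of_lt ((deg_C_mul_le _ _).trans hD) ?_
      exact_mod_cast Nat.lt_succ_self g
  have e : A - 2 * C m * B - C m ^ 2 * D = A - (2 * C m * B + C m ^ 2 * D) := by ring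
  refine ⟨?_, ?_⟩
  · rw [e]
    exact hA.sub_of_left hlt
  · rw [e, Polynomial.natDegree_sub_eq_left_of_natDegree_lt, hAd]
    by_cases h0 : 2 * C m * B + C m ^ 2 * D = 0
    · rw [h0, natDegree_zero, hAd]
      omega
    · exact (Polynomial.natDegree_lt_natDegree_iff h0).mpr hlt

variable [ValuationRing R]

/-- **The move** for two close integral points. -/
theorem move_int {Om J : Type*} [Field Om] [AddCommGroup J] (i : R →+* Om)
    (inj : Function.Injective i) {f U V W : R[X]} {g : ℕ} (h : Frm f U V W g)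
    (hf : f.Monic) (hfd : f.natDegree = 2 * g + 1) {a b a' b' ρ m1 m2 : R}
    (hUa : IsUnit (U.eval a))
    (hb : b ^ 2 = f.eval a) (hb' : b' ^ 2 = f.eval a') (h2 : IsUnit (2 : R)) (hρ0 : ρ ≠ 0)
    (hρ : f.eval a ∣ ρ ∨ f.derivative.eval a ∣ ρ)
    (hm1 : m1 ∈ maximalIdeal R) (hm2 : m2 ∈ maximalIdeal R) (ha' : a' = a + ρ * m1)
    (hbb : b' = b + ρ * m2) :
    ∃ U1 V1 W1 : R[X], Frm f U1 V1 W1 g ∧ U1.map (residue R) = U.map (residue R) ∧
      V1.map (residue R) = V.map (residue R) ∧
      ∀ c : ClFun (f.map i) J,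
        c.cl (U1.map i) (V1.map i) + c.pt (i a') (i b') =
        c.cl (U.map i) (V.map i) + c.pt (i a) (i b) := by
  obtain ⟨hWm, hWd⟩ := h.W_monic hf hfd
  obtain ⟨c, D, hc, hD, hDm, hDd⟩ := add_point h hWm hWd hb hUa
  set B : R[X] := V + C c * U with hBdef
  have hfBD : f = B ^ 2 + U * (X - C a) * D := by
    rw [hBdef]
    linear_combination h.eq + U * hD
  obtain ⟨μ, hμ, hμ1, hμ2⟩ := exists_mu hfBD hc hUa hb hb' h2 hρ0 hρ hm1 hm2 ha' hbb
  have hUdeg : U.degree = g := by rw [Polynomial.degree_eq_natDegree h.monic.ne_zero, h.deg]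
  have hDdeg : D.degree = g := by rw [Polynomial.degree_eq_natDegree hDm.ne_zero, hDd]
  have hBdeg : B.degree ≤ g := by
    rw [hBdef]
    refine (degree_add_le _ _).trans (max_le h.lt.le ?_)
    exact (deg_C_mul_le _ _).trans hUdeg.le
  have hAm : (U * (X - C a)).Monic := h.monic.mul (monic_X_sub_C a)
  have hAd : (U * (X - C a)).natDegree = g + 1 := by
    rw [h.monic.natDegree_mul (monic_X_sub_C a), h.deg, natDegree_X_sub_C]
  obtain ⟨hA'm, hA'd⟩ := degree_lin_comb hAm hAd hBdeg hDdeg.le μ
  obtain ⟨U1, hU1⟩ : X - C a' ∣ U * (X - C a) - 2 * C μ * B - C μ ^ 2 * D := by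
    rw [Polynomial.dvd_iff_isRoot, Polynomial.IsRoot.def]
    simp only [eval_sub, eval_mul, eval_pow, eval_C, eval_X, eval_ofNat]
    linear_combination (-1) * hμ2 - μ * hμ1
  have hU1m : U1.Monic := by
    rw [hU1] at hA'm
    exact (monic_X_sub_C a').of_mul_monic_left hA'm
  have hU1d : U1.natDegree = g := by
    have e := congrArg natDegree hU1
    rw [hA'd, (monic_X_sub_C a').natDegree_mul hU1m, natDegree_X_sub_C] at e
    omega
  set κ : R := c + μ with hκ
  set V1 : R[X] := B + C μ * D - C κ * U1 with hV1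
  have hV1' : V1 = V + C c * (U - U1) + C μ * (D - U1) := by
    rw [hV1, hBdef, hκ, C_add]
    ring
  have hV1lt : V1.degree < g := by
    rw [hV1']
    refine lt_of_le_of_lt (degree_add_le _ _) (max_lt ?_ ?_)
    · refine lt_of_le_of_lt (degree_add_le _ _) (max_lt h.lt ?_)
      exact lt_of_le_of_lt (deg_C_mul_le _ _) (degree_sub_lt_of_monic h.monic hU1m h.deg hU1d)
    · exact lt_of_le_of_lt (deg_C_mul_le _ _) (degree_sub_lt_of_monic hDm hU1m hDd hU1d)
  have hfA' : f = (B + C μ * D) ^ 2 + ((X - C a') * U1) * D := by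
    rw [← hU1]
    linear_combination hfBD
  have hfrm : Frm f U1 V1 (2 * C κ * V1 + C κ ^ 2 * U1 + (X - C a') * D) g := by
    refine ⟨?_, hU1m, hU1d, hV1lt⟩
    have e : B + C μ * D = V1 + C κ * U1 := by rw [hV1]; ring
    rw [e] at hfA'
    linear_combination hfA'
  have hresa : residue R a' = residue R a := by
    rw [ha', map_add, map_mul, (residue_eq_zero_iff m1).mpr hm1, mul_zero, add_zero]
  have hresU : U1.map (residue R) = U.map (residue R) := by
    have e1 : ((X - C a') * U1).map (residue R) = (U * (X - C a)).map (residue R) :=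
      map_res_eq hμ (T := -2 * B - C μ * D) (by rw [← hU1]; ring)
    rw [Polynomial.map_mul, Polynomial.map_mul, Polynomial.map_sub, Polynomial.map_sub,
      Polynomial.map_C, Polynomial.map_C, Polynomial.map_X, hresa] at e1
    apply mul_left_cancel₀ (Polynomial.X_sub_C_ne_zero (residue R a))
    rw [e1, mul_comm]
  refine ⟨U1, V1, _, hfrm, hresU, ?_, ?_⟩
  · have e1 : V1.map (residue R) = (V + C c * (U - U1)).map (residue R) :=
      map_res_eq hμ (T := D - U1) hV1'
    rw [e1, Polynomial.map_add, Polynomial.map_mul, Polynomial.map_sub, hresU, sub_self, mul_zero,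
      add_zero]
  · intro cf
    have hmap : ∀ P : R[X], P ≠ 0 → P.map i ≠ 0 := fun P hP =>
      (Polynomial.map_ne_zero_iff inj).mpr hP
    have hF1 : f.map i = (B.map i) ^ 2 + ((U.map i) * (X - C (i a))) * D.map i := by
      conv_lhs => rw [hfBD]
      simp
    have hF2 : f.map i = ((B + C μ * D).map i) ^ 2 + ((X - C (i a')) * U1.map i) * D.map i := by
      conv_lhs => rw [hfA']
      simp
    have hF3 : f.map i = (V.map i) ^ 2 + U.map i * W.map i := by
      conv_lhs => rw [h.eq]
      simp
    have hF4 := congrArg (Polynomial.map i) hfrm.eq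
    rw [Polynomial.map_add, Polynomial.map_pow, Polynomial.map_mul] at hF4
    have hUi := hmap U h.monic.ne_zero
    have hU1i := hmap U1 hU1m.ne_zero
    have hDi := hmap D hDm.ne_zero
    have hai := ClFun.X_sub_ne (i a)
    have hai' := ClFun.X_sub_ne (i a')
    have hA'i : (U.map i) * (X - C (i a)) - 2 * C (i μ) * B.map i - C (i μ) ^ 2 * D.map i =
        (X - C (i a')) * U1.map i := by
      have := congrArg (Polynomial.map i) hU1
      simpa using this
    -- the left side
    have e1 : cf.cl ((X - C (i a')) * U1.map i) ((B + C μ * D).map i) =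
        cf.pt (i a') (i b') + cf.cl (U1.map i) (V1.map i) := by
      rw [cf.mul (mul_ne_zero hai' hU1i) ⟨D.map i, by linear_combination hF2⟩]
      congr 1
      · rw [cf.cl_lin ⟨U1.map i * D.map i, by linear_combination hF2⟩]
        congr 1
        rw [Polynomial.eval_map, Polynomial.eval₂_at_apply]
        congr 1
        rw [eval_add, eval_mul, eval_C]
        linear_combination hμ1
      · have e : (B + C μ * D).map i = V1.map i + U1.map i * C (i κ) := by
          rw [hV1]
          simp
          ring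
        rw [e]
        exact cf.shift _ hU1i
          ⟨(2 * C κ * V1 + C κ ^ 2 * U1 + (X - C a') * D).map i, by linear_combination hF4⟩
    -- the right side
    have e2 : cf.cl ((U.map i) * (X - C (i a))) (B.map i) =
        cf.cl (U.map i) (V.map i) + cf.pt (i a) (i b) := by
      rw [cf.mul (mul_ne_zero hUi hai) ⟨D.map i, by linear_combination hF1⟩]
      congr 1
      · have e : B.map i = V.map i + U.map i * C (i c) := by
          rw [hBdef]
          simp
          ring
        rw [e]
        exact cf.shift _ hUi ⟨W.map i, by linear_combination hF3⟩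
      · rw [cf.cl_lin ⟨U.map i * D.map i, by linear_combination hF1⟩]
        congr 1
        rw [Polynomial.eval_map, Polynomial.eval₂_at_apply, hc]
    have e3 := cf.cl_move (C (i μ)) hF1 (mul_ne_zero hUi hai) hDi (by
      rw [hA'i]
      exact mul_ne_zero hai' hU1i)
    rw [hA'i, e2] at e3
    have e4 : (B + C μ * D).map i = B.map i + C (i μ) * D.map i := by simp
    rw [e4, e3] at e1
    rw [e1]
    exact add_comm _ _

end Pool.Agent.SmJE
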