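import Pool.Agent.Lib.SmJ.E.Chain

/-!
SMITH for Jacobians, blocks E2 and E3: the parameter `μ` of the move and the move itself.
-/

set_option autoImplicit false

open Polynomial IsLocalRing

namespace Pool.Agent.SmJE

variable {R : Type*} [CommRing R] [IsDomain R] [ValuationRing R]

/-- the small number `μ` -/
theorem exists_mu {f U B D : R[X]} {a b a' b' ρ m1 m2 : R}
    (h : f = B ^ 2 + U * (X - C a) * D) (hB : B.eval a = b) (hUa : IsUnit (U.eval a))
    (hb : b ^ 2 = f.eval a) (hb' : b' ^ 2 = f.eval a') (h2 : IsUnit (2 : R)) (hρ0 : ρ ≠ 0)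
    (hρ : f.eval a ∣ ρ ∨ f.derivative.eval a ∣ ρ)
    (hm1 : m1 ∈ maximalIdeal R) (hm2 : m2 ∈ maximalIdeal R) (ha' : a' = a + ρ * m1)
    (hbb : b' = b + ρ * m2) :
    ∃ μ ∈ maximalIdeal R, μ * D.eval a' = b' - B.eval a' ∧
      μ * (b' + B.eval a') = U.eval a' * (a' - a) := by
  obtain ⟨B1, hB1⟩ : X - C a ∣ B - C (B.eval a) := Polynomial.X_sub_C_dvd_sub_C_eval
  obtain ⟨f1, hf1⟩ : X - C a ∣ f - C (f.eval a) := Polynomial.X_sub_C_dvd_sub_C_eval
  rw [hB] at hB1
  rw [← hb] at hf1
  set T := B1.eval a' with hT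
  have hBa' : B.eval a' = b + ρ * m1 * T := by
    have e := congrArg (Polynomial.eval a') hB1
    simp only [eval_sub, eval_C, eval_mul, eval_X] at e
    rw [← hT] at e
    linear_combination e + T * ha'
  obtain ⟨t, ht⟩ : a' - a ∣ U.eval a' - U.eval a := Polynomial.sub_dvd_eval_sub _ _ _
  have hUa' : IsUnit (U.eval a') := by
    have e : U.eval a' = U.eval a + (ρ * t) * m1 := by
      linear_combination ht + t * ha'
    rw [e]
    exact unit_add hUa (mem_m_mul_left hm1)
  -- the product relation
  have hprod : U.eval a' * (a' - a) * D.eval a' = (b' - B.eval a') * (b' + B.eval a') := by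
    have e : f.eval a' = B.eval a' ^ 2 + U.eval a' * (a' - a) * D.eval a' := by
      conv_lhs => rw [h]
      simp
    linear_combination -e - hb'
  by_cases hbρ : b ∣ ρ
  · -- the ordinate is not small
    obtain ⟨r, hr⟩ := hbρ
    have hb0 : b ≠ 0 := by
      rintro rfl
      apply hρ0
      rw [hr, zero_mul]
    have hu : IsUnit (2 + (r * m2 + r * T * m1)) := by
      refine unit_add h2 (Ideal.add_mem _ (mem_m_mul_left hm2) (mem_m_mul_left hm1))
    obtain ⟨u, hu⟩ := hu
    have hsum : b' + B.eval a' = b * u := by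
      rw [hu, hBa', hbb, hr]
      ring
    have hmu : (U.eval a' * r * ((u⁻¹ : Rˣ) : R)) * m1 * (b' + B.eval a') =
        U.eval a' * (a' - a) := by
      have e1 : ((u⁻¹ : Rˣ) : R) * (u : R) = 1 := Units.inv_mul u
      rw [hsum, ha']
      linear_combination (U.eval (a + ρ * m1) * r * m1 * b) * e1 -
        (U.eval (a + ρ * m1) * m1) * hr
    refine ⟨(U.eval a' * r * ((u⁻¹ : Rˣ) : R)) * m1, mem_m_mul_left hm1, ?_, hmu⟩
    have hne : b' + B.eval a' ≠ 0 := by
      rw [hsum]
      exact mul_ne_zero hb0 u.ne_zero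
    apply mul_right_cancel₀ hne
    rw [← hprod, ← hmu]
    ring
  · -- the ordinate is small, the derivative is not
    obtain ⟨m, hm⟩ : ρ ∣ b := (ValuationRing.dvd_total ρ b).resolve_right hbρ
    have hmm : m ∈ maximalIdeal R := by
      rw [mem_maximalIdeal, mem_nonunits_iff]
      rintro ⟨v, hv⟩
      apply hbρ
      refine ⟨((v⁻¹ : Rˣ) : R), ?_⟩
      rw [hm, ← hv, mul_assoc, Units.mul_inv, mul_one]
    have hd : f.derivative.eval a ∣ ρ := by
      refine hρ.resolve_left ?_
      rintro ⟨s, hs⟩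
      rw [← hb, hm] at hs
      have e : ρ * (1 - (ρ * m * s) * m) = 0 := by linear_combination hs
      rcases mul_eq_zero.mp e with h0 | h0
      · exact hρ0 h0
      · have e1 : (1 : R) = (ρ * m * s) * m := by linear_combination h0
        have e2 : (1 : R) ∈ maximalIdeal R := by
          rw [e1]
          exact mem_m_mul_left hmm
        exact (mem_maximalIdeal _).mp e2 isUnit_one
    obtain ⟨r, hr⟩ := hd
    have hd0 : f.derivative.eval a ≠ 0 := by
      intro h0
      apply hρ0
      rw [hr, h0, zero_mul]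
    have hf1a : f1.eval a = f.derivative.eval a := by
      have e := congrArg Polynomial.derivative hf1
      rw [derivative_sub, derivative_C, sub_zero, derivative_mul, derivative_sub, derivative_X,
        derivative_C, sub_zero, one_mul] at e
      rw [e]
      simp
    obtain ⟨T2, hT2⟩ : a' - a ∣ f1.eval a' - f1.eval a := Polynomial.sub_dvd_eval_sub _ _ _
    have hUD : U * D = f1 - 2 * C b * B1 - (X - C a) * B1 ^ 2 := by
      have hx : (X - C a : R[X]) ≠ 0 := Polynomial.X_sub_C_ne_zero a
      apply mul_left_cancel₀ hx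
      have e1 : f = C (b ^ 2) + (X - C a) * f1 := by linear_combination hf1
      have e2 : B = C b + (X - C a) * B1 := by linear_combination hB1
      have e3 : C (b ^ 2) = (C b : R[X]) ^ 2 := by rw [C_pow]
      rw [e3] at e1
      linear_combination (-1) * h + e1 - (B + C b + (X - C a) * B1) * e2
    have hUDa : U.eval a' * D.eval a' = f1.eval a' - 2 * b * T - (a' - a) * T ^ 2 := by
      have e := congrArg (Polynomial.eval a') hUD
      simpa only [eval_mul, eval_sub, eval_pow, eval_C, eval_X, eval_ofNat, ← hT] using e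
    have hu : IsUnit (1 + (r * T2 * m1 + (-(2 * r * T)) * m + (-(r * T ^ 2)) * m1)) :=
      unit_add isUnit_one (Ideal.add_mem _ (Ideal.add_mem _ (mem_m_mul_left hm1)
        (mem_m_mul_left hmm)) (mem_m_mul_left hm1))
    obtain ⟨u, hu⟩ := hu
    have hUDu : U.eval a' * D.eval a' = f.derivative.eval a * u := by
      rw [hu, hUDa]
      have e1 : f1.eval a' = f.derivative.eval a + ρ * m1 * T2 := by
        rw [← hf1a]
        linear_combination hT2 + T2 * ha'
      rw [e1, hm]
      have e2 : a' - a = ρ * m1 := by rw [ha']; ring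
      rw [e2]
      linear_combination (m1 * T2 - 2 * m * T - m1 * T ^ 2) * hr
    have hdiff : b' - B.eval a' = f.derivative.eval a * (r * (m2 - m1 * T)) := by
      rw [hBa', hbb]
      linear_combination (m2 - m1 * T) * hr
    have e1 : ((u⁻¹ : Rˣ) : R) * (u : R) = 1 := Units.inv_mul u
    have hmu : (r * (m2 - m1 * T)) * U.eval a' * ((u⁻¹ : Rˣ) : R) * D.eval a' =
        b' - B.eval a' := by
      rw [hdiff]
      linear_combination (r * (m2 - m1 * T) * ((u⁻¹ : Rˣ) : R)) * hUDu +
        (r * (m2 - m1 * T)) * f.derivative.eval a * e1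
    refine ⟨(r * (m2 - m1 * T)) * U.eval a' * ((u⁻¹ : Rˣ) : R), ?_, hmu, ?_⟩
    · have e : (r * (m2 - m1 * T)) * U.eval a' * ((u⁻¹ : Rˣ) : R) =
          (r * U.eval a' * ((u⁻¹ : Rˣ) : R)) * (m2 - T * m1) := by ring
      rw [e]
      exact mem_m_mul_left (Ideal.sub_mem _ hm2 (mem_m_mul_left hm1))
    · have hne : D.eval a' ≠ 0 := by
        intro h0
        rw [h0, mul_zero] at hUDu
        exact mul_ne_zero hd0 u.ne_zero hUDu.symm
      apply mul_right_cancel₀ hne
      rw [hprod, ← hmu]
      ring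

end Pool.Agent.SmJE
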