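import Pool.Agent.Lib.SmJ.E.Mumf

/-!
SMITH for Jacobians (MP_950c68_ag), block E: norms of ideals, the criterion for a relation between
classes of Mumford ideals, uniqueness of the reduced Mumford ideal.
-/

set_option autoImplicit false

open Polynomial

namespace Pool.Agent.SmJ

variable {Om : Type} [Field Om]

section gen

variable {f : Om[X]}

theorem mem_left_of_mul {S : Type*} [CommRing S] {I J : Ideal S} {z : S} (h : z ∈ I * J) : z ∈ I :=
  Ideal.mul_le_left h

theorem mem_right_of_mul {S : Type*} [CommRing S] {I J : Ideal S} {z : S} (h : z ∈ I * J) :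
    z ∈ J :=
  Ideal.mul_le_right h

theorem assoc_of_dvd {U a : Om[X]} (h : U ∣ a) (ha : a ≠ 0) (hd : a.natDegree ≤ U.natDegree) :
    Associated U a := by
  obtain ⟨q, hq⟩ := h
  have hq0 : q ≠ 0 := by
    rintro rfl
    exact ha (by rw [hq, mul_zero])
  have hU0 : U ≠ 0 := by
    rintro rfl
    exact ha (by rw [hq, zero_mul])
  have h0 : q.natDegree = 0 := by
    rw [hq, natDegree_mul hU0 hq0] at hd
    omega
  have hqu : IsUnit q := by
    rw [natDegree_eq_zero] at h0
    obtain ⟨c, rfl⟩ := h0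
    exact isUnit_C.mpr (isUnit_iff_ne_zero.mpr (fun h0 => hq0 (by rw [h0, C_0])))
  obtain ⟨u, rfl⟩ := hqu
  exact ⟨u, hq.symm⟩

/-- `N` is a norm of the ideal `I`: `I * conj I = (N)`. -/
def HasNm (I : Ideal (Co f)) (N : Om[X]) : Prop :=
  I * I.map (starRingEnd (Co f)) = Ideal.span {(⟨N, 0⟩ : Co f)}

theorem span_mk_mul (N N' : Om[X]) : Ideal.span {(⟨N, 0⟩ : Co f)} * Ideal.span {(⟨N', 0⟩ : Co f)} =
    Ideal.span {(⟨N * N', 0⟩ : Co f)} := by
  rw [Ideal.span_singleton_mul_span_singleton]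
  congr 2
  ext1 <;> simp

theorem HasNm.mul {I I' : Ideal (Co f)} {N N' : Om[X]} (h : HasNm I N) (h' : HasNm I' N') :
    HasNm (I * I') (N * N') := by
  rw [HasNm, Ideal.map_mul, ← span_mk_mul, ← h, ← h']
  exact mul_mul_mul_comm _ _ _ _

theorem hasNm_span (z : Co f) : HasNm (Ideal.span {z}) z.norm := by
  rw [HasNm, Ideal.map_span, Set.image_singleton, Ideal.span_singleton_mul_span_singleton]
  congr 2
  have h := QuadraticAlgebra.algebraMap_norm_eq_mul_star z
  rw [starRingEnd_apply, ← h]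
  rfl

theorem span_mk_eq {N N' : Om[X]}
    (h : Ideal.span {(⟨N, 0⟩ : Co f)} = Ideal.span {(⟨N', 0⟩ : Co f)}) : Associated N N' := by
  have key : ∀ {P Q : Om[X]}, Ideal.span {(⟨P, 0⟩ : Co f)} = Ideal.span {(⟨Q, 0⟩ : Co f)} →
      Q ∣ P := by
    intro P Q h
    have h1 : (⟨P, 0⟩ : Co f) ∈ Ideal.span {(⟨Q, 0⟩ : Co f)} := by
      rw [← h]
      exact Ideal.mem_span_singleton_self _
    rw [Ideal.mem_span_singleton'] at h1
    obtain ⟨w, hw⟩ := h1
    refine ⟨w.re, ?_⟩
    have e := congrArg QuadraticAlgebra.re hw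
    simp only [QuadraticAlgebra.re_mul] at e
    linear_combination -e
  exact associated_of_dvd_dvd (key h.symm) (key h)

theorem HasNm.assoc {I : Ideal (Co f)} {N N' : Om[X]} (h : HasNm I N) (h' : HasNm I N') :
    Associated N N' := by
  apply span_mk_eq (f := f)
  rw [← h, ← h']

end gen

section hyp

variable {f : Om[X]} [Hyp f]

theorem hasNm_mid {A B : Om[X]} (h : A ∣ f - B ^ 2) : HasNm (mid f A B) A := by
  rw [HasNm, mid_map_star, mid_conj h]

/-- a relation between three classes -/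
theorem crit3 {A1 B1 A2 B2 A3 B3 : Om[X]} (h1 : A1 ≠ 0) (h2 : A2 ≠ 0) (h3 : A3 ≠ 0)
    (d1 : A1 ∣ f - B1 ^ 2) (d2 : A2 ∣ f - B2 ^ 2) (d3 : A3 ∣ f - B3 ^ 2)
    (h : mcl f A1 B1 + mcl f A2 B2 + mcl f A3 B3 = 0) :
    ∃ a b : Om[X], (a ≠ 0 ∨ b ≠ 0) ∧ A1 ∣ a + b * B1 ∧ A2 ∣ a + b * B2 ∧ A3 ∣ a + b * B3 ∧
      Associated (A1 * A2 * A3) (a ^ 2 - f * b ^ 2) := by
  have n1 := mid_ne_bot (f := f) (B := B1) h1
  have n2 := mid_ne_bot (f := f) (B := B2) h2
  have n3 := mid_ne_bot (f := f) (B := B3) h3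
  have h0 : mid f A1 B1 * mid f A2 B2 * mid f A3 B3 ≠ ⊥ := mul_ne_zero (mul_ne_zero n1 n2) n3
  rw [mcl, mcl, mcl, ← cls_mul n1 n2, ← cls_mul (mul_ne_zero n1 n2) n3, cls_eq_zero_iff h0] at h
  obtain ⟨z, hz⟩ := h
  have hmem : z ∈ mid f A1 B1 * mid f A2 B2 * mid f A3 B3 := by
    rw [hz]
    exact Ideal.mem_span_singleton_self z
  have hmem12 : z ∈ mid f A1 B1 * mid f A2 B2 := mem_left_of_mul hmem
  have hmem3 : z ∈ mid f A3 B3 := mem_right_of_mul hmem
  have hmem1 : z ∈ mid f A1 B1 := mem_left_of_mul hmem12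
  have hmem2 : z ∈ mid f A2 B2 := mem_right_of_mul hmem12
  refine ⟨z.re, z.im, ?_, (mem_mid d1).mp hmem1, (mem_mid d2).mp hmem2, (mem_mid d3).mp hmem3,
    ?_⟩
  · by_contra hc
    push Not at hc
    apply h0
    rw [hz, Ideal.span_singleton_eq_bot]
    exact QuadraticAlgebra.ext hc.1 hc.2
  · have e1 : HasNm (mid f A1 B1 * mid f A2 B2 * mid f A3 B3) (A1 * A2 * A3) :=
      ((hasNm_mid d1).mul (hasNm_mid d2)).mul (hasNm_mid d3)
    have e2 := hasNm_span z
    rw [← hz] at e2
    have e3 := e1.assoc e2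
    rwa [norm_eq] at e3

/-- A reduced Mumford pair is determined by its class. -/
theorem mcl_inj {g : ℕ} (hg : f.natDegree = 2 * g + 1) {U V U' V' : Om[X]} (hU : U.Monic)
    (hU' : U'.Monic) (hUg : U.natDegree ≤ g) (hUg' : U'.natDegree ≤ g) (hV : V.degree < U.degree)
    (hV' : V'.degree < U'.degree) (d : U ∣ f - V ^ 2) (d' : U' ∣ f - V' ^ 2)
    (h : mcl f U V = mcl f U' V') : U = U' ∧ V = V' := by
  have d'n : U' ∣ f - (-V') ^ 2 := by rwa [neg_sq]
  have h1 : mcl f U V + mcl f U' (-V') + mcl f 1 0 = 0 := by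
    have e1 : mcl f U' (-V') = - mcl f U' V' := (mumf f).conj hU'.ne_zero d'
    have e2 : mcl f 1 0 = 0 := by
      rw [mcl]
      have : mid f (1 : Om[X]) 0 = ⊤ := by
        rw [← C_1]
        exact mid_C one_ne_zero
      rw [this, cls_top]
    rw [e1, e2, h]
    abel
  obtain ⟨a, b, hab, a1, a2, -, hN⟩ := crit3 hU.ne_zero hU'.ne_zero one_ne_zero d d'n
    (one_dvd _) h1
  have hdeg : (a ^ 2 - f * b ^ 2).natDegree = U.natDegree + U'.natDegree := by
    rw [← natDegree_eq_of_degree_eq (degree_eq_degree_of_associated hN), mul_one,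
      hU.natDegree_mul hU']
  have hb : b = 0 := by
    by_contra hb
    have e := natDegree_norm (⟨a, b⟩ : Co f) hb
    rw [norm_eq] at e
    change (a ^ 2 - f * b ^ 2).natDegree = _ at e
    rw [hdeg, hg] at e
    omega
  subst hb
  rw [zero_mul, add_zero] at a1 a2
  have ha : a ≠ 0 := by
    rcases hab with h | h
    · exact h
    · exact absurd rfl h
  have e1 : a ^ 2 - f * 0 ^ 2 = a * a := by ring
  rw [e1] at hN hdeg
  rw [natDegree_mul ha ha] at hdeg
  have l1 := natDegree_le_of_dvd a1 ha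
  have l2 := natDegree_le_of_dvd a2 ha
  have hUa : a.natDegree ≤ U.natDegree := by omega
  have hUa' : a.natDegree ≤ U'.natDegree := by omega
  have hUU : U = U' := by
    have b1 : Associated U a := assoc_of_dvd a1 ha hUa
    have b2 : Associated U' a := assoc_of_dvd a2 ha hUa'
    exact eq_of_monic_of_associated hU hU' (b1.trans b2.symm)
  subst hUU
  refine ⟨rfl, ?_⟩
  -- the second entries
  have hUne := mid_ne_bot (f := f) (B := V) hU.ne_zero
  have hprod : mid f U V * mid f U (-V') = Ideal.span {(⟨U, 0⟩ : Co f)} := by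
    have h2 : cls (mid f U V * mid f U (-V')) = 0 := by
      rw [cls_mul hUne (mid_ne_bot hU.ne_zero)]
      have e1 : mcl f U (-V') = - mcl f U V' := (mumf f).conj hU.ne_zero d'
      rw [mcl, mcl] at e1
      rw [mcl, mcl] at h
      rw [e1, h, add_neg_cancel]
    have hne : mid f U V * mid f U (-V') ≠ ⊥ := mul_ne_zero hUne (mid_ne_bot hU.ne_zero)
    obtain ⟨z, hz⟩ := (cls_eq_zero_iff hne).mp h2
    have hmem : z ∈ mid f U V * mid f U (-V') := by
      rw [hz]
      exact Ideal.mem_span_singleton_self z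
    have e3 : Associated (U * U) z.norm := by
      have e4 := hasNm_span z
      rw [← hz] at e4
      exact ((hasNm_mid d).mul (hasNm_mid d'n)).assoc e4
    have hz0 : z ≠ 0 := by
      rintro rfl
      rw [Ideal.span_singleton_eq_bot.mpr rfl] at hz
      exact hne hz
    have hzn : z.norm.natDegree = U.natDegree + U.natDegree := by
      rw [← natDegree_eq_of_degree_eq (degree_eq_degree_of_associated e3),
        hU.natDegree_mul hU]
    have hzi : z.im = 0 := by
      by_contra hb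
      have e := natDegree_norm z hb
      rw [hzn, hg] at e
      omega
    have hzr : U ∣ z.re := by
      have := (mem_mid d).mp (mem_left_of_mul hmem)
      rwa [hzi, zero_mul, add_zero] at this
    have hzd := natDegree_norm_of_im_eq_zero z hzi
    have hzr0 : z.re ≠ 0 := fun h0 => hz0 (QuadraticAlgebra.ext h0 hzi)
    have hass : Associated U z.re := assoc_of_dvd hzr hzr0 (by omega)
    have e5 : z = ⟨z.re, 0⟩ := QuadraticAlgebra.ext rfl hzi
    rw [hz, e5]
    obtain ⟨u, hu⟩ := hass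
    rw [← hu]
    obtain ⟨c, hc, hcu⟩ := Polynomial.isUnit_iff.mp u.isUnit
    rw [Ideal.span_singleton_eq_span_singleton]
    have hcc : IsUnit (⟨(u : Om[X]), 0⟩ : Co f) := by
      rw [isUnit_iff]
      exact ⟨c, hc.ne_zero, by rw [hcu]⟩
    obtain ⟨v, hv⟩ := hcc
    refine Associated.symm ⟨v, ?_⟩
    rw [hv]
    ext1 <;> simp
  have hprod' : mid f U V' * mid f U (-V') = Ideal.span {(⟨U, 0⟩ : Co f)} := mid_conj d'
  have hid : mid f U V = mid f U V' := by
    apply mul_right_cancel₀ (mid_ne_bot (f := f) (B := -V') hU.ne_zero)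
    rw [hprod, hprod']
  have hmem : (⟨-V, 1⟩ : Co f) ∈ mid f U V' := by
    rw [← hid]
    exact snd_mem_mid
  rw [mem_mid d'] at hmem
  have e6 : U ∣ V' - V := by
    have e7 : (⟨-V, 1⟩ : Co f).re + (⟨-V, 1⟩ : Co f).im * V' = V' - V := by
      change -V + 1 * V' = V' - V
      ring
    rwa [e7] at hmem
  have e8 : V' - V = 0 := by
    apply eq_zero_of_dvd_of_degree_lt e6
    exact lt_of_le_of_lt (degree_sub_le _ _) (max_lt hV' hV)
  exact (sub_eq_zero.mp e8).symm

end hyp

end Pool.Agent.SmJ
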