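import Pool.Agent.Lib.SmJ.E.NoTwo
import Pool.Agent.Lib.SmJ.E.PtSum

/-!
SMITH for Jacobians (MP_950c68_ag), block E3: an integral element at which a residually nonzero
integral polynomial is small is close to a root.
-/

set_option autoImplicit false

open Polynomial IsLocalRing

namespace Pool.Agent.SmJ

open SmJE

variable {Om : Type} [Field Om] {w : ValuationSubring Om}

theorem val_one_of_res_ne {u : w} (h : residue w u ≠ 0) : w.valuation (u : Om) = 1 := by
  rcases w.valuation_lt_one_or_eq_one u with h1 | h1
  · exfalso
    apply h
    rw [residue_eq_zero_iff, w.valuation_lt_one_iff]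
    exact h1
  · exact h1

theorem near_root_aux {δ : w.ValueGroup} (hδ : δ ≤ 1) (n : ℕ) (P : (w : Type)[X])
    (hP : P.map (residue w) ≠ 0) (hs : (P.map (algebraMap w Om)).Splits)
    (hn : P.natDegree ≤ n) (x : w)
    (hr : ∀ r ∈ (P.map (algebraMap w Om)).roots, δ ≤ w.valuation ((x : Om) - r)) :
    δ ^ n ≤ w.valuation ((P.eval x : w) : Om) := by
  induction n generalizing P with
  | zero =>
    have h0 : P.natDegree = 0 := by omega
    obtain ⟨u, rfl⟩ := natDegree_eq_zero.mp h0
    rw [Polynomial.map_C, Ne, C_eq_zero] at hP
    rw [eval_C, val_one_of_res_ne hP, pow_zero]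
  | succ n ih =>
    have hP0 : P ≠ 0 := by
      rintro rfl
      exact hP (Polynomial.map_zero _)
    have hPi : P.map (algebraMap w Om) ≠ 0 := (Polynomial.map_ne_zero_iff (inj_w w)).mpr hP0
    by_cases hd : P.natDegree = 0
    · obtain ⟨u, rfl⟩ := natDegree_eq_zero.mp hd
      rw [Polynomial.map_C, Ne, C_eq_zero] at hP
      rw [eval_C, val_one_of_res_ne hP]
      exact pow_le_one' hδ _
    · obtain ⟨r, hrr⟩ := hs.exists_eval_eq_zero (by
        rw [degree_map_eq_of_injective (inj_w w), degree_eq_natDegree hP0]
        exact_mod_cast hd)
      have hroot : r ∈ (P.map (algebraMap w Om)).roots := (mem_roots hPi).mpr hrr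
      by_cases hrw : r ∈ w
      · -- an integral root
        obtain ⟨P1, rfl⟩ : X - C (⟨r, hrw⟩ : w) ∣ P := by
          rw [dvd_iff_isRoot, IsRoot.def]
          apply inj_w w
          rw [map_zero]
          have e : (P.map (algebraMap w Om)).eval (algebraMap w Om ⟨r, hrw⟩) =
              algebraMap w Om (P.eval ⟨r, hrw⟩) := Polynomial.eval_map_apply _ _
          rw [← e]
          exact hrr
        have hP1 : P1 ≠ 0 := right_ne_zero_of_mul hP0
        have e1 : ((X - C (⟨r, hrw⟩ : w)) * P1).map (algebraMap w Om) =
            (X - C r) * P1.map (algebraMap w Om) := by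
          rw [Polynomial.map_mul, Polynomial.map_sub, Polynomial.map_X, Polynomial.map_C]
          rfl
        have h1 := ih P1 (by
            intro h0
            apply hP
            rw [Polynomial.map_mul, h0, mul_zero])
          (hs.of_dvd hPi (by rw [e1]; exact Dvd.intro_left _ rfl))
          (by
            rw [natDegree_mul (X_sub_C_ne_zero _) hP1, natDegree_X_sub_C] at hn
            omega)
          (fun r' hr' => hr r' (by
            rw [e1, roots_mul (by rw [← e1]; exact hPi)]
            exact Multiset.mem_add.mpr (Or.inr hr')))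
        rw [eval_mul, eval_sub, eval_X, eval_C]
        have e2 : (((x - ⟨r, hrw⟩) * P1.eval x : w) : Om) = ((x : Om) - r) * (P1.eval x : w) := rfl
        rw [e2, map_mul, pow_succ']
        exact mul_le_mul' (hr r hroot) h1
      · -- a root which is not integral
        obtain ⟨ε, hε, hεr⟩ : ∃ ε ∈ maximalIdeal w, algebraMap w Om ε * r = 1 := by
          rcases val_w w r with ⟨s, hs'⟩ | h
          · exfalso
            apply hrw
            rw [← hs']
            exact s.2
          · exact h
        obtain ⟨Q, hQ⟩ : X - C r ∣ P.map (algebraMap w Om) := dvd_iff_isRoot.mpr hrr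
        have hεr' : C (algebraMap w Om ε) * C r = (1 : Om[X]) := by rw [← C_mul, hεr, C_1]
        have e0 : (1 - C (algebraMap w Om ε) * X) * (-C r * Q) = P.map (algebraMap w Om) := by
          rw [hQ]
          linear_combination (X * Q) * hεr'
        obtain ⟨P1, hP1⟩ := lift_div (algebraMap w Om) e0
        have e1 : P = (1 - C ε * X) * P1 := by
          apply Polynomial.map_injective _ (inj_w w)
          rw [← e0, ← hP1]
          simp
        have hresε : residue w ε = 0 := (residue_eq_zero_iff ε).mpr hε
        have hres : P.map (residue w) = P1.map (residue w) := by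
          rw [e1, Polynomial.map_mul, Polynomial.map_sub, Polynomial.map_mul, Polynomial.map_C,
            hresε]
          simp
        have hP10 : P1 ≠ 0 := by
          rintro rfl
          exact hP0 (by rw [e1, mul_zero])
        have hdvd : P1.map (algebraMap w Om) ∣ P.map (algebraMap w Om) :=
          Polynomial.map_dvd _ ⟨_, by rw [mul_comm]; exact e1⟩
        have hdeg : P1.natDegree ≤ n := by
          have h3 := congrArg natDegree e0
          have hQ0 : Q ≠ 0 := by
            rintro rfl
            exact hPi (by rw [hQ, mul_zero])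
          have hr0 : r ≠ 0 := by
            rintro rfl
            exact hrw (zero_mem w)
          have h4 : (P.map (algebraMap w Om)).natDegree = 1 + Q.natDegree := by
            rw [hQ, natDegree_mul (X_sub_C_ne_zero r) hQ0, natDegree_X_sub_C]
          have h5 : (P1.map (algebraMap w Om)).natDegree = Q.natDegree := by
            rw [hP1, ← C_neg, natDegree_C_mul (neg_ne_zero.mpr hr0)]
          rw [natDegree_map_eq_of_injective (inj_w w)] at h4 h5
          omega
        have h1 := ih P1 (by rwa [← hres]) (hs.of_dvd hPi hdvd) hdeg (fun r' hr' => hr r' (by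
          exact Multiset.mem_of_le (roots.le_of_dvd hPi hdvd) hr'))
        have h2 : w.valuation ((P.eval x : w) : Om) = w.valuation ((P1.eval x : w) : Om) := by
          have e3 : P.eval x = (1 - ε * x) * P1.eval x := by
            conv_lhs => rw [e1]
            simp
          have e4 : w.valuation (((1 - ε * x : w)) : Om) = 1 := by
            apply val_one_of_res_ne
            rw [map_sub, map_mul, hresε, zero_mul, sub_zero, map_one]
            exact one_ne_zero
          rw [e3]
          have e5 : (((1 - ε * x) * P1.eval x : w) : Om) =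
              ((1 - ε * x : w) : Om) * (P1.eval x : w) := rfl
          rw [e5, map_mul, e4, one_mul]
        rw [h2]
        refine le_trans ?_ h1
        rw [pow_succ]
        exact mul_le_of_le_one_right' hδ

/-- **near a root** -/
theorem near_root {δ : w.ValueGroup} (hδ : δ ≤ 1) {n : ℕ} {P : (w : Type)[X]}
    (hP : P.map (residue w) ≠ 0) (hs : (P.map (algebraMap w Om)).Splits)
    (hn : P.natDegree ≤ n) {x : w} (hx : w.valuation ((P.eval x : w) : Om) < δ ^ n) :
    ∃ r ∈ (P.map (algebraMap w Om)).roots, w.valuation ((x : Om) - r) < δ := by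
  by_contra hc
  push Not at hc
  exact absurd (near_root_aux hδ n P hP hs hn x hc) (not_le.mpr hx)

/-- the set of sums of at most `m` elements of a finite set is finite -/
theorem finite_sums {M : Type*} [AddCommMonoid M] {T : Set M} (hT : T.Finite) (m : ℕ) :
    {x : M | ∃ s : Multiset M, s.card ≤ m ∧ (∀ y ∈ s, y ∈ T) ∧ x = s.sum}.Finite := by
  induction m with
  | zero =>
    refine (Set.finite_singleton (0 : M)).subset ?_
    rintro x ⟨s, hs, -, rfl⟩
    have h0 : s = 0 := Multiset.card_eq_zero.mp (by omega)
    rw [h0, Multiset.sum_zero]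
    rfl
  | succ m ih =>
    refine ((Set.Finite.image2 (fun a b => a + b) hT ih).union ih).subset ?_
    rintro x ⟨s, hs, hsT, rfl⟩
    induction s using Multiset.induction_on with
    | empty => exact Or.inr ⟨0, by simp, by simp, rfl⟩
    | cons a s _ =>
      left
      rw [Multiset.sum_cons]
      refine ⟨a, hsT a (Multiset.mem_cons_self _ _), s.sum, ⟨s, ?_, fun y hy => hsT y
        (Multiset.mem_cons_of_mem hy), rfl⟩, rfl⟩
      rw [Multiset.card_cons] at hs
      omega

end Pool.Agent.SmJ
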