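import Pool.Agent.Lib.SmJ.E.MumfC
import Pool.Agent.Lib.SmJ.E.BaseD

/-!
SMITH for Jacobians (MP_950c68_ag), blocks E2 and E3: two residually equal auxiliary divisors do not
differ by a point of order two.
-/

set_option autoImplicit false

open Polynomial IsLocalRing

namespace Pool.Agent.SmJ

open SmJE

section scale

variable {Om : Type} [Field Om] (w : ValuationSubring Om)

theorem val_w : Val (algebraMap w Om) := by
  intro x
  by_cases hx : x ∈ w
  · exact Or.inl ⟨⟨x, hx⟩, rfl⟩
  · right
    have hx' : x⁻¹ ∈ w := (w.mem_or_inv_mem x).resolve_left hx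
    have hx0 : x ≠ 0 := by
      rintro rfl
      exact hx (zero_mem w)
    refine ⟨⟨x⁻¹, hx'⟩, ?_, inv_mul_cancel₀ hx0⟩
    rw [w.valuation_lt_one_iff]
    have h1 : ¬ w.valuation x ≤ 1 := fun h => hx ((w.valuation_le_one_iff x).mp h)
    rw [map_inv₀]
    exact inv_lt_one_of_one_lt₀ (not_le.mp h1)

theorem inj_w : Function.Injective (algebraMap w Om) := IsFractionRing.injective w Om

/-- scaling two polynomials -/
theorem exists_scale (a b : Om[X]) (hab : a ≠ 0 ∨ b ≠ 0) : ∃ (s : Om) (a0 b0 : (w : Type)[X]),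
    s ≠ 0 ∧ a0.map (algebraMap w Om) = C s * a ∧ b0.map (algebraMap w Om) = C s * b ∧
      (a0.map (residue w) ≠ 0 ∨ b0.map (residue w) ≠ 0) := by
  classical
  set T : Finset Om := a.support.image a.coeff ∪ b.support.image b.coeff with hT
  have hTa : ∀ n ∈ a.support, a.coeff n ∈ T := fun n hn =>
    Finset.mem_union_left _ (Finset.mem_image_of_mem _ hn)
  have hTb : ∀ n ∈ b.support, b.coeff n ∈ T := fun n hn =>
    Finset.mem_union_right _ (Finset.mem_image_of_mem _ hn)
  have hne : T.Nonempty := by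
    rcases hab with h | h
    · obtain ⟨n, hn⟩ := Polynomial.nonempty_support_iff.mpr h
      exact ⟨_, hTa n hn⟩
    · obtain ⟨n, hn⟩ := Polynomial.nonempty_support_iff.mpr h
      exact ⟨_, hTb n hn⟩
  obtain ⟨x, hx, hmax⟩ := Finset.exists_max_image T w.valuation hne
  have hcase : (∃ n, a.coeff n = x ∧ x ≠ 0) ∨ (∃ n, b.coeff n = x ∧ x ≠ 0) := by
    rw [hT, Finset.mem_union, Finset.mem_image, Finset.mem_image] at hx
    rcases hx with ⟨n, hn, rfl⟩ | ⟨n, hn, rfl⟩
    · exact Or.inl ⟨n, rfl, Polynomial.mem_support_iff.mp hn⟩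
    · exact Or.inr ⟨n, rfl, Polynomial.mem_support_iff.mp hn⟩
  have hx0 : x ≠ 0 := by
    rcases hcase with ⟨n, -, h⟩ | ⟨n, -, h⟩ <;> exact h
  have hv0 : w.valuation x ≠ 0 := (w.valuation.ne_zero_iff).mpr hx0
  have key : ∀ y : Om, (y = 0 ∨ y ∈ T) → x⁻¹ * y ∈ w := by
    rintro y (rfl | hy)
    · rw [mul_zero]
      exact zero_mem w
    · rw [← w.valuation_le_one_iff, map_mul, map_inv₀]
      have := hmax y hy
      rw [inv_mul_le_iff₀ (zero_lt_iff.mpr hv0), mul_one]
      exact this
  have lift : ∀ p : Om[X], (∀ n, p.coeff n = 0 ∨ p.coeff n ∈ T) →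
      ∃ p0 : (w : Type)[X], p0.map (algebraMap w Om) = C x⁻¹ * p := by
    intro p hp
    have h1 : C x⁻¹ * p ∈ Polynomial.lifts (algebraMap w Om) := by
      rw [Polynomial.lifts_iff_coeff_lifts]
      intro n
      rw [coeff_C_mul]
      exact ⟨⟨x⁻¹ * p.coeff n, key _ (hp n)⟩, rfl⟩
    exact (Polynomial.mem_lifts _).mp h1
  obtain ⟨a0, ha0⟩ := lift a fun n => by
    by_cases h : n ∈ a.support
    · exact Or.inr (hTa n h)
    · exact Or.inl (Polynomial.notMem_support_iff.mp h)
  obtain ⟨b0, hb0⟩ := lift b fun n => by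
    by_cases h : n ∈ b.support
    · exact Or.inr (hTb n h)
    · exact Or.inl (Polynomial.notMem_support_iff.mp h)
  have hone : ∀ (p : Om[X]) (p0 : (w : Type)[X]) (n : ℕ), p0.map (algebraMap w Om) = C x⁻¹ * p →
      p.coeff n = x → p0.map (residue w) ≠ 0 := by
    intro p p0 n h hn h0
    have e1 : p0.coeff n = 1 := by
      apply inj_w w
      have e := congrArg (fun q => q.coeff n) h
      simp only [coeff_map, coeff_C_mul] at e
      rw [e, hn, inv_mul_cancel₀ hx0, map_one]
    have e2 := congrArg (fun q => q.coeff n) h0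
    simp only [coeff_map, coeff_zero, e1, map_one] at e2
    exact one_ne_zero e2
  refine ⟨x⁻¹, a0, b0, inv_ne_zero hx0, ha0, hb0, ?_⟩
  rcases hcase with ⟨n, hn, -⟩ | ⟨n, hn, -⟩
  · exact Or.inl (hone a a0 n ha0 hn)
  · exact Or.inr (hone b b0 n hb0 hn)

end scale

variable {Om : Type} [Field Om] {w : ValuationSubring Om}

theorem dvd_res {U P : (w : Type)[X]} (hU : U.Monic)
    (h : U.map (algebraMap w Om) ∣ P.map (algebraMap w Om)) :
    U.map (residue w) ∣ P.map (residue w) :=
  Polynomial.map_dvd _ ((Polynomial.map_dvd_map _ (inj_w w) hU).mp h)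

/-- **no point of order two** between two residually equal divisors -/
theorem no_two {f : (w : Type)[X]} [Hyp (f.map (algebraMap w Om))] {g : ℕ} (hfm : f.Monic)
    (hfd : f.natDegree = 2 * g + 1) (h2 : IsUnit (2 : w)) {U V W U1 V1 W1 : (w : Type)[X]}
    (h : Frm f U V W g) (h1 : Frm f U1 V1 W1 g) (hU : U1.map (residue w) = U.map (residue w))
    (hV : V1.map (residue w) = V.map (residue w))
    (hcop : IsCoprime (U.map (residue w)) (f.map (residue w))) {m : Om[X]} (hm : m.Monic)
    (hmf : m ∣ f.map (algebraMap w Om)) (hmd : 1 ≤ m.natDegree) (hmg : m.natDegree ≤ g) :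
    mcl (f.map (algebraMap w Om)) (U1.map (algebraMap w Om)) (V1.map (algebraMap w Om)) ≠
      mcl (f.map (algebraMap w Om)) (U.map (algebraMap w Om)) (V.map (algebraMap w Om)) +
        mcl (f.map (algebraMap w Om)) m 0 := by
  intro heq
  set i := algebraMap w Om with hi
  set F := f.map i with hF
  have hUm := h.monic.map i
  have hU1m := h1.monic.map i
  have d0 : U.map i ∣ F - (V.map i) ^ 2 := by
    refine ⟨W.map i, ?_⟩
    rw [hF, h.eq]
    simp
  have d1 : U1.map i ∣ F - (V1.map i) ^ 2 := by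
    refine ⟨W1.map i, ?_⟩
    rw [hF]
    conv_lhs => rw [h1.eq]
    simp
  have d1n : U1.map i ∣ F - (-V1.map i) ^ 2 := by rwa [neg_sq]
  have dm : m ∣ F - (0 : Om[X]) ^ 2 := by
    rw [zero_pow two_ne_zero, sub_zero]
    exact hmf
  have hsum : mcl F (U.map i) (V.map i) + mcl F m 0 + mcl F (U1.map i) (-V1.map i) = 0 := by
    rw [mcl_neg hU1m.ne_zero d1, heq]
    abel
  obtain ⟨a, b, hab, a1, a2, a3, hN⟩ := crit3 hUm.ne_zero hm.ne_zero hU1m.ne_zero d0 dm d1n hsum
  rw [mul_zero, add_zero] at a2
  -- degrees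
  have hdeg : (a ^ 2 - F * b ^ 2).natDegree = 2 * g + m.natDegree := by
    rw [← natDegree_eq_of_degree_eq (degree_eq_degree_of_associated hN),
      (hUm.mul hm).natDegree_mul hU1m, hUm.natDegree_mul hm, h.monic.natDegree_map,
      h1.monic.natDegree_map, h.deg, h1.deg]
    ring
  have hFd : F.natDegree = 2 * g + 1 := by rw [hF, hfm.natDegree_map, hfd]
  have hdegab : 2 * a.natDegree ≤ 2 * g + m.natDegree ∧ (b ≠ 0 → 2 * b.natDegree + 1 ≤
      m.natDegree) := by
    by_cases hb : b = 0
    · refine ⟨?_, fun h0 => absurd hb h0⟩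
      rw [hb, zero_pow two_ne_zero, mul_zero, sub_zero, natDegree_pow] at hdeg
      omega
    · have e := natDegree_norm (⟨a, b⟩ : Co F) hb
      rw [norm_eq] at e
      change (a ^ 2 - F * b ^ 2).natDegree = max (2 * a.natDegree) (2 * b.natDegree + _) at e
      rw [hdeg, hFd] at e
      exact ⟨by omega, fun _ => by omega⟩
  -- scaling
  obtain ⟨s, a0, b0, hs, ha0, hb0, hne⟩ := exists_scale w a b hab
  have q1 : U.map (residue w) ∣ (a0 + b0 * V).map (residue w) := by
    apply dvd_res h.monic
    rw [Polynomial.map_add, Polynomial.map_mul, ha0, hb0]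
    have e : C s * a + C s * b * V.map i = C s * (a + b * V.map i) := by ring
    rw [e]
    exact a1.mul_left _
  have q2 : U1.map (residue w) ∣ (a0 - b0 * V1).map (residue w) := by
    apply dvd_res h1.monic
    rw [Polynomial.map_sub, Polynomial.map_mul, ha0, hb0]
    have e : C s * a - C s * b * V1.map i = C s * (a + b * -V1.map i) := by ring
    rw [e]
    exact a3.mul_left _
  rw [Polynomial.map_add, Polynomial.map_mul] at q1
  rw [Polynomial.map_sub, Polynomial.map_mul, hU, hV] at q2
  set Ub := U.map (residue w) with hUb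
  set Vb := V.map (residue w) with hVb
  set ab := a0.map (residue w) with hab'
  set bb := b0.map (residue w) with hbb'
  have hUbm : Ub.Monic := h.monic.map _
  have hUbd : Ub.natDegree = g := by rw [hUb, h.monic.natDegree_map, h.deg]
  have hfb : f.map (residue w) = Vb ^ 2 + Ub * W.map (residue w) := by
    rw [h.eq]
    simp [hVb, hUb]
  have hcopV : IsCoprime Ub Vb := by
    rw [hfb] at hcop
    have h3 : IsCoprime Ub (Vb ^ 2) := by
      have h4 := hcop.add_mul_left_right (-(W.map (residue w)))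
      have e : Vb ^ 2 + Ub * W.map (residue w) + Ub * -(W.map (residue w)) = Vb ^ 2 := by ring
      rwa [e] at h4
    exact (IsCoprime.pow_right_iff two_pos).mp h3
  -- the second component vanishes
  have h2b : IsUnit (2 : (ResidueField w)[X]) := by
    have h5 : IsUnit (2 : ResidueField w) := by
      have := h2.map (residue w)
      rwa [map_ofNat] at this
    rw [two_eq]
    exact Polynomial.isUnit_C.mpr h5
  have q3 : Ub ∣ bb := by
    have e : Ub ∣ (2 * bb) * Vb := by
      have e1 : (2 * bb) * Vb = (ab + bb * Vb) - (ab - bb * Vb) := by ring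
      rw [e1]
      exact dvd_sub q1 q2
    have e2 : Ub ∣ 2 * bb := hcopV.dvd_of_dvd_mul_right e
    exact (h2b.dvd_mul_left).mp e2
  have hb0d : b0.natDegree = b.natDegree := by
    have e := congrArg natDegree hb0
    rwa [natDegree_map_eq_of_injective (inj_w w), natDegree_C_mul hs] at e
  have ha0d : a0.natDegree = a.natDegree := by
    have e := congrArg natDegree ha0
    rwa [natDegree_map_eq_of_injective (inj_w w), natDegree_C_mul hs] at e
  have hbb : bb = 0 := by
    by_contra hc
    have e1 := natDegree_le_of_dvd q3 hc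
    have e2 : bb.natDegree ≤ b0.natDegree := natDegree_map_le
    have e3 : b ≠ 0 := by
      rintro rfl
      rw [mul_zero] at hb0
      have : b0 = 0 := (Polynomial.map_eq_zero_iff (inj_w w)).mp hb0
      apply hc
      rw [hbb', this, Polynomial.map_zero]
    have e4 := hdegab.2 e3
    rw [hUbd] at e1
    omega
  -- the first component vanishes
  have q4 : Ub ∣ ab := by
    rw [hbb, zero_mul, add_zero] at q1
    exact q1
  obtain ⟨m0, hm0⟩ := IsIntegrallyClosed.eq_map_mul_C_of_dvd Om hfm (g := m) hmf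
  rw [hm.leadingCoeff, C_1, mul_one] at hm0
  have hm0m : m0.Monic := Polynomial.monic_of_injective (inj_w w) (by rw [hm0]; exact hm)
  have q5 : m0.map (residue w) ∣ ab := by
    apply dvd_res hm0m
    rw [hm0, ha0]
    exact a2.mul_left _
  have q6 : m0.map (residue w) ∣ f.map (residue w) := by
    apply dvd_res hm0m
    rw [hm0]
    exact hmf
  have hcopm : IsCoprime Ub (m0.map (residue w)) := by
    obtain ⟨q, hq⟩ := q6
    rw [hq] at hcop
    exact hcop.of_mul_right_left
  have q7 : Ub * m0.map (residue w) ∣ ab := hcopm.mul_dvd q4 q5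
  have hm0d : (m0.map (residue w)).natDegree = m.natDegree := by
    rw [hm0m.natDegree_map, ← hm0, hm0m.natDegree_map]
  have hab0 : ab = 0 := by
    by_contra hc
    have e1 := natDegree_le_of_dvd q7 hc
    have e2 : ab.natDegree ≤ a0.natDegree := natDegree_map_le
    rw [hUbm.natDegree_mul (hm0m.map _), hUbd, hm0d] at e1
    have e4 := hdegab.1
    omega
  rcases hne with h0 | h0
  · exact h0 hab0
  · exact h0 hbb

end Pool.Agent.SmJ
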