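import Pool.Agent.Lib.SmJ.E.MumfC
import Pool.Agent.Lib.SmJ.E.Chain

/-!
SMITH for Jacobians (MP_950c68_ag), block E: the moving lemma: the class of `(U, y - V)` is the class
of `(G, y - B)` with `G = D + 2 l V - l ^ 2 U` separable, for all but finitely many `l`
(`f = V ^ 2 + U D`); over a separably closed field every class is a sum of classes of points.
-/

set_option autoImplicit false

open Polynomial

namespace Pool.Agent.SmJ

variable {Om : Type} [Field Om]

/-- the moved first entry -/
noncomputable def mv (U V D : Om[X]) (l : Om) : Om[X] := D + 2 * C l * V - C l ^ 2 * U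

section move

variable {f : Om[X]} [Hyp f]

theorem mv_eq {U V D : Om[X]} (h : f = V ^ 2 + U * D) (l : Om) :
    f = (V - C l * U) ^ 2 + U * mv U V D l := by
  rw [mv]
  linear_combination h

/-- the class of the moved ideal -/
theorem mcl_mv {U V D : Om[X]} (h : f = V ^ 2 + U * D) (hU : U ≠ 0) {l : Om}
    (hG : mv U V D l ≠ 0) : mcl f (mv U V D l) (C l * U - V) = mcl f U V := by
  have e := mv_eq h l
  have e1 := (mumf f).flip hU hG e
  rw [mumf_cl, mumf_cl] at e1
  have e2 : mcl f U (V + U * (-C l)) = mcl f U V :=
    (mumf f).shift (-C l) hU ⟨D, by linear_combination h⟩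
  have e3 : V + U * (-C l) = V - C l * U := by ring
  rw [e3] at e2
  have e4 : mcl f (mv U V D l) (-(V - C l * U)) = - mcl f (mv U V D l) (V - C l * U) :=
    mcl_neg hG ⟨U, by linear_combination e⟩
  have e5 : -(V - C l * U) = C l * U - V := by ring
  rw [e5] at e4
  rw [e4, ← e2]
  exact (eq_neg_of_add_eq_zero_left e1).symm

/-- **the moving lemma** -/
theorem finite_bad {U V D : Om[X]} (h : f = V ^ 2 + U * D) (hU : U ≠ 0)
    (hUf : U.natDegree < f.natDegree) : {l : Om | ¬ (mv U V D l).Separable}.Finite := by
  classical
  set Ac := AlgebraicClosure Om with hAc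
  -- the eliminant
  set P : Om[X] := 2 * f * derivative U - derivative f * U with hP
  set R : Om[X] := derivative V * U - V * derivative U with hR
  set E : Om[X] := P ^ 2 - f * (2 * R) ^ 2 with hE
  have hsep : IsCoprime f (derivative f) := Hyp.sep
  have hP0 : P ≠ 0 := by
    intro h0
    have h1 : f ∣ derivative f * U := ⟨2 * derivative U, by linear_combination -h0 + hP⟩
    have h2 : f ∣ U := hsep.dvd_of_dvd_mul_left h1
    exact absurd (natDegree_le_of_dvd h2 hU) (not_le.mpr hUf)
  have hE0 : E ≠ 0 := by
    intro h0
    have h1 : P ^ 2 = f * (2 * R) ^ 2 := by linear_combination h0 + hE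
    have h2 := Ded_parity f h1
    rw [h2, zero_pow two_ne_zero, mul_zero] at h1
    exact hP0 (pow_eq_zero_iff two_ne_zero |>.mp h1)
  have hUE : U * E ≠ 0 := mul_ne_zero hU hE0
  -- the quadratic at a point of the algebraic closure
  set q : Ac → Ac[X] := fun t => C (aeval t D) + C (2 * aeval t V) * X - C (aeval t U) * X ^ 2
    with hq
  have hq0 : ∀ t, q t ≠ 0 := by
    intro t h0
    have c0 := congrArg (fun p => p.coeff 0) h0
    have c1 := congrArg (fun p => p.coeff 1) h0
    have c2 := congrArg (fun p => p.coeff 2) h0
    simp only [hq, coeff_sub, coeff_add, coeff_C_mul, coeff_X_pow, coeff_C_zero, coeff_zero,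
      coeff_X_zero, mul_zero, add_zero] at c0
    simp only [hq, coeff_sub, coeff_add, coeff_C_mul, coeff_X_pow, coeff_C, coeff_zero,
      coeff_X_one] at c1
    simp only [hq, coeff_sub, coeff_add, coeff_C_mul, coeff_X_pow, coeff_C, coeff_zero,
      coeff_X] at c2
    have h2 : (2 : Ac) ≠ 0 := by
      have h3 := Hyp.two f
      have h4 : (2 : Ac) = algebraMap Om Ac 2 := (map_ofNat _ 2).symm
      rw [h4]
      intro h5
      exact h3 ((map_eq_zero_iff _ (algebraMap Om Ac).injective).mp h5)
    have hV0 : aeval t V = 0 := by
      have : (2 : Ac) * aeval t V = 0 := by simpa using c1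
      exact (mul_eq_zero.mp this).resolve_left h2
    have hU0 : aeval t U = 0 := by simpa using c2
    have hD0 : aeval t D = 0 := by simpa using c0
    have hf0 : aeval t f = 0 := by
      rw [h, map_add, map_pow, map_mul, hV0, hU0]
      ring
    have hf1 : aeval t (derivative f) = 0 := by
      rw [h, derivative_add, derivative_mul, derivative_pow, map_add, map_add, map_mul, map_mul,
        map_mul, map_mul, hU0, hD0]
      simp [hV0]
    rcases (isCoprime_iff_aeval_ne_zero_of_isAlgClosed Om Ac f (derivative f)).mp hsep t with h5 |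
      h5
    · exact h5 hf0
    · exact h5 hf1
  have hfin : (⋃ t ∈ ((U * E).rootSet Ac), {l : Om | (q t).eval (algebraMap Om Ac l) = 0}).Finite
      := by
    refine Set.Finite.biUnion ((U * E).rootSet_finite Ac) fun t _ => ?_
    have h1 : ((q t).rootSet Ac).Finite := (q t).rootSet_finite Ac
    refine Set.Finite.subset (h1.preimage ((algebraMap Om Ac).injective.injOn)) ?_
    intro l hl
    rw [Set.mem_preimage, Polynomial.mem_rootSet]
    refine ⟨hq0 t, ?_⟩
    rw [Polynomial.coe_aeval_eq_eval]
    exact hl
  refine hfin.subset fun l hl => ?_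
  rw [Set.mem_setOf_eq, Polynomial.Separable,
    isCoprime_iff_aeval_ne_zero_of_isAlgClosed Om Ac] at hl
  push Not at hl
  obtain ⟨t, ht1, ht2⟩ := hl
  rw [Set.mem_iUnion₂]
  have hl1 : aeval t D + 2 * algebraMap Om Ac l * aeval t V -
      (algebraMap Om Ac l) ^ 2 * aeval t U = 0 := by
    rw [mv] at ht1
    simpa only [map_sub, map_add, map_mul, map_pow, aeval_C, map_ofNat] using ht1
  have hl2 : aeval t (derivative D) + 2 * algebraMap Om Ac l * aeval t (derivative V) -
      (algebraMap Om Ac l) ^ 2 * aeval t (derivative U) = 0 := by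
    have e : derivative (mv U V D l) = derivative D + 2 * C l * derivative V -
        C l ^ 2 * derivative U := by
      have e1 : mv U V D l = D + C (2 * l) * V - C (l ^ 2) * U := by
        rw [mv, C_mul, C_pow, Pool.Agent.SmJE.two_eq]
      rw [e1, derivative_sub, derivative_add, derivative_C_mul, derivative_C_mul, C_mul, C_pow,
        ← Pool.Agent.SmJE.two_eq]
    rw [e] at ht2
    simpa only [map_sub, map_add, map_mul, map_pow, aeval_C, map_ofNat] using ht2
  refine ⟨t, ?_, ?_⟩
  · rw [Polynomial.mem_rootSet]
    refine ⟨hUE, ?_⟩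
    have hf0 : aeval t f = aeval t V ^ 2 + aeval t U * aeval t D := by
      conv_lhs => rw [h]
      simp
    have hf1 : aeval t (derivative f) = 2 * aeval t V * aeval t (derivative V) +
        aeval t (derivative U) * aeval t D + aeval t U * aeval t (derivative D) := by
      have e : f = V * V + U * D := by rw [← sq]; exact h
      conv_lhs => rw [e]
      rw [derivative_add, derivative_mul, derivative_mul, map_add, map_add, map_add, map_mul,
        map_mul, map_mul, map_mul]
      ring
    rw [map_mul, hE, hP, hR]
    simp only [map_sub, map_mul, map_pow, map_ofNat]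
    rw [hf0, hf1]
    set u := aeval t U
    set v := aeval t V
    set d := aeval t D
    set u' := aeval t (derivative U)
    set v' := aeval t (derivative V)
    set d' := aeval t (derivative D)
    set x := algebraMap Om Ac l
    have hd : d = x ^ 2 * u - 2 * x * v := by linear_combination hl1
    have hd' : d' = x ^ 2 * u' - 2 * x * v' := by linear_combination hl2
    rw [hd, hd']
    ring
  · change (q t).eval (algebraMap Om Ac l) = 0
    simp only [hq, eval_sub, eval_add, eval_mul, eval_C, eval_X, eval_pow]
    linear_combination hl1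

end move

end Pool.Agent.SmJ
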